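import Pool.Agent.Lib.MP_adc574_ag_CM.LatA
import Pool.Agent.Lib.MP_adc574_ag_Cov.Birk

/-!
# Bka: simultaneous eigenvectors

`Γ` is a set of commuting automorphisms of the field `L` over `k(x)` with `σ ^ m₀ = 1`, `ζ ∈ k` a primitive `m₀`-th root of unity, `k` algebraically closed of characteristic 0. `k` acts on `L` through the constants: `c • z = pol (C c) • z`.
* JOB BkaA (`eig_one`, `eig_span`): - `eig_one`: `V` a `k`-vector space, `T : V →ₗ[k] V` with `T ^ m₀ = 1`, `U` a subspace with `T U ⊆ U`. Every `z ∈ U` is `∑_{j : ZMod m₀} z_j` with `z_j ∈ U`, `T z_j = ζ ^ j.val • z_j` and `z_j = (1 / m₀) ∑_{t < m₀} ζ ^ (-j t) • T ^ t z` (so every linear `S` which commutes with `T` and has `S z = c • z` satisfies `S z_j = c • z_j`).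
    (`∑_j ζ ^ (-j t) = 0` for `0 < t < m₀`: `IsPrimitiveRoot.geom_sum_eq_zero`-type; use `j : Fin m₀` or `Finset.range m₀` and the sum `∑_{j < m₀} (ζ ^ t)⁻¹ ^ j = 0` as `(ζ ^ t)⁻¹ ≠ 1` is an `m₀`-th root of 1.)
  - `eig_span`: `T : ι → (V →ₗ[k] V)`, `ι` finite, commuting, `T i ^ m₀ = 1`, `T i U ⊆ U`: `U` is spanned by the simultaneous eigenvectors in `U`. Induction on a finset `s : Finset ι`: `U ≤ span {z ∈ U | ∀ i ∈ s, ∃ j, T i z = ζ ^ j.val • z}`; step: apply `eig_one` for `T i₁` to each `z` of the spanning set: its components `z_j` are in `U`, eigenvectors of `T i₁`, and still eigenvectors of the `T i`, `i ∈ s`.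
* JOB BkaB (`aut_finite`): the set of all automorphisms `L ≃ₐ[K] L` is finite for a finite dimensional field extension (Mathlib: `AlgEquiv.fintype`/`Finite (L ≃ₐ[K] L)`), so `Γ` is finite.
* JOB BkaC (`basis_of_span`): `I` finite, `λ : U → (I → k)`: if the vectors `λ z`, `z ∈ S`, span `I → k`, then there is `g : I → V`, `g i ∈ S`, such that the matrix `(λ (g i) j)_ij` is invertible. (`exists_linearIndependent k (λ '' S)`: a basis `b ⊆ λ '' S` of `I → k`, `card b = card I` (`finrank`), so `b ≃ I`; linearly independent rows give `det ≠ 0`: `Matrix.linearIndependent_rows_iff_isUnit`.)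
-/

set_option autoImplicit false

namespace MPadcCM

open Polynomial MPadcCov

private theorem bkaa_sum {M : Type*} [AddCommMonoid M] (m : ℕ) [NeZero m] (f : ℕ → M) :
    ∑ j : ZMod m, f j.val = ∑ i ∈ Finset.range m, f i := by
  refine Finset.sum_bij (fun j _ => j.val) (fun j _ => Finset.mem_range.2 (ZMod.val_lt j))
    (fun a _ b _ h => ZMod.val_injective m h)
    (fun b hb => ⟨(b : ZMod m), Finset.mem_univ _, ZMod.val_cast_of_lt (Finset.mem_range.1 hb)⟩)
    (fun _ _ => rfl)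

private theorem bkaa_geom {k : Type*} [Field k] (m : ℕ) (ω : k) (h1 : ω ^ m = 1) (h2 : ω ≠ 1) :
    ∑ i ∈ Finset.range m, ω ^ i = 0 := by
  have h := geom_sum_mul ω m
  rw [h1, sub_self] at h
  rcases mul_eq_zero.1 h with h | h
  · exact h
  · exact absurd (sub_eq_zero.1 h) h2

private theorem bkaa_inv {k : Type*} [Field k] (m : ℕ) (ζ : k) (hζ : IsPrimitiveRoot ζ m)
    (t : ℕ) (ht : 0 < t) (htm : t < m) :
    ∑ i ∈ Finset.range m, (ζ ^ (i * t))⁻¹ = 0 := by
  have hω : ((ζ ^ t)⁻¹) ^ m = 1 := by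
    rw [inv_pow, ← pow_mul, mul_comm, pow_mul, hζ.pow_eq_one, one_pow, inv_one]
  have hω1 : (ζ ^ t)⁻¹ ≠ 1 := by
    intro h
    have h' : ζ ^ t = 1 := by
      have := inv_eq_one.1 h
      exact this
    exact absurd (Nat.le_of_dvd ht (hζ.dvd_of_pow_eq_one t h')) (not_le.2 htm)
  rw [← bkaa_geom m _ hω hω1]
  refine Finset.sum_congr rfl fun i _ => ?_
  rw [inv_pow, ← pow_mul, mul_comm]

theorem eig_one {k V : Type*} [Field k] [CharZero k] [AddCommGroup V] [Module k V] (m₀ : ℕ)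
    [NeZero m₀] (ζ : k) (hζ : IsPrimitiveRoot ζ m₀) (T : V →ₗ[k] V) (hT : T ^ m₀ = 1)
    (U : Submodule k V) (hU : ∀ z ∈ U, T z ∈ U) (z : V) (hz : z ∈ U) :
    ∃ y : ZMod m₀ → V, z = ∑ j, y j ∧ (∀ j, y j ∈ U) ∧ (∀ j, T (y j) = ζ ^ j.val • y j) ∧
      ∀ (S : V →ₗ[k] V) (c : k), S * T = T * S → S z = c • z → ∀ j, S (y j) = c • y j := by
  have hζ0 : ζ ≠ 0 := hζ.ne_zero (NeZero.ne m₀)
  have hm : (m₀ : k) ≠ 0 := Nat.cast_ne_zero.2 (NeZero.ne m₀)
  refine ⟨fun j => (m₀ : k)⁻¹ • ∑ t ∈ Finset.range m₀, (ζ ^ (j.val * t))⁻¹ • (T ^ t) z,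
    ?_, ?_, ?_, ?_⟩
  · rw [← Finset.smul_sum, Finset.sum_comm]
    have h1 : ∑ t ∈ Finset.range m₀, ∑ j : ZMod m₀, (ζ ^ (j.val * t))⁻¹ • (T ^ t) z =
        (m₀ : k) • z := by
      rw [Finset.sum_eq_single_of_mem 0 (Finset.mem_range.2 (NeZero.pos m₀))]
      · simp only [mul_zero, pow_zero, inv_one, one_smul, Module.End.one_apply]
        rw [Finset.sum_const, Finset.card_univ, ZMod.card, Nat.cast_smul_eq_nsmul]
      · intro t ht ht0
        rw [← Finset.sum_smul, bkaa_sum m₀ (fun i => (ζ ^ (i * t))⁻¹),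
          bkaa_inv m₀ ζ hζ t (Nat.pos_of_ne_zero ht0) (Finset.mem_range.1 ht), zero_smul]
    rw [h1, smul_smul, inv_mul_cancel₀ hm, one_smul]
  · intro j
    have hp : ∀ t, (T ^ t) z ∈ U := by
      intro t
      induction t with
      | zero => exact hz
      | succ t ih =>
        rw [pow_succ', Module.End.mul_apply]
        exact hU _ ih
    exact U.smul_mem _ (U.sum_mem fun t _ => U.smul_mem _ (hp t))
  · intro j
    have h2 : ∀ t, T ((ζ ^ (j.val * t))⁻¹ • (T ^ t) z) =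
        ζ ^ j.val • ((ζ ^ (j.val * (t + 1)))⁻¹ • (T ^ (t + 1)) z) := by
      intro t
      have hz1 : ζ ^ j.val ≠ 0 := pow_ne_zero _ hζ0
      have e1 : ζ ^ j.val * (ζ ^ (j.val * (t + 1)))⁻¹ = (ζ ^ (j.val * t))⁻¹ := by
        rw [mul_add, mul_one, pow_add, mul_inv_rev, ← mul_assoc, mul_inv_cancel₀ hz1, one_mul]
      rw [map_smul, smul_smul, e1, pow_succ' T t, Module.End.mul_apply]
    have h3 : ∑ t ∈ Finset.range m₀, (ζ ^ (j.val * (t + 1)))⁻¹ • (T ^ (t + 1)) z =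
        ∑ t ∈ Finset.range m₀, (ζ ^ (j.val * t))⁻¹ • (T ^ t) z := by
      have h4 := Finset.sum_range_succ' (fun t => (ζ ^ (j.val * t))⁻¹ • (T ^ t) z) m₀
      rw [Finset.sum_range_succ (fun t => (ζ ^ (j.val * t))⁻¹ • (T ^ t) z) m₀] at h4
      have h5 : (ζ ^ (j.val * m₀))⁻¹ • (T ^ m₀) z = (ζ ^ (j.val * 0))⁻¹ • (T ^ 0) z := by
        rw [hT, mul_comm, pow_mul, hζ.pow_eq_one, one_pow, mul_zero, pow_zero, pow_zero]
      rw [h5] at h4
      exact (add_right_cancel h4).symm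
    show T ((m₀ : k)⁻¹ • ∑ t ∈ Finset.range m₀, (ζ ^ (j.val * t))⁻¹ • (T ^ t) z) =
      ζ ^ j.val • ((m₀ : k)⁻¹ • ∑ t ∈ Finset.range m₀, (ζ ^ (j.val * t))⁻¹ • (T ^ t) z)
    rw [map_smul, map_sum, Finset.sum_congr rfl fun t _ => h2 t, ← Finset.smul_sum, h3,
      smul_comm]
  · intro S c hS hSz j
    have h6 : ∀ t, S ((T ^ t) z) = c • (T ^ t) z := by
      intro t
      have hc : S * T ^ t = T ^ t * S := (show Commute S T from hS).pow_right t
      rw [← Module.End.mul_apply, hc, Module.End.mul_apply, hSz, map_smul]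
    show S ((m₀ : k)⁻¹ • ∑ t ∈ Finset.range m₀, (ζ ^ (j.val * t))⁻¹ • (T ^ t) z) =
      c • ((m₀ : k)⁻¹ • ∑ t ∈ Finset.range m₀, (ζ ^ (j.val * t))⁻¹ • (T ^ t) z)
    have h7 : ∑ t ∈ Finset.range m₀, S ((ζ ^ (j.val * t))⁻¹ • (T ^ t) z) =
        c • ∑ t ∈ Finset.range m₀, (ζ ^ (j.val * t))⁻¹ • (T ^ t) z := by
      rw [Finset.smul_sum]
      refine Finset.sum_congr rfl fun t _ => ?_
      rw [map_smul, h6, smul_comm]
    rw [map_smul, map_sum, h7, smul_comm]

private theorem bkaa_span {k V : Type*} [Field k] [CharZero k] [AddCommGroup V] [Module k V]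
    (m₀ : ℕ) [NeZero m₀] (ζ : k) (hζ : IsPrimitiveRoot ζ m₀) {ι : Type*}
    (T : ι → (V →ₗ[k] V))
    (hc : ∀ i j, T i * T j = T j * T i) (hT : ∀ i, T i ^ m₀ = 1)
    (U : Submodule k V) (hU : ∀ i, ∀ z ∈ U, T i z ∈ U) (s : Finset ι) :
    U ≤ Submodule.span k {z | z ∈ U ∧ ∀ i ∈ s, ∃ j : ZMod m₀, T i z = ζ ^ j.val • z} := by
  classical
  induction s using Finset.induction_on with
  | empty =>
    intro z hz
    exact Submodule.subset_span ⟨hz, fun i hi => absurd hi (Finset.notMem_empty i)⟩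
  | insert a s _ ih =>
    refine ih.trans (Submodule.span_le.2 ?_)
    rintro w ⟨hwU, hws⟩
    obtain ⟨y, hy, hyU, hyT, hyS⟩ := eig_one m₀ ζ hζ (T a) (hT a) U (hU a) w hwU
    rw [SetLike.mem_coe, hy]
    refine Submodule.sum_mem _ fun j _ => Submodule.subset_span ⟨hyU j, fun i hi => ?_⟩
    rcases Finset.mem_insert.1 hi with h | h
    · rw [h]
      exact ⟨j, hyT j⟩
    · obtain ⟨j', hj'⟩ := hws i h
      exact ⟨j', hyS (T i) _ (hc i a) hj' j⟩

theorem eig_span {k V : Type*} [Field k] [CharZero k] [AddCommGroup V] [Module k V] (m₀ : ℕ)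
    [NeZero m₀] (ζ : k) (hζ : IsPrimitiveRoot ζ m₀) {ι : Type*} [Finite ι] (T : ι → (V →ₗ[k] V))
    (hc : ∀ i j, T i * T j = T j * T i) (hT : ∀ i, T i ^ m₀ = 1)
    (U : Submodule k V) (hU : ∀ i, ∀ z ∈ U, T i z ∈ U) :
    U = Submodule.span k {z | z ∈ U ∧ ∀ i, ∃ j : ZMod m₀, T i z = ζ ^ j.val • z} := by
  have : Fintype ι := Fintype.ofFinite ι
  refine le_antisymm ((bkaa_span m₀ ζ hζ T hc hT U hU Finset.univ).trans
    (Submodule.span_mono ?_)) (Submodule.span_le.2 fun z hz => hz.1)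
  rintro z ⟨hz, h⟩
  exact ⟨hz, fun i => h i (Finset.mem_univ i)⟩

theorem aut_finite {K L : Type*} [Field K] [Field L] [Algebra K L] [FiniteDimensional K L]
    (Γ : Set (L ≃ₐ[K] L)) : Finite Γ := by
  have : Finite (L ≃ₐ[K] L) := inferInstance
  exact inferInstance

theorem basis_of_span {k V I : Type*} [Field k] [AddCommGroup V] [Module k V] [Fintype I]
    [DecidableEq I] (lam : V →ₗ[k] (I → k)) (S : Set V)
    (h : ⊤ ≤ Submodule.span k (lam '' S)) :
    ∃ g : I → V, (∀ i, g i ∈ S) ∧ (Matrix.of fun i j => lam (g i) j).det ≠ 0 := by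
  obtain ⟨b, hb, hspan, hli⟩ := exists_linearIndependent k (lam '' S)
  have htop : ⊤ ≤ Submodule.span k (Set.range ((↑) : b → (I → k))) := by
    rw [Subtype.range_coe, hspan]
    exact h
  let B : Module.Basis b k (I → k) := Module.Basis.mk hli htop
  let φ : I ≃ b := (Pi.basisFun k I).indexEquiv B
  choose v hv hlv using fun i : I => hb (φ i).2
  refine ⟨v, hv, ?_⟩
  have hrow : LinearIndependent k (fun i : I => ((φ i : b) : I → k)) :=
    hli.comp φ φ.injective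
  have hM : (Matrix.of fun i j => lam (v i) j) = Matrix.of fun i : I => ((φ i : b) : I → k) := by
    ext i j
    rw [Matrix.of_apply, Matrix.of_apply, hlv i]
  rw [hM]
  have h1 : IsUnit (Matrix.of fun i : I => ((φ i : b) : I → k)) := by
    rw [← Matrix.linearIndependent_rows_iff_isUnit]
    exact hrow
  rw [Matrix.isUnit_iff_isUnit_det] at h1
  exact h1.ne_zero

end MPadcCM
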