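import Pool.Agent.Lib.MP_adc574_ag_CM.LatA
import Pool.Agent.Lib.MP_adc574_ag_Cov.Birk

/-!
# Bkb: change of a Birkhoff basis

`e` basis of `L` over `k(x)`, degrees `a`. `p i j : k[X]` with `p i j = 0` if `a i < a j`, `natDegree (p i j) ≤ a i - a j`, and for every `q` the block `(p i j)_{a i = a j = q}` (constants) has nonzero determinant. Then `g i := ∑ j, pol (p i j) • e j` is a basis, and the lattices `InB`, `InCi` are the same for `e` and `g`.
* JOB BkbA (`det_block`): `P = Matrix.of p` satisfies `BlockTriangular` for `b = a` or `b = OrderDual.toDual ∘ a` (look at the convention of `Matrix.BlockTriangular M b : ∀ i j, b j < b i → M i j = 0`), `Matrix.BlockTriangular.det`: `det P = ∏_q det (P.toSquareBlock a q)`; the entries of the blocks are constants `C (coeff 0)`, so the determinants of the blocks are `C` of nonzero constants (`RingHom.map_det`). So `det P = C c`, `c ≠ 0`.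
* JOB BkbB (`exists_new_basis`): `P.map pol` is invertible over `RatFunc k`, so `g` is a basis (`Module.Basis.mk`/`e.toMatrix`, `Basis.ofIsUnitDet`-type; or construct from the linear equivalence `Matrix.toLin'` of the transposed matrix: `Module.Basis.map`/`Matrix.GeneralLinearGroup`; `basis_toMatrix..`). If `z = ∑ w i • g i` then `e.repr z j = ∑ i, w i * pol (p i j)`; conversely `w = P⁻¹`-transposed of the coordinates, and `P⁻¹ = c⁻¹ adjugate P` has polynomial entries: `InB` agrees. With `Q i j := X ^ (a j - a i) * pol (p i j)`, degree `≤ 0`: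
  `X ^ (a j) * e.repr z j = ∑ i, (X ^ (a i) * w i) * Q i j`, `det Q = det P` (`Q = diagonal (X ^ (-a)) * P * diagonal (X ^ a)`), so `Q⁻¹ = c⁻¹ adjugate Q` has entries of degree `≤ 0` (entries of an adjugate are polynomials in the entries: sums and products: `dle_sum`, `dle_mul`; `Matrix.adjugate_apply`, `Matrix.det_apply`, or use that `Oinf k` is a subring (`Cov/RegK.lean`): lift the matrix to `Oinf k`, `RingHom.map_adjugate`): `InCi` agrees.
-/

set_option autoImplicit false

namespace MPadcCM

open Polynomial MPadcCov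

theorem det_block {k : Type*} [Field k] {n : ℕ} (a : Fin n → ℕ) (p : Fin n → Fin n → k[X])
    (h0 : ∀ i j, a i < a j → p i j = 0) (hdeg : ∀ i j, a j ≤ a i → (p i j).natDegree ≤ a i - a j)
    (hdet : ∀ q, (Matrix.of fun i j : {i : Fin n // a i = q} => (p i j).coeff 0).det ≠ 0) :
    ∃ c : k, c ≠ 0 ∧ (Matrix.of p).det = C c := by
  have hT : Matrix.BlockTriangular (Matrix.of p).transpose a := fun i j hij => h0 j i hij
  refine ⟨∏ q ∈ Finset.univ.image a,
    (Matrix.of fun i j : {i : Fin n // a i = q} => (p i j).coeff 0).det,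
    Finset.prod_ne_zero_iff.2 fun q _ => hdet q, ?_⟩
  rw [← Matrix.det_transpose, hT.det, map_prod]
  refine Finset.prod_congr rfl fun q _ => ?_
  rw [RingHom.map_det, ← Matrix.det_transpose]
  refine congrArg Matrix.det ?_
  ext1 i j
  change p i.1 j.1 = C ((p i.1 j.1).coeff 0)
  refine eq_C_of_natDegree_le_zero ?_
  have h1 := hdeg i.1 j.1 (by rw [i.2, j.2])
  rw [i.2, j.2, Nat.sub_self] at h1
  exact h1

private theorem bkbb_dle_prod {k : Type*} [Field k] {ι : Type*} (s : Finset ι)
    (r : ι → RatFunc k) (m : ι → ℤ) (h : ∀ i ∈ s, Dle (r i) (m i)) :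
    Dle (∏ i ∈ s, r i) (∑ i ∈ s, m i) := by
  classical
  induction s using Finset.induction_on with
  | empty =>
    rw [Finset.prod_empty, Finset.sum_empty]
    exact Or.inr (by rw [RatFunc.intDegree_one])
  | insert i s hi ih =>
    rw [Finset.prod_insert hi, Finset.sum_insert hi]
    exact dle_mul (h i (Finset.mem_insert_self i s))
      (ih fun j hj => h j (Finset.mem_insert_of_mem hj))

private theorem bkbb_isPol_prod {k : Type*} [Field k] {ι : Type*} (s : Finset ι)
    (r : ι → RatFunc k) (h : ∀ i ∈ s, IsPol (r i)) : IsPol (∏ i ∈ s, r i) :=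
  Finset.prod_induction _ IsPol (fun _ _ => isPol_mul) isPol_one h

private theorem bkbb_isPol_det {k : Type*} [Field k] {n : ℕ}
    (M : Matrix (Fin n) (Fin n) (RatFunc k)) (h : ∀ i j, IsPol (M i j)) : IsPol M.det := by
  rw [Matrix.det_apply']
  refine isPol_sum _ _ fun σ _ => isPol_mul ?_ (bkbb_isPol_prod _ _ fun i _ => h _ _)
  rcases Int.units_eq_one_or (Equiv.Perm.sign σ) with h1 | h1
  · rw [h1, Units.val_one, Int.cast_one]
    exact isPol_one
  · rw [h1, Units.val_neg, Units.val_one, Int.cast_neg, Int.cast_one]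
    have h2 := isPol_sub (κ := k) isPol_zero isPol_one
    rwa [zero_sub] at h2

private theorem bkbb_dle_det {k : Type*} [Field k] {n : ℕ}
    (M : Matrix (Fin n) (Fin n) (RatFunc k)) (b c : Fin n → ℤ)
    (h : ∀ i j, Dle (M i j) (b i - c j)) : Dle M.det (∑ i, b i - ∑ i, c i) := by
  rw [Matrix.det_apply']
  refine dle_sum _ _ _ fun σ _ => ?_
  have h1 : Dle (∏ i, M (σ i) i) (∑ i, b i - ∑ i, c i) := by
    have h2 := bkbb_dle_prod Finset.univ (fun i => M (σ i) i) (fun i => b (σ i) - c i)
      fun i _ => h _ _
    rw [Finset.sum_sub_distrib, Equiv.sum_comp σ b] at h2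
    exact h2
  rcases Int.units_eq_one_or (Equiv.Perm.sign σ) with h3 | h3
  · rw [h3, Units.val_one, Int.cast_one, one_mul]
    exact h1
  · rw [h3, Units.val_neg, Units.val_one, Int.cast_neg, Int.cast_one, neg_one_mul]
    exact dle_neg h1

theorem exists_new_basis {k : Type*} [Field k] {L : Type*} [CommRing L] [Algebra (RatFunc k) L]
    {n : ℕ} (e : Module.Basis (Fin n) (RatFunc k) L) (a : Fin n → ℕ) (p : Fin n → Fin n → k[X])
    (h0 : ∀ i j, a i < a j → p i j = 0) (hdeg : ∀ i j, a j ≤ a i → (p i j).natDegree ≤ a i - a j)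
    (c : k) (hc : c ≠ 0) (hdet : (Matrix.of p).det = C c) :
    ∃ g : Module.Basis (Fin n) (RatFunc k) L, (∀ i, g i = ∑ j, pol (p i j) • e j) ∧
      (∀ z, InB g z ↔ InB e z) ∧ ∀ z, InCi g a z ↔ InCi e a z := by
  classical
  set M : Matrix (Fin n) (Fin n) (RatFunc k) := Matrix.of fun i j => pol (p i j) with hM
  have hMdet : M.det = pol (C c) := by
    have h1 : M = (algebraMap k[X] (RatFunc k)).mapMatrix (Matrix.of p) := rfl
    rw [h1, ← RingHom.map_det, hdet]
  have hc0 : pol (C c) ≠ 0 := by
    rw [Ne, map_eq_zero_iff _ (IsFractionRing.injective k[X] (RatFunc k)), C_eq_zero]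
    exact hc
  have hunit : IsUnit M.transpose.det := by
    rw [Matrix.det_transpose, hMdet]
    exact hc0.isUnit
  set g : Module.Basis (Fin n) (RatFunc k) L :=
    e.map (Matrix.toLinearEquiv e M.transpose hunit) with hg
  have hgi : ∀ i, g i = ∑ j, pol (p i j) • e j := by
    intro i
    rw [hg, Module.Basis.map_apply]
    change Matrix.toLin e e M.transpose (e i) = _
    rw [Matrix.toLin_self]
    rfl
  -- coordinates
  have hco : ∀ z j, e.repr z j = ∑ i, g.repr z i * pol (p i j) := by
    intro z j
    conv_lhs => rw [← g.sum_repr z]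
    rw [map_sum, Finsupp.finsetSum_apply]
    refine Finset.sum_congr rfl fun i _ => ?_
    rw [map_smul, Finsupp.smul_apply, smul_eq_mul, hgi, map_sum, Finsupp.finsetSum_apply]
    congr 1
    rw [Finset.sum_eq_single j]
    · rw [map_smul, Finsupp.smul_apply, e.repr_self, Finsupp.single_eq_same, smul_eq_mul, mul_one]
    · intro l _ hl
      rw [map_smul, Finsupp.smul_apply, e.repr_self, Finsupp.single_eq_of_ne hl.symm, smul_zero]
    · intro h
      exact absurd (Finset.mem_univ j) h
  have hinv : ∀ z i, g.repr z i = pol (C c⁻¹) * ∑ j, e.repr z j * M.adjugate j i := by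
    intro z i
    have h1 : ∑ j, e.repr z j * M.adjugate j i = pol (C c) * g.repr z i := by
      have h2 : ∀ i', (M * M.adjugate) i' i = pol (C c) * (1 : Matrix _ _ (RatFunc k)) i' i := by
        intro i'
        rw [Matrix.mul_adjugate, hMdet, Matrix.smul_apply, smul_eq_mul]
      calc ∑ j, e.repr z j * M.adjugate j i
          = ∑ j, ∑ i', g.repr z i' * (M i' j * M.adjugate j i) := by
            refine Finset.sum_congr rfl fun j _ => ?_
            rw [hco, Finset.sum_mul]
            exact Finset.sum_congr rfl fun i' _ => mul_assoc _ _ _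
        _ = ∑ i', g.repr z i' * (M * M.adjugate) i' i := by
            rw [Finset.sum_comm]
            refine Finset.sum_congr rfl fun i' _ => ?_
            rw [Matrix.mul_apply, Finset.mul_sum]
        _ = pol (C c) * g.repr z i := by
            rw [Finset.sum_eq_single i]
            · rw [h2, Matrix.one_apply_eq, mul_one, mul_comm]
            · intro i' _ hi'
              rw [h2, Matrix.one_apply_ne hi', mul_zero, mul_zero]
            · intro h
              exact absurd (Finset.mem_univ i) h
    rw [h1, ← mul_assoc]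
    have h3 : pol (C c⁻¹) * pol (C c) = 1 := by
      change algebraMap k[X] (RatFunc k) _ * algebraMap k[X] (RatFunc k) _ = 1
      rw [← map_mul, ← C_mul, inv_mul_cancel₀ hc, C_1, map_one]
    rw [h3, one_mul]
  have hMd : ∀ i j, Dle (M i j) ((a i : ℤ) - a j) := by
    intro i j
    rcases lt_or_ge (a i) (a j) with h | h
    · rw [hM, Matrix.of_apply, h0 i j h]
      exact Or.inl (map_zero _)
    · refine dle_mono (dle_pol (p i j)) ?_
      have h1 := hdeg i j h
      omega
  have hadjP : ∀ j i, IsPol (M.adjugate j i) := by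
    intro j i
    rw [Matrix.adjugate_apply]
    refine bkbb_isPol_det _ fun r s => ?_
    rw [Matrix.updateRow_apply]
    split_ifs
    · rw [Pi.single_apply]
      split_ifs
      · exact isPol_one
      · exact isPol_zero
    · exact ⟨p r s, rfl⟩
  have hadjD : ∀ j i, Dle (M.adjugate j i) ((a j : ℤ) - a i) := by
    intro j i
    rw [Matrix.adjugate_apply]
    have h1 := bkbb_dle_det (M.updateRow i (Pi.single j 1))
      (Function.update (fun r => (a r : ℤ)) i (a j)) (fun r => (a r : ℤ)) (by
        intro r s
        rw [Matrix.updateRow_apply]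
        by_cases hr : r = i
        · rw [if_pos hr, hr, Function.update_self, Pi.single_apply]
          by_cases hs : s = j
          · rw [if_pos hs, hs, sub_self]
            exact Or.inr (by rw [RatFunc.intDegree_one])
          · rw [if_neg hs]
            exact dle_zero _
        · rw [if_neg hr, Function.update_of_ne hr]
          exact hMd r s)
    have h2 : ∑ r, Function.update (fun r => (a r : ℤ)) i (a j : ℤ) r - ∑ r, (a r : ℤ) =
        (a j : ℤ) - a i := by
      rw [Finset.sum_update_of_mem (Finset.mem_univ i),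
        ← Finset.add_sum_erase Finset.univ (fun r => (a r : ℤ)) (Finset.mem_univ i),
        ← Finset.sdiff_singleton_eq_erase]
      ring
    rwa [h2] at h1
  refine ⟨g, hgi, fun z => ⟨fun h j => ?_, fun h i => ?_⟩, fun z => ⟨fun h j => ?_, fun h i => ?_⟩⟩
  · rw [hco]
    exact isPol_sum _ _ fun i _ => isPol_mul (h i) ⟨p i j, rfl⟩
  · rw [hinv]
    exact isPol_mul ⟨C c⁻¹, rfl⟩ (isPol_sum _ _ fun j _ => isPol_mul (h j) (hadjP j i))
  · rw [hco]
    refine dle_sum _ _ _ fun i _ => dle_mono (dle_mul (h i) (hMd i j)) ?_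
    omega
  · rw [hinv]
    have h1 : Dle (∑ j, e.repr z j * M.adjugate j i) (-(a i : ℤ)) :=
      dle_sum _ _ _ fun j _ => dle_mono (dle_mul (h j) (hadjD j i)) (by omega)
    have h2 := dle_mul (dle_C c⁻¹) h1
    rwa [zero_add] at h2

end MPadcCM
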