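import Pool.Agent.Lib.MP_adc574_ag_CM.Sk

/-!
# Grd: gradings

`E` is graded by the additive group `X`, `e i` has degree `ch i`. `Hom e ch g z`: `z` is homogeneous of degree `g` (only the coordinates `z_l` with `ch l = g` can be nonzero); `cmp e ch g z` is the component of degree `g`. Write `z_l = e.repr z l`, `s_ijl = e.repr (e i * e j) l`.
* JOB GrdA: - `Hom.*`: coordinates; `Hom.mul`: `(z w)_l = ∑ z_i w_j s_ijl`, a nonzero term has `ch i = g`, `ch j = g'`, `ch l = ch i + ch j`. `Hom.der`: `(d z)_l = ∑ (dK z_l) + z_i (d (e i))_l` (`d (r • e i) = dK r • e i + r • d (e i)`, `d_alg`).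
  - `Gr0.ch_one` (`ch i0 = 0`): `e i0 * e i0 = e i0`, so `s_{i0 i0 i0} = 1 ≠ 0` and `ch i0 = ch i0 + ch i0`.
  - `Gr0.tr_eq_zero`: if `Hom g z`, `g ≠ 0`: `Tr z = ∑ j (z * e j)_j` (`MPadcCov.tr_eq`), `(z * e j)_j = ∑ i z_i s_ijj`, a nonzero term has `ch i = g` and `ch j = ch i + ch j`, so `g = 0`.
  - `Gr0.hom_f` (`Hom (-ch i) (f i)`): suppose `(f i)_l ≠ 0` and `g := ch l ≠ -ch i`. Let `w = cmp g (f i)`. For every `j`: `Tr (w * e j) = 0`: if `ch j ≠ -g` then `w * e j` is homogeneous of degree `g + ch j ≠ 0`; if `ch j = -g` then `f i = ∑_g' cmp g' (f i)` and only `g' = g` contributes to `Tr (f i * e j)` (`f i - w` has coordinates only at `l'` with `ch l' ≠ g`; each `e l' * e j` is homogeneous of degree `≠ 0`),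
    so `Tr (w * e j) = Tr (f i * e j) = δ_ij = 0` because `j ≠ i` (`ch j = -g ≠ ch i`). By `tr_nondeg` (DeA) `w = 0`, contradiction to `w_l = (f i)_l ≠ 0`.
  - `Gr.hom_hh`: `Hom (gr ch b) (hh κ f m b)`.
* JOB GrdB (`Cw.exists_m`): for `c = (i, l)` and `j` let `P c j : κ[X]`: if `ch i + ch j ≠ 0`: `P = 0`; if `j ≠ i0`: the polynomial part (`exists_polpart`) of `Tr (d (fc c) * e j)`; if `j = i0`: `P = derivative P'` where `P'` is the polynomial part of `Tr (fc c)`. `m c := ∑ j, pol (P c j) • f j`. Then `Tr (m c * e j) = pol (P c j)` (`H.dual`), so `m c ∈ M`, and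
  `Tr ((m c - d (fc c)) * e j) = pol (P c j) - Tr (d (fc c) * e j)`: if `ch i + ch j ≠ 0` it is `0` (`fc c` and `d (fc c)` are homogeneous of degree `ch i`, `tr_eq_zero`); if `j ≠ i0` it has degree `≤ -1 ≤ a j - 2` (`a_pos`: `1 ≤ a j`); if `j = i0` (`e j = 1`, `a j = 0`): `Tr (d (fc c)) = dK (Tr (fc c))` (`Cw.tr_d`) and `pol (derivative P') - dK (Tr (fc c)) = - dK (Tr (fc c) - pol P')` has degree `≤ -1 - 1` (`dK_dle`).
  `mgr`: `(m c)_l ≠ 0` implies `P c j ≠ 0` and `(f j)_l ≠ 0` for some `j`, so `ch i + ch j = 0` and `ch l = -ch j = ch i` (`Gr0.hom_f`).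
* JOB GrdC (`Gr.rel`): the components: `cmp g` is additive and commutes with `d` and with `pol (C c) •` (it is `RatFunc κ`-linear, and `d` maps homogeneous elements of degree `g` to such). `D (hh b)` is homogeneous of degree `gr ch b` by `hDg`. Take the component of degree `gr ch b` of `D (hh b) = ∑ G b' b • hh b' + d g`:
  `D (hh b) = ∑_{b' : gr b' = gr b} G b' b • hh b' + d (cmp g)`. So `Rel` holds for `G' b' b = if gr ch b' = gr ch b then G b' b else 0`.
-/

set_option autoImplicit false

namespace MPadcCM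

open Polynomial MPadcCov

section

variable {κ : Type*} [Field κ] {E : Type*} [CommRing E] [Algebra (RatFunc κ) E] {n : ℕ}
  (e : Module.Basis (Fin n) (RatFunc κ) E) {Y : Type*} [AddCommGroup Y] (ch : Fin n → Y)

/-- `z` is homogeneous of degree `g`. -/
def Hom (g : Y) (z : E) : Prop := ∀ l, e.repr z l ≠ 0 → ch l = g

/-- The component of degree `g`. -/
noncomputable def cmp (g : Y) (z : E) : E := by
  classical
  exact ∑ l, if ch l = g then e.repr z l • e l else 0

end

variable {κ : Type*} [Field κ] {E : Type*} [CommRing E] [Algebra (RatFunc κ) E] {n : ℕ}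
  {e : Module.Basis (Fin n) (RatFunc κ) E} {a : Fin n → ℕ} {i0 : Fin n} {f : Fin n → E} {m : Ix a → E}
  {dK : Derivation ℤ (RatFunc κ) (RatFunc κ)} {d : Derivation ℤ E E}
  {Y : Type*} [AddCommGroup Y] {ch : Fin n → Y}

theorem Hom.add {g : Y} {z w : E} (hz : Hom e ch g z) (hw : Hom e ch g w) :
    Hom e ch g (z + w) := by
  intro l hl
  by_cases h1 : e.repr z l = 0
  · apply hw l
    intro h2
    apply hl
    rw [map_add, Finsupp.add_apply, h1, h2, add_zero]
  · exact hz l h1

theorem Hom.smul {g : Y} {z : E} (hz : Hom e ch g z) (r : RatFunc κ) : Hom e ch g (r • z) := by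
  intro l hl
  apply hz l
  intro h1
  apply hl
  rw [map_smul, Finsupp.smul_apply, h1, smul_zero]

theorem hom_e (i : Fin n) : Hom e ch (ch i) (e i) := by
  intro l hl
  rw [e.repr_self, Finsupp.single_apply] at hl
  split_ifs at hl with h
  · rw [h]
  · exact absurd rfl hl

private theorem grda_mul_repr (z w : E) (l : Fin n) :
    e.repr (z * w) l = ∑ i, ∑ j, e.repr z i * e.repr w j * e.repr (e i * e j) l := by
  have h1 : z * w = ∑ i, ∑ j, (e.repr z i * e.repr w j) • (e i * e j) := by
    conv_lhs => rw [← e.sum_repr z, ← e.sum_repr w]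
    rw [Finset.sum_mul_sum]
    refine Finset.sum_congr rfl fun i _ => Finset.sum_congr rfl fun j _ => ?_
    rw [smul_mul_smul_comm]
  conv_lhs => rw [h1]
  rw [map_sum, Finsupp.finsetSum_apply]
  refine Finset.sum_congr rfl fun i _ => ?_
  rw [map_sum, Finsupp.finsetSum_apply]
  refine Finset.sum_congr rfl fun j _ => ?_
  rw [map_smul, Finsupp.smul_apply, smul_eq_mul]

private theorem grda_zero (g : Y) : Hom e ch g 0 := by
  intro l hl
  rw [map_zero, Finsupp.zero_apply] at hl
  exact absurd rfl hl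

private theorem grda_sum {ι : Type*} (s : Finset ι) (g : Y) (z : ι → E)
    (h : ∀ i ∈ s, Hom e ch g (z i)) : Hom e ch g (∑ i ∈ s, z i) := by
  classical
  induction s using Finset.induction_on with
  | empty =>
    rw [Finset.sum_empty]
    exact grda_zero g
  | insert i s hi ih =>
    rw [Finset.sum_insert hi]
    exact (h i (Finset.mem_insert_self i s)).add
      (ih fun j hj => h j (Finset.mem_insert_of_mem hj))

private theorem grda_ch_one (H : Cw e a i0 f dK d) (hG : Gr0 e ch d) : ch i0 = 0 := by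
  have h1 : e.repr (e i0 * e i0) i0 ≠ 0 := by
    have h2 : e i0 * e i0 = e i0 := by
      conv_lhs => rw [H.one, mul_one]
      exact H.one.symm
    rw [h2, e.repr_self, Finsupp.single_eq_same]
    exact one_ne_zero
  have h3 := hG.mul i0 i0 i0 h1
  exact (left_eq_add.1 h3)

theorem Hom.mul (hG : Gr0 e ch d) {g g' : Y} {z w : E} (hz : Hom e ch g z) (hw : Hom e ch g' w) :
    Hom e ch (g + g') (z * w) := by
  intro l hl
  rw [grda_mul_repr] at hl
  obtain ⟨i, _, hi⟩ := Finset.exists_ne_zero_of_sum_ne_zero hl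
  obtain ⟨j, _, hj⟩ := Finset.exists_ne_zero_of_sum_ne_zero hi
  have h1 : e.repr z i ≠ 0 := left_ne_zero_of_mul (left_ne_zero_of_mul hj)
  have h2 : e.repr w j ≠ 0 := right_ne_zero_of_mul (left_ne_zero_of_mul hj)
  have h3 : e.repr (e i * e j) l ≠ 0 := right_ne_zero_of_mul hj
  rw [hG.mul i j l h3, hz i h1, hw j h2]

theorem Hom.pow (H : Cw e a i0 f dK d) (hG : Gr0 e ch d) {g : Y} {z : E} (hz : Hom e ch g z)
    (N : ℕ) : Hom e ch (N • g) (z ^ N) := by
  induction N with
  | zero =>
    rw [zero_smul, pow_zero, ← H.one, ← grda_ch_one H hG]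
    exact hom_e i0
  | succ N ih =>
    rw [succ_nsmul, pow_succ]
    exact ih.mul hG hz

theorem Hom.der (H : Cw e a i0 f dK d) (hG : Gr0 e ch d) {g : Y} {z : E} (hz : Hom e ch g z) :
    Hom e ch g (d z) := by
  have h1 : ∀ i, d (e.repr z i • e i) = dK (e.repr z i) • e i + e.repr z i • d (e i) := by
    intro i
    have h2 := d.leibniz (algebraMap (RatFunc κ) E (e.repr z i)) (e i)
    rw [H.d_alg, smul_eq_mul, smul_eq_mul] at h2
    rw [Algebra.smul_def (e.repr z i) (e i), h2, Algebra.smul_def (dK (e.repr z i)) (e i),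
      Algebra.smul_def (e.repr z i) (d (e i))]
    ring
  rw [← e.sum_repr z, map_sum]
  refine grda_sum _ g _ fun i _ => ?_
  rw [h1]
  by_cases h2 : e.repr z i = 0
  · rw [h2, map_zero, zero_smul, zero_smul, add_zero]
    exact grda_zero g
  · have h3 := hz i h2
    refine Hom.add (Hom.smul ?_ _) (Hom.smul ?_ _)
    · rw [← h3]
      exact hom_e i
    · intro l hl
      rw [hG.der i l hl, h3]

theorem Gr0.ch_one (H : Cw e a i0 f dK d) (hG : Gr0 e ch d) : ch i0 = 0 := by
  exact grda_ch_one H hG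

theorem Gr0.tr_eq_zero (hG : Gr0 e ch d) {g : Y} {z : E} (hz : Hom e ch g z) (hg : g ≠ 0) :
    Tr κ E z = 0 := by
  rw [Tr, MPadcCov.tr_eq e z]
  refine Finset.sum_eq_zero fun j _ => ?_
  by_contra h
  have h1 := (hz.mul hG (hom_e j)) j h
  exact hg (right_eq_add.1 h1)

private theorem grda_cmp (g : Y) (z : E) (l : Fin n) [Decidable (ch l = g)] :
    e.repr (cmp e ch g z) l = if ch l = g then e.repr z l else 0 := by
  classical
  unfold cmp
  rw [map_sum, Finsupp.finsetSum_apply, Finset.sum_eq_single l]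
  · split_ifs with h
    · rw [map_smul, e.repr_self, Finsupp.smul_apply, Finsupp.single_eq_same, smul_eq_mul, mul_one]
    · rw [map_zero, Finsupp.zero_apply]
  · intro l' _ hl'
    split_ifs
    · rw [map_smul, e.repr_self, Finsupp.smul_apply, Finsupp.single_apply, if_neg hl', smul_zero]
    · rw [map_zero, Finsupp.zero_apply]
  · intro h
    exact absurd (Finset.mem_univ l) h

theorem Gr0.hom_f (H : Cw e a i0 f dK d) (hG : Gr0 e ch d) (i : Fin n) : Hom e ch (-ch i) (f i) := by
  classical
  intro l hl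
  by_contra hne
  have hrep : ∀ l', e.repr (cmp e ch (ch l) (f i)) l' =
      if ch l' = ch l then e.repr (f i) l' else 0 := fun l' => grda_cmp (ch l) (f i) l'
  have hw : Hom e ch (ch l) (cmp e ch (ch l) (f i)) := by
    intro l' hl'
    rw [hrep] at hl'
    by_contra h
    rw [if_neg h] at hl'
    exact hl' rfl
  have hzero : cmp e ch (ch l) (f i) = 0 := by
    refine tr_nondeg e f H.dual _ fun j => ?_
    by_cases hj : ch l + ch j = 0
    · have hji : i ≠ j := by
        rintro rfl
        exact hne (eq_neg_of_add_eq_zero_left hj)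
      have h1 : Tr κ E (f i * e j) = 0 := by rw [H.dual, if_neg hji]
      have h2 : Tr κ E ((f i - cmp e ch (ch l) (f i)) * e j) = 0 := by
        rw [← e.sum_repr (f i - cmp e ch (ch l) (f i)), Finset.sum_mul, map_sum]
        refine Finset.sum_eq_zero fun l' _ => ?_
        rw [map_sub, Finsupp.sub_apply, hrep]
        by_cases h3 : ch l' = ch l
        · rw [if_pos h3, sub_self, zero_smul, zero_mul, map_zero]
        · rw [if_neg h3, sub_zero, smul_mul_assoc, map_smul,
            Gr0.tr_eq_zero hG ((hom_e l').mul hG (hom_e j)), smul_zero]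
          intro h4
          apply h3
          rw [← add_left_inj (ch j), h4, hj]
      have h3 : Tr κ E (cmp e ch (ch l) (f i) * e j) =
          Tr κ E (f i * e j) - Tr κ E ((f i - cmp e ch (ch l) (f i)) * e j) := by
        rw [← map_sub]
        congr 1
        ring
      show Tr κ E (cmp e ch (ch l) (f i) * e j) = 0
      rw [h3, h1, h2, sub_zero]
    · exact Gr0.tr_eq_zero hG (hw.mul hG (hom_e j)) hj
  have h5 := hrep l
  rw [hzero, map_zero, Finsupp.zero_apply, if_pos rfl] at h5
  exact hl h5.symm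

theorem Gr.hom_hh (H : Cv e a i0 f m dK d) (hG : Gr e ch m d) (b : II a) :
    Hom e ch (gr ch b) (hh κ f m b) := by
  cases b with
  | inl c => exact Hom.smul (Gr0.hom_f H.toCw hG.toGr0 c.1) _
  | inr c => exact hG.mgr c

private theorem grdb_one (H : Cw e a i0 f dK d) (hG : Gr0 e ch d) (c : Ix a) (j : Fin n) :
    ∃ P : κ[X], (ch c.1 + ch j ≠ 0 → P = 0) ∧
      Dle (pol P - Tr κ E (d (fc e a c) * e j)) ((a j : ℤ) - 2) := by
  have hfc : Hom e ch (ch c.1) (fc e a c) := Hom.smul (hom_e c.1) _
  by_cases h0 : ch c.1 + ch j = 0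
  · by_cases hj : j = i0
    · subst hj
      obtain ⟨P, hP⟩ := exists_polpart (Tr κ E (fc e a c))
      refine ⟨derivative P, fun h => absurd h0 h, ?_⟩
      rw [H.one, mul_one, H.tr_d, ← H.dK_pol, ← map_sub, H.a_zero]
      have h1 : pol P - Tr κ E (fc e a c) = -(Tr κ E (fc e a c) - pol P) := by ring
      rw [h1]
      refine dle_mono (dle_dK0 H.dK_pol (dle_mono (dle_neg hP) (by norm_num))) ?_
      norm_num
    · obtain ⟨P, hP⟩ := exists_polpart (Tr κ E (d (fc e a c) * e j))
      refine ⟨P, fun h => absurd h0 h, ?_⟩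
      have h1 : pol P - Tr κ E (d (fc e a c) * e j) = -(Tr κ E (d (fc e a c) * e j) - pol P) := by
        ring
      rw [h1]
      refine dle_mono (dle_neg hP) ?_
      have h2 := H.a_pos j hj
      omega
  · refine ⟨0, fun _ => rfl, ?_⟩
    have h1 : Tr κ E (d (fc e a c) * e j) = 0 :=
      Gr0.tr_eq_zero hG ((Hom.der H hG hfc).mul hG (hom_e j)) h0
    rw [h1, sub_zero]
    exact Or.inl (map_zero _)

theorem Cw.exists_m (H : Cw e a i0 f dK d) (hG : Gr0 e ch d) :
    ∃ m : Ix a → E, Cv e a i0 f m dK d ∧ Gr e ch m d := by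
  choose P hP0 hPd using grdb_one H hG
  have htr : ∀ (c : Ix a) (i : Fin n), Tr κ E ((∑ j, pol (P c j) • f j) * e i) = pol (P c i) := by
    intro c i
    rw [Finset.sum_mul, map_sum, Finset.sum_eq_single i]
    · rw [smul_mul_assoc, map_smul, H.dual, if_pos rfl, smul_eq_mul, mul_one]
    · intro j _ hj
      rw [smul_mul_assoc, map_smul, H.dual, if_neg hj, smul_zero]
    · intro h
      exact absurd (Finset.mem_univ i) h
  refine ⟨fun c => ∑ j, pol (P c j) • f j, { toCw := H, mM := ?_, mI := ?_ },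
    { toGr0 := hG, mgr := ?_ }⟩
  · intro c i
    rw [htr]
    exact isPol_pol _
  · intro c i
    rw [sub_mul, map_sub, htr]
    exact hPd c i
  · intro c l hl
    rw [map_sum, Finsupp.finsetSum_apply] at hl
    obtain ⟨j, _, hj⟩ := Finset.exists_ne_zero_of_sum_ne_zero hl
    rw [map_smul, Finsupp.smul_apply, smul_eq_mul] at hj
    have h1 : ch c.1 + ch j = 0 := by
      by_contra h
      apply left_ne_zero_of_mul hj
      rw [hP0 c j h]
      exact map_zero _
    rw [Gr0.hom_f H hG j l (right_ne_zero_of_mul hj)]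
    exact (eq_neg_of_add_eq_zero_left h1).symm

theorem grdc_cmp_eq (g : Y) (z : E) (l : Fin n) (hl : ch l = g) :
    e.repr (cmp e ch g z) l = e.repr z l := by
  classical
  unfold cmp
  rw [map_sum, Finsupp.finsetSum_apply]
  rw [Finset.sum_eq_single l]
  · rw [if_pos hl, map_smul, Finsupp.smul_apply, Module.Basis.repr_self, Finsupp.single_eq_same,
      smul_eq_mul, mul_one]
  · intro j _ hj
    by_cases h : ch j = g
    · rw [if_pos h, map_smul, Finsupp.smul_apply, Module.Basis.repr_self,
        Finsupp.single_eq_of_ne (Ne.symm hj), smul_zero]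
    · rw [if_neg h, map_zero, Finsupp.zero_apply]
  · intro h
    exact absurd (Finset.mem_univ l) h

theorem grdc_cmp_ne (g : Y) (z : E) (l : Fin n) (hl : ch l ≠ g) :
    e.repr (cmp e ch g z) l = 0 := by
  classical
  unfold cmp
  rw [map_sum, Finsupp.finsetSum_apply]
  apply Finset.sum_eq_zero
  intro j _
  by_cases h : ch j = g
  · have hj : l ≠ j := fun hh => hl (hh ▸ h)
    rw [if_pos h, map_smul, Finsupp.smul_apply, Module.Basis.repr_self,
      Finsupp.single_eq_of_ne hj, smul_zero]
  · rw [if_neg h, map_zero, Finsupp.zero_apply]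

theorem grdc_hom_cmp (g : Y) (z : E) : Hom e ch g (cmp e ch g z) := by
  intro l hl
  by_contra h
  exact hl (grdc_cmp_ne g z l h)

theorem grdc_der_off (H : Cw e a i0 f dK d) (hG : Gr0 e ch d) (g : Y) (z : E)
    (hz : ∀ l, ch l = g → e.repr z l = 0) (l : Fin n) (hl : ch l = g) : e.repr (d z) l = 0 := by
  have h1 : z = ∑ j, e.repr z j • e j := (e.sum_repr z).symm
  rw [h1, map_sum, map_sum, Finsupp.finsetSum_apply]
  apply Finset.sum_eq_zero
  intro j _
  by_cases hj : ch j = g
  · rw [hz j hj, zero_smul, map_zero, map_zero, Finsupp.zero_apply]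
  · by_contra hne
    exact hj (((Hom.der H hG (Hom.smul (hom_e j) (e.repr z j))) l hne).symm.trans hl)

theorem grdc_der_cmp (H : Cw e a i0 f dK d) (hG : Gr0 e ch d) (g : Y) (z : E)
    (l : Fin n) (hl : ch l = g) : e.repr (d z) l = e.repr (d (cmp e ch g z)) l := by
  have h1 : z = cmp e ch g z + (z - cmp e ch g z) := by ring
  have h2 : e.repr (d (z - cmp e ch g z)) l = 0 := by
    apply grdc_der_off H hG g _ _ l hl
    intro j hj
    rw [map_sub, Finsupp.sub_apply, grdc_cmp_eq g z j hj, sub_self]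
  calc e.repr (d z) l = e.repr (d (cmp e ch g z + (z - cmp e ch g z))) l := by rw [← h1]
    _ = e.repr (d (cmp e ch g z)) l := by
      rw [map_add, map_add, Finsupp.add_apply, h2, add_zero]

theorem Gr.rel (H : Cv e a i0 f m dK d) (hG : Gr e ch m d) (D : Derivation ℤ E E)
    (hDg : ∀ b, Hom e ch (gr ch b) (D (hh κ f m b))) (G : II a → II a → κ)
    (h : Rel f m d D G) : ∃ G' : II a → II a → κ, Rel f m d D G' ∧
      ∀ b b', G' b' b ≠ 0 → gr ch b' = gr ch b := by
  classical
  refine ⟨fun b' b => if gr ch b' = gr ch b then G b' b else 0, ?_, ?_⟩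
  · intro b
    obtain ⟨g, hg⟩ := h b
    refine ⟨cmp e ch (gr ch b) g, ?_⟩
    apply e.repr.injective
    ext l
    rw [map_add, Finsupp.add_apply, map_sum, Finsupp.finsetSum_apply]
    by_cases hl : ch l = gr ch b
    · rw [hg, map_add, Finsupp.add_apply, map_sum, Finsupp.finsetSum_apply,
        grdc_der_cmp H.toCw hG.toGr0 (gr ch b) g l hl]
      congr 1
      apply Finset.sum_congr rfl
      intro b' _
      beta_reduce
      by_cases hb : gr ch b' = gr ch b
      · rw [if_pos hb]
      · have h0 : e.repr (hh κ f m b') l = 0 := by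
          by_contra hne
          exact hb ((Gr.hom_hh H hG b' l hne).symm.trans hl)
        rw [map_smul, map_smul, Finsupp.smul_apply, Finsupp.smul_apply, h0, smul_zero, smul_zero]
    · have h0 : e.repr (D (hh κ f m b)) l = 0 := by
        by_contra hne
        exact hl (hDg b l hne)
      have h1 : e.repr (d (cmp e ch (gr ch b) g)) l = 0 := by
        by_contra hne
        exact hl (Hom.der H.toCw hG.toGr0 (grdc_hom_cmp (gr ch b) g) l hne)
      rw [h0, h1, add_zero]
      symm
      apply Finset.sum_eq_zero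
      intro b' _
      beta_reduce
      by_cases hb : gr ch b' = gr ch b
      · have h2 : e.repr (hh κ f m b') l = 0 := by
          by_contra hne
          exact hl ((Gr.hom_hh H hG b' l hne).trans hb)
        rw [map_smul, Finsupp.smul_apply, h2, smul_zero]
      · rw [if_neg hb, C_0, map_smul]
        have h3 : pol (0 : κ[X]) = 0 := by
          unfold pol
          rw [map_zero]
        rw [h3, zero_smul, Finsupp.zero_apply]
  · intro b b' hb
    by_contra hne
    exact hb (if_neg hne)

end MPadcCM
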