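import Pool.Agent.Lib.MP_adc574_ag_CM.LcB
import Pool.Agent.Lib.MP_adc574_ag_CM.Grd

/-!
# LcC: the structure `Cw` for a Birkhoff basis in characteristic zero

`Bk e a i0`: a Birkhoff basis with `e i0 = 1`.
* JOB LcC1 (`exists_dual`, `Bk.mul`, `Bk.derI`): - `exists_dual`: the trace form is nondegenerate (characteristic 0): `Module.Basis.traceDual`-type lemma (`Algebra.traceForm_nondegenerate`, `LinearMap.BilinForm.dualBasis`, `(traceForm_nondegenerate ..)`), `f i := dual basis`.
  - `mul`: `e i * e j` is integral over `k[x]` (`intX_mul`), so its coordinates are polynomials; `(X ^ (-a i) • e i) * (X ^ (-a j) • e j) ∈ Ci` (`hI`, `intO_mul`), so `X ^ (-a i - a j) * s_ijl` has degree `≤ -a l` (`dle_xpow_mul`).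
  - `derI`: `X ^ (-a i) • e i ∈ Ci`, so `d (X ^ (-a i) • e i) = X ^ (-a i) • d (e i) - a i X ^ (-a i - 1) • e i ∈ Mi` (`i_del`, `dK_xpow`): `Tr (.. * e j) = X ^ (-a i) * (N_ij - a i X⁻¹ T_ij)` has degree `≤ a j - 2`.
* JOB LcC2 (`Bk.genB`): let `N` be the set of all `z` of the form `∑_{s : Fin N} u_s * d (b_s)`, `u_s, b_s ∈ B`; it contains `0`, is closed under addition (`Fin.append`, or index by `Finset`/`List`) and under multiplication by elements of `B`. `I := {q : k[X] | algebraMap (pol q) * z ∈ N}` is an ideal of `k[X]`. If `I ≠ ⊤` it lies in a maximal ideal, which is generated by `X - C b`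
  (`k` algebraically closed: the generator (`IsPrincipalIdealRing`) of a maximal ideal containing `I` is irreducible of degree 1, so all elements of `I` vanish at `b`: `q.eval b = 0`; direct way: if the generator `g` of `I` is not a unit it has a root `b` (or `g = 0`, any `b`), `IsAlgClosed.exists_root`). By `b_w` (LcB): `z = c * d w`, `c, w` integral over `Rb b`: their coordinates lie in `Rb b`
  (`intRb_iff`), so there is `q : k[X]`, `q.eval b ≠ 0`, with `q c, q w ∈ B` (product of the denominators of all coordinates, `mem_Rb_iff`). `q ^ 2 * d w = q * d (q w) - (q w) * d q` (Leibniz), so `q ^ 3 * z = (q c) * (q ^ 2 * d w) = ((q c) * q) * d (q w) - ((q c) * (q w)) * d q ∈ N` (`-z * d y` with `-z ∈ B`), so `q ^ 3 ∈ I`, `(q ^ 3).eval b ≠ 0`: contradiction. So `1 ∈ I`.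
* JOB LcC3 (`Bk.cw`): assemble: `genI` from `i_w` (LcB) applied to `X ^ (a i - 2) • f i ∈ Mi` (`Tr (.. * e j) = X ^ (a i - 2) δ_ij`), `derB` from `b_del`. `Bk.cd`: `b_br`, `i_lift` (`IsLiftE.alg` of DeB, `exists_DK`).
* JOB LcC4 (`Bk.indep`): let `∑ b, pol (C (r b)) • hh b = d g`. All `hh b ∈ M` (`mM`, `inM_f`), so `g ∈ B` (`b_int`). `d (g - ∑_c r_c • fc c) = ∑_c r (inl c) • hh (inl c) + ∑_c r (inr c) • (m c - d (fc c)) ∈ Mi` (the `hh (inl c)` are in `Mi`: `Tr (X ^ l • f i * e j) = X ^ l δ_ij`, `l ≤ a i - 2`), so `g - ∑_c r (inr c) • fc c ∈ Ci` (`i_int`): for every `i`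
  `P - ∑_{l < a i - 1} r_(i,l) X ^ (-(l + 1))` has degree `≤ -a i`, where `P = g_i` is a polynomial. If `2 ≤ a i` multiply by `X ^ (a i - 1)`: the polynomial `X ^ (a i - 1) P - ∑ r_(i,l) X ^ (a i - 2 - l)` has degree `≤ -1`, so it is `0` (`isPol_dle_neg`); the coefficients at `X ^ (a i - 2 - l)` give `r_(i,l) = 0` for all `l`. So `r (inr c) = 0`, and `g ∈ B ∩ Ci`: `g_i` is a polynomial of degree
  `≤ -a i`: `0` for `i ≠ i0` and a constant for `i = i0`, so `g = pol (C c) • e i0` and `d g = 0` (`e i0 = 1`). Then `∑_c r (inl c) • hh (inl c) = 0`; multiply by `e j` and take the trace: `∑_l r_(j,l) X ^ l = 0`, so `r_(j,l) = 0`.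
-/

set_option autoImplicit false

namespace MPadcCM

open Polynomial MPadcCov

/-- A Birkhoff basis of the field `L` with `e i0 = 1`. -/
structure Bk {k : Type*} [Field k] {L : Type*} [Field L] [Algebra (RatFunc k) L] {n : ℕ}
    (e : Module.Basis (Fin n) (RatFunc k) L) (a : Fin n → ℕ) (i0 : Fin n) : Prop where
  hX : ∀ z : L, IntX k z ↔ InB e z
  hI : ∀ z : L, IntO k z ↔ InCi e a z
  one : e i0 = 1
  a_zero : a i0 = 0
  a_pos : ∀ i, i ≠ i0 → 1 ≤ a i

variable {k : Type*} [Field k] [IsAlgClosed k] [CharZero k] {L : Type*} [Field L]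
  [Algebra (RatFunc k) L] [FiniteDimensional (RatFunc k) L] {n : ℕ}
  {e : Module.Basis (Fin n) (RatFunc k) L} {a : Fin n → ℕ} {i0 : Fin n}
  {dK : Derivation ℤ (RatFunc k) (RatFunc k)} {d : Derivation ℤ L L}

theorem exists_dual (e : Module.Basis (Fin n) (RatFunc k) L) :
    ∃ f : Fin n → L, ∀ i j, Tr k L (f i * e j) = if i = j then 1 else 0 := by
  have hCZ : CharZero (RatFunc k) := charZero_of_injective_algebraMap
    (algebraMap k (RatFunc k)).injective
  have hnd := traceForm_nondegenerate (RatFunc k) L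
  refine ⟨fun i => (Algebra.traceForm (RatFunc k) L).dualBasis hnd e i, fun i j => ?_⟩
  have h := LinearMap.BilinForm.apply_dualBasis_left (B := Algebra.traceForm (RatFunc k) L) hnd e i j
  rw [Algebra.traceForm_apply] at h
  rw [h]
  by_cases hij : i = j
  · rw [if_pos hij, if_pos hij.symm]
  · rw [if_neg hij, if_neg fun h => hij h.symm]

theorem Bk.mul (H : Bk e a i0) (i j l : Fin n) :
    IsPol (e.repr (e i * e j) l) ∧ Dle (e.repr (e i * e j) l) ((a i : ℤ) + a j - a l) := by
  refine ⟨(H.hX _).1 (Birk.intX_mul ((H.hX _).2 (inB_e i)) ((H.hX _).2 (inB_e j))) l, ?_⟩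
  have h1 := (H.hI _).1 (Birk.intO_mul ((H.hI _).2 (inCi_e (e := e) (a := a) i))
    ((H.hI _).2 (inCi_e (e := e) (a := a) j))) l
  rw [smul_mul_smul_comm, map_smul, Finsupp.smul_apply, smul_eq_mul,
    ← zpow_add₀ RatFunc.X_ne_zero] at h1
  have h2 : -(a l : ℤ) = ((a i : ℤ) + a j - a l) + (-(a i : ℤ) + -(a j : ℤ)) := by ring
  rw [h2] at h1
  exact (dle_xpow_mul _ _ _).1 h1

theorem Bk.derI (H : Bk e a i0) (hdK : ∀ p : k[X], dK (pol p) = pol (derivative p))
    (hd : ∀ r, d (algebraMap (RatFunc k) L r) = algebraMap (RatFunc k) L (dK r)) (i j : Fin n) :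
    Dle (Tr k L (d (e i) * e j) - (a i : RatFunc k) * RatFunc.X⁻¹ * Tr k L (e i * e j))
      ((a i : ℤ) + a j - 2) := by
  have h1 := i_del H.hI hdK hd (inCi_e (e := e) (a := a) i) j
  have h2 : d ((RatFunc.X : RatFunc k) ^ (-(a i : ℤ)) • e i) =
      (RatFunc.X : RatFunc k) ^ (-(a i : ℤ)) • d (e i) +
        (((-(a i : ℤ) : ℤ) : RatFunc k) * RatFunc.X ^ (-(a i : ℤ) - 1)) • e i := by
    rw [Algebra.smul_def, Derivation.leibniz, hd, dK_xpow hdK, smul_eq_mul, smul_eq_mul,
      Algebra.smul_def, Algebra.smul_def, mul_comm (e i)]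
  rw [h2, add_mul, smul_mul_assoc, smul_mul_assoc, map_add, map_smul, map_smul, smul_eq_mul,
    smul_eq_mul] at h1
  have h3 : (RatFunc.X : RatFunc k) ^ (-(a i : ℤ)) * Tr k L (d (e i) * e j) +
      ((-(a i : ℤ) : ℤ) : RatFunc k) * RatFunc.X ^ (-(a i : ℤ) - 1) * Tr k L (e i * e j) =
      (RatFunc.X : RatFunc k) ^ (-(a i : ℤ)) * (Tr k L (d (e i) * e j) -
        (a i : RatFunc k) * RatFunc.X⁻¹ * Tr k L (e i * e j)) := by
    rw [zpow_sub_one₀ RatFunc.X_ne_zero]
    push_cast
    ring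
  have h4 : ((a j : ℤ) - 2) = ((a i : ℤ) + a j - 2) + (-(a i : ℤ)) := by ring
  rw [h3, h4] at h1
  exact (dle_xpow_mul _ _ _).1 h1

/-- finite sums of `u * d b` with `u, b ∈ B`. -/
private def lcc2_N (e : Module.Basis (Fin n) (RatFunc k) L) (d : Derivation ℤ L L) (z : L) : Prop :=
  ∃ (N : ℕ) (u b : Fin N → L), (∀ s, InB e (u s)) ∧ (∀ s, InB e (b s)) ∧ z = ∑ s, u s * d (b s)

omit [IsAlgClosed k] [CharZero k] [FiniteDimensional (RatFunc k) L] in
private theorem lcc2_zero : lcc2_N e d 0 :=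
  ⟨0, fun _ => 0, fun _ => 0, fun s => s.elim0, fun s => s.elim0, by simp⟩

omit [IsAlgClosed k] [CharZero k] [FiniteDimensional (RatFunc k) L] in
private theorem lcc2_one {u b : L} (hu : InB e u) (hb : InB e b) : lcc2_N e d (u * d b) :=
  ⟨1, fun _ => u, fun _ => b, fun _ => hu, fun _ => hb, by simp⟩

omit [IsAlgClosed k] [CharZero k] [FiniteDimensional (RatFunc k) L] in
private theorem lcc2_add {z w : L} (hz : lcc2_N e d z) (hw : lcc2_N e d w) :
    lcc2_N e d (z + w) := by
  obtain ⟨N, u, b, hu, hb, rfl⟩ := hz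
  obtain ⟨M, u', b', hu', hb', rfl⟩ := hw
  refine ⟨N + M, Fin.append u u', Fin.append b b', ?_, ?_, ?_⟩
  · intro s
    refine Fin.addCases (fun i => ?_) (fun i => ?_) s
    · rw [Fin.append_left]; exact hu i
    · rw [Fin.append_right]; exact hu' i
  · intro s
    refine Fin.addCases (fun i => ?_) (fun i => ?_) s
    · rw [Fin.append_left]; exact hb i
    · rw [Fin.append_right]; exact hb' i
  · rw [Fin.sum_univ_add]
    simp only [Fin.append_left, Fin.append_right]

omit [IsAlgClosed k] [CharZero k] [FiniteDimensional (RatFunc k) L] in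
private theorem lcc2_mulB (H : Bk e a i0) {u b : L} (hu : InB e u) (hb : InB e b) :
    InB e (u * b) :=
  (H.hX _).1 (RingHom.IsIntegralElem.mul _ ((H.hX _).2 hu) ((H.hX _).2 hb))

omit [IsAlgClosed k] [CharZero k] [FiniteDimensional (RatFunc k) L] in
private theorem lcc2_mul (H : Bk e a i0) {c z : L} (hc : InB e c) (hz : lcc2_N e d z) :
    lcc2_N e d (c * z) := by
  obtain ⟨N, u, b, hu, hb, rfl⟩ := hz
  refine ⟨N, fun s => c * u s, b, fun s => lcc2_mulB H hc (hu s), hb, ?_⟩
  rw [Finset.mul_sum]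
  exact Finset.sum_congr rfl fun s _ => by rw [mul_assoc]

omit [IsAlgClosed k] [CharZero k] [FiniteDimensional (RatFunc k) L] in
private theorem lcc2_pol (H : Bk e a i0) (q : k[X]) :
    InB e (algebraMap (RatFunc k) L (pol q)) :=
  (H.hX _).1 (RingHom.isIntegralElem_map
    ((algebraMap (RatFunc k) L).comp (algebraMap k[X] (RatFunc k))) (x := q))

omit [IsAlgClosed k] [CharZero k] [FiniteDimensional (RatFunc k) L] in
private theorem lcc2_common {ι : Type*} (s : Finset ι) (b : k) (c : ι → RatFunc k)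
    (hc : ∀ i ∈ s, c i ∈ Rb b) : ∃ q : k[X], q.eval b ≠ 0 ∧ ∀ i ∈ s, IsPol (pol q * c i) := by
  classical
  induction s using Finset.induction_on with
  | empty => exact ⟨1, by rw [eval_one]; exact one_ne_zero, fun i hi => absurd hi (Finset.notMem_empty i)⟩
  | insert j s hj ih =>
    obtain ⟨q, hq, h⟩ := ih fun i hi => hc i (Finset.mem_insert_of_mem hi)
    obtain ⟨p', q', hq', h'⟩ := mem_Rb_iff.1 (hc j (Finset.mem_insert_self j s))
    refine ⟨q * q', ?_, ?_⟩
    · rw [eval_mul]; exact mul_ne_zero hq hq'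
    · intro i hi
      rcases Finset.mem_insert.1 hi with rfl | hi
      · refine ⟨q * p', ?_⟩
        rw [pol, pol, map_mul, map_mul, mul_assoc]
        change _ = _ * (pol q' * c i)
        rw [h']
      · obtain ⟨p, hp⟩ := h i hi
        refine ⟨p * q', ?_⟩
        rw [pol, pol, map_mul, map_mul]
        change pol p * _ = _
        rw [hp]
        ring

omit [IsAlgClosed k] [CharZero k] [FiniteDimensional (RatFunc k) L] in
private theorem lcc2_clear (H : Bk e a i0) (b : k) (z : L) (hz : IntS (Rb b) z) :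
    ∃ q : k[X], q.eval b ≠ 0 ∧ InB e (algebraMap (RatFunc k) L (pol q) * z) := by
  obtain ⟨q, hq, h⟩ := lcc2_common Finset.univ b (fun i => e.repr z i)
    fun i _ => (intRb_iff H.hX b z).1 hz i
  refine ⟨q, hq, fun i => ?_⟩
  rw [← Algebra.smul_def, map_smul, Finsupp.smul_apply, smul_eq_mul]
  exact h i (Finset.mem_univ i)

theorem Bk.genB (H : Bk e a i0) (hdK : ∀ p : k[X], dK (pol p) = pol (derivative p))
    (hd : ∀ r, d (algebraMap (RatFunc k) L r) = algebraMap (RatFunc k) L (dK r)) {z : L}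
    (hz : InM e z) : ∃ (N : ℕ) (u b : Fin N → L), (∀ s, InB e (u s)) ∧ (∀ s, InB e (b s)) ∧
      z = ∑ s, u s * d (b s) := by
  let I : Ideal k[X] :=
    { carrier := {q | lcc2_N e d (algebraMap (RatFunc k) L (pol q) * z)}
      zero_mem' := by
        change lcc2_N e d (algebraMap (RatFunc k) L (pol 0) * z)
        rw [pol, map_zero, map_zero, zero_mul]
        exact lcc2_zero
      add_mem' := by
        intro p q hp hq
        change lcc2_N e d (algebraMap (RatFunc k) L (pol (p + q)) * z)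
        rw [pol, map_add, map_add, add_mul]
        exact lcc2_add hp hq
      smul_mem' := by
        intro c q hq
        change lcc2_N e d (algebraMap (RatFunc k) L (pol (c * q)) * z)
        rw [pol, map_mul, map_mul, mul_assoc]
        exact lcc2_mul H (lcc2_pol H c) hq }
  have hmem : ∀ q, q ∈ I ↔ lcc2_N e d (algebraMap (RatFunc k) L (pol q) * z) := fun q => Iff.rfl
  have key : ∀ b : k, ∃ q ∈ I, q.eval b ≠ 0 := by
    intro b
    obtain ⟨w, hw, hw'⟩ := b_w H.hX hdK hd b
    obtain ⟨c, hc, hcz⟩ := hw' z hz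
    obtain ⟨q1, hq1, h1⟩ := lcc2_clear H b c hc
    obtain ⟨q2, hq2, h2⟩ := lcc2_clear H b w hw
    set q := q1 * q2 with hq
    have hqb : q.eval b ≠ 0 := by rw [hq, eval_mul]; exact mul_ne_zero hq1 hq2
    set Q : L := algebraMap (RatFunc k) L (pol q) with hQ
    have hQe : Q = algebraMap (RatFunc k) L (pol q1) * algebraMap (RatFunc k) L (pol q2) := by
      rw [hQ, hq, pol, map_mul, map_mul]
    have hQB : InB e Q := lcc2_pol H q
    have hQc : InB e (Q * c) := by
      have h3 := lcc2_mulB H (lcc2_pol H q2) h1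
      have h4 : Q * c = algebraMap (RatFunc k) L (pol q2) *
          (algebraMap (RatFunc k) L (pol q1) * c) := by rw [hQe]; ring
      rw [h4]; exact h3
    have hQw : InB e (Q * w) := by
      have h3 := lcc2_mulB H (lcc2_pol H q1) h2
      rw [hQe, mul_assoc]; exact h3
    refine ⟨q ^ 3, ?_, by rw [eval_pow]; exact pow_ne_zero 3 hqb⟩
    rw [hmem]
    have h5 : algebraMap (RatFunc k) L (pol (q ^ 3)) = Q ^ 3 := by
      rw [pol, map_pow, map_pow]
    have h6 : d (Q * w) = Q * d w + w * d Q := by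
      rw [Derivation.leibniz, smul_eq_mul, smul_eq_mul]
    have h7 : algebraMap (RatFunc k) L (pol (q ^ 3)) * z
        = (Q * c * Q) * d (Q * w) + (0 - Q * c * (Q * w)) * d Q := by
      rw [h5, hcz, h6]; ring
    rw [h7]
    exact lcc2_add (lcc2_one (lcc2_mulB H hQc hQB) hQw)
      (lcc2_one (inB_sub inB_zero (lcc2_mulB H hQc hQw)) hQB)
  have htop : (1 : k[X]) ∈ I := by
    by_contra h1
    have hg : (Submodule.IsPrincipal.generator I).degree ≠ 0 := by
      intro h0
      have hu := Polynomial.isUnit_iff_degree_eq_zero.2 h0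
      apply h1
      have h2 : I = ⊤ := Ideal.eq_top_of_isUnit_mem I (Submodule.IsPrincipal.generator_mem I) hu
      rw [h2]; exact Submodule.mem_top
    obtain ⟨b, hb⟩ := IsAlgClosed.exists_root _ hg
    obtain ⟨q, hqI, hqb⟩ := key b
    obtain ⟨r, hr⟩ := (Submodule.IsPrincipal.mem_iff_eq_smul_generator I).1 hqI
    apply hqb
    rw [hr, smul_eq_mul, eval_mul, hb.eq_zero, mul_zero]
  rw [hmem, pol, map_one, map_one, one_mul] at htop
  exact htop

private theorem lcc3_inM {f : Fin n → L}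
    (hf : ∀ i j, Tr k L (f i * e j) = if i = j then 1 else 0) (i : Fin n) : InM e (f i) := by
  intro j
  rw [hf]
  split_ifs
  · exact isPol_one
  · exact isPol_zero

private theorem lcc3_inMi {f : Fin n → L}
    (hf : ∀ i j, Tr k L (f i * e j) = if i = j then 1 else 0) (i : Fin n) :
    InMi e a ((RatFunc.X : RatFunc k) ^ ((a i : ℤ) - 2) • f i) := by
  intro j
  have h1 : Tr k L (((RatFunc.X : RatFunc k) ^ ((a i : ℤ) - 2) • f i) * e j) =
      (RatFunc.X : RatFunc k) ^ ((a i : ℤ) - 2) * Tr k L (f i * e j) := by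
    rw [smul_mul_assoc]
    exact map_smul (Tr k L) _ _
  rw [h1, hf]
  split_ifs with hij
  · rw [mul_one, hij]
    exact dle_zpow _
  · rw [mul_zero]
    exact dle_zero _

theorem Bk.cw (H : Bk e a i0) (hdK : ∀ p : k[X], dK (pol p) = pol (derivative p))
    (hd : ∀ r, d (algebraMap (RatFunc k) L r) = algebraMap (RatFunc k) L (dK r)) {f : Fin n → L}
    (hf : ∀ i j, Tr k L (f i * e j) = if i = j then 1 else 0) : Cw e a i0 f dK d := by
  obtain ⟨w, hw, hm⟩ := i_w H.hI hdK hd
  exact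
    { dK_pol := hdK
      d_alg := hd
      one := H.one
      a_zero := H.a_zero
      a_pos := H.a_pos
      mul := H.mul
      dual := hf
      derB := fun i j => b_del H.hX hdK hd (inB_e i) j
      derI := H.derI hdK hd
      genB := fun i => H.genB hdK hd (lcc3_inM hf i)
      genI := ⟨w, hw, fun i => hm _ (lcc3_inMi hf i)⟩ }

theorem Bk.cd (H : Bk e a i0) (hdK : ∀ p : k[X], dK (pol p) = pol (derivative p))
    (hd : ∀ r, d (algebraMap (RatFunc k) L r) = algebraMap (RatFunc k) L (dK r))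
    {δ : Derivation ℤ k k} {D : Derivation ℤ L L} (hD : IsLiftE δ D) : Cd e a d D := by
  obtain ⟨DK, hDK⟩ := exists_DK δ
  exact
    { br := fun u b hu hb => b_br H.hX hdK hd hDK (hD.alg hDK) hu hb
      inf := fun z hz => i_lift H.hI hDK (hD.alg hDK) hz }

omit [IsAlgClosed k] [CharZero k] in
private theorem lcc4_sum {a : Fin n → ℕ} (G : Ix a → RatFunc k) (j : Fin n) :
    ∑ c : Ix a, G c * (if c.1 = j then 1 else 0) = ∑ l : Fin (a j - 1), G ⟨j, l⟩ := by
  rw [Fintype.sum_sigma, Finset.sum_eq_single j]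
  · refine Finset.sum_congr rfl fun l _ => ?_
    rw [if_pos rfl, mul_one]
  · intro i _ hi
    refine Finset.sum_eq_zero fun l _ => ?_
    rw [if_neg hi, mul_zero]
  · intro h
    exact absurd (Finset.mem_univ j) h

omit [IsAlgClosed k] [CharZero k] in
private theorem lcc4_pol {p : k[X]} (h : pol p = 0) : p = 0 :=
  RatFunc.algebraMap_injective k (by rw [map_zero]; exact h)

omit [IsAlgClosed k] [CharZero k] in
private theorem lcc4_Xpow (l : ℕ) : pol ((X : k[X]) ^ l) = (RatFunc.X : RatFunc k) ^ l := by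
  change algebraMap k[X] (RatFunc k) (X ^ l) = _
  rw [map_pow, RatFunc.algebraMap_X]

omit [IsAlgClosed k] [CharZero k] in
private theorem lcc4_coeff (N : ℕ) (c : Fin N → k)
    (h : ∑ l, pol (C (c l)) * (RatFunc.X : RatFunc k) ^ (l : ℕ) = 0) (l : Fin N) : c l = 0 := by
  have h1 : pol (∑ l, C (c l) * X ^ (l : ℕ)) = 0 := by
    rw [← h]
    change algebraMap k[X] (RatFunc k) _ = _
    rw [map_sum]
    refine Finset.sum_congr rfl fun l _ => ?_
    rw [map_mul, map_pow, RatFunc.algebraMap_X]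
  have h2 := congrArg (fun p : k[X] => p.coeff (l : ℕ)) (lcc4_pol h1)
  simp only [finsetSum_coeff, coeff_C_mul_X_pow, coeff_zero] at h2
  rw [Finset.sum_eq_single l] at h2
  · rw [if_pos rfl] at h2
    exact h2
  · intro l' _ hl'
    rw [if_neg]
    intro h3
    exact hl' (Fin.ext h3.symm)
  · intro h3
    exact absurd (Finset.mem_univ l) h3

omit [IsAlgClosed k] [CharZero k] in
private theorem lcc4_neg (N : ℕ) (p : k[X]) (c : Fin N → k)
    (h : Dle (pol p - ∑ l, pol (C (c l)) * (RatFunc.X : RatFunc k) ^ (-((l : ℤ) + 1)))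
      (-((N : ℤ) + 1))) (l : Fin N) : c l = 0 := by
  have h1 : pol (X ^ N * p - ∑ l : Fin N, C (c l) * X ^ (N - 1 - (l : ℕ))) =
      (RatFunc.X : RatFunc k) ^ (N : ℤ) *
        (pol p - ∑ l, pol (C (c l)) * (RatFunc.X : RatFunc k) ^ (-((l : ℤ) + 1))) := by
    change algebraMap k[X] (RatFunc k) _ = _
    rw [map_sub, map_mul, map_sum, map_pow, RatFunc.algebraMap_X, mul_sub, zpow_natCast,
      Finset.mul_sum]
    congr 1
    refine Finset.sum_congr rfl fun l _ => ?_
    rw [map_mul, map_pow, RatFunc.algebraMap_X, mul_left_comm]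
    congr 1
    rw [← zpow_natCast, ← zpow_natCast, ← zpow_add₀ RatFunc.X_ne_zero]
    congr 1
    have := l.2
    omega
  have h2 : Dle (pol (X ^ N * p - ∑ l : Fin N, C (c l) * X ^ (N - 1 - (l : ℕ)))) (-1) := by
    rw [h1]
    have h3 : (-1 : ℤ) = -((N : ℤ) + 1) + N := by ring
    rw [h3]
    exact (dle_xpow_mul _ _ _).2 h
  have h4 := lcc4_pol (isPol_dle_neg (isPol_pol _) h2)
  have h5 := congrArg (fun p : k[X] => p.coeff (N - 1 - (l : ℕ))) h4
  simp only [coeff_sub, finsetSum_coeff, coeff_C_mul_X_pow, coeff_zero, coeff_X_pow_mul'] at h5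
  have hl := l.2
  rw [if_neg (by omega), Finset.sum_eq_single l, if_pos rfl, zero_sub, neg_eq_zero] at h5
  · exact h5
  · intro l' _ hl'
    rw [if_neg]
    intro h3
    have := l'.2
    exact hl' (Fin.ext (by omega))
  · intro h3
    exact absurd (Finset.mem_univ l) h3

omit [IsAlgClosed k] [CharZero k] [FiniteDimensional (RatFunc k) L] in
private theorem lcc4_dC (hdK : ∀ p : k[X], dK (pol p) = pol (derivative p))
    (hd : ∀ r, d (algebraMap (RatFunc k) L r) = algebraMap (RatFunc k) L (dK r)) (c : k) (z : L) :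
    d (pol (C c) • z) = pol (C c) • d z := by
  have h0 : pol (0 : k[X]) = 0 := map_zero (algebraMap k[X] (RatFunc k))
  rw [Algebra.smul_def, Derivation.leibniz, hd, hdK, derivative_C, h0, map_zero, smul_zero,
    add_zero, smul_eq_mul, Algebra.smul_def]

theorem Bk.indep (H : Bk e a i0) {f : Fin n → L} {m : Ix a → L} (HC : Cv e a i0 f m dK d)
    (r : II a → k) (g : L) (h : ∑ b, pol (C (r b)) • hh k f m b = d g) : r = 0 := by
  have hdK := HC.dK_pol
  have hd := HC.d_alg
  have hTrh : ∀ (c : Ix a) (j : Fin n), Tr k L (hh k f m (.inl c) * e j) =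
      (RatFunc.X : RatFunc k) ^ (c.2 : ℕ) * (if c.1 = j then 1 else 0) := by
    intro c j
    change Tr k L (((RatFunc.X : RatFunc k) ^ (c.2 : ℕ) • f c.1) * e j) = _
    rw [smul_mul_assoc, map_smul, smul_eq_mul, HC.dual]
  -- `g` is in `B`
  have hgB : InB e g := by
    refine b_int H.hX hdK hd ?_
    rw [← h]
    refine inM_sum _ _ fun b _ => inM_smul (isPol_pol _) ?_
    rcases b with c | c
    · exact inM_smul (isPol_xpow _) (HC.toCw.inM_f _)
    · exact HC.mM c
  -- `g' = g - ∑ r_c • fc c` is in `Ci`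
  obtain ⟨g', hg'⟩ : ∃ g', g' = g - ∑ c, pol (C (r (.inr c))) • fc e a c := ⟨_, rfl⟩
  have hdg' : d g' = ∑ c, pol (C (r (.inl c))) • hh k f m (.inl c) +
      ∑ c, pol (C (r (.inr c))) • (m c - d (fc e a c)) := by
    rw [hg', map_sub, ← h, Fintype.sum_sum_type, map_sum, add_sub_assoc]
    congr 1
    rw [← Finset.sum_sub_distrib]
    refine Finset.sum_congr rfl fun c _ => ?_
    rw [lcc4_dC hdK hd, smul_sub]
    rfl
  have hgCi : InCi e a g' := by
    refine i_int H.hI hdK hd ?_
    rw [hdg']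
    refine inMi_add (inMi_sum _ _ fun c _ => inMi_smul (dle_C _) fun j => ?_)
      (inMi_sum _ _ fun c _ => inMi_smul (dle_C _) (HC.mI c))
    rw [hTrh]
    by_cases hj : c.1 = j
    · rw [if_pos hj, mul_one, ← zpow_natCast]
      refine dle_mono (dle_zpow _) ?_
      have h5 := c.2.2
      have h6 : a c.1 = a j := by rw [hj]
      omega
    · rw [if_neg hj, mul_zero]
      exact dle_zero _
  have hrepr : ∀ j, e.repr g' j = e.repr g j - ∑ l : Fin (a j - 1),
      pol (C (r (.inr ⟨j, l⟩))) * (RatFunc.X : RatFunc k) ^ (-((l : ℤ) + 1)) := by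
    intro j
    rw [hg', map_sub, map_sum, Finsupp.sub_apply, Finsupp.finsetSum_apply]
    congr 1
    rw [← lcc4_sum (fun c : Ix a => pol (C (r (.inr c))) *
      (RatFunc.X : RatFunc k) ^ (-((c.2 : ℤ) + 1))) j]
    refine Finset.sum_congr rfl fun c _ => ?_
    unfold fc
    rw [map_smul, map_smul, Module.Basis.repr_self, Finsupp.smul_apply, Finsupp.smul_apply,
      Finsupp.single_apply, smul_eq_mul, smul_eq_mul, mul_assoc]
  have hr2 : ∀ c : Ix a, r (.inr c) = 0 := by
    rintro ⟨i, l⟩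
    obtain ⟨p, hp⟩ := hgB i
    have h1 := hgCi i
    rw [hrepr, ← hp] at h1
    have h2 := l.2
    have h3 : -(a i : ℤ) = -(((a i - 1 : ℕ) : ℤ) + 1) := by omega
    rw [h3] at h1
    exact lcc4_neg (a i - 1) p (fun l => r (.inr ⟨i, l⟩)) h1 l
  have hgg : g' = g := by
    rw [hg', sub_eq_self]
    refine Finset.sum_eq_zero fun c _ => ?_
    rw [hr2, map_zero]
    change algebraMap k[X] (RatFunc k) 0 • _ = _
    rw [map_zero, zero_smul]
  rw [hgg] at hgCi
  have hg0 : ∀ i, i ≠ i0 → e.repr g i = 0 := by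
    intro i hi
    refine isPol_dle_neg (hgB i) (dle_mono (hgCi i) ?_)
    have := H.a_pos i hi
    omega
  have hgi0 : ∃ c : k, e.repr g i0 = pol (C c) := by
    have h1 := hgCi i0
    rw [H.a_zero] at h1
    obtain ⟨c, hc⟩ := isPol_dle_coeff 0 (hgB i0) (dle_mono h1 (by norm_num))
    refine ⟨c 0, ?_⟩
    rw [hc, Fin.sum_univ_one, Fin.val_zero, pow_zero, mul_one]
  obtain ⟨c, hc⟩ := hgi0
  have hgc : g = pol (C c) • (1 : L) := by
    rw [← e.sum_repr g, Finset.sum_eq_single i0, hc, H.one]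
    · intro i _ hi
      rw [hg0 i hi, zero_smul]
    · intro h1
      exact absurd (Finset.mem_univ i0) h1
  have hdg0 : d g = 0 := by
    rw [hgc, lcc4_dC hdK hd, Derivation.map_one_eq_zero, smul_zero]
  have hr1 : ∀ c : Ix a, r (.inl c) = 0 := by
    rintro ⟨j, l⟩
    have h1 : ∑ c, pol (C (r (.inl c))) • hh k f m (.inl c) = 0 := by
      rw [Fintype.sum_sum_type, hdg0] at h
      rw [← h, left_eq_add]
      refine Finset.sum_eq_zero fun c _ => ?_
      rw [hr2, map_zero]
      change algebraMap k[X] (RatFunc k) 0 • _ = _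
      rw [map_zero, zero_smul]
    have h2 : Tr k L ((∑ c, pol (C (r (.inl c))) • hh k f m (.inl c)) * e j) = 0 := by
      rw [h1, zero_mul, map_zero]
    rw [Finset.sum_mul, map_sum] at h2
    have h3 : ∑ c : Ix a, pol (C (r (.inl c))) * (RatFunc.X : RatFunc k) ^ (c.2 : ℕ) *
        (if c.1 = j then 1 else 0) = 0 := by
      refine Eq.trans (Finset.sum_congr rfl fun c _ => ?_) h2
      rw [smul_mul_assoc, map_smul, smul_eq_mul, hTrh, mul_assoc]
    rw [lcc4_sum (fun c : Ix a => pol (C (r (.inl c))) * (RatFunc.X : RatFunc k) ^ (c.2 : ℕ)) j] at h3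
    exact lcc4_coeff (a j - 1) (fun l => r (.inl ⟨j, l⟩)) h3 l
  funext b
  rcases b with c | c
  · exact hr1 c
  · exact hr2 c

end MPadcCM
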