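import Pool.Agent.Lib.MP_adc574_ag_CM.Bka
import Pool.Agent.Lib.MP_adc574_ag_CM.Bkb
import Pool.Agent.Lib.MP_adc574_ag_CM.LcC

/-!
# Bkc: a Birkhoff basis of eigenvectors

`k` acts on `L` through `Algebra k L` with `IsScalarTower k (RatFunc k) L`, so `c • z = pol (C c) • z` (`algebraMap k (RatFunc k) c = pol (C c)`: `RatFunc.algebraMap_eq_C`, `RatFunc.algebraMap_C`).
* JOB BkcA (`exists_eig_basis`): start with `MPadcCov.birkhoff k L`: `e`, `a`, `hX`, `hI` (`n = finrank`). For `q : ℕ` let `V q := {z | InB e z ∧ ∀ i, Dle (e.repr z i) (q - a i)}` (a `k`-subspace of `L`; `= {z | IntX k z ∧ IntO k (X ^ (-q) • z)}` by `hX`, `hI`, `dle_xpow_mul`, so it is stable under every `σ : L ≃ₐ[RatFunc k] L`: `σ` fixes `k(x)`, hence preserves `IntX`, `IntO` (apply `σ` to the integral equation)).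
  For `z ∈ V q` and `a i = q` the coordinate `z_i` is a constant; `lam_q : L →ₗ[k] ({i // a i = q} → k)`: a `k`-linear map on `L` with `z_i = pol (C (lam_q z i))` for `z ∈ V q` (for instance compose `e.repr z i` with any `k`-linear map `RatFunc k → k` which is the identity on constants; such a map exists: `LinearMap.exists_leftInverse_of_injective` for `Algebra.linearMap k (RatFunc k)`). `lam_q` maps `e i` (`∈ V q`) to the unit vectors, so by `eig_span` (Bka; `V := L`, `U := V q`, `T σ := σ` as a `k`-linear map, `σ ∈ Γ`, `aut_finite`) the images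
  of the simultaneous eigenvectors in `V q` span. `basis_of_span` gives eigenvectors `g i ∈ V (a i)` (for all `i`, working with `q = a i`), with invertible blocks. `p i j` := the polynomial with `pol (p i j) = e.repr (g i) j`: `p i j = 0` for `a i < a j`, `natDegree ≤ a i - a j` (`RatFunc.intDegree_polynomial`), and `(p i j).coeff 0 = lam (g i) j` if `a i = a j`. `det_block`, `exists_new_basis`: a basis `g` with `InB g ↔ InB e ↔ IntX` and `InCi g a ↔ IntO`, of eigenvectors.
* JOB BkcB (`exists_i0`): for an arbitrary Birkhoff basis (`hX`, `hI`): there is exactly one `i0` with `a i0 = 0`, and `e i0 = pol (C c) • 1`, `c ≠ 0`. `R := {z | InB e z ∧ InCi e a z} = {z | IntX k z ∧ IntO k z}` is a `k`-subalgebra of `L` (`intX_mul`, `intO_mul`, ..), its elements are `∑_{a i = 0} pol (C c_i) • e i` (polynomials of degree `≤ -a i`), so it is finite dimensional over `k`: every `z ∈ R` is algebraic over `k` (`k`-algebra of finite dimension), so `z = pol (C c) • 1` (`IsAlgClosed.algebraMap_surjective_of_isIntegral`-type: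 the minimal polynomial of `z` over `k` has degree 1: `IsAlgClosed`
  and `L` has no zero divisors). `1 ∈ R`, `1 ≠ 0`, so some `a i = 0`; all `e i` with `a i = 0` lie in `R = k`; two of them would be linearly dependent over `k(x)`.
* JOB BkcC (`exists_bk`): combine: rescale `e i0` to `1` (`Module.Basis.unitsSMul` with the unit `pol (C c⁻¹)` at `i0` and `1` elsewhere: coordinates change by nonzero constants, so `InB`, `InCi` do not change, eigenvectors stay eigenvectors).
  `ch i σ`: a choice of `j : ZMod m₀` with `σ (e i) = ζ ^ j.val • e i`.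
* JOB BkcD (`Bk.gr0`, `hom_lift_e`): let `e` be a Birkhoff basis of eigenvectors. `hom_iff`: for `z ∈ L`, `g : Γ → ZMod m₀`: `Hom e ch g z ↔ ∀ σ : Γ, σ z = pol (C (ζ ^ (g σ).val)) • z`: compare coordinates: `ζ ^ (ch l σ).val = ζ ^ (g σ).val` iff `ch l σ = g σ` (`IsPrimitiveRoot.pow_inj`, `ZMod.val_lt`, `ZMod.val_injective`). `mul`: `σ (e i * e j) = ζ ^ (..) • ..`, `ζ ^ ((g + g') σ).val = ζ ^ (g σ).val * ζ ^ (g' σ).val` (`ZMod.val_add`, `ζ ^ m₀ = 1`, `pow_mod`-type).
  `der`: `σ ∘ d ∘ σ⁻¹ = d` : both are derivations which agree on `algebraMap r` (`σ` fixes it): `der_ext` (DeA). In `hom_lift_e` the same with `D` (`IsLiftE.alg`), and `D (ζ ^ j • z) = ζ ^ j • D z` because `δ (ζ ^ j) = 0`: `m₀ (ζ ^ j) ^ (m₀ - 1) δ (ζ ^ j) = δ 1 = 0`.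
-/

set_option autoImplicit false

namespace MPadcCM

open Polynomial MPadcCov

universe u

variable {k : Type*} [Field k] [IsAlgClosed k] [CharZero k] {L : Type*} [Field L]
  [Algebra (RatFunc k) L] [FiniteDimensional (RatFunc k) L]

theorem exists_eig_basis [Algebra k L] [IsScalarTower k (RatFunc k) L]
    (Γ : Set (L ≃ₐ[RatFunc k] L)) (hΓ : ∀ σ ∈ Γ, ∀ τ ∈ Γ, σ * τ = τ * σ) (m₀ : ℕ) [NeZero m₀]
    (hexp : ∀ σ ∈ Γ, σ ^ m₀ = 1) (ζ : k) (hζ : IsPrimitiveRoot ζ m₀) :
    ∃ (n : ℕ) (e : Module.Basis (Fin n) (RatFunc k) L) (a : Fin n → ℕ),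
      (∀ z, IntX k z ↔ InB e z) ∧ (∀ z, IntO k z ↔ InCi e a z) ∧
      ∀ i (σ : Γ), ∃ j : ZMod m₀, σ.1 (e i) = pol (C (ζ ^ j.val)) • e i := by
  classical
  have hpol1 : pol (1 : k[X]) = (1 : RatFunc k) := map_one _
  have hpinj : ∀ q : k[X], pol q = 0 → q = 0 := fun q h =>
    (IsFractionRing.injective k[X] (RatFunc k)) (h.trans (map_zero _).symm)
  obtain ⟨e, a, hX, hI⟩ := MPadcCov.birkhoff k L
  -- the constants
  have hpolC : ∀ c : k, algebraMap k (RatFunc k) c = pol (C c) := fun c => by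
    rw [IsScalarTower.algebraMap_apply k k[X] (RatFunc k) c, Polynomial.algebraMap_apply,
      Algebra.algebraMap_self, RingHom.id_apply]
  have hsm : ∀ (c : k) (z : L), c • z = pol (C c) • z := fun c z => by
    rw [← hpolC, algebraMap_smul]
  have hrep : ∀ (c : k) (z : L) (i), e.repr (c • z) i = pol (C c) * e.repr z i := fun c z i => by
    rw [hsm, map_smul, Finsupp.smul_apply, smul_eq_mul]
  -- the spaces V q
  let V : ℕ → Submodule k L := fun q =>
    { carrier := {z | ∀ i, IsPol (e.repr z i) ∧ Dle (e.repr z i) ((q : ℤ) - a i)}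
      zero_mem' := fun i => by
        rw [map_zero]
        exact ⟨isPol_zero, dle_zero _⟩
      add_mem' := fun {z w} hz hw i => by
        rw [map_add, Finsupp.add_apply]
        exact ⟨isPol_add (hz i).1 (hw i).1, dle_add (hz i).2 (hw i).2⟩
      smul_mem' := fun c z hz i => by
        rw [hrep]
        refine ⟨isPol_mul (isPol_pol _) (hz i).1, ?_⟩
        have h1 := dle_mul (dle_C c) (hz i).2
        rwa [zero_add] at h1 }
  have hV : ∀ q z, z ∈ V q ↔ ∀ i, IsPol (e.repr z i) ∧ Dle (e.repr z i) ((q : ℤ) - a i) :=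
    fun q z => Iff.rfl
  have hV' : ∀ (q : ℕ) z, z ∈ V q ↔
      IntX k z ∧ IntO k ((RatFunc.X : RatFunc k) ^ (-(q : ℤ)) • z) := by
    intro q z
    rw [hV, hX, hI]
    constructor
    · intro h
      refine ⟨fun i => (h i).1, fun i => ?_⟩
      rw [map_smul, Finsupp.smul_apply, smul_eq_mul]
      have h1 := (dle_xpow_mul (e.repr z i) ((q : ℤ) - a i) (-(q : ℤ))).2 (h i).2
      have h2 : (q : ℤ) - a i + -(q : ℤ) = -(a i : ℤ) := by ring
      rwa [h2] at h1
    · rintro ⟨h1, h2⟩ i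
      refine ⟨h1 i, ?_⟩
      have h3 := h2 i
      rw [map_smul, Finsupp.smul_apply, smul_eq_mul] at h3
      rw [← dle_xpow_mul (e.repr z i) ((q : ℤ) - a i) (-(q : ℤ))]
      have h4 : (q : ℤ) - a i + -(q : ℤ) = -(a i : ℤ) := by ring
      rwa [h4]
  have hint : ∀ {R : Type _} [CommRing R] (f : R →+* RatFunc k) (σ : L ≃ₐ[RatFunc k] L) (z : L),
      ((algebraMap (RatFunc k) L).comp f).IsIntegralElem z →
        ((algebraMap (RatFunc k) L).comp f).IsIntegralElem (σ z) := by
    rintro R _ f σ z ⟨P, hP, hz⟩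
    refine ⟨P, hP, ?_⟩
    have h1 := congrArg (σ : L → L) hz
    rw [map_zero] at h1
    have h2 : σ (Polynomial.eval₂ ((algebraMap (RatFunc k) L).comp f) z P) =
        Polynomial.eval₂ (((σ : L →+* L)).comp ((algebraMap (RatFunc k) L).comp f)) (σ z) P :=
      Polynomial.hom_eval₂ P _ (σ : L →+* L) z
    rw [h2] at h1
    have h3 : ((σ : L →+* L)).comp ((algebraMap (RatFunc k) L).comp f) =
        (algebraMap (RatFunc k) L).comp f := by
      ext r
      exact σ.commutes (f r)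
    rw [h3] at h1
    exact h1
  have hVσ : ∀ (q : ℕ) (σ : L ≃ₐ[RatFunc k] L) z, z ∈ V q → σ z ∈ V q := by
    intro q σ z hz
    rw [hV'] at hz ⊢
    refine ⟨hint _ σ z hz.1, ?_⟩
    have h1 := hint _ σ _ hz.2
    rw [map_smul] at h1
    exact h1
  -- the residue
  obtain ⟨π, hπ⟩ := (Algebra.linearMap k (RatFunc k)).exists_leftInverse_of_injective
    (LinearMap.ker_eq_bot.2 (algebraMap k (RatFunc k)).injective)
  have hπ' : ∀ c : k, π (pol (C c)) = c := fun c => by
    rw [← hpolC]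
    exact LinearMap.congr_fun hπ c
  let lam : ∀ q : ℕ, L →ₗ[k] ({i : Fin (Module.finrank (RatFunc k) L) // a i = q} → k) := fun q =>
    LinearMap.pi fun i => π.comp ((e.coord i.1).restrictScalars k)
  have hlam : ∀ q z i, lam q z i = π (e.repr z i.1) := fun q z i => rfl
  have hfin : Finite Γ := aut_finite Γ
  let T : Γ → (L →ₗ[k] L) := fun σ => (σ.1.toLinearMap).restrictScalars k
  have hT : ∀ σ z, T σ z = σ.1 z := fun σ z => rfl
  have hTpow : ∀ (σ : Γ) (m : ℕ) z, ((T σ) ^ m) z = (σ.1 ^ m) z := by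
    intro σ m
    induction m with
    | zero => intro z; rfl
    | succ m ih =>
      intro z
      rw [pow_succ, pow_succ]
      change ((T σ) ^ m) (T σ z) = (σ.1 ^ m) (σ.1 z)
      rw [ih, hT]
  have hspan : ∀ q, V q = Submodule.span k
      {z | z ∈ V q ∧ ∀ σ : Γ, ∃ j : ZMod m₀, T σ z = ζ ^ j.val • z} := by
    intro q
    refine eig_span m₀ ζ hζ T ?_ ?_ (V q) ?_
    · intro σ τ
      ext z
      have h1 := hΓ σ.1 σ.2 τ.1 τ.2
      exact congrArg (fun g : L ≃ₐ[RatFunc k] L => g z) h1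
    · intro σ
      ext z
      rw [hTpow, hexp σ.1 σ.2]
      rfl
    · intro σ z hz
      exact hVσ q σ.1 z hz
  have heV : ∀ i, e i ∈ V (a i) := by
    intro i j
    rw [Module.Basis.repr_self, Finsupp.single_apply]
    by_cases hij : i = j
    · subst hij
      rw [if_pos rfl, sub_self]
      refine ⟨isPol_one, ?_⟩
      have h1 := dle_C (1 : k)
      rwa [C_1, hpol1] at h1
    · rw [if_neg hij]
      exact ⟨isPol_zero, dle_zero _⟩
  have hex : ∀ q, ∃ g : {i : Fin (Module.finrank (RatFunc k) L) // a i = q} → L,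
      (∀ i, g i ∈ {z | z ∈ V q ∧ ∀ σ : Γ, ∃ j : ZMod m₀, T σ z = ζ ^ j.val • z}) ∧
      (Matrix.of fun i j => lam q (g i) j).det ≠ 0 := by
    intro q
    refine basis_of_span (lam q) _ ?_
    rw [← Submodule.map_span, ← hspan]
    rw [← (Pi.basisFun k {i : Fin (Module.finrank (RatFunc k) L) // a i = q}).span_eq,
      Submodule.span_le]
    rintro _ ⟨i, rfl⟩
    refine ⟨e i.1, ?_, ?_⟩
    · have h1 := heV i.1
      rwa [i.2] at h1
    · funext j
      rw [hlam, Module.Basis.repr_self, Pi.basisFun_apply, Finsupp.single_apply, Pi.single_apply]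
      by_cases hij : i = j
      · subst hij
        rw [if_pos rfl, if_pos rfl]
        have h1 := hπ' 1
        rwa [C_1, hpol1] at h1
      · rw [if_neg fun h => hij (Subtype.ext h), if_neg fun h => hij h.symm, map_zero]
  choose gf hgf hdet using hex
  obtain ⟨g, hg⟩ : ∃ g : Fin (Module.finrank (RatFunc k) L) → L, ∀ i, g i = gf (a i) ⟨i, rfl⟩ :=
    ⟨_, fun i => rfl⟩
  have hg' : ∀ q (i : {i : Fin (Module.finrank (RatFunc k) L) // a i = q}), g i.1 = gf q i := by
    rintro q ⟨i, rfl⟩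
    exact hg i
  have hgV : ∀ i, g i ∈ V (a i) := fun i => by
    rw [hg]
    exact (hgf (a i) ⟨i, rfl⟩).1
  choose p hp using fun i j => ((hV _ _).1 (hgV i) j).1
  have hpd : ∀ i j, Dle (pol (p i j)) ((a i : ℤ) - a j) := fun i j => by
    rw [hp]
    exact ((hV _ _).1 (hgV i) j).2
  have hp0 : ∀ i j, a i < a j → p i j = 0 := by
    intro i j hij
    have h1 : pol (p i j) = 0 :=
      isPol_dle_neg (isPol_pol _) (dle_mono (hpd i j) (by omega))
    exact hpinj _ h1
  have hpdeg : ∀ i j, a j ≤ a i → (p i j).natDegree ≤ a i - a j := by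
    intro i j hij
    rcases hpd i j with h | h
    · have h1 : p i j = 0 := hpinj _ h
      rw [h1, natDegree_zero]
      exact Nat.zero_le _
    · rw [RatFunc.intDegree_polynomial] at h
      omega
  obtain ⟨c, hc, hdc⟩ := det_block a p hp0 hpdeg (by
    intro q
    have h1 : (Matrix.of fun i j : {i : Fin (Module.finrank (RatFunc k) L) // a i = q} =>
        (p i j).coeff 0) = Matrix.of fun i j => lam q (gf q i) j := by
      ext i j
      rw [Matrix.of_apply, Matrix.of_apply, hlam, ← hg', ← hp]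
      have h2 : (p i.1 j.1).natDegree = 0 := by
        have h3 := hpdeg i.1 j.1 (by rw [i.2, j.2])
        rw [i.2, j.2, Nat.sub_self] at h3
        exact Nat.le_zero.1 h3
      rw [Polynomial.eq_C_of_natDegree_eq_zero h2, coeff_C_zero, hπ']
    rw [h1]
    exact hdet q)
  obtain ⟨g', hg'1, hg'2, hg'3⟩ := exists_new_basis e a p hp0 hpdeg c hc hdc
  refine ⟨_, g', a, fun z => (hX z).trans (hg'2 z).symm, fun z => (hI z).trans (hg'3 z).symm, ?_⟩
  intro i σ
  have h1 : g' i = g i := by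
    rw [hg'1, ← e.sum_repr (g i)]
    exact Finset.sum_congr rfl fun j _ => by rw [hp]
  obtain ⟨j, hj⟩ := (hgf (a i) ⟨i, rfl⟩).2 σ
  refine ⟨j, ?_⟩
  rw [h1, ← hsm, hg]
  exact hj

private theorem bkcb_const {n : ℕ} (e : Module.Basis (Fin n) (RatFunc k) L) (a : Fin n → ℕ)
    (hX : ∀ z, IntX k z ↔ InB e z) (hI : ∀ z, IntO k z ↔ InCi e a z) {z : L} (hz : IntX k z)
    (hz' : IntO k z) : ∃ c : k, z = algebraMap (RatFunc k) L (pol (C c)) := by
  let _ : Algebra k L := ((algebraMap (RatFunc k) L).comp (algebraMap k (RatFunc k))).toAlgebra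
  have halg : ∀ c : k, algebraMap k L c = algebraMap (RatFunc k) L (pol (C c)) := fun c => by
    change algebraMap (RatFunc k) L (algebraMap k (RatFunc k) c) = _
    rw [RatFunc.algebraMap_eq_C, ← RatFunc.algebraMap_C]
  have hX0 : ∀ c : k, IntX k (algebraMap (RatFunc k) L (pol (C c))) := fun c =>
    RingHom.isIntegralElem_map ((algebraMap (RatFunc k) L).comp (algebraMap k[X] (RatFunc k)))
      (x := C c)
  have hI0 : ∀ c : k, IntO k (algebraMap (RatFunc k) L (pol (C c))) := fun c =>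
    Birk.intO_scalar (dle_pol_iff.2 (Or.inr (by rw [natDegree_C]; exact le_rfl)))
  let R : Subalgebra k L :=
    { carrier := {w | IntX k w ∧ IntO k w}
      mul_mem' := fun h1 h2 => ⟨RingHom.IsIntegralElem.mul _ h1.1 h2.1, Birk.intO_mul h1.2 h2.2⟩
      one_mem' := ⟨RingHom.isIntegralElem_one _, Birk.intO_one⟩
      add_mem' := fun h1 h2 => ⟨RingHom.IsIntegralElem.add _ h1.1 h2.1, Birk.intO_add h1.2 h2.2⟩
      zero_mem' := ⟨RingHom.isIntegralElem_zero _, Birk.intO_zero⟩
      algebraMap_mem' := fun c => by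
        rw [halg]
        exact ⟨hX0 c, hI0 c⟩ }
  have hR : Subalgebra.toSubmodule R ≤ Submodule.span k (Set.range e) := by
    intro w hw
    rw [← e.sum_repr w]
    apply Submodule.sum_mem
    intro i _
    obtain ⟨p, hp⟩ := (hX w).1 hw.1 i
    have hd := (hI w).1 hw.2 i
    rw [← hp, dle_pol_iff] at hd
    have hpC : p = C (p.coeff 0) := by
      rcases hd with h | h
      · rw [h]; simp
      · apply eq_C_of_natDegree_eq_zero
        omega
    rw [← hp, hpC]
    have h1 : pol (C (p.coeff 0)) • e i = (p.coeff 0) • e i := by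
      rw [Algebra.smul_def, Algebra.smul_def, halg]
    rw [h1]
    exact Submodule.smul_mem _ _ (Submodule.subset_span ⟨i, rfl⟩)
  have hfd : FiniteDimensional k (Submodule.span k (Set.range e)) :=
    FiniteDimensional.span_of_finite k (Set.finite_range e)
  have hfd' : FiniteDimensional k (Subalgebra.toSubmodule R) := Submodule.finiteDimensional_of_le hR
  have hint : IsIntegral k z :=
    IsIntegral.of_mem_of_fg R (Module.Finite.iff_fg.1 hfd') z ⟨hz, hz'⟩
  have hdeg := IsAlgClosed.degree_eq_one_of_irreducible k (minpoly.irreducible hint)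
  obtain ⟨c, hc⟩ := minpoly.mem_range_of_degree_eq_one k z hdeg
  exact ⟨c, by rw [← halg]; exact hc.symm⟩

theorem exists_i0 {n : ℕ} (e : Module.Basis (Fin n) (RatFunc k) L) (a : Fin n → ℕ)
    (hX : ∀ z, IntX k z ↔ InB e z) (hI : ∀ z, IntO k z ↔ InCi e a z) :
    ∃ (i0 : Fin n) (c : k), c ≠ 0 ∧ e i0 = algebraMap (RatFunc k) L (pol (C c)) ∧ a i0 = 0 ∧
      ∀ i, i ≠ i0 → 1 ≤ a i := by
  -- some `a i` vanishes
  have h1 : ∃ i, a i = 0 := by
    by_contra hcon
    push Not at hcon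
    have hX1 : IntX k (1 : L) := RingHom.isIntegralElem_one _
    have h2 : (1 : L) = 0 := by
      rw [← e.sum_repr (1 : L)]
      apply Finset.sum_eq_zero
      intro i _
      obtain ⟨p, hp⟩ := (hX 1).1 hX1 i
      have hd := (hI 1).1 Birk.intO_one i
      rw [← hp, dle_pol_iff] at hd
      have hi : 1 ≤ a i := Nat.one_le_iff_ne_zero.2 (hcon i)
      have hp0 : p = 0 := by
        rcases hd with h | h
        · exact h
        · omega
      rw [← hp, hp0, pol, map_zero, zero_smul]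
    exact one_ne_zero h2
  have h3 : ∀ i, a i = 0 → ∃ c : k, e i = algebraMap (RatFunc k) L (pol (C c)) := by
    intro i hi
    apply bkcb_const e a hX hI
    · exact (hX _).2 (inB_basis i)
    · refine (hI _).2 fun j => ?_
      rw [e.repr_self, Finsupp.single_apply]
      split
      · next h =>
        right
        rw [RatFunc.intDegree_one, ← h, hi]
        simp
      · exact Or.inl rfl
  obtain ⟨i0, hi0⟩ := h1
  obtain ⟨c, hc⟩ := h3 i0 hi0
  have hc0 : c ≠ 0 := by
    rintro rfl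
    rw [C_0, pol, map_zero, map_zero] at hc
    exact e.ne_zero i0 hc
  refine ⟨i0, c, hc0, hc, hi0, fun i hi => ?_⟩
  by_contra hcon
  have hi' : a i = 0 := by omega
  obtain ⟨c', hc'⟩ := h3 i hi'
  have hc0' : c' ≠ 0 := by
    rintro rfl
    rw [C_0, pol, map_zero, map_zero] at hc'
    exact e.ne_zero i hc'
  have h4 : pol (C c') • e i0 = pol (C c) • e i := by
    rw [hc, hc', Algebra.smul_def, Algebra.smul_def, mul_comm]
  have h5 : e.repr (pol (C c') • e i0) i0 = e.repr (pol (C c) • e i) i0 := by rw [h4]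
  rw [map_smul, map_smul, e.repr_self, e.repr_self, Finsupp.smul_apply, Finsupp.smul_apply,
    Finsupp.single_eq_same, Finsupp.single_eq_of_ne (Ne.symm hi), smul_zero, smul_eq_mul,
    mul_one] at h5
  rw [pol, map_eq_zero_iff _ pol_injective, C_eq_zero] at h5
  exact hc0' h5

theorem exists_bk (Γ : Set (L ≃ₐ[RatFunc k] L)) (hΓ : ∀ σ ∈ Γ, ∀ τ ∈ Γ, σ * τ = τ * σ) (m₀ : ℕ)
    (hm₀ : 0 < m₀) (hexp : ∀ σ ∈ Γ, σ ^ m₀ = 1) (ζ : k) (hζ : IsPrimitiveRoot ζ m₀) :
    ∃ (n : ℕ) (e : Module.Basis (Fin n) (RatFunc k) L) (a : Fin n → ℕ) (i0 : Fin n)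
      (ch : Fin n → (Γ → ZMod m₀)), Bk e a i0 ∧
      ∀ i (σ : Γ), σ.1 (e i) = pol (C (ζ ^ (ch i σ).val)) • e i := by
  classical
  let _ : Algebra k L := ((algebraMap (RatFunc k) L).comp (algebraMap k (RatFunc k))).toAlgebra
  have _ : IsScalarTower k (RatFunc k) L := IsScalarTower.of_algebraMap_eq fun _ => rfl
  have _ : NeZero m₀ := ⟨hm₀.ne'⟩
  obtain ⟨n, e, a, hX, hI, he⟩ := exists_eig_basis Γ hΓ m₀ hexp ζ hζ
  obtain ⟨i0, c, hc, he0, ha0, hpos⟩ := exists_i0 e a hX hI
  have hpc : pol (C c) ≠ 0 := by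
    intro h
    apply hc
    have h1 : (C c : k[X]) = 0 :=
      (IsFractionRing.injective k[X] (RatFunc k)) (h.trans (map_zero _).symm)
    exact C_eq_zero.1 h1
  have hpol1 : pol (1 : k[X]) = (1 : RatFunc k) := map_one _
  have hpc' : pol (C c⁻¹) * pol (C c) = (1 : RatFunc k) := by
    rw [← map_mul, ← C_mul, inv_mul_cancel₀ hc, C_1]
    exact hpol1
  obtain ⟨w, hw⟩ : ∃ w : Fin n → (RatFunc k)ˣ, ∀ i, ∃ b b' : k,
      ((w i : (RatFunc k)ˣ) : RatFunc k) = pol (C b) ∧
      ((w i)⁻¹ : (RatFunc k)ˣ) = pol (C b') ∧ (i = i0 → b = c⁻¹) := by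
    have h1 : ∀ i : Fin n, ∃ v : (RatFunc k)ˣ, ∃ b b' : k, (v : RatFunc k) = pol (C b) ∧
        (v⁻¹ : (RatFunc k)ˣ) = pol (C b') ∧ (i = i0 → b = c⁻¹) := by
      intro i
      by_cases hi : i = i0
      · exact ⟨⟨pol (C c⁻¹), pol (C c), hpc', by rw [mul_comm, hpc']⟩, c⁻¹, c, rfl, rfl,
          fun _ => rfl⟩
      · refine ⟨1, 1, 1, ?_, ?_, fun h => absurd h hi⟩
        · rw [C_1, hpol1, Units.val_one]
        · rw [C_1, hpol1, inv_one, Units.val_one]
    choose w hw using h1
    exact ⟨w, hw⟩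
  choose b b' hb hb' hb0 using hw
  have hrep : ∀ z i, (e.unitsSMul w).repr z i = pol (C (b' i)) * e.repr z i := by
    intro z i
    rw [Module.Basis.repr_unitsSMul, Units.smul_def, hb', smul_eq_mul]
  have hrep' : ∀ z i, e.repr z i = pol (C (b i)) * (e.unitsSMul w).repr z i := by
    intro z i
    rw [hrep, ← mul_assoc, ← hb, ← hb', Units.mul_inv, one_mul]
  have hInB : ∀ z, InB (e.unitsSMul w) z ↔ InB e z := by
    intro z
    constructor
    · intro h i
      rw [hrep']
      exact isPol_mul (isPol_pol _) (h i)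
    · intro h i
      rw [hrep]
      exact isPol_mul (isPol_pol _) (h i)
  have hInCi : ∀ z, InCi (e.unitsSMul w) a z ↔ InCi e a z := by
    intro z
    constructor
    · intro h i
      rw [hrep']
      have h1 := dle_mul (dle_C (b i)) (h i)
      rwa [zero_add] at h1
    · intro h i
      rw [hrep]
      have h1 := dle_mul (dle_C (b' i)) (h i)
      rwa [zero_add] at h1
  have he' : ∀ i, e.unitsSMul w i = pol (C (b i)) • e i := by
    intro i
    rw [Module.Basis.unitsSMul_apply, Units.smul_def, hb]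
  choose ch hch using he
  refine ⟨n, e.unitsSMul w, a, i0, ch, ⟨fun z => (hX z).trans (hInB z).symm,
    fun z => (hI z).trans (hInCi z).symm, ?_, ha0, hpos⟩, ?_⟩
  · rw [he', he0, hb0 i0 rfl, Algebra.smul_def, ← map_mul, hpc', map_one]
  · intro i σ
    rw [he', map_smul, hch, smul_comm]

section

variable {Γ : Set (L ≃ₐ[RatFunc k] L)} {m₀ : ℕ} (hm₀ : 0 < m₀) {ζ : k} (hζ : IsPrimitiveRoot ζ m₀)
  {n : ℕ} {e : Module.Basis (Fin n) (RatFunc k) L} {ch : Fin n → (Γ → ZMod m₀)}
  (hch : ∀ i (σ : Γ), σ.1 (e i) = pol (C (ζ ^ (ch i σ).val)) • e i)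

include hm₀ hζ hch

omit hm₀ hζ [IsAlgClosed k] [CharZero k] [FiniteDimensional (RatFunc k) L] in
private theorem bkcd_repr (σ : Γ) (z : L) (l : Fin n) :
    e.repr (σ.1 z) l = pol (C (ζ ^ (ch l σ).val)) * e.repr z l := by
  classical
  have h1 : σ.1 z = ∑ i, (e.repr z i * pol (C (ζ ^ (ch i σ).val))) • e i := by
    conv_lhs => rw [← e.sum_repr z]
    rw [map_sum]
    refine Finset.sum_congr rfl fun i _ => ?_
    rw [map_smul, hch i σ, smul_smul]
  rw [h1, e.repr_sum_self, mul_comm]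

omit [IsAlgClosed k] [FiniteDimensional (RatFunc k) L] hch in
private theorem bkcd_root (dK : Derivation ℤ (RatFunc k) (RatFunc k)) (j : ℕ) :
    dK (pol (C (ζ ^ j))) = 0 := by
  have h1 : (pol (C (ζ ^ j)) : RatFunc k) ^ m₀ = 1 := by
    rw [← map_pow, ← map_pow, ← pow_mul, mul_comm, pow_mul, hζ.pow_eq_one, one_pow, map_one, map_one]
  have h2 : dK ((pol (C (ζ ^ j)) : RatFunc k) ^ m₀) = 0 := by
    rw [h1]
    exact dK.map_one_eq_zero
  rw [Derivation.leibniz_pow] at h2
  have h0 : (pol (C (ζ ^ j)) : RatFunc k) ≠ 0 := by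
    intro h
    rw [h, zero_pow hm₀.ne'] at h1
    exact zero_ne_one h1
  rw [nsmul_eq_mul, smul_eq_mul] at h2
  rcases mul_eq_zero.mp h2 with h3 | h3
  · exact absurd (Nat.cast_eq_zero.mp h3) hm₀.ne'
  · rcases mul_eq_zero.mp h3 with h4 | h4
    · exact absurd h4 (pow_ne_zero _ h0)
    · exact h4

omit [IsAlgClosed k] [CharZero k] [FiniteDimensional (RatFunc k) L] hch in
private theorem bkcd_inj (x y : ZMod m₀)
    (h : (pol (C (ζ ^ x.val)) : RatFunc k) = pol (C (ζ ^ y.val))) : x = y := by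
  have : NeZero m₀ := ⟨hm₀.ne'⟩
  have h1 : ζ ^ x.val = ζ ^ y.val :=
    C_injective ((IsFractionRing.injective k[X] (RatFunc k)) h)
  exact ZMod.val_injective m₀ (hζ.pow_inj (ZMod.val_lt x) (ZMod.val_lt y) h1)

omit hm₀ hζ hch in
private theorem bkcd_comm (b : Module.Basis (Fin n) (RatFunc k) L)
    {K₁ : Derivation ℤ (RatFunc k) (RatFunc k)} {d : Derivation ℤ L L}
    (hd : ∀ r, d (algebraMap (RatFunc k) L r) = algebraMap (RatFunc k) L (K₁ r))
    (σ : L ≃ₐ[RatFunc k] L) (z : L) : σ (d z) = d (σ z) := by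
  obtain ⟨f, hf⟩ := exists_dual b
  let δ₁ : L →+ L :=
    { toFun := fun w => σ (d w)
      map_zero' := by rw [map_zero, map_zero]
      map_add' := fun x y => by rw [map_add, map_add] }
  let δ₂ : L →+ L :=
    { toFun := fun w => d (σ w)
      map_zero' := by rw [map_zero, map_zero]
      map_add' := fun x y => by rw [map_add, map_add] }
  refine der_ext b f hf (σ : L →+* L) δ₁ δ₂ (fun x y => ?_) (fun x y => ?_) (fun c => ?_) z
  · change σ (d (x * y)) = σ x * σ (d y) + σ y * σ (d x)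
    rw [Derivation.leibniz, map_add, smul_eq_mul, smul_eq_mul, map_mul, map_mul]
  · change d (σ (x * y)) = σ x * d (σ y) + σ y * d (σ x)
    rw [map_mul, Derivation.leibniz, smul_eq_mul, smul_eq_mul]
  · change σ (d (algebraMap (RatFunc k) L c)) = d (σ (algebraMap (RatFunc k) L c))
    rw [AlgEquiv.commutes, hd, AlgEquiv.commutes]

theorem hom_iff (g : Γ → ZMod m₀) (z : L) :
    Hom e ch g z ↔ ∀ σ : Γ, σ.1 z = pol (C (ζ ^ (g σ).val)) • z := by
  constructor
  · intro h σ
    refine e.repr.injective (Finsupp.ext fun l => ?_)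
    rw [bkcd_repr hch, map_smul, Finsupp.smul_apply, smul_eq_mul]
    by_cases h0 : e.repr z l = 0
    · rw [h0, mul_zero, mul_zero]
    · rw [h l h0]
  · intro h l h0
    funext σ
    have h1 := congrArg (fun w => e.repr w l) (h σ)
    rw [bkcd_repr hch, map_smul, Finsupp.smul_apply, smul_eq_mul] at h1
    exact bkcd_inj hm₀ hζ _ _ (mul_right_cancel₀ h0 h1)

theorem gr0_of_eig {dK : Derivation ℤ (RatFunc k) (RatFunc k)} {d : Derivation ℤ L L}
    (hd : ∀ r, d (algebraMap (RatFunc k) L r) = algebraMap (RatFunc k) L (dK r)) :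
    Gr0 e ch d := by
  have : NeZero m₀ := ⟨hm₀.ne'⟩
  refine ⟨fun i j => ?_, fun i => ?_⟩
  · refine (hom_iff hm₀ hζ hch (ch i + ch j) (e i * e j)).mpr fun σ => ?_
    rw [map_mul, hch i σ, hch j σ, smul_mul_smul_comm, ← map_mul, ← C_mul, Pi.add_apply,
      ZMod.val_add, ← pow_add, ← pow_mod_orderOf ζ ((ch i σ).val + (ch j σ).val), ← hζ.eq_orderOf]
  · refine (hom_iff hm₀ hζ hch (ch i) (d (e i))).mpr fun σ => ?_
    rw [bkcd_comm e hd, hch i σ, Algebra.smul_def, Derivation.leibniz, hd, bkcd_root hm₀ hζ, map_zero,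
      smul_zero, add_zero, smul_eq_mul, ← Algebra.smul_def]

theorem hom_lift {δ : Derivation ℤ k k} {D : Derivation ℤ L L} (hD : IsLiftE δ D)
    (g : Γ → ZMod m₀) (z : L) (hz : Hom e ch g z) : Hom e ch g (D z) := by
  obtain ⟨DK, hDK⟩ := exists_DK δ
  have hd := hD.alg hDK
  rw [hom_iff hm₀ hζ hch] at hz ⊢
  intro σ
  rw [bkcd_comm e hd, hz σ, Algebra.smul_def, Derivation.leibniz, hd, bkcd_root hm₀ hζ, map_zero,
    smul_zero, add_zero, smul_eq_mul, ← Algebra.smul_def]

end

end MPadcCM
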