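import Pool.Agent.Lib.MP_adc574_ag_Cov.SpecDef
import Pool.Agent.Lib.MP_adc574_ag_Cov.RegK

/-!
# Big monodromy for curves: definitions

`κ` is a field, `E` a commutative algebra over `κ(x)` with a `κ(x)`-basis `e` of degrees `a`, `f` the dual basis
for the trace, `d = d/dx`. Lattices: `B = InB e` (coordinates in `κ[x]`), `Ci = InCi e a` (coordinates of degree `≤ -a i`),
`M = InM e` (the trace dual of `B`), `Mi = InMi e a` (`deg Tr (z e i) ≤ a i - 2` for all `i`). `M ∩ Mi = InReg e a` are the regular forms `z dx`.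
-/

set_option autoImplicit false

namespace MPadcCM

open Polynomial MPadcCov

universe u

section

variable {κ : Type*} [Field κ] {E : Type*} [CommRing E] [Algebra (RatFunc κ) E] {n : ℕ}
  (e : Module.Basis (Fin n) (RatFunc κ) E) (a : Fin n → ℕ)

/-- Membership in the lattice `Ci` of the functions without poles over `x = ∞`. -/
def InCi (z : E) : Prop := ∀ i, Dle (e.repr z i) (-(a i : ℤ))

/-- Membership in the lattice `Mi` of the functions `z` such that `z dx` has no poles over `x = ∞`. -/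
def InMi (z : E) : Prop := ∀ i, Dle (Tr κ E (z * e i)) ((a i : ℤ) - 2)

/-- The functions `x ^ (-l) e i`, `1 ≤ l ≤ a i - 1`. -/
noncomputable def fc (c : Ix a) : E := (RatFunc.X : RatFunc κ) ^ (-((c.2 : ℤ) + 1)) • e c.1

/-- The index set of the basis of the first cohomology. -/
abbrev II {n : ℕ} (a : Fin n → ℕ) : Type := Ix a ⊕ Ix a

/-- The basis of the first cohomology: the regular forms `x ^ l f i`, `0 ≤ l ≤ a i - 2`, and the forms of the
second kind `m c`. -/
noncomputable def hh (κ : Type*) [Field κ] {E : Type*} [CommRing E] [Algebra (RatFunc κ) E] {n : ℕ}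
    {a : Fin n → ℕ} (f : Fin n → E) (m : Ix a → E) : II a → E
  | .inl c => (RatFunc.X : RatFunc κ) ^ (c.2 : ℕ) • f c.1
  | .inr c => m c

/-- A cover of the line with a Birkhoff basis `e` of degrees `a` and the dual basis `f`. -/
structure Cw (i0 : Fin n) (f : Fin n → E)
    (dK : Derivation ℤ (RatFunc κ) (RatFunc κ)) (d : Derivation ℤ E E) : Prop where
  dK_pol : ∀ p : κ[X], dK (pol p) = pol (derivative p)
  d_alg : ∀ r, d (algebraMap (RatFunc κ) E r) = algebraMap (RatFunc κ) E (dK r)
  one : e i0 = 1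
  a_zero : a i0 = 0
  a_pos : ∀ i, i ≠ i0 → 1 ≤ a i
  mul : ∀ i j k, IsPol (e.repr (e i * e j) k) ∧ Dle (e.repr (e i * e j) k) ((a i : ℤ) + a j - a k)
  dual : ∀ i j, Tr κ E (f i * e j) = if i = j then 1 else 0
  derB : ∀ i j, IsPol (Tr κ E (d (e i) * e j))
  derI : ∀ i j, Dle (Tr κ E (d (e i) * e j) - (a i : RatFunc κ) * RatFunc.X⁻¹ * Tr κ E (e i * e j))
    ((a i : ℤ) + a j - 2)
  genB : ∀ i, ∃ (N : ℕ) (u b : Fin N → E), (∀ s, InB e (u s)) ∧ (∀ s, InB e (b s)) ∧
    f i = ∑ s, u s * d (b s)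
  genI : ∃ w, InCi e a w ∧ ∀ i, ∃ c, InCi e a c ∧
    (RatFunc.X : RatFunc κ) ^ ((a i : ℤ) - 2) • f i = c * d w

/-- A cover of the line with a Birkhoff basis `e` of degrees `a`, the dual basis `f`, and `m c ∈ M` with
`m c - d (fc c) ∈ Mi`. -/
structure Cv (i0 : Fin n) (f : Fin n → E) (m : Ix a → E)
    (dK : Derivation ℤ (RatFunc κ) (RatFunc κ)) (d : Derivation ℤ E E) : Prop
    extends Cw e a i0 f dK d where
  mM : ∀ c, InM e (m c)
  mI : ∀ c, InMi e a (m c - d (fc e a c))

/-- The form `φ dx` is of the second kind: exact up to a form in `M`, and exact up to a form in `Mi`. -/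
def SK2 (d : Derivation ℤ E E) (φ : E) : Prop :=
  (∃ x G, InM e x ∧ φ = x + d G) ∧ ∃ x G, InMi e a x ∧ φ = x + d G

/-- The derivation `D` of `E` extends the derivation `δ` of `κ` and `D x = 0`. -/
def IsLiftE (δ : Derivation ℤ κ κ) (D : Derivation ℤ E E) : Prop :=
  ∀ p : κ[X], D (algebraMap (RatFunc κ) E (pol p)) = algebraMap (RatFunc κ) E (pol (cD δ p))

/-- The two properties of the derivation `D` (with `D x = 0`) which make it act on the forms of the second kind. -/
structure Cd (d D : Derivation ℤ E E) : Prop where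
  br : ∀ u b, InB e u → InB e b → InM e (D u * d b - d u * D b)
  inf : ∀ z, InCi e a z → InCi e a (D z)

/-- The algebra `E` is graded by the additive group `X`, `e i` has the degree `ch i` and `d` preserves the grading. -/
structure Gr0 {X : Type*} [AddCommGroup X] (ch : Fin n → X) (d : Derivation ℤ E E) : Prop where
  mul : ∀ i j l, e.repr (e i * e j) l ≠ 0 → ch l = ch i + ch j
  der : ∀ i l, e.repr (d (e i)) l ≠ 0 → ch l = ch i

/-- The algebra `E` is graded by the additive group `X` and `e i` has the degree `ch i`; the forms `m c` are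
homogeneous and `d` preserves the grading. -/
structure Gr {a : Fin n → ℕ} {X : Type*} [AddCommGroup X] (ch : Fin n → X) (m : Ix a → E)
    (d : Derivation ℤ E E) : Prop extends Gr0 e ch d where
  mgr : ∀ c l, e.repr (m c) l ≠ 0 → ch l = ch c.1

/-- The degree of the form `hh κ f m b`. -/
def gr {a : Fin n → ℕ} {X : Type*} [AddCommGroup X] (ch : Fin n → X) : II a → X
  | .inl c => -ch c.1
  | .inr c => ch c.1

/-- `D (h b) = ∑ G b' b h b' + d g`. -/
def Rel {a : Fin n → ℕ} (f : Fin n → E) (m : Ix a → E) (d D : Derivation ℤ E E) (G : II a → II a → κ) : Prop :=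
  ∀ b, ∃ g, D (hh κ f m b) = ∑ b', pol (C (G b' b)) • hh κ f m b' + d g

end

/-- A finitely generated ring with derivations which span all derivations into the field `k`. -/
structure Good {k : Type u} [Field k] (A : Subalgebra ℤ k) {m : ℕ} (D : Fin m → Derivation ℤ A A) :
    Prop where
  fg : A.FG
  der : ∀ D' : Derivation ℤ k k, ∃ a : Fin m → k, ∀ x : A, D' (x : k) = ∑ l, a l * ((D l x : A) : k)

/-- The specialization of the cover along all homomorphisms `ψ : A → κ`. -/
def Specs {k : Type u} [Field k] (A : Subalgebra ℤ k) {n : ℕ} (a : Fin n → ℕ) (i0 : Fin n)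
    {Y : Type*} [AddCommGroup Y] (ch : Fin n → Y)
    (s : Fin n → Fin n → Fin n → A[X]) (F : A[X][X]) {m : ℕ} (D : Fin m → Derivation ℤ A A)
    (G : Fin m → II a → II a → A) : Prop :=
  ∀ (κ : Type u) [Field κ] (ψ : A →+* κ), ∃ (E : Type u) (_ : CommRing E)
    (_ : Algebra (RatFunc κ) E) (e : Module.Basis (Fin n) (RatFunc κ) E) (f : Fin n → E) (m' : Ix a → E)
    (dK : Derivation ℤ (RatFunc κ) (RatFunc κ)) (d : Derivation ℤ E E),
    Cv e a i0 f m' dK d ∧ Gr e ch m' d ∧ (∀ i j l, e.repr (e i * e j) l = pol ((s i j l).map ψ)) ∧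
    Nonempty (FR κ (F.map (mapRingHom ψ)) ≃ₐ[RatFunc κ] E) ∧
    ∀ (l : Fin m) (δ : Derivation ℤ κ κ), (∀ x, δ (ψ x) = ψ (D l x)) →
      ∃ D' : Derivation ℤ E E, IsLiftE δ D' ∧ Rel f m' d D' fun b' b => ψ (G l b' b)

end MPadcCM
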