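import Pool.Agent.Lib.MP_adc574_ag_CM.PD
import Pool.Agent.Lib.MP_adc574_ag_CM.Defs

/-!
# PH: a cover `Cv` in characteristic `p` satisfies `PCv`

JOB PH. `H : Cv e a i0 f m dK d`.
* `Cv.trd`: `Tr (d z) = dK (Tr z)`. Copy the proof of the private theorem `SpecC_trder` in Cov/SpecC.lean (it needs only the basis `e` and `d_alg`).
* `Cv.sepE`: a `κ(x)`-linear derivation `Δ` of `E` is zero. `Tr (Δ z) = 0` for all `z`: `Tr z = ∑ k, e.repr (z * e k) k` (`tr_eq_sum`); with the matrix `X` of multiplication by `z` and the matrix `N` of `Δ`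
  the matrix of multiplication by `Δ z` is `N X - X N` (Leibniz: `Δ (z y) = z Δ y + y Δ z`): use `Algebra.trace`/`LinearMap.trace`: `LinearMap.mulLeft (Δ z) = Δ ∘ mulLeft z - mulLeft z ∘ Δ` and `LinearMap.trace_mul_comm` (`LinearMap.trace_comp_comm'`).
  The same for the derivation `w • Δ`: `Tr (w * Δ z) = 0` for all `w`, `z`. With `w = f j`... : `y := Δ z`, `y = ∑ i, (e.repr y i) e i` and `Tr (f j * y) = e.repr y j` by `dual`: so all coordinates of `y` are zero.
* `Cv.dMi`: `z = ∑ i, r i • e i`, `Dle (r i) (-(a i))`. `Tr (d z * e j) = ∑ i, (dK (r i) + a i * X⁻¹ * r i) * Tr (e i * e j) + ∑ i, r i * (Tr (d (e i) * e j) - a i * X⁻¹ * Tr (e i * e j))` (`repr_deriv`-like: `d (r • e i) = dK r • e i + r • d (e i)`).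
  Second sum: `derI`, degree `≤ -(a i) + a i + a j - 2`. First sum: `Dle (Tr (e i * e j)) (a i + a j)` (`Tr (e i * e j)`: `DDeg.tr`-like, or `Tr z = ∑ k, e.repr (z * e k) k` and `mul`; the helper `mulBD` of PD gives `BDeg e a (a i + a j + a k) (e i * e j * e k)`, coordinate `k`: degree `≤ a i + a j`),
  and `Dle (dK r + a * X⁻¹ * r) (-a - 2)` if `Dle r (-a)` (`a : ℕ`, cast to `RatFunc κ`): put `s = X ^ a * r` (`Dle s 0`); `X ^ a * (dK r + a X⁻¹ r) = dK s`, and `Dle (dK s) (-2)` for `Dle s 0`: `s = num / den` with `natDegree num ≤ natDegree den`: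
  `pol q * s = pol p` (`exists_rep`), `pol (q ^ 2) * dK s = pol (p' q - p q')` and `natDegree (p' q - p q') ≤ 2 natDegree q - 2` or it is zero (if `natDegree p < natDegree q` each product has degree `≤ natDegree p + natDegree q - 1 ≤ 2 natDegree q - 2`; if `natDegree p = natDegree q = N` the coefficient of `x ^ (2 N - 1)` is `N p_N q_N - N p_N q_N = 0`; subtract the constant `p_N / q_N` from `s` first: then `natDegree p < natDegree q`). `dle_of_mul`.
* `Cv.iterp`: `d^[p] z = 0`: copy `Cov0.iterate_p` in Cov/ExE.lean together with its private lemmas `ExE_iter`, `ExE_iterp`, `ExE_ratfunc` (rename them), with `H.sepE` instead of `H.sep`.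
* `Cv.pcv`: the fields; `InCi` is `BDeg e a 0` (`0 - a i = - a i`), `InMi` is `DDeg e a (-2)`; `geni` from `genI`: multiply by `X ^ 2` (`X ^ (a i - 2) * X ^ 2 = X ^ a i`, `Algebra.smul_def`).
* `Cv.inReg`: regular forms. Copy `Cov0.isReg_inReg` of Cov/RegE.lean with its private lemmas (it uses only `one` and `mul`; here `1 = e i0`, `a i0 = 0`, so `e.repr 1 k = if k = i0 then 1 else 0`).
-/

set_option autoImplicit false

namespace MPadcCM

open Polynomial MPadcCov

variable {κ : Type*} [Field κ] {E : Type*} [CommRing E] [Algebra (RatFunc κ) E] {n : ℕ}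
  {e : Module.Basis (Fin n) (RatFunc κ) E} {a : Fin n → ℕ} {i0 : Fin n} {f : Fin n → E} {m : Ix a → E}
  {dK : Derivation ℤ (RatFunc κ) (RatFunc κ)} {d : Derivation ℤ E E}

private theorem pha_iter {A : Type*} [CommRing A] (D : A → A)
    (hadd : ∀ x y, D (x + y) = D x + D y) (hmul : ∀ x y, D (x * y) = x * D y + y * D x)
    (a b : A) (n : ℕ) :
    (D^[n]) (a * b) = ∑ ij ∈ Finset.HasAntidiagonal.antidiagonal n,
      n.choose ij.1 • ((D^[ij.1]) a * (D^[ij.2]) b) := by
  have h0 : D 0 = 0 := by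
    have h1 := hadd 0 0
    rw [add_zero] at h1
    exact left_eq_add.mp h1
  let D' : A →+ A := { toFun := D, map_zero' := h0, map_add' := hadd }
  have hsum : ∀ (s : Finset (ℕ × ℕ)) (f : ℕ × ℕ → A), D (∑ i ∈ s, f i) = ∑ i ∈ s, D (f i) :=
    fun s f => map_sum D' f s
  have hns : ∀ (m : ℕ) (x : A), D (m • x) = m • D x := fun m x => map_nsmul D' m x
  induction n with
  | zero => simp
  | succ n ih =>
    rw [Finset.sum_antidiagonal_choose_succ_nsmul
      (fun i j => (D^[i]) a * (D^[j]) b) n, Function.iterate_succ_apply', ih, hsum,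
      ← Finset.sum_add_distrib]
    refine Finset.sum_congr rfl fun ij hij => ?_
    have h1 : n.choose ij.2 = n.choose ij.1 :=
      Nat.choose_symm_of_eq_add (by rw [Finset.HasAntidiagonal.mem_antidiagonal] at hij; omega)
    rw [h1, ← smul_add, hns, hmul, Function.iterate_succ_apply',
      Function.iterate_succ_apply']
    congr 1
    ring

private theorem pha_iterp {A : Type*} [CommRing A] (p : ℕ) [hp : Fact p.Prime]
    (hA : ((p : ℕ) : A) = 0) (D : A → A)
    (hadd : ∀ x y, D (x + y) = D x + D y) (hmul : ∀ x y, D (x * y) = x * D y + y * D x)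
    (a b : A) : (D^[p]) (a * b) = a * (D^[p]) b + b * (D^[p]) a := by
  have hp1 := hp.out.pos
  rw [pha_iter D hadd hmul, Finset.Nat.sum_antidiagonal_eq_sum_range_succ_mk,
    Finset.sum_range_succ, Finset.sum_eq_single_of_mem 0 (Finset.mem_range.mpr hp1)]
  · simp only [Nat.choose_zero_right, Nat.choose_self, one_smul, Nat.sub_zero, Nat.sub_self,
      Function.iterate_zero, id_eq]
    ring
  · intro k hk hk0
    have h1 : p ∣ p.choose k := hp.out.dvd_choose_self hk0 (Finset.mem_range.mp hk)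
    obtain ⟨c, hc⟩ := h1
    show p.choose k • _ = _
    rw [nsmul_eq_mul, hc, Nat.cast_mul, hA, zero_mul, zero_mul]

private theorem pha_ratfunc {κ : Type*} [Field κ] (p : ℕ) [hp : Fact p.Prime] [CharP κ p]
    (dK : Derivation ℤ (RatFunc κ) (RatFunc κ))
    (hdK : ∀ q : κ[X], dK (pol q) = pol (derivative q)) (r : RatFunc κ) : (dK^[p]) r = 0 := by
  have hpK : ((p : ℕ) : RatFunc κ) = 0 := by
    have h1 : ((p : ℕ) : κ) = 0 := CharP.cast_eq_zero κ p
    rw [← map_natCast (algebraMap κ (RatFunc κ)), h1, map_zero]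
  have h1 : ∀ (m : ℕ) (q : κ[X]), (dK^[m]) (pol q) = pol (derivative^[m] q) := by
    intro m
    induction m with
    | zero => intro q; rfl
    | succ m ih => intro q; rw [Function.iterate_succ_apply, Function.iterate_succ_apply, hdK, ih]
  have h2 : ∀ q : κ[X], derivative^[p] q = 0 := by
    intro q
    rw [iterate_derivative_eq_factorial_smul_sum]
    obtain ⟨c, hc⟩ := Nat.dvd_factorial hp.out.pos le_rfl
    have h3 : ((p.factorial : ℕ) : κ[X]) = 0 := by
      rw [hc, Nat.cast_mul, ← map_natCast (C : κ →+* κ[X]) p, CharP.cast_eq_zero κ p, map_zero,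
        zero_mul]
    rw [nsmul_eq_mul, h3, zero_mul]
  have h3 : ∀ q : κ[X], (dK^[p]) (pol q) = 0 := by
    intro q
    rw [h1, h2]
    exact map_zero _
  have h4 := pha_iterp p hpK (fun x => dK x) (fun x y => map_add dK x y)
    (fun x y => dK.leibniz x y) r (pol r.denom)
  have h7 : pol r.denom ≠ 0 := RatFunc.algebraMap_ne_zero r.denom_ne_zero
  have h5 : r * pol r.denom = pol r.num := ((div_eq_iff h7).mp r.num_div_denom).symm
  change (dK^[p]) (r * pol r.denom) = r * (dK^[p]) (pol r.denom) + pol r.denom * (dK^[p]) r at h4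
  rw [h5, h3, h3, mul_zero, zero_add] at h4
  exact (mul_eq_zero.mp h4.symm).resolve_left h7

private theorem pha_trder {κ₁ : Type*} [Field κ₁] {E₁ : Type*} [CommRing E₁]
    [Algebra (RatFunc κ₁) E₁] {n : ℕ}
    (e : Module.Basis (Fin n) (RatFunc κ₁) E₁) (dK : Derivation ℤ (RatFunc κ₁) (RatFunc κ₁))
    (d : Derivation ℤ E₁ E₁)
    (hd : ∀ r, d (algebraMap (RatFunc κ₁) E₁ r) = algebraMap (RatFunc κ₁) E₁ (dK r)) (z : E₁) :
    Tr κ₁ E₁ (d z) = dK (Tr κ₁ E₁ z) := by
  let D : @Derivation ℤ (RatFunc κ₁) (RatFunc κ₁) _ _ _ (Ring.toIntAlgebra _) _ _ :=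
    @Derivation.mk ℤ (RatFunc κ₁) (RatFunc κ₁) _ _ _ (Ring.toIntAlgebra _) _ _
      (dK.toLinearMap.toAddMonoidHom.toIntLinearMap) (dK.map_one_eq_zero)
      (fun x y => dK.leibniz x y)
  exact tr_der e D d hd z

theorem Cv.trd (H : Cv e a i0 f m dK d) (z : E) : Tr κ E (d z) = dK (Tr κ E z) := by
  exact pha_trder e dK d H.d_alg z

theorem Cv.sepE (H : Cv e a i0 f m dK d) (Δ : Derivation (RatFunc κ) E E) : Δ = 0 := by
  have h1 : ∀ w z : E, Tr κ E (w * Δ z) = 0 := by
    intro w z
    let d0 : Derivation ℤ E E := Derivation.mk'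
      { toFun := fun z => w * Δ z
        map_add' := fun x y => by rw [map_add, mul_add]
        map_smul' := fun c x => by
          rw [map_zsmul, eq_intCast, Int.cast_id, zsmul_eq_mul, zsmul_eq_mul]
          ring }
      (fun x y => by
        change w * Δ (x * y) = x * (w * Δ y) + y * (w * Δ x)
        rw [Derivation.leibniz, smul_eq_mul, smul_eq_mul]
        ring)
    have h2 := pha_trder e (0 : Derivation ℤ (RatFunc κ) (RatFunc κ)) d0 (by
      intro r
      change w * Δ (algebraMap (RatFunc κ) E r) = _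
      rw [Derivation.map_algebraMap, mul_zero, Derivation.zero_apply, map_zero]) z
    rw [Derivation.zero_apply] at h2
    exact h2
  ext z
  rw [Derivation.zero_apply]
  apply e.ext_elem
  intro j
  rw [map_zero, Finsupp.zero_apply]
  have h3 := h1 (f j) z
  rw [tr_mul_eq_sum (e := e)] at h3
  have h4 : ∀ i, e.repr (Δ z) i * Tr κ E (f j * e i) = if j = i then e.repr (Δ z) i else 0 := by
    intro i
    rw [H.dual]
    split_ifs
    · rw [mul_one]
    · rw [mul_zero]
  rw [Finset.sum_congr rfl fun i _ => h4 i, Finset.sum_ite_eq Finset.univ j,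
    if_pos (Finset.mem_univ j)] at h3
  exact h3

private theorem phb_split {s : RatFunc κ} (hs : Dle s 0) : ∃ c : κ, Dle (s - pol (C c)) (-1) := by
  obtain ⟨p, q, hq, h⟩ := exists_rep s
  have hp : p = 0 ∨ (p.natDegree : ℤ) ≤ q.natDegree := by
    have h2 : Dle (pol p) (q.natDegree + 0) := by
      rw [← h]
      exact Dle.mul (dle_pol_iff.2 (Or.inr le_rfl)) hs
    rw [add_zero] at h2
    exact dle_pol_iff.1 h2
  have hp' : ∀ m, q.natDegree < m → p.coeff m = 0 := by
    intro m hm
    rcases hp with h0 | h0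
    · rw [h0, coeff_zero]
    · exact coeff_eq_zero_of_natDegree_lt (by omega)
  have hl : q.leadingCoeff ≠ 0 := leadingCoeff_ne_zero.2 hq
  refine ⟨p.coeff q.natDegree / q.leadingCoeff, ?_⟩
  apply dle_of_mul hq
  have h1 : pol q * (s - pol (C (p.coeff q.natDegree / q.leadingCoeff))) =
      pol (p - C (p.coeff q.natDegree / q.leadingCoeff) * q) := by
    rw [mul_sub, h]
    simp only [pol]
    rw [map_sub, map_mul, mul_comm (algebraMap κ[X] (RatFunc κ) q)]
  rw [h1, dle_pol_iff]
  by_cases h0 : p - C (p.coeff q.natDegree / q.leadingCoeff) * q = 0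
  · exact Or.inl h0
  · right
    have h2 : (p - C (p.coeff q.natDegree / q.leadingCoeff) * q).degree < (q.natDegree : ℕ) := by
      rw [degree_lt_iff_coeff_zero]
      intro m hm
      rw [coeff_sub, coeff_C_mul]
      rcases Nat.eq_or_lt_of_le hm with h3 | h3
      · rw [← h3, coeff_natDegree, div_mul_cancel₀ _ hl, sub_self]
      · rw [hp' m h3, coeff_eq_zero_of_natDegree_lt h3, mul_zero, sub_zero]
    have h3 := (natDegree_lt_iff_degree_lt h0).2 h2
    omega

private theorem phb_dK (hdK : ∀ q : κ[X], dK (pol q) = pol (derivative q)) (q : κ[X]) :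
    Dle (dK (pol q)) (q.natDegree - 1) := by
  rw [hdK, dle_pol_iff]
  by_cases h0 : q.natDegree = 0
  · left
    rw [eq_C_of_natDegree_eq_zero h0, derivative_C]
  · right
    have h1 := natDegree_derivative_lt h0
    omega

private theorem phb_two (hdK : ∀ q : κ[X], dK (pol q) = pol (derivative q)) {s : RatFunc κ}
    (hs : Dle s 0) : Dle (dK s) (-2) := by
  obtain ⟨c, hc⟩ := phb_split hs
  have h1 := dle_deriv dK 1 (phb_dK hdK) hc
  rw [map_sub, hdK, derivative_C] at h1
  have h2 : pol (0 : κ[X]) = (0 : RatFunc κ) := map_zero _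
  rw [h2, sub_zero] at h1
  exact h1.mono (by norm_num)

private theorem phb_basis (i : Fin n) : BDeg e a (a i) (e i) := by
  intro j
  rw [e.repr_self, Finsupp.single_apply]
  split_ifs with h
  · right
    rw [RatFunc.intDegree_one, h, sub_self]
  · exact Dle.zero _

private theorem phb_tr (hm : ∀ i j k, IsPol (e.repr (e i * e j) k) ∧
    Dle (e.repr (e i * e j) k) ((a i : ℤ) + a j - a k)) (i j : Fin n) :
    Dle (Tr κ E (e i * e j)) ((a i : ℤ) + a j) := by
  rw [tr_eq_sum (e := e)]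
  refine Dle.sum _ _ fun k _ => ?_
  have h := mulBD hm (mulBD hm (phb_basis (e := e) (a := a) i) (phb_basis j)) (phb_basis k) k
  exact h.mono (by linarith)

theorem dle_dK2 (hdK : ∀ q : κ[X], dK (pol q) = pol (derivative q)) {r : RatFunc κ} (a : ℕ)
    (hr : Dle r (-(a : ℤ))) :
    Dle (dK r + (a : RatFunc κ) * RatFunc.X⁻¹ * r) (-(a : ℤ) - 2) := by
  have hX : pol (X : κ[X]) = (RatFunc.X : RatFunc κ) := RatFunc.algebraMap_X
  have hX0 : (RatFunc.X : RatFunc κ) ≠ 0 := RatFunc.X_ne_zero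
  have hdX : ∀ k : ℕ, dK (RatFunc.X ^ k : RatFunc κ) = (k : RatFunc κ) * RatFunc.X ^ (k - 1) := by
    intro k
    have h1 := hdK (X ^ k)
    have h2 : pol (X ^ k : κ[X]) = (RatFunc.X : RatFunc κ) ^ k := by
      rw [← hX]
      exact map_pow _ _ _
    have h3 : pol ((k : κ[X]) * X ^ (k - 1)) = (k : RatFunc κ) * RatFunc.X ^ (k - 1) := by
      rw [← hX]
      simp only [pol]
      rw [map_mul, map_pow, map_natCast]
    rw [h2, derivative_X_pow, C_eq_natCast, h3] at h1
    exact h1
  have hq : (X ^ a : κ[X]) ≠ 0 := pow_ne_zero _ X_ne_zero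
  have hp : pol (X ^ a : κ[X]) = (RatFunc.X : RatFunc κ) ^ a := by
    rw [← hX]
    exact map_pow _ _ _
  apply dle_of_mul hq
  rw [natDegree_X_pow, hp]
  have h1 : (RatFunc.X : RatFunc κ) ^ a * (dK r + (a : RatFunc κ) * RatFunc.X⁻¹ * r) =
      dK (RatFunc.X ^ a * r) := by
    rw [Derivation.leibniz, hdX, smul_eq_mul, smul_eq_mul]
    rcases Nat.eq_zero_or_pos a with h0 | h0
    · rw [h0]
      simp
    · have h2 : (RatFunc.X : RatFunc κ) ^ a = RatFunc.X ^ (a - 1) * RatFunc.X := by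
        rw [← pow_succ, Nat.sub_add_cancel h0]
      rw [h2]
      field_simp
  rw [h1]
  have h2 : Dle ((RatFunc.X : RatFunc κ) ^ a * r) 0 := by
    have h3 : Dle ((RatFunc.X : RatFunc κ) ^ a) (a : ℤ) := by
      rw [← hp, dle_pol_iff]
      right
      rw [natDegree_X_pow]
    exact (h3.mul hr).mono (by linarith)
  exact (phb_two hdK h2).mono (by linarith)

theorem Cv.dMi (H : Cv e a i0 f m dK d) {z : E} (hz : InCi e a z) : InMi e a (d z) := by
  intro j
  have hz' : z = ∑ i, inE E (e.repr z i) * e i := by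
    conv_lhs => rw [← e.sum_repr z]
    apply Finset.sum_congr rfl
    intro i _
    rw [inE, ← Algebra.smul_def]
  have h1 : Tr κ E (d z * e j) = ∑ i,
      ((dK (e.repr z i) + (a i : RatFunc κ) * RatFunc.X⁻¹ * e.repr z i) * Tr κ E (e i * e j) +
        e.repr z i * (Tr κ E (d (e i) * e j) -
          (a i : RatFunc κ) * RatFunc.X⁻¹ * Tr κ E (e i * e j))) := by
    have h2 : d z = ∑ i, (inE E (e.repr z i) * d (e i) + inE E (dK (e.repr z i)) * e i) := by
      conv_lhs => rw [hz', map_sum]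
      refine Finset.sum_congr rfl fun i _ => ?_
      rw [Derivation.leibniz, smul_eq_mul, smul_eq_mul, inE, inE, H.d_alg, mul_comm (e i)]
    rw [h2, Finset.sum_mul, map_sum]
    refine Finset.sum_congr rfl fun i _ => ?_
    rw [add_mul, map_add, mul_assoc, mul_assoc, tr_inE_mul, tr_inE_mul]
    ring
  rw [h1]
  refine Dle.sum _ _ fun i _ => Dle.add ?_ ?_
  · exact ((dle_dK2 H.dK_pol (a i) (hz i)).mul (phb_tr H.mul i j)).mono (by linarith)
  · exact ((hz i).mul (H.derI i j)).mono (by linarith)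

theorem Cv.iterp (H : Cv e a i0 f m dK d) (p : ℕ) [Fact p.Prime] [CharP κ p] (z : E) :
    d^[p] z = 0 := by
  have hpE : ((p : ℕ) : E) = 0 := by
    have h1 : ((p : ℕ) : κ) = 0 := CharP.cast_eq_zero κ p
    rw [← map_natCast ((algebraMap (RatFunc κ) E).comp (algebraMap κ (RatFunc κ))), h1, map_zero]
  have h1 : ∀ (m : ℕ) (r : RatFunc κ), (d^[m]) (algebraMap (RatFunc κ) E r) =
      algebraMap (RatFunc κ) E ((dK^[m]) r) := by
    intro m
    induction m with
    | zero => intro r; rfl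
    | succ m ih =>
      intro r
      rw [Function.iterate_succ_apply, Function.iterate_succ_apply, H.d_alg, ih]
  have hit : ∀ x y : E, (d^[p]) (x * y) = x * (d^[p]) y + y * (d^[p]) x := fun x y =>
    pha_iterp p hpE (fun x => d x) (fun x y => map_add d x y) (fun x y => d.leibniz x y) x y
  let Δ : Derivation (RatFunc κ) E E := Derivation.mk'
    { toFun := fun z => (d^[p]) z
      map_add' := fun x y => iterate_map_add d p x y
      map_smul' := by
        intro r x
        rw [Algebra.smul_def, hit, h1, pha_ratfunc p dK H.dK_pol, map_zero, mul_zero,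
          add_zero, RingHom.id_apply, Algebra.smul_def] }
    (fun x y => hit x y)
  have h2 : Δ z = 0 := by rw [H.sepE Δ, Derivation.zero_apply]
  exact h2

theorem Cv.pcv (H : Cv e a i0 f m dK d) (p : ℕ) [Fact p.Prime] [CharP κ p] :
    PCv p e a dK d f := by
  refine
    { dK_pol := H.dK_pol
      d_alg := H.d_alg
      tr_d := H.trd
      mul := H.mul
      dM := fun i j => H.derB i j
      dMi := ?_
      dual := H.dual
      gen := H.genB
      geni := ?_
      dp := H.iterp p }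
  · intro z hz i
    have h1 : InCi e a z := by
      intro j
      have h2 := hz j
      rwa [zero_sub] at h2
    have h2 := H.dMi h1 i
    rwa [sub_eq_add_neg] at h2
  · obtain ⟨w, hw, hc⟩ := H.genI
    have hX : (RatFunc.X : RatFunc κ) ≠ 0 := RatFunc.X_ne_zero
    refine ⟨w, fun i => ?_, fun i => ?_⟩
    · rw [zero_sub]
      exact hw i
    · obtain ⟨c, hc1, hc2⟩ := hc i
      refine ⟨c, fun j => ?_, ?_⟩
      · rw [zero_sub]
        exact hc1 j
      · rw [← hc2, inE, inE, Algebra.smul_def, ← mul_assoc, ← map_mul]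
        have h3 : (RatFunc.X : RatFunc κ) ^ 2 * RatFunc.X ^ ((a i : ℤ) - 2) = RatFunc.X ^ a i := by
          rw [← zpow_natCast (RatFunc.X : RatFunc κ) 2, ← zpow_add₀ hX,
            ← zpow_natCast (RatFunc.X : RatFunc κ) (a i)]
          congr 1
          push_cast
          ring
        rw [h3]

private theorem pha_rint {R : Type*} [CommRing R] {K : Type*} [Field K] {E : Type*} [CommRing E]
    [Algebra K E] {n : ℕ} (ψ : R →+* K) (f : Fin n → E)
    (hone : ∃ u : Fin n → R, (1 : E) = ∑ k, algebraMap K E (ψ (u k)) * f k)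
    (hmul : ∀ i j, ∃ c : Fin n → R, f i * f j = ∑ k, algebraMap K E (ψ (c k)) * f k)
    (z : E) (hz : ∃ c : Fin n → R, z = ∑ k, algebraMap K E (ψ (c k)) * f k) :
    ((algebraMap K E).comp ψ).IsIntegralElem z := by
  let _ : Algebra R E := ((algebraMap K E).comp ψ).toAlgebra
  have hmem : ∀ w : E, (∃ c : Fin n → R, w = ∑ k, algebraMap K E (ψ (c k)) * f k) →
      w ∈ Submodule.span R (Set.range f) := by
    rintro w ⟨c, hc⟩
    rw [hc]
    refine Submodule.sum_mem _ fun k _ => ?_
    have h1 : algebraMap K E (ψ (c k)) * f k = c k • f k := (Algebra.smul_def (c k) (f k)).symm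
    rw [h1]
    exact Submodule.smul_mem _ _ (Submodule.subset_span ⟨k, rfl⟩)
  have hM : Submodule.span R (Set.range f) * Submodule.span R (Set.range f) ≤
      Submodule.span R (Set.range f) := by
    rw [Submodule.span_mul_span, Submodule.span_le]
    intro w hw
    obtain ⟨_, ⟨i, rfl⟩, _, ⟨j, rfl⟩, rfl⟩ := Set.mem_mul.mp hw
    exact hmem _ (hmul i j)
  have h1 : IsIntegral R z := IsIntegral.of_mem_of_fg
    (Submodule.toSubalgebra (Submodule.span R (Set.range f)) (hmem 1 hone)
      (fun x y hx hy => hM (Submodule.mul_mem_mul hx hy)))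
    (by
      rw [Submodule.toSubalgebra_toSubmodule]
      exact Submodule.fg_span (Set.finite_range f)) z (hmem z hz)
  exact h1

private theorem pha_rinv {κ : Type*} [Field κ] (A B : ℕ) (r : RatFunc κ) (h : IsPol r)
    (hd : Dle r ((A : ℤ) - B)) : ∃ c : κ[X],
      (aeval (RatFunc.X⁻¹ : RatFunc κ) : κ[X] →ₐ[κ] RatFunc κ).toRingHom c =
        RatFunc.X⁻¹ ^ A * r * RatFunc.X ^ B := by
  have hX : (RatFunc.X : RatFunc κ) ≠ 0 := RatFunc.X_ne_zero
  rcases hd with h0 | hd
  · refine ⟨0, ?_⟩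
    rw [map_zero, h0]
    ring
  · obtain ⟨q, rfl⟩ := h
    by_cases hq : q = 0
    · refine ⟨0, ?_⟩
      rw [map_zero, hq, pol, map_zero]
      ring
    · rw [pol, RatFunc.intDegree_polynomial] at hd
      obtain ⟨N, hN⟩ : ∃ N, A = N + B := ⟨A - B, by omega⟩
      have hqN : q.natDegree < N + 1 := by
        rw [hN] at hd
        push_cast at hd
        omega
      refine ⟨∑ i ∈ Finset.range (N + 1), C (q.coeff i) * X ^ (N - i), ?_⟩
      have h1 : (aeval (RatFunc.X⁻¹ : RatFunc κ) : κ[X] →ₐ[κ] RatFunc κ)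
          (∑ i ∈ Finset.range (N + 1), C (q.coeff i) * X ^ (N - i)) =
          ∑ i ∈ Finset.range (N + 1), algebraMap κ (RatFunc κ) (q.coeff i) *
            (RatFunc.X⁻¹ : RatFunc κ) ^ (N - i) := by
        rw [map_sum]
        refine Finset.sum_congr rfl fun i _ => ?_
        rw [map_mul, map_pow, aeval_C, aeval_X]
      show (aeval (RatFunc.X⁻¹ : RatFunc κ) : κ[X] →ₐ[κ] RatFunc κ) _ = _
      rw [h1]
      have h2 : pol q = ∑ i ∈ Finset.range (N + 1), algebraMap κ (RatFunc κ) (q.coeff i) *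
          (RatFunc.X : RatFunc κ) ^ i := by
        conv_lhs => rw [q.as_sum_range' (N + 1) hqN]
        rw [pol, map_sum]
        refine Finset.sum_congr rfl fun i _ => ?_
        rw [← C_mul_X_pow_eq_monomial, map_mul, map_pow, RatFunc.algebraMap_C,
          RatFunc.algebraMap_X, RatFunc.algebraMap_eq_C]
      rw [h2, Finset.mul_sum, Finset.sum_mul]
      refine Finset.sum_congr rfl fun i hi => ?_
      obtain ⟨m, hm⟩ : ∃ m, N = m + i := ⟨N - i, by
        have := Finset.mem_range.mp hi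
        omega⟩
      rw [hN, hm, Nat.add_sub_cancel, pow_add, pow_add, inv_pow, inv_pow, inv_pow]
      field_simp

private theorem pha_rself {κ : Type*} [Field κ] {E : Type*} [CommRing E] [Algebra (RatFunc κ) E]
    {n : ℕ} (e : Module.Basis (Fin n) (RatFunc κ) E) (i : Fin n) : InB e (e i) := by
  intro k
  rw [e.repr_self, Finsupp.single_apply]
  split_ifs
  · exact ⟨1, map_one _⟩
  · exact ⟨0, map_zero _⟩

private theorem pha_rsum {κ : Type*} [Field κ] {E : Type*} [CommRing E] [Algebra (RatFunc κ) E]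
    {n : ℕ} (e : Module.Basis (Fin n) (RatFunc κ) E) (z : E) :
    z = ∑ k, algebraMap (RatFunc κ) E (e.repr z k) * e k := by
  conv_lhs => rw [← e.sum_repr z]
  exact Finset.sum_congr rfl fun k _ => Algebra.smul_def _ _

private theorem Cv.phaOne (H : Cv e a i0 f m dK d) (k : Fin n) :
    IsPol (e.repr 1 k) ∧ Dle (e.repr 1 k) (-(a k : ℤ)) := by
  rw [← H.one, e.repr_self, Finsupp.single_apply]
  split_ifs with h
  · refine ⟨⟨1, map_one _⟩, Or.inr ?_⟩
    rw [RatFunc.intDegree_one, ← h, H.a_zero, Nat.cast_zero, neg_zero]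
  · exact ⟨IsPol.zero, Dle.zero _⟩

private theorem Cv.phaX (H : Cv e a i0 f m dK d) (z : E) (hz : InB e z) : IntX κ z := by
  have hc : ∀ w : E, InB e w → ∃ c : Fin n → κ[X], w = ∑ k, algebraMap (RatFunc κ) E
      (algebraMap κ[X] (RatFunc κ) (c k)) * e k := by
    intro w hw
    choose c hc using hw
    refine ⟨c, ?_⟩
    conv_lhs => rw [pha_rsum e w]
    refine Finset.sum_congr rfl fun k _ => ?_
    rw [← hc k]
  exact pha_rint (algebraMap κ[X] (RatFunc κ)) (fun k => e k) (hc 1 fun k => (H.phaOne k).1)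
    (fun i j => hc _ fun k => (H.mul i j k).1) z (hc z hz)

private theorem Cv.phaI (H : Cv e a i0 f m dK d) (i : Fin n) :
    IntI κ (algebraMap (RatFunc κ) E (RatFunc.X⁻¹ ^ a i) * e i) := by
  have hX : (RatFunc.X : RatFunc κ) ≠ 0 := RatFunc.X_ne_zero
  have hc : ∀ (w : E) (A : ℕ), (∀ k, IsPol (e.repr w k) ∧ Dle (e.repr w k) ((A : ℤ) - a k)) →
      ∃ c : Fin n → κ[X], algebraMap (RatFunc κ) E (RatFunc.X⁻¹ ^ A) * w =
        ∑ k, algebraMap (RatFunc κ) E
          ((aeval (RatFunc.X⁻¹ : RatFunc κ) : κ[X] →ₐ[κ] RatFunc κ).toRingHom (c k)) *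
          (algebraMap (RatFunc κ) E (RatFunc.X⁻¹ ^ a k) * e k) := by
    intro w A hw
    have h1 : ∀ k, ∃ c : κ[X],
        (aeval (RatFunc.X⁻¹ : RatFunc κ) : κ[X] →ₐ[κ] RatFunc κ).toRingHom c =
          RatFunc.X⁻¹ ^ A * e.repr w k * RatFunc.X ^ a k :=
      fun k => pha_rinv A (a k) _ (hw k).1 (hw k).2
    choose c hc using h1
    refine ⟨c, ?_⟩
    conv_lhs => rw [pha_rsum e w, Finset.mul_sum]
    refine Finset.sum_congr rfl fun k _ => ?_
    rw [hc k, ← mul_assoc, ← mul_assoc, ← map_mul, ← map_mul]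
    congr 2
    rw [mul_assoc _ (RatFunc.X ^ a k), ← mul_pow, mul_inv_cancel₀ hX, one_pow, mul_one]
  refine pha_rint (aeval (RatFunc.X⁻¹ : RatFunc κ) : κ[X] →ₐ[κ] RatFunc κ).toRingHom
    (fun k => algebraMap (RatFunc κ) E (RatFunc.X⁻¹ ^ a k) * e k) ?_ ?_ _ ?_
  · obtain ⟨c, h1⟩ := hc 1 0 (fun k => ⟨(H.phaOne k).1, by
      rw [Nat.cast_zero, zero_sub]
      exact (H.phaOne k).2⟩)
    refine ⟨c, ?_⟩
    rw [← h1, pow_zero, map_one, one_mul]
  · intro i j
    obtain ⟨c, h1⟩ := hc (e i * e j) (a i + a j) (fun k => ⟨(H.mul i j k).1, by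
      rw [Nat.cast_add]
      exact (H.mul i j k).2⟩)
    refine ⟨c, ?_⟩
    rw [← h1, pow_add, map_mul]
    ring
  · refine ⟨Pi.single i 1, ?_⟩
    rw [Finset.sum_eq_single i]
    · rw [Pi.single_eq_same, map_one, map_one, one_mul]
    · intro k _ hk
      rw [Pi.single_eq_of_ne hk, map_zero, map_zero, zero_mul]
    · intro hi
      exact absurd (Finset.mem_univ i) hi

theorem Cv.inReg (H : Cv e a i0 f m dK d) (φ : E) (hφ : IsReg (κ := κ) φ) : InReg e a φ := by
  have hX : (RatFunc.X : RatFunc κ) ≠ 0 := RatFunc.X_ne_zero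
  intro i
  refine ⟨hφ.1 (e i) (H.phaX (e i) (pha_rself e i)), ?_⟩
  have h1 := hφ.2 _ (H.phaI i)
  have h2 : Tr κ E (φ * (algebraMap (RatFunc κ) E (RatFunc.X⁻¹ ^ a i) * e i)) =
      RatFunc.X⁻¹ ^ a i * Tr κ E (φ * e i) := by
    have h3 : φ * (algebraMap (RatFunc κ) E (RatFunc.X⁻¹ ^ a i) * e i) =
        (RatFunc.X⁻¹ ^ a i : RatFunc κ) • (φ * e i) := by
      rw [Algebra.smul_def]
      ring
    rw [h3, map_smul, smul_eq_mul]
  rw [h2] at h1
  by_cases h0 : Tr κ E (φ * e i) = 0
  · exact Or.inl h0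
  · right
    have hXi : (RatFunc.X⁻¹ ^ a i : RatFunc κ) ≠ 0 := pow_ne_zero _ (inv_ne_zero hX)
    rcases h1 with h1 | h1
    · exact absurd h1 (mul_ne_zero hXi h0)
    · rw [RatFunc.intDegree_mul hXi h0, inv_pow, RatFunc.intDegree_inv] at h1
      have h4 : (RatFunc.X ^ a i : RatFunc κ).intDegree = a i := by
        rw [← RatFunc.algebraMap_X, ← map_pow, RatFunc.intDegree_polynomial, natDegree_X_pow]
      rw [h4] at h1
      linarith

end MPadcCM
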