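import Pool.Agent.Lib.MP_adc574_ag_CM.FDefs
import Pool.Agent.Lib.MP_adc574_ag_CM.Grd
import Pool.Agent.Lib.MP_adc574_ag_CM.PH
import Pool.Agent.Lib.MP_adc574_ag_Cov.PtA

/-!
# BrA: the final definitions in terms of the Birkhoff basis

JOB BrA. `H : Cv e a i0 f m dK d`.
* `isLift_iff`: `IsLift D Δ` (on constants and `Δ x = 0`) iff `IsLiftE D Δ` (on all polynomials). From left to right: `p = ∑ C (p_i) X ^ i`, induction on `p` (`Polynomial.induction_on'` or `Polynomial.induction_on`), `cD δ (C c * X ^ i) = C (δ c) * X ^ i`, Leibniz.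
  `algebraMap k E c = algebraMap (RatFunc k) E (pol (C c))` (`IsScalarTower.algebraMap_apply`). From right to left: `p = C c` and `p = X`. (See Cov/SpecD.lean for `cD`.)
* `isExact_iff`: if `d g = φ` then `D g = φ • D x` in the Kaehler differentials: `β z := D z - (d z) • D x` is additive `E → Ω`, `β (z * w) = z • β w + w • β z`, and zero on `algebraMap r`, `r : RatFunc k`:
  for `r = pol p`: `D (p (x)) = p' (x) • D x` (`Derivation` over `k`: `Derivation.leibniz_pow`, or apply `Polynomial` induction / `Derivation.map_aeval`); for `r = pol p / pol q`: `pol q * r = pol p` and `β` is a derivation killing `pol p`, `pol q`: `0 = pol q • β r`, and `pol q` acts invertibly. Then `sep_mod` (DeA, with `K := RatFunc k`, `V := Ω`). Conversely: `IsEx.equiv` of Cov/PtA with `AlgEquiv.refl` (or copy its proof).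
* `regFin_iff`: `IsIntegralOver k RatFunc.X b ↔ IntX k b` (the two ring homomorphisms `k[X] → RatFunc k` are equal: see the private theorem `isReg_iff` in Pool/Agent/Results/MP_adc574_ag/MovingBranchPoint.lean); left to right: `b = e i`; right to left: `b = ∑ (coordinates) e i`, `tr_mul_eq_sum`.
* `regInf_iff`: right to left: `IntI k b → IntO k b` (private `RegK_int` in Cov/RegK.lean: copy) so `b ∈ InCi`, `Tr (φ b) = ∑ b_i Tr (φ e_i)`, degree `≤ -a_i + a_i - 2`. Left to right: `x ^ (-a i) e i` is integral over `k[1/x]` (the theorem `Cov0.intI_basis` in Cov/RegE.lean: copy its proof, it uses only the multiplication table and `1 = e i0`;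
  see also the private lemmas in front of `Cv.inReg` in PH.lean), and `Tr (φ * (x ^ (-a i) e i)) = x ^ (-a i) Tr (φ e i)`.
* `isSK_iff2`, `isRegular_iff`: from these: `φ - ψ = x`, `ψ = d G`.
-/

set_option autoImplicit false

namespace MPadcCM

open Polynomial MPadcCov

private theorem bra1_coeff {R : Type*} [CommRing R] (δ : Derivation ℤ R R) (p : R[X]) (m : ℕ) :
    (cD δ p).coeff m = δ (p.coeff m) := by
  unfold cD
  rw [Polynomial.sum_def, Polynomial.finsetSum_coeff]
  simp only [coeff_monomial]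
  rw [Finset.sum_ite_eq']
  by_cases hm : m ∈ p.support
  · rw [if_pos hm]
  · rw [if_neg hm, Polynomial.notMem_support_iff.1 hm, map_zero]

private theorem bra1_C {R : Type*} [CommRing R] (δ : Derivation ℤ R R) (c : R) :
    cD δ (C c) = C (δ c) := by
  ext m
  rw [bra1_coeff, coeff_C, coeff_C]
  split_ifs
  · rfl
  · exact map_zero δ

private theorem bra1_X {R : Type*} [CommRing R] (δ : Derivation ℤ R R) : cD δ (X : R[X]) = 0 := by
  ext m
  rw [bra1_coeff, coeff_X, coeff_zero]
  split_ifs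
  · exact Derivation.map_one_eq_zero δ
  · exact map_zero δ

private theorem bra1_add {R : Type*} [CommRing R] (δ : Derivation ℤ R R) (p q : R[X]) :
    cD δ (p + q) = cD δ p + cD δ q := by
  ext m
  rw [bra1_coeff, coeff_add, map_add, coeff_add, bra1_coeff, bra1_coeff]

private theorem bra1_mul {R : Type*} [CommRing R] (δ : Derivation ℤ R R) (p q : R[X]) :
    cD δ (p * q) = p * cD δ q + q * cD δ p := by
  ext m
  rw [bra1_coeff, coeff_mul, map_sum, coeff_add, mul_comm q, coeff_mul, coeff_mul,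
    ← Finset.sum_add_distrib]
  refine Finset.sum_congr rfl fun x _ => ?_
  rw [Derivation.leibniz, bra1_coeff, bra1_coeff, smul_eq_mul, smul_eq_mul,
    mul_comm (δ (p.coeff x.1))]

private theorem bra1_algC {k : Type*} [Field k] {E : Type*} [CommRing E] [Algebra (RatFunc k) E]
    [Algebra k E] [IsScalarTower k (RatFunc k) E] (c : k) :
    algebraMap k E c = algebraMap (RatFunc k) E (pol (C c)) := by
  rw [IsScalarTower.algebraMap_apply k (RatFunc k) E,
    IsScalarTower.algebraMap_apply k k[X] (RatFunc k), Polynomial.algebraMap_eq]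

private theorem bra1_padd {k : Type*} [Field k] {E : Type*} [CommRing E] [Algebra (RatFunc k) E]
    (p q : k[X]) : algebraMap (RatFunc k) E (pol (p + q)) =
      algebraMap (RatFunc k) E (pol p) + algebraMap (RatFunc k) E (pol q) := by
  rw [pol, map_add, map_add]

private theorem bra1_pmul {k : Type*} [Field k] {E : Type*} [CommRing E] [Algebra (RatFunc k) E]
    (p q : k[X]) : algebraMap (RatFunc k) E (pol (p * q)) =
      algebraMap (RatFunc k) E (pol p) * algebraMap (RatFunc k) E (pol q) := by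
  rw [pol, map_mul, map_mul]

private theorem bra1_pzero {k : Type*} [Field k] {E : Type*} [CommRing E] [Algebra (RatFunc k) E] :
    algebraMap (RatFunc k) E (pol (0 : k[X])) = 0 := by
  rw [pol, map_zero, map_zero]

private theorem bra1_pone {k : Type*} [Field k] {E : Type*} [CommRing E] [Algebra (RatFunc k) E] :
    algebraMap (RatFunc k) E (pol (1 : k[X])) = 1 := by
  rw [pol, map_one, map_one]

theorem isLift_iff {k : Type*} [Field k] {E : Type*} [CommRing E] [Algebra (RatFunc k) E]
    [Algebra k E] [IsScalarTower k (RatFunc k) E] (D : Derivation ℤ k k) (Δ : Derivation ℤ E E) :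
    IsLift D Δ ↔ IsLiftE D Δ := by
  have hXp : (RatFunc.X : RatFunc k) = pol X := RatFunc.algebraMap_X.symm
  constructor
  · rintro ⟨hc, hX⟩ p
    rw [hXp] at hX
    have hC : ∀ c : k, Δ (algebraMap (RatFunc k) E (pol (C c))) =
        algebraMap (RatFunc k) E (pol (cD D (C c))) := by
      intro c
      rw [bra1_C, ← bra1_algC, ← bra1_algC]
      exact hc c
    have hm : ∀ p q : k[X],
        Δ (algebraMap (RatFunc k) E (pol p)) = algebraMap (RatFunc k) E (pol (cD D p)) →
        Δ (algebraMap (RatFunc k) E (pol q)) = algebraMap (RatFunc k) E (pol (cD D q)) →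
        Δ (algebraMap (RatFunc k) E (pol (p * q))) =
          algebraMap (RatFunc k) E (pol (cD D (p * q))) := by
      intro p q hp hq
      rw [bra1_pmul, Derivation.leibniz, hp, hq, bra1_mul, bra1_padd, bra1_pmul, bra1_pmul,
        smul_eq_mul, smul_eq_mul]
    refine Polynomial.induction_on (motive := fun p : k[X] =>
      Δ (algebraMap (RatFunc k) E (pol p)) = algebraMap (RatFunc k) E (pol (cD D p))) p hC ?_ ?_
    · intro p q hp hq
      rw [bra1_padd, map_add, hp, hq, bra1_add, bra1_padd]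
    · intro n c h
      rw [pow_succ, ← mul_assoc]
      refine hm _ _ h ?_
      rw [hX, bra1_X, bra1_pzero]
  · intro h
    refine ⟨fun c => ?_, ?_⟩
    · have h1 := h (C c)
      rw [bra1_C, ← bra1_algC, ← bra1_algC] at h1
      exact h1
    · rw [hXp, h, bra1_X, bra1_pzero]

variable {k : Type*} [Field k] {E : Type*} [CommRing E] [Algebra (RatFunc k) E] [Algebra k E]
  [IsScalarTower k (RatFunc k) E] {n : ℕ} {e : Module.Basis (Fin n) (RatFunc k) E} {a : Fin n → ℕ}
  {i0 : Fin n} {f : Fin n → E} {m : Ix a → E} {dK : Derivation ℤ (RatFunc k) (RatFunc k)}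
  {d : Derivation ℤ E E}

theorem isExact_iff (H : Cv e a i0 f m dK d) (φ : E) : IsExact k φ ↔ ∃ g, φ = d g := by
  constructor
  · intro h
    obtain ⟨g, hg⟩ := IsEx.equiv (κ := k) (AlgEquiv.refl : E ≃ₐ[RatFunc k] E) h dK d H.dK_pol
      H.d_alg
    exact ⟨g, hg.symm⟩
  · rintro ⟨g, rfl⟩
    have hXp : (RatFunc.X : RatFunc k) = pol X := RatFunc.algebraMap_X.symm
    let β : E →+ Ω[E⁄k] :=
      { toFun := fun z => KaehlerDifferential.D k E z -
          d z • KaehlerDifferential.D k E (algebraMap (RatFunc k) E RatFunc.X)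
        map_zero' := by rw [map_zero, map_zero, zero_smul, sub_zero]
        map_add' := fun x y => by
          rw [map_add, map_add, add_smul, add_sub_add_comm] }
    have hβ : ∀ z, β z = KaehlerDifferential.D k E z -
          d z • KaehlerDifferential.D k E (algebraMap (RatFunc k) E RatFunc.X) := fun z => rfl
    have hl : ∀ z w, β (z * w) = z • β w + w • β z := by
      intro z w
      rw [hβ, hβ, hβ, Derivation.leibniz, Derivation.leibniz, smul_sub, smul_sub, add_smul,
        smul_eq_mul, smul_eq_mul, mul_smul, mul_smul]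
      abel
    have hpol : ∀ p : k[X], β (algebraMap (RatFunc k) E (pol p)) = 0 := by
      intro p
      refine Polynomial.induction_on (motive := fun p : k[X] =>
        β (algebraMap (RatFunc k) E (pol p)) = 0) p ?_ ?_ ?_
      · intro c
        rw [hβ, H.d_alg, H.dK_pol, derivative_C, ← bra1_algC, Derivation.map_algebraMap, bra1_pzero,
          zero_smul, sub_zero]
      · intro p q hp hq
        rw [bra1_padd, map_add, hp, hq, add_zero]
      · intro n c h
        have h2 : β (algebraMap (RatFunc k) E (pol X)) = 0 := by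
          rw [hβ, H.d_alg, H.dK_pol, derivative_X, bra1_pone, one_smul, hXp, sub_self]
        rw [pow_succ, ← mul_assoc, bra1_pmul, hl, h2, h, smul_zero, smul_zero, add_zero]
    have hrat : ∀ r : RatFunc k, β (algebraMap (RatFunc k) E r) = 0 := by
      let _ : Module (RatFunc k) Ω[E⁄k] := Module.compHom _ (algebraMap (RatFunc k) E)
      exact der_rat_ext (β.comp (algebraMap (RatFunc k) E).toAddMonoidHom) 0
        (fun x y => (congrArg β (map_mul (algebraMap (RatFunc k) E) x y)).trans (hl _ _))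
        (fun x y => by
          rw [AddMonoidHom.zero_apply, AddMonoidHom.zero_apply, AddMonoidHom.zero_apply, smul_zero,
            smul_zero, add_zero]) hpol
    have h2 := sep_mod e f H.dual β hl hrat g
    exact ⟨g, sub_eq_zero.1 h2⟩

private theorem bra2_hom (k : Type*) [Field k] :
    (aeval (RatFunc.X : RatFunc k) : k[X] →ₐ[k] RatFunc k).toRingHom =
      algebraMap k[X] (RatFunc k) := by
  apply Polynomial.ringHom_ext
  · intro c
    simp
  · simp

private theorem bra2_intX {k : Type*} [Field k] {E : Type*} [CommRing E] [Algebra (RatFunc k) E]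
    (b : E) : IsIntegralOver k RatFunc.X b ↔ IntX k b := by
  unfold IsIntegralOver IntX
  rw [bra2_hom]

private theorem bra2_tr (φ b : E) :
    Tr k E (φ * b) = ∑ i, e.repr b i * Tr k E (φ * e i) := by
  conv_lhs => rw [← e.sum_repr b, Finset.mul_sum, map_sum]
  refine Finset.sum_congr rfl fun i _ => ?_
  rw [mul_smul_comm, map_smul, smul_eq_mul]

theorem regFin_iff (H : Cv e a i0 f m dK d) (hX : ∀ z : E, IntX k z ↔ InB e z) (φ : E) :
    IsRegularFin k φ ↔ InM e φ := by
  constructor
  · intro h i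
    obtain ⟨q, hq⟩ := h (e i) ((bra2_intX (e i)).2 ((hX (e i)).2 (inB_e i)))
    exact ⟨q, hq.symm⟩
  · intro h b hb
    have h1 : IsPol (Tr k E (φ * b)) := by
      rw [bra2_tr (e := e)]
      exact isPol_sum _ _ fun i _ => isPol_mul ((hX b).1 ((bra2_intX b).1 hb) i) (h i)
    obtain ⟨q, hq⟩ := h1
    exact ⟨q, hq.symm⟩

private theorem bra2_rint {R : Type*} [CommRing R] {K : Type*} [Field K] {E : Type*} [CommRing E]
    [Algebra K E] {n : ℕ} (ψ : R →+* K) (f : Fin n → E)
    (hone : ∃ u : Fin n → R, (1 : E) = ∑ k, algebraMap K E (ψ (u k)) * f k)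
    (hmul : ∀ i j, ∃ c : Fin n → R, f i * f j = ∑ k, algebraMap K E (ψ (c k)) * f k)
    (z : E) (hz : ∃ c : Fin n → R, z = ∑ k, algebraMap K E (ψ (c k)) * f k) :
    ((algebraMap K E).comp ψ).IsIntegralElem z := by
  let _ : Algebra R E := ((algebraMap K E).comp ψ).toAlgebra
  have hmem : ∀ w : E, (∃ c : Fin n → R, w = ∑ k, algebraMap K E (ψ (c k)) * f k) →
      w ∈ Submodule.span R (Set.range f) := by
    rintro w ⟨c, hc⟩
    rw [hc]
    refine Submodule.sum_mem _ fun k _ => ?_
    have h1 : algebraMap K E (ψ (c k)) * f k = c k • f k := (Algebra.smul_def (c k) (f k)).symm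
    rw [h1]
    exact Submodule.smul_mem _ _ (Submodule.subset_span ⟨k, rfl⟩)
  have hM : Submodule.span R (Set.range f) * Submodule.span R (Set.range f) ≤
      Submodule.span R (Set.range f) := by
    rw [Submodule.span_mul_span, Submodule.span_le]
    intro w hw
    obtain ⟨_, ⟨i, rfl⟩, _, ⟨j, rfl⟩, rfl⟩ := Set.mem_mul.mp hw
    exact hmem _ (hmul i j)
  have h1 : IsIntegral R z := IsIntegral.of_mem_of_fg
    (Submodule.toSubalgebra (Submodule.span R (Set.range f)) (hmem 1 hone)
      (fun x y hx hy => hM (Submodule.mul_mem_mul hx hy)))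
    (by
      rw [Submodule.toSubalgebra_toSubmodule]
      exact Submodule.fg_span (Set.finite_range f)) z (hmem z hz)
  exact h1

private theorem bra2_rinv {κ : Type*} [Field κ] (A B : ℕ) (r : RatFunc κ) (h : IsPol r)
    (hd : Dle r ((A : ℤ) - B)) : ∃ c : κ[X],
      (aeval (RatFunc.X⁻¹ : RatFunc κ) : κ[X] →ₐ[κ] RatFunc κ).toRingHom c =
        RatFunc.X⁻¹ ^ A * r * RatFunc.X ^ B := by
  have hX : (RatFunc.X : RatFunc κ) ≠ 0 := RatFunc.X_ne_zero
  rcases hd with h0 | hd
  · refine ⟨0, ?_⟩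
    rw [map_zero, h0]
    ring
  · obtain ⟨q, rfl⟩ := h
    by_cases hq : q = 0
    · refine ⟨0, ?_⟩
      rw [map_zero, hq, pol, map_zero]
      ring
    · rw [pol, RatFunc.intDegree_polynomial] at hd
      obtain ⟨N, hN⟩ : ∃ N, A = N + B := ⟨A - B, by omega⟩
      have hqN : q.natDegree < N + 1 := by
        rw [hN] at hd
        push_cast at hd
        omega
      refine ⟨∑ i ∈ Finset.range (N + 1), C (q.coeff i) * X ^ (N - i), ?_⟩
      have h1 : (aeval (RatFunc.X⁻¹ : RatFunc κ) : κ[X] →ₐ[κ] RatFunc κ)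
          (∑ i ∈ Finset.range (N + 1), C (q.coeff i) * X ^ (N - i)) =
          ∑ i ∈ Finset.range (N + 1), algebraMap κ (RatFunc κ) (q.coeff i) *
            (RatFunc.X⁻¹ : RatFunc κ) ^ (N - i) := by
        rw [map_sum]
        refine Finset.sum_congr rfl fun i _ => ?_
        rw [map_mul, map_pow, aeval_C, aeval_X]
      show (aeval (RatFunc.X⁻¹ : RatFunc κ) : κ[X] →ₐ[κ] RatFunc κ) _ = _
      rw [h1]
      have h2 : pol q = ∑ i ∈ Finset.range (N + 1), algebraMap κ (RatFunc κ) (q.coeff i) *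
          (RatFunc.X : RatFunc κ) ^ i := by
        conv_lhs => rw [q.as_sum_range' (N + 1) hqN]
        rw [pol, map_sum]
        refine Finset.sum_congr rfl fun i _ => ?_
        rw [← C_mul_X_pow_eq_monomial, map_mul, map_pow, RatFunc.algebraMap_C,
          RatFunc.algebraMap_X, RatFunc.algebraMap_eq_C]
      rw [h2, Finset.mul_sum, Finset.sum_mul]
      refine Finset.sum_congr rfl fun i hi => ?_
      obtain ⟨m, hm⟩ : ∃ m, N = m + i := ⟨N - i, by
        have := Finset.mem_range.mp hi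
        omega⟩
      rw [hN, hm, Nat.add_sub_cancel, pow_add, pow_add, inv_pow, inv_pow, inv_pow]
      field_simp

private theorem bra2_rsum {κ : Type*} [Field κ] {E : Type*} [CommRing E] [Algebra (RatFunc κ) E]
    {n : ℕ} (e : Module.Basis (Fin n) (RatFunc κ) E) (z : E) :
    z = ∑ k, algebraMap (RatFunc κ) E (e.repr z k) * e k := by
  conv_lhs => rw [← e.sum_repr z]
  exact Finset.sum_congr rfl fun k _ => Algebra.smul_def _ _

private theorem bra2_one (H : Cv e a i0 f m dK d) (l : Fin n) :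
    IsPol (e.repr 1 l) ∧ Dle (e.repr 1 l) (-(a l : ℤ)) := by
  rw [← H.one, e.repr_self, Finsupp.single_apply]
  split_ifs with h
  · refine ⟨⟨1, map_one _⟩, Or.inr ?_⟩
    rw [RatFunc.intDegree_one, ← h, H.a_zero, Nat.cast_zero, neg_zero]
  · exact ⟨⟨0, map_zero _⟩, Or.inl rfl⟩

private theorem bra2_I (H : Cv e a i0 f m dK d) (i : Fin n) :
    IntI k (algebraMap (RatFunc k) E (RatFunc.X⁻¹ ^ a i) * e i) := by
  have hX : (RatFunc.X : RatFunc k) ≠ 0 := RatFunc.X_ne_zero
  have hc : ∀ (w : E) (A : ℕ), (∀ l, IsPol (e.repr w l) ∧ Dle (e.repr w l) ((A : ℤ) - a l)) →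
      ∃ c : Fin n → k[X], algebraMap (RatFunc k) E (RatFunc.X⁻¹ ^ A) * w =
        ∑ l, algebraMap (RatFunc k) E
          ((aeval (RatFunc.X⁻¹ : RatFunc k) : k[X] →ₐ[k] RatFunc k).toRingHom (c l)) *
          (algebraMap (RatFunc k) E (RatFunc.X⁻¹ ^ a l) * e l) := by
    intro w A hw
    have h1 : ∀ l, ∃ c : k[X],
        (aeval (RatFunc.X⁻¹ : RatFunc k) : k[X] →ₐ[k] RatFunc k).toRingHom c =
          RatFunc.X⁻¹ ^ A * e.repr w l * RatFunc.X ^ a l :=
      fun l => bra2_rinv A (a l) _ (hw l).1 (hw l).2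
    choose c hc using h1
    refine ⟨c, ?_⟩
    conv_lhs => rw [bra2_rsum e w, Finset.mul_sum]
    refine Finset.sum_congr rfl fun l _ => ?_
    rw [hc l, ← mul_assoc, ← mul_assoc, ← map_mul, ← map_mul]
    congr 2
    rw [mul_assoc _ (RatFunc.X ^ a l), ← mul_pow, mul_inv_cancel₀ hX, one_pow, mul_one]
  refine bra2_rint (aeval (RatFunc.X⁻¹ : RatFunc k) : k[X] →ₐ[k] RatFunc k).toRingHom
    (fun l => algebraMap (RatFunc k) E (RatFunc.X⁻¹ ^ a l) * e l) ?_ ?_ _ ?_
  · obtain ⟨c, h1⟩ := hc 1 0 (fun l => ⟨(bra2_one H l).1, by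
      rw [Nat.cast_zero, zero_sub]
      exact (bra2_one H l).2⟩)
    refine ⟨c, ?_⟩
    rw [← h1, pow_zero, map_one, one_mul]
  · intro i j
    obtain ⟨c, h1⟩ := hc (e i * e j) (a i + a j) (fun l => ⟨(H.mul i j l).1, by
      rw [Nat.cast_add]
      exact (H.mul i j l).2⟩)
    refine ⟨c, ?_⟩
    rw [← h1, pow_add, map_mul]
    ring
  · refine ⟨Pi.single i 1, ?_⟩
    rw [Finset.sum_eq_single i]
    · rw [Pi.single_eq_same, map_one, map_one, one_mul]
    · intro l _ hl
      rw [Pi.single_eq_of_ne hl, map_zero, map_zero, zero_mul]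
    · intro hi
      exact absurd (Finset.mem_univ i) hi

private theorem bra2_mem (p : k[X]) : (aeval (RatFunc.X⁻¹ : RatFunc k) p) ∈ Oinf k := by
  induction p using Polynomial.induction_on' with
  | add p q hp hq =>
    rw [map_add]
    exact (Oinf k).add_mem hp hq
  | monomial n c =>
    rw [aeval_monomial]
    refine (Oinf k).mul_mem ?_ ((Oinf k).pow_mem ?_ n)
    · right
      have h1 : algebraMap k (RatFunc k) c = RatFunc.C c := rfl
      rw [h1, RatFunc.intDegree_C]
    · right
      rw [RatFunc.intDegree_inv, RatFunc.intDegree_X]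
      norm_num

private theorem bra2_int {b : E} (hb : IntI k b) : IntO k b := by
  obtain ⟨p, hp, hpb⟩ := hb
  set f : k[X] →+* RatFunc k := (aeval (RatFunc.X⁻¹ : RatFunc k) : k[X] →ₐ[k] RatFunc k).toRingHom
    with hf
  set g : k[X] →+* Oinf k := f.codRestrict (Oinf k) (fun q => bra2_mem q) with hg
  refine ⟨p.map g, hp.map g, ?_⟩
  rw [eval₂_map]
  have h1 : (((algebraMap (RatFunc k) E).comp (Oinf k).subtype).comp g) =
      (algebraMap (RatFunc k) E).comp f := by
    refine RingHom.ext fun q => ?_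
    rfl
  rw [h1]
  exact hpb

theorem regInf_iff (H : Cv e a i0 f m dK d) (hO : ∀ z : E, IntO k z ↔ InCi e a z) (φ : E) :
    IsRegularInf k φ ↔ InMi e a φ := by
  constructor
  · intro hφ i
    have hX : (RatFunc.X : RatFunc k) ≠ 0 := RatFunc.X_ne_zero
    have h1 : Dle (Tr k E (φ * (algebraMap (RatFunc k) E (RatFunc.X⁻¹ ^ a i) * e i))) (-2) :=
      hφ _ (bra2_I H i)
    have h2 : Tr k E (φ * (algebraMap (RatFunc k) E (RatFunc.X⁻¹ ^ a i) * e i)) =
        RatFunc.X⁻¹ ^ a i * Tr k E (φ * e i) := by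
      have h3 : φ * (algebraMap (RatFunc k) E (RatFunc.X⁻¹ ^ a i) * e i) =
          (RatFunc.X⁻¹ ^ a i : RatFunc k) • (φ * e i) := by
        rw [Algebra.smul_def]
        ring
      rw [h3, map_smul, smul_eq_mul]
    rw [h2] at h1
    by_cases h0 : Tr k E (φ * e i) = 0
    · exact Or.inl h0
    · right
      have hXi : (RatFunc.X⁻¹ ^ a i : RatFunc k) ≠ 0 := pow_ne_zero _ (inv_ne_zero hX)
      rcases h1 with h1 | h1
      · exact absurd h1 (mul_ne_zero hXi h0)
      · rw [RatFunc.intDegree_mul hXi h0, inv_pow, RatFunc.intDegree_inv] at h1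
        have h4 : (RatFunc.X ^ a i : RatFunc k).intDegree = a i := by
          rw [← RatFunc.algebraMap_X, ← map_pow, RatFunc.intDegree_polynomial, natDegree_X_pow]
        rw [h4] at h1
        linarith
  · intro h b hb
    have h1 : Dle (Tr k E (φ * b)) (-2) := by
      rw [bra2_tr (e := e)]
      refine dle_sum _ _ _ fun i _ => ?_
      have h2 := dle_mul ((hO b).1 (bra2_int hb) i) (h i)
      have h3 : -(a i : ℤ) + ((a i : ℤ) - 2) = -2 := by ring
      rw [h3] at h2
      exact h2
    exact h1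

theorem isSK_iff2 (H : Cv e a i0 f m dK d) (hX : ∀ z : E, IntX k z ↔ InB e z)
    (hO : ∀ z : E, IntO k z ↔ InCi e a z) (φ : E) : IsSecondKind k φ ↔ SK2 e a d φ := by
  constructor
  · rintro ⟨⟨ψ, h1, h2⟩, ⟨θ, h3, h4⟩⟩
    obtain ⟨g, hg⟩ := (isExact_iff H ψ).1 h1
    obtain ⟨g', hg'⟩ := (isExact_iff H θ).1 h3
    refine ⟨⟨φ - ψ, g, (regFin_iff H hX _).1 h2, ?_⟩, ⟨φ - θ, g', (regInf_iff H hO _).1 h4, ?_⟩⟩
    · rw [← hg, sub_add_cancel]
    · rw [← hg', sub_add_cancel]
  · rintro ⟨⟨x, g, h1, h2⟩, ⟨y, g', h3, h4⟩⟩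
    refine ⟨⟨d g, (isExact_iff H _).2 ⟨g, rfl⟩, ?_⟩, ⟨d g', (isExact_iff H _).2 ⟨g', rfl⟩, ?_⟩⟩
    · rw [h2, add_sub_cancel_right]
      exact (regFin_iff H hX _).2 h1
    · rw [h4, add_sub_cancel_right]
      exact (regInf_iff H hO _).2 h3

theorem isRegular_iff (H : Cv e a i0 f m dK d) (hX : ∀ z : E, IntX k z ↔ InB e z)
    (hO : ∀ z : E, IntO k z ↔ InCi e a z) (φ : E) : IsRegular k φ ↔ InReg e a φ := by
  constructor
  · rintro ⟨h1, h2⟩ i
    exact ⟨(regFin_iff H hX φ).1 h1 i, (regInf_iff H hO φ).1 h2 i⟩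
  · intro h
    exact ⟨(regFin_iff H hX φ).2 fun i => (h i).1, (regInf_iff H hO φ).2 fun i => (h i).2⟩

theorem isRegular_iff_isReg {κ : Type*} [Field κ] {E : Type*} [CommRing E]
    [Algebra (RatFunc κ) E] (φ : E) : IsRegular κ φ ↔ IsReg (κ := κ) φ := by
  constructor
  · rintro ⟨h2, h3⟩
    refine ⟨fun b hb => ?_, fun b hb => h3 b hb⟩
    obtain ⟨q, hq⟩ := h2 b ((bra2_intX b).2 hb)
    exact ⟨q, hq.symm⟩
  · rintro ⟨h2, h3⟩
    refine ⟨fun b hb => ?_, fun b hb => h3 b hb⟩
    obtain ⟨q, hq⟩ := h2 b ((bra2_intX b).1 hb)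
    exact ⟨q, hq.symm⟩

end MPadcCM
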