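import Pool.Agent.Lib.MP_adc574_ag_CM.BrA

/-!
# BrB: the basis of the cohomology

`hw`: the form `h b := hh k f m b` is an eigenvector of `ρ g` with eigenvalue `w b g`. `P b`: the character of `h b` is `χ`.
JOB BrB.
* `com_d`: `ρ g` commutes with `d`: `d' z := (ρ g).symm (d (ρ g z))` is a derivation of `E` with the same values as `d` on `algebraMap r`; the difference is a `RatFunc k`-linear derivation, zero by `Cv.sepE` (PH).
* `com_lift`: the same for a lift `Δ` (`liftE_unique` of DeB with `H.dual`; `IsLiftE` for `(ρ g).symm (Δ (ρ g z))`).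
* `hh_mem`: `h b ∈ secondKind ρ χ` if `P b`: `isSK_iff2`, `H.sk2_hh`, `hw`, `hP`.
* `exists_basis`: the family `x b := cohClass ⟨h b, _⟩`, `b : {b // P b}`. Independent: `∑ r b • x b = 0` means `∑ r b • h b` is exact (`isExact_iff`), so `hZ` for `r` extended by zero. Spanning: let `φ ∈ secondKind ρ χ`; `H.sk`: `φ = ∑ b, pol (C (r b)) • h b + d g₀`. For `g : G`: apply `ρ g`: `χ g • φ = ∑ b, (r b * w b g) • h b + d (ρ g g₀)`, and `χ g • φ = ∑ (χ g * r b) • h b + d (χ g • g₀)`
  (`d` is `k`-linear: `Cw.d_smul_C`); the difference and `hZ`: `r b * w b g = χ g * r b` for all `b`, so `r b = 0` if not `P b` (`hP`). So `φ = ∑_{P b} r b • h b + d g₀` and `cohClass φ = ∑ r b • x b`. `Module.Basis.mk`. (`pol (C c) • z = c • z`: `algebraMap_smul`, `RatFunc.algebraMap_C`/`IsScalarTower`.)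
* `regularClasses_eq`: `x (.inl v)` is the class of the regular form `h (.inl v)` (`isRegular_iff`: `x ^ l f i`, `l ≤ a i - 2`: `Tr (x ^ l f i * e j) = x ^ l δ_ij`). Conversely a regular `φ ∈ secondKind ρ χ` is `∑ r v • h (.inl v)` (`H.reg`), as above `r v * w (.inl v) g = χ g * r v` (with `g₀ = 0`), so only the `v` with `P (.inl v)` occur.
-/

set_option autoImplicit false

namespace MPadcCM

open Polynomial MPadcCov

variable {k : Type*} [Field k] {E : Type*} [CommRing E] [Algebra (RatFunc k) E] [Algebra k E]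
  [IsScalarTower k (RatFunc k) E] {n : ℕ} {e : Module.Basis (Fin n) (RatFunc k) E} {a : Fin n → ℕ}
  {i0 : Fin n} {f : Fin n → E} {m : Ix a → E} {dK : Derivation ℤ (RatFunc k) (RatFunc k)}
  {d : Derivation ℤ E E}

omit [Algebra k E] [IsScalarTower k (RatFunc k) E] in
private theorem brb1_com (H : Cv e a i0 f m dK d) (σ : E ≃ₐ[RatFunc k] E)
    {Δ : Derivation ℤ E E} {DK : RatFunc k → RatFunc k}
    (h : ∀ r, Δ (algebraMap (RatFunc k) E r) = algebraMap (RatFunc k) E (DK r)) (z : E) :
    σ (Δ z) = Δ (σ z) := by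
  refine der_ext e f H.dual (RingHomClass.toRingHom σ)
    (AddMonoidHom.mk' (fun z => σ (Δ z)) (fun x y => by rw [map_add, map_add]))
    (AddMonoidHom.mk' (fun z => Δ (σ z)) (fun x y => by rw [map_add, map_add])) ?_ ?_ ?_ z
  · intro z w
    change σ (Δ (z * w)) = σ z * σ (Δ w) + σ w * σ (Δ z)
    rw [Derivation.leibniz, map_add, smul_eq_mul, smul_eq_mul, map_mul, map_mul]
  · intro z w
    change Δ (σ (z * w)) = σ z * Δ (σ w) + σ w * Δ (σ z)
    rw [map_mul, Derivation.leibniz, smul_eq_mul, smul_eq_mul]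
  · intro c
    change σ (Δ (algebraMap (RatFunc k) E c)) = Δ (σ (algebraMap (RatFunc k) E c))
    rw [h, AlgEquiv.commutes, AlgEquiv.commutes, h]

theorem com_d (H : Cv e a i0 f m dK d) (σ : E ≃ₐ[RatFunc k] E) (z : E) : σ (d z) = d (σ z) :=
  brb1_com H σ H.d_alg z

theorem com_lift (H : Cv e a i0 f m dK d) (σ : E ≃ₐ[RatFunc k] E) {D : Derivation ℤ k k}
    {Δ : Derivation ℤ E E} (hΔ : IsLiftE D Δ) (z : E) : σ (Δ z) = Δ (σ z) := by
  obtain ⟨DK, hDK⟩ := exists_DK D
  exact brb1_com H σ (DK := fun r => DK r) (fun r => hΔ.alg hDK r) z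

variable {G : Type*} [CommGroup G] {ρ : G →* (E ≃ₐ[RatFunc k] E)} {χ : G →* kˣ}

omit [CommGroup G] in
private theorem brb1_smul (c : k) (z : E) : pol (C c) • z = c • z := by
  have h1 : pol (C c) = algebraMap k (RatFunc k) c := by
    rw [RatFunc.algebraMap_eq_C]
    exact RatFunc.algebraMap_C c
  rw [h1, algebraMap_smul]

theorem hh_mem (H : Cv e a i0 f m dK d) (hX : ∀ z : E, IntX k z ↔ InB e z)
    (hO : ∀ z : E, IntO k z ↔ InCi e a z) {w : II a → G → k}
    (hw : ∀ b g, ρ g (hh k f m b) = pol (C (w b g)) • hh k f m b) (b : II a)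
    (hb : ∀ g, w b g = χ g) : hh k f m b ∈ secondKind ρ χ := by
  refine ⟨(isSK_iff2 H hX hO _).2 (H.sk2_hh b), fun g => ?_⟩
  rw [hw, hb, brb1_smul]

theorem exists_basis (H : Cv e a i0 f m dK d) (hX : ∀ z : E, IntX k z ↔ InB e z)
    (hO : ∀ z : E, IntO k z ↔ InCi e a z)
    (hZ : ∀ (r : II a → k) (g : E), ∑ b, pol (C (r b)) • hh k f m b = d g → r = 0)
    {w : II a → G → k} (hw : ∀ b g, ρ g (hh k f m b) = pol (C (w b g)) • hh k f m b)
    (P : II a → Prop) (hP : ∀ b, P b ↔ ∀ g, w b g = χ g) :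
    ∃ B : Module.Basis {b // P b} k (H1 ρ χ), ∀ b, ∃ h : hh k f m b.1 ∈ secondKind ρ χ,
      B b = cohClass ρ χ ⟨hh k f m b.1, h⟩ := by
  classical
  have hmem : ∀ b : {b // P b}, hh k f m b.1 ∈ secondKind ρ χ := fun b =>
    hh_mem H hX hO hw b.1 ((hP b.1).1 b.2)
  let y : {b // P b} → secondKind ρ χ := fun b => ⟨hh k f m b.1, hmem b⟩
  let x : {b // P b} → H1 ρ χ := fun b => cohClass ρ χ (y b)
  have hmk : ∀ r : {b // P b} → k, ∑ b, r b • x b =
      (exactForms ρ χ).mkQ (∑ b, r b • y b) := by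
    intro r
    rw [map_sum]
    refine Finset.sum_congr rfl fun b _ => ?_
    rw [map_smul]
    rfl
  have hcoe : ∀ r : {b // P b} → k, ((∑ b, r b • y b : secondKind ρ χ) : E) =
      ∑ b, r b • hh k f m b.1 := by
    intro r
    rw [Submodule.coe_sum]
    rfl
  have hext : ∀ r : II a → k, (∀ b, ¬ P b → r b = 0) →
      ∑ b, pol (C (r b)) • hh k f m b = ∑ b : {b // P b}, r b.1 • hh k f m b.1 := by
    intro r hr
    rw [← Fintype.sum_subtype_add_sum_subtype P]
    have h1 : ∑ b : {b // ¬ P b}, pol (C (r b.1)) • hh k f m b.1 = 0 := by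
      refine Finset.sum_eq_zero fun b _ => ?_
      rw [brb1_smul, hr b.1 b.2, zero_smul]
    rw [h1, add_zero]
    exact Finset.sum_congr rfl fun b _ => brb1_smul _ _
  have hli : LinearIndependent k x := by
    rw [Fintype.linearIndependent_iff]
    intro r hr
    rw [hmk r, Submodule.mkQ_apply, Submodule.Quotient.mk_eq_zero] at hr
    have h1 : IsExact k ((∑ b, r b • y b : secondKind ρ χ) : E) := hr
    rw [hcoe r, isExact_iff H] at h1
    obtain ⟨g, hg⟩ := h1
    have h2 := hext (fun b => if h : P b then r ⟨b, h⟩ else 0) (fun b hb => dif_neg hb)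
    have h3 : ∑ b : {b // P b}, (if h : P b.1 then r ⟨b.1, h⟩ else 0) • hh k f m b.1 =
        ∑ b : {b // P b}, r b • hh k f m b.1 :=
      Finset.sum_congr rfl fun b _ => by rw [dif_pos b.2]
    have h4 := hZ _ g (h2.trans (h3.trans hg))
    intro b
    have h5 := congrFun h4 b.1
    simp only [dif_pos b.2] at h5
    exact h5
  have hsp : ⊤ ≤ Submodule.span k (Set.range x) := by
    intro q _
    obtain ⟨φ, rfl⟩ := Submodule.Quotient.mk_surjective _ q
    obtain ⟨r, g₀, hr⟩ := H.sk (φ : E) ((isSK_iff2 H hX hO _).1 φ.2.1)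
    have hrz : ∀ b, ¬ P b → r b = 0 := by
      intro b hb
      rw [hP] at hb
      push Not at hb
      obtain ⟨g, hg⟩ := hb
      have h1 : ρ g (φ : E) = ∑ b, pol (C (r b * w b g)) • hh k f m b + d (ρ g g₀) := by
        rw [hr, map_add, map_sum, com_d H (ρ g) g₀]
        congr 1
        refine Finset.sum_congr rfl fun b _ => ?_
        rw [map_smul, hw, smul_smul, ← map_mul, ← C_mul]
      have h2 : ρ g (φ : E) = ∑ b, pol (C ((χ g : k) * r b)) • hh k f m b +
          d (pol (C (χ g : k)) • g₀) := by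
        rw [φ.2.2 g, ← brb1_smul, H.d_smul_C]
        conv_lhs => rw [hr]
        rw [smul_add, Finset.smul_sum]
        congr 1
        refine Finset.sum_congr rfl fun b _ => ?_
        rw [smul_smul, ← map_mul, ← C_mul]
      have h3 := hZ (fun b => r b * w b g - (χ g : k) * r b)
        (pol (C (χ g : k)) • g₀ - ρ g g₀) (by
          rw [map_sub]
          have h4 : ∑ b, pol (C (r b * w b g - (χ g : k) * r b)) • hh k f m b =
              ∑ b, pol (C (r b * w b g)) • hh k f m b -
                ∑ b, pol (C ((χ g : k) * r b)) • hh k f m b := by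
            rw [← Finset.sum_sub_distrib]
            refine Finset.sum_congr rfl fun b _ => ?_
            rw [← sub_smul, ← map_sub, ← C_sub]
          rw [h4, sub_eq_sub_iff_add_eq_add, ← h1, h2, add_comm])
      have h5 := congrFun h3 b
      have h6 : r b * (w b g - (χ g : k)) = 0 := by
        rw [mul_sub, mul_comm (r b) (χ g : k)]
        exact h5
      rcases mul_eq_zero.1 h6 with h7 | h7
      · exact h7
      · exact absurd (sub_eq_zero.1 h7) hg
    have h8 : (Submodule.Quotient.mk φ : H1 ρ χ) = ∑ b : {b // P b}, r b.1 • x b := by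
      rw [hmk (fun b => r b.1), Submodule.mkQ_apply, Submodule.Quotient.eq]
      change IsExact k ((φ - ∑ b : {b // P b}, r b.1 • y b : secondKind ρ χ) : E)
      rw [Submodule.coe_sub, hcoe (fun b => r b.1), isExact_iff H]
      refine ⟨g₀, ?_⟩
      conv_lhs => rw [hr]
      rw [hext r hrz, add_sub_cancel_left]
    rw [h8]
    exact Submodule.sum_mem _ fun b _ =>
      Submodule.smul_mem _ _ (Submodule.subset_span ⟨b, rfl⟩)
  refine ⟨Module.Basis.mk hli hsp, fun b => ⟨hmem b, ?_⟩⟩
  rw [Module.Basis.mk_apply]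

private theorem brb2_reg (H : Cv e a i0 f m dK d) (v : Ix a) : InReg e a (hh k f m (.inl v)) := by
  intro i
  have h1 : Tr k E (hh k f m (.inl v) * e i) =
      (RatFunc.X : RatFunc k) ^ (v.2 : ℕ) * if v.1 = i then 1 else 0 := by
    change Tr k E ((RatFunc.X : RatFunc k) ^ (v.2 : ℕ) • f v.1 * e i) = _
    rw [smul_mul_assoc, map_smul, smul_eq_mul, H.dual]
  have h2 : (RatFunc.X : RatFunc k) ^ (v.2 : ℕ) = pol (X ^ (v.2 : ℕ) : k[X]) := by
    rw [pol, map_pow, RatFunc.algebraMap_X]
  rw [h1]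
  by_cases hi : v.1 = i
  · rw [if_pos hi, mul_one, h2]
    refine ⟨⟨_, rfl⟩, ?_⟩
    right
    rw [pol, RatFunc.intDegree_polynomial, natDegree_X_pow]
    have h3 := v.2.2
    rw [← hi]
    omega
  · rw [if_neg hi, mul_zero]
    exact ⟨⟨0, map_zero _⟩, Or.inl rfl⟩

theorem regularClasses_eq (H : Cv e a i0 f m dK d) (hX : ∀ z : E, IntX k z ↔ InB e z)
    (hO : ∀ z : E, IntO k z ↔ InCi e a z)
    (hZ : ∀ (r : II a → k) (g : E), ∑ b, pol (C (r b)) • hh k f m b = d g → r = 0)
    {w : II a → G → k} (hw : ∀ b g, ρ g (hh k f m b) = pol (C (w b g)) • hh k f m b)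
    (P : II a → Prop) (hP : ∀ b, P b ↔ ∀ g, w b g = χ g)
    (B : Module.Basis {b // P b} k (H1 ρ χ))
    (hB : ∀ b, ∃ h : hh k f m b.1 ∈ secondKind ρ χ, B b = cohClass ρ χ ⟨hh k f m b.1, h⟩) :
    regularClasses ρ χ = Submodule.span k
      (Set.range fun v : {v : Ix a // P (.inl v)} => B ⟨.inl v.1, v.2⟩) := by
  classical
  apply le_antisymm
  · rw [regularClasses, Submodule.span_le]
    rintro _ ⟨φ, hφ, rfl⟩
    obtain ⟨r, hr⟩ := H.reg (φ : E) ((isRegular_iff H hX hO _).1 hφ)
    have hsum : ∀ q : Ix a → k, ∑ b, pol (C (Sum.elim q (fun _ => 0) b)) • hh k f m b =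
        ∑ c, pol (C (q c)) • hh k f m (.inl c) := by
      intro q
      rw [Fintype.sum_sum_type]
      have h1 : ∑ c : Ix a, pol (C (Sum.elim q (fun _ => (0 : k)) (.inr c))) •
          hh k f m (.inr c) = 0 := by
        refine Finset.sum_eq_zero fun c _ => ?_
        rw [Sum.elim_inr, C_0, pol, map_zero, zero_smul]
      rw [h1, add_zero]
      rfl
    have hrz : ∀ c, ¬ P (.inl c) → r c = 0 := by
      intro c hc
      rw [hP] at hc
      push Not at hc
      obtain ⟨g, hg⟩ := hc
      have h1 : ρ g (φ : E) = ∑ c, pol (C (r c * w (.inl c) g)) • hh k f m (.inl c) := by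
        rw [hr, map_sum]
        refine Finset.sum_congr rfl fun b _ => ?_
        rw [map_smul, hw, smul_smul, ← map_mul, ← C_mul]
      have h2 : ρ g (φ : E) = ∑ c, pol (C ((χ g : k) * r c)) • hh k f m (.inl c) := by
        rw [φ.2.2 g, ← brb1_smul]
        conv_lhs => rw [hr]
        rw [Finset.smul_sum]
        refine Finset.sum_congr rfl fun b _ => ?_
        rw [smul_smul, ← map_mul, ← C_mul]
      have h3 := hZ (Sum.elim (fun c => r c * w (.inl c) g - (χ g : k) * r c) (fun _ => 0)) 0 (by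
          rw [hsum, map_zero]
          have h4 : ∑ c, pol (C (r c * w (.inl c) g - (χ g : k) * r c)) • hh k f m (.inl c) =
              ∑ c, pol (C (r c * w (.inl c) g)) • hh k f m (.inl c) -
                ∑ c, pol (C ((χ g : k) * r c)) • hh k f m (.inl c) := by
            rw [← Finset.sum_sub_distrib]
            refine Finset.sum_congr rfl fun b _ => ?_
            rw [← sub_smul, ← map_sub, ← C_sub]
          rw [h4, ← h1, h2, sub_self])
      have h5 := congrFun h3 (.inl c)
      have h6 : r c * (w (.inl c) g - (χ g : k)) = 0 := by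
        rw [mul_sub, mul_comm (r c) (χ g : k)]
        exact h5
      rcases mul_eq_zero.1 h6 with h7 | h7
      · exact h7
      · exact absurd (sub_eq_zero.1 h7) hg
    choose hm hBm using hB
    have h8 : φ = ∑ v : {v : Ix a // P (.inl v)},
        r v.1 • (⟨hh k f m (.inl v.1), hm ⟨.inl v.1, v.2⟩⟩ : secondKind ρ χ) := by
      apply Subtype.ext
      rw [Submodule.coe_sum, hr, ← Fintype.sum_subtype_add_sum_subtype
        (fun v : Ix a => P (.inl v))]
      have h9 : ∑ v : {v : Ix a // ¬ P (.inl v)}, pol (C (r v.1)) • hh k f m (.inl v.1) = 0 := by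
        refine Finset.sum_eq_zero fun v _ => ?_
        rw [hrz v.1 v.2, C_0, pol, map_zero, zero_smul]
      rw [h9, add_zero]
      refine Finset.sum_congr rfl fun v _ => ?_
      rw [brb1_smul]
      rfl
    have h10 : cohClass ρ χ φ = ∑ v : {v : Ix a // P (.inl v)}, r v.1 • B ⟨.inl v.1, v.2⟩ := by
      have h11 : cohClass ρ χ φ = (exactForms ρ χ).mkQ φ := rfl
      rw [h11, h8, map_sum]
      refine Finset.sum_congr rfl fun v _ => ?_
      rw [map_smul, hBm]
      rfl
    rw [SetLike.mem_coe, h10]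
    exact Submodule.sum_mem _ fun v _ =>
      Submodule.smul_mem _ _ (Submodule.subset_span ⟨v, rfl⟩)
  · rw [Submodule.span_le]
    rintro _ ⟨v, rfl⟩
    obtain ⟨h, hv⟩ := hB ⟨.inl v.1, v.2⟩
    apply Submodule.subset_span
    exact ⟨⟨hh k f m (.inl v.1), h⟩, (isRegular_iff H hX hO _).2 (brb2_reg H v.1), hv⟩

end MPadcCM
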