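import Mathlib

/-!
# Horizontal spaces of alternating forms: definitions

`H` is a `k`-space with additive operators `nab D` (`D` a derivation of `k`), the connection.
-/

set_option autoImplicit false

namespace MPadcCM

universe u v

variable {k : Type u} [Field k] {H : Type v} [AddCommGroup H] [Module k H]

/-- The family of operators `nab` is a connection on `H`: Leibniz rule. -/
def IsConn (nab : Derivation ℤ k k → H →+ H) : Prop :=
  ∀ (D : Derivation ℤ k k) (a : k) (x : H), nab D (a • x) = D a • x + a • nab D x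

/-- `ω'` is the covariant derivative of the alternating form `ω` in the direction `D`. -/
def IsCov (nab : Derivation ℤ k k → H →+ H) (D : Derivation ℤ k k) {r : ℕ}
    (ω ω' : H [⋀^Fin r]→ₗ[k] k) : Prop :=
  ∀ f : Fin r → H, ω' f = D (ω f) - ∑ u, ω (Function.update f u (nab D (f u)))

/-- The space `W` of alternating forms is horizontal: stable under the connection. -/
def IsHor (nab : Derivation ℤ k k → H →+ H) {r : ℕ} (W : Submodule k (H [⋀^Fin r]→ₗ[k] k)) : Prop :=
  ∀ (D : Derivation ℤ k k), ∀ ω ∈ W, ∃ ω' ∈ W, IsCov nab D ω ω'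

/-- The alternating form `ω` is nonzero and decomposable: `ω = l 1 ∧ … ∧ l r`. -/
def IsDec {r : ℕ} (ω : H [⋀^Fin r]→ₗ[k] k) : Prop :=
  ω ≠ 0 ∧ ∃ l : Fin r → H →ₗ[k] k, ∀ f : Fin r → H, ω f = (Matrix.of fun v u => l v (f u)).det

/-- General position of the subspace `F` with respect to the connection: every horizontal space of alternating
`r`-forms which contains a nonzero decomposable form contains a form which does not vanish on `F`. -/
def GP (nab : Derivation ℤ k k → H →+ H) (F : Submodule k H) (r : ℕ) : Prop :=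
  ∀ W : Submodule k (H [⋀^Fin r]→ₗ[k] k), IsHor nab W → ∀ ω₀ ∈ W, IsDec ω₀ →
    ∃ ω ∈ W, ∃ f : Fin r → H, (∀ u, f u ∈ F) ∧ ω f ≠ 0

end MPadcCM
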