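import Pool.Agent.Lib.MP_adc574_ag_CM.BrB
import Pool.Agent.Lib.MP_adc574_ag_CM.KeyD

/-!
# BrC: the Gauss-Manin connection

`hS`: every lift of a derivation of `k` maps forms of the second kind to such forms.
JOB BrC.
* `exists_nab`: for `D : Derivation ℤ k k` choose a lift `Δ_D` (`exists_liftE` of DeB with `H.dual`). It maps `secondKind ρ χ` to itself: `isSK_iff2` and `hS`; `ρ g (Δ φ) = Δ (ρ g φ) = Δ (χ g • φ) = D (χ g) • φ + χ g • Δ φ` (`com_lift`, `IsLiftE.smul_C`) and `D (χ g) = 0`: `χ g` is a root of unity (`G` finite: `χ g ^ N = 1`, `N > 0`, so `N (χ g) ^ (N - 1) D (χ g) = 0`, characteristic 0).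
  It maps exact forms to exact forms: `Δ (d g) = d (Δ g)` (`Cw.comm`), `isExact_iff`. So it induces an additive map `nab D` of the quotient (`QuotientAddGroup.map` / `Submodule.liftQ` is only for linear maps; use `QuotientAddGroup.lift` or the additive subgroups, or define by choice and prove additivity). `IsConn`: `Δ (c • φ) = D c • φ + c • Δ φ`.
  The second property: any other lift `Δ` is equal to `Δ_D` (`liftE_unique`, `isLift_iff`).
* `isHor_iff`: see the definitions `IsCov` (KeyD), `IsCovDer` (FDefs). Every `x : H1 ρ χ` is `cohClass φ` (`Submodule.Quotient.mk_surjective`).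
* `isDec_iff`: unfold.
-/

set_option autoImplicit false

namespace MPadcCM

open Polynomial MPadcCov

variable {k : Type*} [Field k] {E : Type*} [CommRing E] [Algebra (RatFunc k) E] [Algebra k E]
  [IsScalarTower k (RatFunc k) E] {n : ℕ} {e : Module.Basis (Fin n) (RatFunc k) E} {a : Fin n → ℕ}
  {i0 : Fin n} {f : Fin n → E} {m : Ix a → E} {dK : Derivation ℤ (RatFunc k) (RatFunc k)}
  {d : Derivation ℤ E E} {G : Type*} [CommGroup G] {ρ : G →* (E ≃ₐ[RatFunc k] E)} {χ : G →* kˣ}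

private theorem brc1_chi [CharZero k] [Finite G] (χ : G →* kˣ) (D : Derivation ℤ k k) (g : G) :
    D (χ g : k) = 0 := by
  have hN : 0 < orderOf g := orderOf_pos g
  have h1 : ((χ g : kˣ) : k) ^ orderOf g = 1 := by
    rw [← Units.val_pow_eq_pow_val, ← map_pow, pow_orderOf_eq_one, map_one, Units.val_one]
  have h2 : D (((χ g : kˣ) : k) ^ orderOf g) = 0 := by
    rw [h1]
    exact D.map_one_eq_zero
  rw [Derivation.leibniz_pow, nsmul_eq_mul, smul_eq_mul] at h2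
  rcases mul_eq_zero.1 h2 with h3 | h3
  · exact absurd (Nat.cast_eq_zero.1 h3) hN.ne'
  · rcases mul_eq_zero.1 h3 with h4 | h4
    · exact absurd h4 (pow_ne_zero _ (Units.ne_zero _))
    · exact h4

private theorem brc1_smul (c : k) (z : E) : pol (C c) • z = c • z := by
  rw [← algebraMap_smul (RatFunc k) c z, RatFunc.algebraMap_eq_C, ← RatFunc.algebraMap_C]

private theorem brc1_lift_smul {D : Derivation ℤ k k} {Δ : Derivation ℤ E E} (hΔ : IsLiftE D Δ)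
    (c : k) (z : E) : Δ (c • z) = D c • z + c • Δ z := by
  rw [← brc1_smul c z, hΔ.smul_C, brc1_smul, brc1_smul]

private theorem brc1_mem [CharZero k] [Finite G] (H : Cv e a i0 f m dK d)
    (hX : ∀ z : E, IntX k z ↔ InB e z) (hO : ∀ z : E, IntO k z ↔ InCi e a z)
    (hS : ∀ (D : Derivation ℤ k k) (Δ : Derivation ℤ E E), IsLiftE D Δ →
      ∀ φ, SK2 e a d φ → SK2 e a d (Δ φ)) {D : Derivation ℤ k k} {Δ : Derivation ℤ E E}
    (hΔ : IsLiftE D Δ) (φ : secondKind ρ χ) : Δ (φ : E) ∈ secondKind ρ χ := by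
  refine ⟨(isSK_iff2 H hX hO _).2 (hS D Δ hΔ _ ((isSK_iff2 H hX hO _).1 φ.2.1)), fun g => ?_⟩
  rw [com_lift H (ρ g) hΔ, φ.2.2 g, brc1_lift_smul hΔ, brc1_chi χ D g, zero_smul, zero_add]

theorem exists_nab [CharZero k] [Finite G] (H : Cv e a i0 f m dK d)
    (hX : ∀ z : E, IntX k z ↔ InB e z) (hO : ∀ z : E, IntO k z ↔ InCi e a z)
    (hS : ∀ (D : Derivation ℤ k k) (Δ : Derivation ℤ E E), IsLiftE D Δ →
      ∀ φ, SK2 e a d φ → SK2 e a d (Δ φ)) :
    ∃ nab : Derivation ℤ k k → H1 ρ χ →+ H1 ρ χ, IsConn nab ∧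
      (∀ (D : Derivation ℤ k k) (Δ : Derivation ℤ E E), IsLift D Δ →
        ∀ φ ψ : secondKind ρ χ, (ψ : E) = Δ φ → nab D (cohClass ρ χ φ) = cohClass ρ χ ψ) ∧
      (∀ (D : Derivation ℤ k k) (Δ : Derivation ℤ E E), IsLift D Δ →
        ∀ φ : secondKind ρ χ, ∃ ψ : secondKind ρ χ, (ψ : E) = Δ φ) ∧
      ∀ D : Derivation ℤ k k, ∃ Δ : Derivation ℤ E E, IsLift D Δ := by
  classical
  choose Δ hΔ using fun D : Derivation ℤ k k => exists_liftE (e := e) (f := f) H.dual D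
  have hmem := fun (D : Derivation ℤ k k) (φ : secondKind ρ χ) =>
    brc1_mem (ρ := ρ) (χ := χ) H hX hO hS (hΔ D) φ
  let T : Derivation ℤ k k → secondKind ρ χ → secondKind ρ χ := fun D φ => ⟨Δ D (φ : E), hmem D φ⟩
  have hTadd : ∀ D φ ψ, T D (φ + ψ) = T D φ + T D ψ := fun D φ ψ =>
    Subtype.ext (map_add (Δ D) (φ : E) (ψ : E))
  have hTsub : ∀ D φ ψ, T D (φ - ψ) = T D φ - T D ψ := fun D φ ψ =>
    Subtype.ext (map_sub (Δ D) (φ : E) (ψ : E))
  have hTsmul : ∀ D (c : k) φ, T D (c • φ) = D c • φ + c • T D φ := fun D c φ =>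
    Subtype.ext (brc1_lift_smul (hΔ D) c (φ : E))
  have hTex : ∀ D φ, φ ∈ exactForms ρ χ → T D φ ∈ exactForms ρ χ := by
    intro D φ hφ
    obtain ⟨g, hg⟩ := (isExact_iff H _).1 (show IsExact k (φ : E) from hφ)
    show IsExact k (Δ D (φ : E))
    rw [isExact_iff H]
    exact ⟨Δ D g, by rw [hg, H.toCw.comm (hΔ D)]⟩
  have hsurj : Function.Surjective (cohClass ρ χ) := Submodule.Quotient.mk_surjective _
  have hwd : ∀ D φ ψ, cohClass ρ χ φ = cohClass ρ χ ψ →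
      cohClass ρ χ (T D φ) = cohClass ρ χ (T D ψ) := by
    intro D φ ψ h
    have h1 : φ - ψ ∈ exactForms ρ χ := (Submodule.Quotient.eq _).1 h
    refine (Submodule.Quotient.eq _).2 ?_
    rw [← hTsub]
    exact hTex D _ h1
  let F : Derivation ℤ k k → H1 ρ χ → H1 ρ χ := fun D x =>
    cohClass ρ χ (T D (Function.surjInv hsurj x))
  have hF : ∀ D φ, F D (cohClass ρ χ φ) = cohClass ρ χ (T D φ) := fun D φ =>
    hwd D _ _ (Function.surjInv_eq hsurj _)
  have hadd : ∀ φ ψ, cohClass ρ χ (φ + ψ) = cohClass ρ χ φ + cohClass ρ χ ψ := fun _ _ => rfl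
  have hsmul : ∀ (c : k) φ, cohClass ρ χ (c • φ) = c • cohClass ρ χ φ := fun _ _ => rfl
  have hFadd : ∀ D x y, F D (x + y) = F D x + F D y := by
    intro D x y
    obtain ⟨φ, rfl⟩ := hsurj x
    obtain ⟨ψ, rfl⟩ := hsurj y
    rw [← hadd, hF, hF, hF, hTadd, hadd]
  refine ⟨fun D => AddMonoidHom.mk' (F D) (hFadd D), ?_, ?_, ?_, ?_⟩
  · intro D c x
    obtain ⟨φ, rfl⟩ := hsurj x
    show F D (c • cohClass ρ χ φ) = D c • cohClass ρ χ φ + c • F D (cohClass ρ χ φ)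
    rw [← hsmul, hF, hF, hTsmul, hadd, hsmul, hsmul]
  · intro D Δ' hΔ' φ ψ h
    show F D (cohClass ρ χ φ) = cohClass ρ χ ψ
    rw [hF]
    congr 1
    apply Subtype.ext
    rw [h]
    exact liftE_unique (e := e) (f := f) H.dual (hΔ D) ((isLift_iff D Δ').1 hΔ') _
  · intro D Δ' hΔ' φ
    exact ⟨⟨Δ' (φ : E), brc1_mem H hX hO hS ((isLift_iff D Δ').1 hΔ') φ⟩, rfl⟩
  · intro D
    exact ⟨Δ D, (isLift_iff D (Δ D)).2 (hΔ D)⟩

theorem isHor_iff {nab : Derivation ℤ k k → H1 ρ χ →+ H1 ρ χ}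
    (h1 : ∀ (D : Derivation ℤ k k) (Δ : Derivation ℤ E E), IsLift D Δ →
        ∀ φ ψ : secondKind ρ χ, (ψ : E) = Δ φ → nab D (cohClass ρ χ φ) = cohClass ρ χ ψ)
    (h2 : ∀ (D : Derivation ℤ k k) (Δ : Derivation ℤ E E), IsLift D Δ →
        ∀ φ : secondKind ρ χ, ∃ ψ : secondKind ρ χ, (ψ : E) = Δ φ)
    (h3 : ∀ D : Derivation ℤ k k, ∃ Δ : Derivation ℤ E E, IsLift D Δ) {r : ℕ}
    (W : Submodule k (H1 ρ χ [⋀^Fin r]→ₗ[k] k)) : IsHor nab W ↔ IsHorizontal ρ χ W := by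
  have key : ∀ (D : Derivation ℤ k k) (ω ω' : H1 ρ χ [⋀^Fin r]→ₗ[k] k),
      IsCov nab D ω ω' ↔ IsCovDer ρ χ D ω ω' := by
    intro D ω ω'
    constructor
    · intro h Δ hΔ φ ψ hψ
      rw [h]
      congr 1
      refine Finset.sum_congr rfl fun u _ => ?_
      rw [h1 D Δ hΔ (φ u) (ψ u) (hψ u)]
    · intro h f
      obtain ⟨Δ, hΔ⟩ := h3 D
      have e1 : ∀ u, ∃ φ : secondKind ρ χ, cohClass ρ χ φ = f u := fun u =>
        Submodule.Quotient.mk_surjective _ (f u)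
      choose φ hφ using e1
      have e2 : ∀ u, ∃ ψ : secondKind ρ χ, (ψ : E) = Δ (φ u) := fun u => h2 D Δ hΔ (φ u)
      choose ψ hψ using e2
      have e3 : (fun u => cohClass ρ χ (φ u)) = f := funext hφ
      have e4 := h Δ hΔ φ ψ hψ
      rw [e3] at e4
      rw [e4]
      congr 1
      refine Finset.sum_congr rfl fun u _ => ?_
      rw [← hφ u, h1 D Δ hΔ (φ u) (ψ u) (hψ u)]
  unfold IsHor IsHorizontal
  simp only [key]

theorem gp_iff {nab : Derivation ℤ k k → H1 ρ χ →+ H1 ρ χ}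
    (h : ∀ (r : ℕ) (W : Submodule k (H1 ρ χ [⋀^Fin r]→ₗ[k] k)),
      IsHor nab W ↔ IsHorizontal ρ χ W) :
    GP nab (regularClasses ρ χ) (Module.finrank k (regularClasses ρ χ)) ↔ IsGeneric ρ χ := by
  constructor
  · rintro hG W hW ⟨ω, hω, h0, hd⟩
    exact hG W ((h _ W).2 hW) ω hω ⟨h0, hd⟩
  · rintro hG W hW ω hω ⟨h0, hd⟩
    exact hG W ((h _ W).1 hW) ⟨ω, hω, h0, hd⟩

end MPadcCM
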