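import Mathlib
import Pool.Agent.Lib.MP_adc574_ag_Cov.Der

/-!
# DeA: algebras with a dual basis for the trace: extension and uniqueness of derivations

`K` a field, `E` a commutative `K`-algebra with basis `e` and dual basis `f` (`Tr (f i * e j) = δ_ij`). Write `z_i = e.repr z i`, `Tr = Algebra.trace K E` (`MPadcCov.tr_eq e z : Tr z = ∑ j, e.repr (z * e j) j`).
* JOB DeA1 (`repr_eq_tr`, `tr_nondeg`, `sum_tr`, `sum_fe`, `casimir`):
  - `repr_eq_tr`: `z = ∑ j, z_j • e j`, `Tr (z * f i) = ∑ j, z_j * Tr (e j * f i) = z_i`.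
  - `tr_nondeg`: if `Tr (z * e j) = 0` for all `j` then `Tr (z * w) = 0` for all `w` (linear), so all `z_i = Tr (z * f i) = 0`.
  - `sum_tr`: `w := z - ∑ i, Tr (z * e i) • f i` has `Tr (w * e j) = 0` for all `j`.
  - `sum_fe` (`∑ i, f i * e i = 1`): `Tr ((∑ f i * e i) * e j) = ∑ i, Tr ((e j * e i) * f i) = ∑ i, e.repr (e j * e i) i = Tr (e j)` (`repr_eq_tr`, `tr_eq`); so `Tr ((∑ f i * e i - 1) * e j) = 0`.
  - `casimir`: for a biadditive `β : E → E → V`, `K`-balanced (`β (c • x) y = β x (c • y)`): `∑ i, β (f i) (e i * w) = ∑ i, β (f i * w) (e i)`. `e i * w = ∑ j, Tr (e i * w * f j) • e j` and `f i * w = ∑ j, Tr (f i * w * e j) • f j` (`sum_tr`), so both sides are `∑ i, ∑ j, β (Tr (e i * w * f j) • f i) (e j)` (exchange `i`, `j` on one side).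
* JOB DeA2 (`sep_mod`, `der_ext`):
  - `sep_mod`: `δ (algebraMap c * z) = algebraMap c • δ z`. `casimir` with `β x y = x • δ y`: `∑ i, f i • δ (e i * w) = ∑ i, (f i * w) • δ (e i)`; the left-hand side is `∑ i, f i • (e i • δ w + w • δ (e i)) = (∑ i, f i * e i) • δ w + ∑ i, (f i * w) • δ (e i)`; so `δ w = 0`.
  - `der_ext`: `sep_mod` for `V = L` with the `E`-module structure along `θ` (`letI := Module.compHom L θ`) and `δ = δ₁ - δ₂`.
* JOB DeA3 (`exists_lift`): `D₀ z := ∑ i, algebraMap (DK (z_i)) * e i` is additive and `D₀ (c z) = (DK c) z + c D₀ z` for `c ∈ K`. `c(z, w) := D₀ (z w) - z D₀ w - w D₀ z` is symmetric and `K`-bilinear (the terms with `DK` cancel), and `z c(w,u) + c(z,w u) = c(z w,u) + u c(z,w)` (both sides are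
  `D₀ (z w u) - z w D₀ u - z u D₀ w - w u D₀ z`: `ring`). Put `h w := ∑ i, f i * c(e i, w)` (`K`-linear in `w`). Sum the identity for `z = e i` times `f i`: with `sum_fe` and `casimir` (`β x y = x * c(y, u)`: `∑ f i * c(e i * w, u) = w * h u`): `c(w,u) + h (w u) = w h u + u h w`. So `D := D₀ + h` satisfies Leibniz:
  `D (w u) = D₀ (w u) + h (w u) = w D₀ u + u D₀ w + c(w,u) + h (w u) = w D u + u D w`. `D (c z) = (DK c) z + c D z`, `D 1 = 0`, so `D (algebraMap c) = algebraMap (DK c)`.
-/

set_option autoImplicit false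

namespace MPadcCM

open MPadcCov

variable {K : Type*} [Field K] {E : Type*} [CommRing E] [Algebra K E] {n : ℕ}
  (e : Module.Basis (Fin n) K E) (f : Fin n → E)
  (hf : ∀ i j, Algebra.trace K E (f i * e j) = if i = j then 1 else 0)

include hf

theorem repr_eq_tr (z : E) (i : Fin n) : e.repr z i = Algebra.trace K E (z * f i) := by
  conv_rhs => rw [← e.sum_repr z, Finset.sum_mul, map_sum]
  have h : ∀ j, Algebra.trace K E (e.repr z j • e j * f i) = if i = j then e.repr z j else 0 := by
    intro j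
    rw [smul_mul_assoc, map_smul, mul_comm (e j), hf, smul_eq_mul]
    split_ifs
    · rw [mul_one]
    · rw [mul_zero]
  rw [Finset.sum_congr rfl fun j _ => h j, Finset.sum_ite_eq Finset.univ i,
    if_pos (Finset.mem_univ i)]

theorem tr_nondeg (z : E) (h : ∀ j, Algebra.trace K E (z * e j) = 0) : z = 0 := by
  apply e.ext_elem
  intro i
  rw [map_zero, Finsupp.zero_apply, repr_eq_tr e f hf]
  conv_lhs => rw [← e.sum_repr (f i), Finset.mul_sum, map_sum]
  refine Finset.sum_eq_zero fun j _ => ?_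
  rw [mul_smul_comm, map_smul, h, smul_zero]

theorem sum_tr (z : E) : z = ∑ i, Algebra.trace K E (z * e i) • f i := by
  rw [← sub_eq_zero]
  apply tr_nondeg e f hf
  intro j
  rw [sub_mul, map_sub, Finset.sum_mul, map_sum, sub_eq_zero]
  have h1 : ∀ i, Algebra.trace K E (Algebra.trace K E (z * e i) • f i * e j) =
      if i = j then Algebra.trace K E (z * e i) else 0 := by
    intro i
    rw [smul_mul_assoc, map_smul, hf, smul_eq_mul]
    split_ifs
    · rw [mul_one]
    · rw [mul_zero]
  rw [Finset.sum_congr rfl fun i _ => h1 i, Finset.sum_ite_eq', if_pos (Finset.mem_univ j)]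

theorem sum_fe : ∑ i, f i * e i = 1 := by
  rw [← sub_eq_zero]
  apply tr_nondeg e f hf
  intro j
  rw [sub_mul, one_mul, map_sub, Finset.sum_mul, map_sum, tr_eq e (e j), sub_eq_zero]
  refine Finset.sum_congr rfl fun i _ => ?_
  rw [repr_eq_tr e f hf]
  congr 1
  ring

theorem casimir {V : Type*} [AddCommGroup V] (β : E →+ E →+ V)
    (hβ : ∀ (c : K) x y, β (c • x) y = β x (c • y)) (w : E) :
    ∑ i, β (f i) (e i * w) = ∑ i, β (f i * w) (e i) := by
  have h1 : ∀ i, β (f i) (e i * w) =
      ∑ j, β (Algebra.trace K E (f j * w * e i) • f i) (e j) := by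
    intro i
    conv_lhs => rw [← e.sum_repr (e i * w), map_sum]
    refine Finset.sum_congr rfl fun j _ => ?_
    have h3 : e.repr (e i * w) j = Algebra.trace K E (f j * w * e i) := by
      rw [repr_eq_tr e f hf]
      congr 1
      ring
    rw [hβ, h3]
  have h2 : ∀ j, β (f j * w) (e j) =
      ∑ i, β (Algebra.trace K E (f j * w * e i) • f i) (e j) := by
    intro j
    conv_lhs => rw [sum_tr e f hf (f j * w), map_sum, AddMonoidHom.finsetSum_apply]
  rw [Finset.sum_congr rfl fun i _ => h1 i, Finset.sum_comm, Finset.sum_congr rfl fun j _ => h2 j]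

theorem sep_mod {V : Type*} [AddCommGroup V] [Module E V] (δ : E →+ V)
    (h : ∀ z w, δ (z * w) = z • δ w + w • δ z) (h0 : ∀ c : K, δ (algebraMap K E c) = 0) (z : E) :
    δ z = 0 := by
  have hβ : ∀ (c : K) (x y : E), ((smulAddHom E V).compl₂ δ) (c • x) y =
      ((smulAddHom E V).compl₂ δ) x (c • y) := by
    intro c x y
    show (c • x) • δ y = x • δ (c • y)
    rw [Algebra.smul_def c y, h, h0, smul_zero, add_zero, smul_smul, Algebra.smul_def, mul_comm x]
  have h1 := casimir e f hf ((smulAddHom E V).compl₂ δ) hβ z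
  have h2 : ∀ i, ((smulAddHom E V).compl₂ δ) (f i) (e i * z) =
      (f i * e i) • δ z + ((smulAddHom E V).compl₂ δ) (f i * z) (e i) := by
    intro i
    show f i • δ (e i * z) = (f i * e i) • δ z + (f i * z) • δ (e i)
    rw [h, smul_add, smul_smul, smul_smul]
  rw [Finset.sum_congr rfl fun i _ => h2 i, Finset.sum_add_distrib, ← Finset.sum_smul,
    sum_fe e f hf, one_smul] at h1
  exact add_eq_right.1 h1

theorem der_ext {L : Type*} [CommRing L] (θ : E →+* L) (δ₁ δ₂ : E →+ L)
    (h₁ : ∀ z w, δ₁ (z * w) = θ z * δ₁ w + θ w * δ₁ z)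
    (h₂ : ∀ z w, δ₂ (z * w) = θ z * δ₂ w + θ w * δ₂ z)
    (h : ∀ c : K, δ₁ (algebraMap K E c) = δ₂ (algebraMap K E c)) (z : E) : δ₁ z = δ₂ z := by
  let _ : Module E L := Module.compHom L θ
  have h3 : (δ₁ - δ₂) z = 0 := by
    refine sep_mod e f hf (V := L) (δ₁ - δ₂) (fun z w => ?_) (fun c => ?_) z
    · show δ₁ (z * w) - δ₂ (z * w) = θ z * (δ₁ w - δ₂ w) + θ w * (δ₁ z - δ₂ z)
      rw [h₁, h₂]
      ring
    · show δ₁ (algebraMap K E c) - δ₂ (algebraMap K E c) = 0
      rw [h, sub_self]
  exact sub_eq_zero.1 h3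

private theorem dea3_D0 (DK : K →+ K) (hDK : ∀ x y, DK (x * y) = x * DK y + y * DK x) :
    ∃ D0 : E →+ E, ∀ (c : K) (z : E), D0 (c • z) = algebraMap K E (DK c) * z + c • D0 z := by
  refine ⟨AddMonoidHom.mk' (fun z => ∑ i, algebraMap K E (DK (e.repr z i)) * e i) ?_, ?_⟩
  · intro a b
    rw [← Finset.sum_add_distrib]
    refine Finset.sum_congr rfl fun i _ => ?_
    rw [map_add, Finsupp.add_apply, map_add, map_add, add_mul]
  · intro c z
    show ∑ i, algebraMap K E (DK (e.repr (c • z) i)) * e i =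
      algebraMap K E (DK c) * z + c • ∑ i, algebraMap K E (DK (e.repr z i)) * e i
    have h1 : algebraMap K E (DK c) * z = ∑ i, algebraMap K E (DK c) * (e.repr z i • e i) := by
      rw [← Finset.mul_sum, e.sum_repr]
    rw [h1, Finset.smul_sum, ← Finset.sum_add_distrib]
    refine Finset.sum_congr rfl fun i _ => ?_
    rw [map_smul, Finsupp.smul_apply, smul_eq_mul, hDK, map_add, map_mul, map_mul, Algebra.smul_def,
      Algebra.smul_def]
    ring

theorem exists_lift (DK : K →+ K) (hDK : ∀ x y, DK (x * y) = x * DK y + y * DK x) :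
    ∃ D : E →+ E, (∀ z w, D (z * w) = z * D w + w * D z) ∧
      ∀ c, D (algebraMap K E c) = algebraMap K E (DK c) := by
  obtain ⟨D0, hD0⟩ := dea3_D0 e f hf DK hDK
  set C : E → E → E := fun z w => D0 (z * w) - z * D0 w - w * D0 z with hC
  have hCadd1 : ∀ x y w, C (x + y) w = C x w + C y w := by
    intro x y w
    simp only [hC]
    rw [add_mul, map_add, map_add]
    ring
  have hCadd2 : ∀ x w w', C x (w + w') = C x w + C x w' := by
    intro x w w'
    simp only [hC]
    rw [mul_add, map_add, map_add]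
    ring
  have hCsmul1 : ∀ (a : K) x y, C (a • x) y = a • C x y := by
    intro a x y
    simp only [hC]
    rw [smul_mul_assoc, hD0, hD0, Algebra.smul_def, Algebra.smul_def, Algebra.smul_def, Algebra.smul_def]
    ring
  have hCsmul2 : ∀ (a : K) x y, C x (a • y) = a • C x y := by
    intro a x y
    have h1 : ∀ z w, C z w = C w z := by
      intro z w
      simp only [hC]
      rw [mul_comm z w]
      ring
    rw [h1, hCsmul1, h1]
  have hCid : ∀ z w u, z * C w u + C z (w * u) = C (z * w) u + u * C z w := by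
    intro z w u
    simp only [hC]
    rw [mul_assoc z w u]
    ring
  have hCas : ∀ w u, ∑ i, f i * C (e i * w) u = w * ∑ i, f i * C (e i) u := by
    intro w u
    have h1 := casimir e f hf (V := E)
      (AddMonoidHom.mk' (fun x => AddMonoidHom.mk' (fun y => x * C y u) (fun a b => by
          show x * C (a + b) u = x * C a u + x * C b u
          rw [hCadd1, mul_add]))
        (fun a b => by
          ext y
          show (a + b) * C y u = a * C y u + b * C y u
          rw [add_mul]))
      (fun c x y => by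
        show (c • x) * C y u = x * C (c • y) u
        rw [hCsmul1, smul_mul_assoc, mul_smul_comm]) w
    have h2 : ∑ i, f i * C (e i * w) u = ∑ i, (f i * w) * C (e i) u := h1
    rw [h2, Finset.mul_sum]
    refine Finset.sum_congr rfl fun i _ => ?_
    ring
  have hkey : ∀ w u, C w u + ∑ i, f i * C (e i) (w * u) =
      w * ∑ i, f i * C (e i) u + u * ∑ i, f i * C (e i) w := by
    intro w u
    have h1 : ∀ i, f i * (e i * C w u + C (e i) (w * u)) = f i * (C (e i * w) u + u * C (e i) w) := by
      intro i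
      rw [hCid]
    have h2 : ∑ i, f i * (e i * C w u + C (e i) (w * u)) = ∑ i, f i * (C (e i * w) u + u * C (e i) w) :=
      Finset.sum_congr rfl fun i _ => h1 i
    have h3 : ∑ i, f i * (e i * C w u + C (e i) (w * u)) =
        (∑ i, f i * e i) * C w u + ∑ i, f i * C (e i) (w * u) := by
      rw [Finset.sum_mul, ← Finset.sum_add_distrib]
      refine Finset.sum_congr rfl fun i _ => ?_
      ring
    have h4 : ∑ i, f i * (C (e i * w) u + u * C (e i) w) =
        ∑ i, f i * C (e i * w) u + u * ∑ i, f i * C (e i) w := by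
      rw [Finset.mul_sum, ← Finset.sum_add_distrib]
      refine Finset.sum_congr rfl fun i _ => ?_
      ring
    rw [h3, h4, sum_fe e f hf, one_mul, hCas] at h2
    exact h2
  have hsmul : ∀ (a : K) w, ∑ i, f i * C (e i) (a • w) = a • ∑ i, f i * C (e i) w := by
    intro a w
    rw [Finset.smul_sum]
    refine Finset.sum_congr rfl fun i _ => ?_
    rw [hCsmul2, mul_smul_comm]
  set D : E →+ E := AddMonoidHom.mk' (fun w => D0 w + ∑ i, f i * C (e i) w) (fun a b => by
    have h1 : ∑ i, f i * C (e i) (a + b) = ∑ i, f i * C (e i) a + ∑ i, f i * C (e i) b := by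
      rw [← Finset.sum_add_distrib]
      refine Finset.sum_congr rfl fun i _ => ?_
      rw [hCadd2, mul_add]
    show D0 (a + b) + ∑ i, f i * C (e i) (a + b) = (D0 a + ∑ i, f i * C (e i) a) + (D0 b + ∑ i, f i * C (e i) b)
    rw [h1, map_add]
    ring) with hD
  have hDa : ∀ w, D w = D0 w + ∑ i, f i * C (e i) w := fun w => rfl
  have hleib : ∀ z w, D (z * w) = z * D w + w * D z := by
    intro z w
    rw [hDa, hDa, hDa]
    have h1 := hkey z w
    have h2 : C z w = D0 (z * w) - z * D0 w - w * D0 z := rfl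
    have h3 : ∑ i, f i * C (e i) (z * w) =
        z * ∑ i, f i * C (e i) w + w * ∑ i, f i * C (e i) z - C z w := by
      rw [← h1]
      ring
    rw [h3, h2]
    ring
  refine ⟨D, hleib, ?_⟩
  intro c
  have h1 : D 1 = 0 := by
    have h2 := hleib 1 1
    rw [mul_one, one_mul] at h2
    exact left_eq_add.mp h2
  have h3 : D (c • (1 : E)) = algebraMap K E (DK c) * 1 + c • D 1 := by
    rw [hDa, hDa, hD0, hsmul, smul_add]
    ring
  rw [Algebra.algebraMap_eq_smul_one, h3, h1, smul_zero, add_zero, mul_one]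

end MPadcCM
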