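import Pool.Agent.Lib.MP_adc574_ag_CM.LatA
import Pool.Agent.Lib.MP_adc574_ag_CM.DeA

/-!
# DeB: lifts of derivations of the coefficient field

`hf` says that `f` is the dual basis of `e`. `IsLiftE δ D`: `D (algebraMap (pol p)) = algebraMap (pol (cD δ p))` for all polynomials `p`, where `cD δ p` is `p` with `δ` applied to all coefficients.
* JOB DeB1: - `IsLiftE.alg`: `der_rat_ext` for `V = E` (as a `RatFunc κ`-module), `δ₁ r = D (algebraMap r)`, `δ₂ r = algebraMap (DK r)`. The same for `d` is a hypothesis in `Cw`.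
  - `exists_liftE`: `DK` from `MPadcCov.exists_DK δ`; `exists_lift e f hf` (DeA) for `DK` (as an additive map; Leibniz from `Derivation.leibniz`); make a `Derivation ℤ E E` by `Derivation.mk'` and `AddMonoidHom.toIntLinearMap` (see the end of `MPadcCov.exists_der` in `Cov/Der.lean`).
  - `liftE_unique`: `der_ext` (DeA) with `θ = id`; they agree on `algebraMap r` for all `r` by `IsLiftE.alg` (with `exists_DK`).
  - `liftE_smul_C`: `D (pol (C c) • z) = pol (C (δ c)) • z + pol (C c) • D z` (`cD δ (C c) = C (δ c)`). `liftE_xpow`: `D (X ^ N • z) = X ^ N • D z` (`IsLiftE.alg`, `DK_xpow`).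
* JOB DeB2: - `Cw.comm`: the commutator `δ z = D (d z) - d (D z)` is additive and satisfies the Leibniz rule (`ring` after `Derivation.leibniz`), vanishes on `algebraMap r` by `der_comm` (LatA), so it vanishes (`sep_mod` of DeA with `V = E`).
  - `Cw.tr_lift`: `MPadcCov.tr_der` (with the instance remark in LatB). `Cw.d_smul_C`, `Cw.d_xpow`: `dK (pol (C c)) = 0`.
  - `Cw.bracket`: `D (u * d b) = (D u * d b - d u * D b) + d (u * D b)`: Leibniz and `comm`.
-/

set_option autoImplicit false

namespace MPadcCM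

open Polynomial MPadcCov

variable {κ : Type*} [Field κ] {E : Type*} [CommRing E] [Algebra (RatFunc κ) E] {n : ℕ}
  {e : Module.Basis (Fin n) (RatFunc κ) E} {a : Fin n → ℕ} {i0 : Fin n} {f : Fin n → E}
  {dK : Derivation ℤ (RatFunc κ) (RatFunc κ)} {d : Derivation ℤ E E}

theorem IsLiftE.alg {δ : Derivation ℤ κ κ} {D : Derivation ℤ E E} (h : IsLiftE δ D)
    {DK : Derivation ℤ (RatFunc κ) (RatFunc κ)} (hDK : ∀ p : κ[X], DK (pol p) = pol (cD δ p))
    (r : RatFunc κ) : D (algebraMap (RatFunc κ) E r) = algebraMap (RatFunc κ) E (DK r) := by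
  let δ₁ : RatFunc κ →+ E :=
    { toFun := fun r => D (algebraMap (RatFunc κ) E r)
      map_zero' := by rw [map_zero, map_zero]
      map_add' := fun x y => by rw [map_add, map_add] }
  let δ₂ : RatFunc κ →+ E :=
    { toFun := fun r => algebraMap (RatFunc κ) E (DK r)
      map_zero' := by rw [map_zero, map_zero]
      map_add' := fun x y => by rw [map_add, map_add] }
  refine der_rat_ext δ₁ δ₂ ?_ ?_ ?_ r
  · intro x y
    show D (algebraMap (RatFunc κ) E (x * y)) = x • D (algebraMap (RatFunc κ) E y) +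
      y • D (algebraMap (RatFunc κ) E x)
    rw [map_mul, Derivation.leibniz, algebraMap_smul, algebraMap_smul]
  · intro x y
    show algebraMap (RatFunc κ) E (DK (x * y)) = x • algebraMap (RatFunc κ) E (DK y) +
      y • algebraMap (RatFunc κ) E (DK x)
    rw [Derivation.leibniz, map_add, smul_eq_mul, smul_eq_mul, map_mul, map_mul,
      Algebra.smul_def, Algebra.smul_def]
  · intro p
    show D (algebraMap (RatFunc κ) E (pol p)) = algebraMap (RatFunc κ) E (DK (pol p))
    rw [h p, hDK p]

theorem exists_liftE (hf : ∀ i j, Tr κ E (f i * e j) = if i = j then 1 else 0)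
    (δ : Derivation ℤ κ κ) : ∃ D : Derivation ℤ E E, IsLiftE δ D := by
  obtain ⟨DK, hDK⟩ := exists_DK δ
  let DKa : RatFunc κ →+ RatFunc κ :=
    { toFun := fun r => DK r
      map_zero' := map_zero DK
      map_add' := map_add DK }
  obtain ⟨D, h1, h2⟩ := exists_lift e f hf DKa (fun x y => by
    show DK (x * y) = x * DK y + y * DK x
    rw [Derivation.leibniz, smul_eq_mul, smul_eq_mul])
  refine ⟨Derivation.mk' D.toIntLinearMap ?_, ?_⟩
  · intro z w
    show D (z * w) = z • D w + w • D z
    rw [smul_eq_mul, smul_eq_mul]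
    exact h1 z w
  · intro p
    show D (algebraMap (RatFunc κ) E (pol p)) = _
    rw [h2]
    show algebraMap (RatFunc κ) E (DK (pol p)) = _
    rw [hDK]

theorem liftE_unique (hf : ∀ i j, Tr κ E (f i * e j) = if i = j then 1 else 0)
    {δ : Derivation ℤ κ κ} {D D' : Derivation ℤ E E} (h : IsLiftE δ D) (h' : IsLiftE δ D') (z : E) :
    D z = D' z := by
  obtain ⟨DK, hDK⟩ := exists_DK δ
  let δ₁ : E →+ E :=
    { toFun := fun r => D r
      map_zero' := map_zero D
      map_add' := map_add D }
  let δ₂ : E →+ E :=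
    { toFun := fun r => D' r
      map_zero' := map_zero D'
      map_add' := map_add D' }
  refine der_ext e f hf (RingHom.id E) δ₁ δ₂ ?_ ?_ ?_ z
  · intro z w
    show D (z * w) = z * D w + w * D z
    rw [Derivation.leibniz, smul_eq_mul, smul_eq_mul]
  · intro z w
    show D' (z * w) = z * D' w + w * D' z
    rw [Derivation.leibniz, smul_eq_mul, smul_eq_mul]
  · intro c
    show D (algebraMap (RatFunc κ) E c) = D' (algebraMap (RatFunc κ) E c)
    rw [h.alg hDK, h'.alg hDK]

private theorem deb1_cD_C (δ : Derivation ℤ κ κ) (c : κ) : cD δ (C c) = C (δ c) := by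
  unfold cD
  rw [sum_C_index]
  · rfl
  · rw [map_zero, map_zero]

theorem IsLiftE.smul_C {δ : Derivation ℤ κ κ} {D : Derivation ℤ E E} (h : IsLiftE δ D) (c : κ)
    (z : E) : D (pol (C c) • z) = pol (C (δ c)) • z + pol (C c) • D z := by
  rw [Algebra.smul_def, Derivation.leibniz, h (C c), deb1_cD_C, smul_eq_mul, smul_eq_mul,
    Algebra.smul_def, Algebra.smul_def]
  ring

theorem IsLiftE.xpow {δ : Derivation ℤ κ κ} {D : Derivation ℤ E E} (h : IsLiftE δ D) (N : ℤ)
    (z : E) : D ((RatFunc.X : RatFunc κ) ^ N • z) = (RatFunc.X : RatFunc κ) ^ N • D z := by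
  obtain ⟨DK, hDK⟩ := exists_DK δ
  rw [Algebra.smul_def, Derivation.leibniz, h.alg hDK, DK_xpow hDK, map_zero, smul_zero, add_zero,
    smul_eq_mul, Algebra.smul_def]

theorem Cw.d_smul_C (H : Cw e a i0 f dK d) (c : κ) (z : E) :
    d (pol (C c) • z) = pol (C c) • d z := by
  have h1 : d (algebraMap (RatFunc κ) E (pol (C c))) = 0 := by
    have h0 : pol (0 : κ[X]) = 0 := map_zero _
    rw [H.d_alg, H.dK_pol, derivative_C, h0, map_zero]
  rw [Algebra.smul_def, Algebra.smul_def, Derivation.leibniz, h1, smul_zero, add_zero, smul_eq_mul]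

theorem Cw.comm (H : Cw e a i0 f dK d) {δ : Derivation ℤ κ κ} {D : Derivation ℤ E E}
    (h : IsLiftE δ D) (z : E) : D (d z) = d (D z) := by
  obtain ⟨DK, hDK⟩ := exists_DK δ
  let δ' : E →+ E :=
    { toFun := fun z => D (d z) - d (D z)
      map_zero' := by
        rw [map_zero, map_zero, map_zero, sub_zero]
      map_add' := fun x y => by
        rw [map_add, map_add, map_add, map_add]
        ring }
  have h1 : δ' z = 0 := by
    refine sep_mod e f H.dual δ' ?_ ?_ z
    · intro z w
      change D (d (z * w)) - d (D (z * w)) = z • (D (d w) - d (D w)) + w • (D (d z) - d (D z))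
      rw [Derivation.leibniz, Derivation.leibniz, map_add, map_add]
      simp only [smul_eq_mul, Derivation.leibniz]
      ring
    · intro c
      change D (d (algebraMap (RatFunc κ) E c)) - d (D (algebraMap (RatFunc κ) E c)) = 0
      rw [H.d_alg, h.alg hDK, h.alg hDK, H.d_alg, der_comm H.dK_pol hDK, sub_self]
  exact sub_eq_zero.mp h1

private noncomputable def deb2_der {k : Type*} [Field k]
    (ΔK : Derivation ℤ (RatFunc k) (RatFunc k)) :
    @Derivation ℤ (RatFunc k) (RatFunc k) _ _ _ (Ring.toIntAlgebra _) _ _ :=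
  @Derivation.mk ℤ (RatFunc k) (RatFunc k) _ _ _ (Ring.toIntAlgebra _) _ _
    (ΔK.toLinearMap.toAddMonoidHom.toIntLinearMap) (ΔK.map_one_eq_zero)
    (fun x y => ΔK.leibniz x y)

theorem Cw.tr_lift (H : Cw e a i0 f dK d) {δ : Derivation ℤ κ κ} {D : Derivation ℤ E E}
    (h : IsLiftE δ D) {DK : Derivation ℤ (RatFunc κ) (RatFunc κ)}
    (hDK : ∀ p : κ[X], DK (pol p) = pol (cD δ p)) (z : E) : Tr κ E (D z) = DK (Tr κ E z) := by
  exact MPadcCov.tr_der e (deb2_der DK) D (fun r => h.alg hDK r) z

theorem Cw.bracket (H : Cw e a i0 f dK d) {δ : Derivation ℤ κ κ} {D : Derivation ℤ E E}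
    (h : IsLiftE δ D) (u b : E) : D (u * d b) = (D u * d b - d u * D b) + d (u * D b) := by
  rw [Derivation.leibniz, Derivation.leibniz, H.comm h]
  simp only [smul_eq_mul]
  ring

end MPadcCM
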