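import Mathlib

/-!
# FDefs: forms of the second kind, the first de Rham cohomology of a curve, horizontal spaces
-/

set_option autoImplicit false

namespace MPadcCM

open Polynomial

section forms

variable (κ : Type*) [Field κ] {E : Type*} [CommRing E] [Algebra (RatFunc κ) E]

/-- The function `b` is integral over `κ[u]`, where `u` is a rational function of `x`. -/
def IsIntegralOver (u : RatFunc κ) (b : E) : Prop :=
  ((algebraMap (RatFunc κ) E).comp
    (aeval u : κ[X] →ₐ[κ] RatFunc κ).toRingHom).IsIntegralElem b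

/-- The differential `φ dx` is regular at all places over finite `x`: the trace of `φ b` is a
polynomial in `x` for all functions `b` integral over `κ[x]`. -/
def IsRegularFin (φ : E) : Prop :=
  ∀ b : E, IsIntegralOver κ RatFunc.X b →
    ∃ q : κ[X], Algebra.trace (RatFunc κ) E (φ * b) = algebraMap κ[X] (RatFunc κ) q

/-- The differential `φ dx` is regular at all places over `x = ∞`: the trace of `φ b` is zero or
of degree at most `-2` for all functions `b` integral over `κ[1/x]`. -/
def IsRegularInf (φ : E) : Prop :=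
  ∀ b : E, IsIntegralOver κ RatFunc.X⁻¹ b →
    Algebra.trace (RatFunc κ) E (φ * b) = 0 ∨ (Algebra.trace (RatFunc κ) E (φ * b)).intDegree ≤ -2

/-- The differential `φ dx` is regular. -/
def IsRegular (φ : E) : Prop := IsRegularFin κ φ ∧ IsRegularInf κ φ

/-- The differential `φ dx` is exact. -/
def IsExact [Algebra κ E] (φ : E) : Prop :=
  ∃ G : E, KaehlerDifferential.D κ E G =
    φ • KaehlerDifferential.D κ E (algebraMap (RatFunc κ) E RatFunc.X)

/-- The differential `φ dx` is of the second kind: it differs from an exact form by a form regular at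
all places over finite `x`, and from an exact form by a form regular at all places over `x = ∞`. -/
def IsSecondKind [Algebra κ E] (φ : E) : Prop :=
  (∃ ψ, IsExact κ ψ ∧ IsRegularFin κ (φ - ψ)) ∧ ∃ ψ, IsExact κ ψ ∧ IsRegularInf κ (φ - ψ)

end forms

section cohomology

variable {k : Type*} [Field k] {E : Type*} [CommRing E] [Algebra (RatFunc k) E] [Algebra k E]
  [IsScalarTower k (RatFunc k) E]

theorem IsExact.zero : IsExact k (0 : E) := ⟨0, by rw [map_zero, zero_smul]⟩

theorem IsExact.add {φ ψ : E} (h : IsExact k φ) (h' : IsExact k ψ) : IsExact k (φ + ψ) := by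
  obtain ⟨g, hg⟩ := h
  obtain ⟨g', hg'⟩ := h'
  exact ⟨g + g', by rw [map_add, hg, hg', add_smul]⟩

theorem IsExact.smul {φ : E} (c : k) (h : IsExact k φ) : IsExact k (c • φ) := by
  obtain ⟨g, hg⟩ := h
  exact ⟨c • g, by rw [Derivation.map_smul, hg, smul_assoc]⟩

theorem IsRegularFin.zero : IsRegularFin k (0 : E) := fun b _ => ⟨0, by
  rw [zero_mul, map_zero, map_zero]⟩

theorem IsRegularFin.add {φ ψ : E} (h : IsRegularFin k φ) (h' : IsRegularFin k ψ) :
    IsRegularFin k (φ + ψ) := fun b hb => by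
  obtain ⟨q, hq⟩ := h b hb
  obtain ⟨q', hq'⟩ := h' b hb
  exact ⟨q + q', by rw [add_mul, map_add, hq, hq', map_add]⟩

theorem IsRegularFin.smul {φ : E} (c : k) (h : IsRegularFin k φ) : IsRegularFin k (c • φ) :=
    fun b hb => by
  obtain ⟨q, hq⟩ := h b hb
  refine ⟨C c * q, ?_⟩
  have h1 : c • φ * b = (algebraMap k (RatFunc k) c) • (φ * b) := by
    rw [smul_mul_assoc, algebraMap_smul]
  rw [h1, map_smul, hq, smul_eq_mul, map_mul, RatFunc.algebraMap_C]
  rfl

theorem IsRegularInf.zero : IsRegularInf k (0 : E) := fun b _ => Or.inl (by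
  rw [zero_mul, map_zero])

theorem IsRegularInf.add {φ ψ : E} (h : IsRegularInf k φ) (h' : IsRegularInf k ψ) :
    IsRegularInf k (φ + ψ) := fun b hb => by
  rw [add_mul, map_add]
  rcases h b hb with h1 | h1
  · rw [h1, zero_add]
    exact h' b hb
  rcases h' b hb with h2 | h2
  · rw [h2, add_zero]
    exact h b hb
  by_cases h0 : Algebra.trace (RatFunc k) E (φ * b) = 0
  · rw [h0, zero_add]
    exact Or.inr h2
  by_cases h0' : Algebra.trace (RatFunc k) E (ψ * b) = 0
  · rw [h0', add_zero]
    exact Or.inr h1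
  by_cases h3 : Algebra.trace (RatFunc k) E (φ * b) + Algebra.trace (RatFunc k) E (ψ * b) = 0
  · exact Or.inl h3
  · exact Or.inr ((RatFunc.intDegree_add_le h0' h3).trans (max_le h1 h2))

theorem IsRegularInf.smul {φ : E} (c : k) (h : IsRegularInf k φ) : IsRegularInf k (c • φ) :=
    fun b hb => by
  have h1 : c • φ * b = (algebraMap k (RatFunc k) c) • (φ * b) := by
    rw [smul_mul_assoc, algebraMap_smul]
  rw [h1, map_smul, smul_eq_mul]
  rcases h b hb with h2 | h2
  · left
    rw [h2, mul_zero]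
  · by_cases hc : c = 0
    · left
      rw [hc, map_zero, zero_mul]
    by_cases h0 : Algebra.trace (RatFunc k) E (φ * b) = 0
    · left
      rw [h0, mul_zero]
    · right
      have h3 : algebraMap k (RatFunc k) c ≠ 0 := fun h4 => hc (by
        apply (algebraMap k (RatFunc k)).injective
        rw [h4, map_zero])
      rw [RatFunc.intDegree_mul h3 h0, RatFunc.algebraMap_eq_C, RatFunc.intDegree_C, zero_add]
      exact h2

variable {G : Type*} [CommGroup G] (ρ : G →* (E ≃ₐ[RatFunc k] E)) (χ : G →* kˣ)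

/-- The differential `φ dx` is of the second kind and the group `G` acts on it by the character `χ`. -/
def IsSecondKindOf (φ : E) : Prop := IsSecondKind k φ ∧ ∀ g, ρ g φ = (χ g : k) • φ

theorem isSecondKindOf_zero : IsSecondKindOf ρ χ 0 :=
  ⟨⟨⟨0, IsExact.zero, by rw [sub_zero]; exact IsRegularFin.zero⟩,
    ⟨0, IsExact.zero, by rw [sub_zero]; exact IsRegularInf.zero⟩⟩,
    fun g => by rw [map_zero, smul_zero]⟩

theorem isSecondKindOf_add {φ φ' : E} (h : IsSecondKindOf ρ χ φ) (h' : IsSecondKindOf ρ χ φ') :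
    IsSecondKindOf ρ χ (φ + φ') := by
  obtain ⟨⟨⟨ψ, h1, h2⟩, ⟨θ, h3, h4⟩⟩, h5⟩ := h
  obtain ⟨⟨⟨ψ', h1', h2'⟩, ⟨θ', h3', h4'⟩⟩, h5'⟩ := h'
  refine ⟨⟨⟨ψ + ψ', h1.add h1', ?_⟩, ⟨θ + θ', h3.add h3', ?_⟩⟩, fun g => ?_⟩
  · rw [add_sub_add_comm]; exact h2.add h2'
  · rw [add_sub_add_comm]; exact h4.add h4'
  · rw [map_add, h5, h5', smul_add]

theorem isSecondKindOf_smul (c : k) {φ : E} (h : IsSecondKindOf ρ χ φ) :
    IsSecondKindOf ρ χ (c • φ) := by
  obtain ⟨⟨⟨ψ, h1, h2⟩, ⟨θ, h3, h4⟩⟩, h5⟩ := h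
  refine ⟨⟨⟨c • ψ, h1.smul c, ?_⟩, ⟨c • θ, h3.smul c, ?_⟩⟩, fun g => ?_⟩
  · rw [← smul_sub]; exact h2.smul c
  · rw [← smul_sub]; exact h4.smul c
  · have h6 : ρ g (c • φ) = c • ρ g φ := by
      rw [← algebraMap_smul (RatFunc k) c φ, map_smul, algebraMap_smul]
    rw [h6, h5, smul_comm]

/-- The differentials of the second kind on which the group `G` acts by the character `χ`. -/
def secondKind : Submodule k E where
  carrier := {φ | IsSecondKindOf ρ χ φ}
  zero_mem' := isSecondKindOf_zero ρ χ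
  add_mem' := fun h h' => isSecondKindOf_add ρ χ h h'
  smul_mem' := fun c _ h => isSecondKindOf_smul ρ χ c h

/-- The form `φ` of the second kind is exact. -/
def IsExactOf (φ : secondKind ρ χ) : Prop := IsExact k (φ : E)

theorem isExactOf_zero : IsExactOf ρ χ 0 := IsExact.zero

theorem isExactOf_add {φ ψ : secondKind ρ χ} (h : IsExactOf ρ χ φ) (h' : IsExactOf ρ χ ψ) :
    IsExactOf ρ χ (φ + ψ) := IsExact.add h h'

theorem isExactOf_smul (c : k) {φ : secondKind ρ χ} (h : IsExactOf ρ χ φ) :
    IsExactOf ρ χ (c • φ) := IsExact.smul c h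

/-- The exact differentials in `secondKind ρ χ`. -/
def exactForms : Submodule k (secondKind ρ χ) where
  carrier := {φ | IsExactOf ρ χ φ}
  zero_mem' := isExactOf_zero ρ χ
  add_mem' := fun h h' => isExactOf_add ρ χ h h'
  smul_mem' := fun c _ h => isExactOf_smul ρ χ c h

/-- The part of the first de Rham cohomology on which the group `G` acts by the character `χ`. -/
abbrev H1 : Type _ := secondKind ρ χ ⧸ exactForms ρ χ

/-- The class of a differential of the second kind. -/
def cohClass (φ : secondKind ρ χ) : H1 ρ χ := Submodule.Quotient.mk φ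

/-- The classes of the regular differentials. -/
def regularClasses : Submodule k (H1 ρ χ) :=
  Submodule.span k {x | ∃ φ : secondKind ρ χ, IsRegular k (φ : E) ∧ x = cohClass ρ χ φ}

/-- The derivation `Δ` of `E` extends the derivation `D` of `k`, and `Δ x = 0`. -/
def IsLift (D : Derivation ℤ k k) (Δ : Derivation ℤ E E) : Prop :=
  (∀ c : k, Δ (algebraMap k E c) = algebraMap k E (D c)) ∧
    Δ (algebraMap (RatFunc k) E RatFunc.X) = 0

/-- `ω'` is the covariant derivative of the alternating form `ω` in the direction `D`, for the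
Gauss-Manin connection `∇ [φ] = [Δ φ]`. -/
def IsCovDer (D : Derivation ℤ k k) {r : ℕ} (ω ω' : H1 ρ χ [⋀^Fin r]→ₗ[k] k) : Prop :=
  ∀ Δ : Derivation ℤ E E, IsLift D Δ → ∀ φ ψ : Fin r → secondKind ρ χ,
    (∀ u, (ψ u : E) = Δ (φ u)) →
      ω' (fun u => cohClass ρ χ (φ u)) = D (ω fun u => cohClass ρ χ (φ u)) -
        ∑ u, ω (Function.update (fun u => cohClass ρ χ (φ u)) u (cohClass ρ χ (ψ u)))

/-- The space `W` of alternating forms is horizontal. -/
def IsHorizontal {r : ℕ} (W : Submodule k (H1 ρ χ [⋀^Fin r]→ₗ[k] k)) : Prop :=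
  ∀ D : Derivation ℤ k k, ∀ ω ∈ W, ∃ ω' ∈ W, IsCovDer ρ χ D ω ω'

/-- The alternating form `ω` is decomposable. -/
def IsDecomposable {H : Type*} [AddCommGroup H] [Module k H] {r : ℕ}
    (ω : H [⋀^Fin r]→ₗ[k] k) : Prop :=
  ∃ l : Fin r → H →ₗ[k] k, ∀ f : Fin r → H, ω f = (Matrix.of fun v u => l v (f u)).det

/-- General position: let `r` be the dimension of the space of the classes of the regular
differentials. Every horizontal space of alternating `r`-forms which contains a nonzero decomposable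
form contains a form which does not vanish on the classes of the regular differentials. -/
def IsGeneric : Prop :=
  ∀ W : Submodule k (H1 ρ χ [⋀^Fin (Module.finrank k (regularClasses ρ χ))]→ₗ[k] k),
    IsHorizontal ρ χ W → (∃ ω ∈ W, ω ≠ 0 ∧ IsDecomposable ω) →
      ∃ ω ∈ W, ∃ f : Fin (Module.finrank k (regularClasses ρ χ)) → H1 ρ χ,
        (∀ u, f u ∈ regularClasses ρ χ) ∧ ω f ≠ 0

/-- Big monodromy: for a nondegenerate alternating form `B` on `H1 ρ χ`, every horizontal space of
alternating `r`-forms is stable under the isometries of `B`; or every horizontal space of alternating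
`r`-forms is stable under the linear maps of determinant 1. Here `r` is the dimension of the space
of the classes of the regular differentials. -/
def HasBigMonodromy : Prop :=
  (∃ B : H1 ρ χ →ₗ[k] H1 ρ χ →ₗ[k] k, (∀ x, B x x = 0) ∧ (∀ x, (∀ y, B x y = 0) → x = 0) ∧
    ∀ W : Submodule k (H1 ρ χ [⋀^Fin (Module.finrank k (regularClasses ρ χ))]→ₗ[k] k),
      IsHorizontal ρ χ W → ∀ g : H1 ρ χ →ₗ[k] H1 ρ χ, (∀ x y, B (g x) (g y) = B x y) →
        ∀ ω ∈ W, ω.compLinearMap g ∈ W) ∨
  ∀ W : Submodule k (H1 ρ χ [⋀^Fin (Module.finrank k (regularClasses ρ χ))]→ₗ[k] k),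
    IsHorizontal ρ χ W → ∀ g : H1 ρ χ →ₗ[k] H1 ρ χ, LinearMap.det g = 1 →
      ∀ ω ∈ W, ω.compLinearMap g ∈ W

end cohomology

end MPadcCM
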