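import Pool.Agent.Lib.MP_adc574_ag_CM.UA
import Pool.Agent.Lib.MP_adc574_ag_Cov.Jac

/-!
# FinA: the closed points

JOB FinA. `det_large` gives `κ`, `ψ` with `ψ (b * det) ≠ 0`; `MPadcCov.exists_max ψ (b * det)` (`Algebra.FiniteType ℤ A` from `hA`) gives a maximal ideal `𝔪 ≥ ker ψ` with `b * det ∉ 𝔪`, `Finite (A ⧸ 𝔪)`; `(p : A) ∈ ker ψ`. Let `ψ' : A →+* κ'` with kernel `𝔪`: `κ'` has characteristic `p`
(`(p : κ') = ψ' p = 0`, `p` prime: `CharP.of_prime_of_eq_zero`-like; `ringChar`), Specs for `ψ'`: `E`, `Cv`, structure constants `pol ((s i j l).map ψ')`, `θ`; `hwM_map`: `(hwM a p (s.map ψ')).det = ψ' (hwM a p s).det ≠ 0` (`RingHom.map_det`). `no_exact`.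
-/

set_option autoImplicit false

namespace MPadcCM

open Polynomial MPadcCov MPadcGM

universe u

theorem points {k : Type u} [Field k] [CharZero k] {A : Subalgebra ℤ k} (hA : A.FG) {n : ℕ}
    {a : Fin n → ℕ} {i0 : Fin n} {Y : Type*} [AddCommGroup Y] {ch : Fin n → Y}
    {s : Fin n → Fin n → Fin n → A[X]} {F : A[X][X]} {m : ℕ} {D : Fin m → Derivation ℤ A A}
    {G : Fin m → II a → II a → A} (HS : Specs A a i0 ch s F D G) (m₀ : ℕ)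
    (hexp : ∀ y : Y, m₀ • y = 0) (hK : ∀ χ : Y, KeyFor A ch D G χ) (b : A) (hb : b ≠ 0) :
    ∃ p₀ : ℕ, ∀ p : ℕ, p₀ ≤ p → p.Prime → p ≡ 1 [MOD m₀] → ∃ 𝔪 : Ideal A, 𝔪.IsMaximal ∧
      b ∉ 𝔪 ∧ (p : A) ∈ 𝔪 ∧ Finite (A ⧸ 𝔪) ∧ ∀ (κ : Type u) [Field κ] (ψ : A →+* κ),
        RingHom.ker ψ = 𝔪 → ∀ φ : FR κ (F.map (mapRingHom ψ)), IsReg (κ := κ) φ →
          IsEx (κ := κ) φ → φ = 0 := by
  obtain ⟨p₀, hp₀⟩ := det_large hA HS m₀ hexp hK b hb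
  refine ⟨p₀, fun p hp hprime hmod => ?_⟩
  obtain ⟨κ, _, ψ, hchar, hψ⟩ := hp₀ p hp hprime hmod
  have hft : Algebra.FiniteType ℤ A := (Subalgebra.fg_iff_finiteType A).1 hA
  obtain ⟨𝔪, hmax, hker, hnot, hfin⟩ := MPadcCov.exists_max ψ (b * (hwM a p s).det) hψ
  have hp𝔪 : (p : A) ∈ 𝔪 := hker (by rw [RingHom.mem_ker, map_natCast, CharP.cast_eq_zero])
  refine ⟨𝔪, hmax, fun h => hnot (Ideal.mul_mem_right _ _ h), hp𝔪, hfin, ?_⟩
  intro κ' _ ψ' hψ' φ hφ hφe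
  have hfact : Fact p.Prime := ⟨hprime⟩
  have hchar' : CharP κ' p := by
    apply ringChar.of_eq
    apply CharP.ringChar_of_prime_eq_zero hprime
    rw [← map_natCast ψ', ← RingHom.mem_ker, hψ']
    exact hp𝔪
  obtain ⟨E, _, _, e, f, m', dK, d, H, _, hs, ⟨θ⟩, _⟩ := HS κ' ψ'
  have hdet : (hwM a p (fun i j l => (s i j l).map ψ')).det ≠ 0 := by
    rw [hwM_map, ← RingHom.mapMatrix_apply, ← RingHom.map_det]
    intro h0
    rw [← RingHom.mem_ker, hψ'] at h0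
    exact hnot (Ideal.mul_mem_left _ _ h0)
  exact no_exact H p hs hdet θ φ hφ hφe

end MPadcCM
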