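import Pool.Agent.Lib.MP_adc574_ag_CM.KeyA

/-!
# Section 1, continued: decomposable forms in `Mk`, the key theorem

* `exists_comp`: a common overfield `L'` of `k` and `L` over `A`.
* `mk_dec`: `k` algebraically closed, `c` independent. The `k`-algebra generated in `L'` by the `e (c v a)` and the inverse of a nonzero minor has a `k`-point, which gives functionals `l v : H → k`; the form
  `det (l v (f u))` is in `Mk` (relations specialize) and is not zero.
* `key_gp`: the key theorem.
-/

set_option autoImplicit false

namespace MPadcCM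

universe u v

/-- The alternating form `l 1 ∧ … ∧ l r`. -/
noncomputable def wdg {k : Type u} [Field k] {H : Type v} [AddCommGroup H] [Module k H] {r : ℕ}
    (l : Fin r → H →ₗ[k] k) : H [⋀^Fin r]→ₗ[k] k where
  toFun h := (Matrix.of fun v u => l v (h u)).det
  map_update_add' := by
    intro q h u x y
    have hq : q = instDecidableEqFin r := Subsingleton.elim _ _
    subst hq
    have e1 : ∀ z, (Matrix.of fun v w => l v (Function.update h u z w)) =
        (Matrix.of fun v w => l v (h w)).updateCol u (fun v => l v z) := by
      intro z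
      ext v w
      rw [Matrix.of_apply, Matrix.updateCol_apply, Matrix.of_apply]
      by_cases hw : w = u
      · subst hw
        rw [Function.update_self, if_pos rfl]
      · rw [Function.update_of_ne hw, if_neg hw]
    have e2 : (fun v => l v (x + y)) = (fun v => l v x) + (fun v => l v y) := by
      funext v
      rw [Pi.add_apply, map_add]
    rw [e1, e1, e1, e2, Matrix.det_updateCol_add]
  map_update_smul' := by
    intro q h u b x
    have hq : q = instDecidableEqFin r := Subsingleton.elim _ _
    subst hq
    have e1 : ∀ z, (Matrix.of fun v w => l v (Function.update h u z w)) =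
        (Matrix.of fun v w => l v (h w)).updateCol u (fun v => l v z) := by
      intro z
      ext v w
      rw [Matrix.of_apply, Matrix.updateCol_apply, Matrix.of_apply]
      by_cases hw : w = u
      · subst hw
        rw [Function.update_self, if_pos rfl]
      · rw [Function.update_of_ne hw, if_neg hw]
    have e2 : (fun v => l v (b • x)) = b • (fun v => l v x) := by
      funext v
      rw [Pi.smul_apply, map_smul]
    rw [e1, e1, e2, Matrix.det_updateCol_smul, smul_eq_mul]
  map_eq_zero_of_eq' := by
    intro h a b hab hne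
    refine Matrix.det_zero_of_column_eq hne fun v => ?_
    rw [Matrix.of_apply, Matrix.of_apply, hab]

theorem wdg_apply {k : Type u} [Field k] {H : Type v} [AddCommGroup H] [Module k H] {r : ℕ}
    (l : Fin r → H →ₗ[k] k) (h : Fin r → H) : wdg l h = (Matrix.of fun v u => l v (h u)).det := rfl

theorem exists_comp {A k L : Type u} [CommRing A] [Field k] [Field L] {j : A →+* k} {ι : A →+* L}
    (hj : Function.Injective j) (hι : Function.Injective ι) :
    ∃ (L' : Type u) (_ : Field L') (e : L →+* L') (e' : k →+* L'), ∀ a, e (ι a) = e' (j a) := by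
  have hdom : IsDomain A := hj.isDomain
  let q : FractionRing A →+* k := IsFractionRing.lift hj
  let p : FractionRing A →+* L := IsFractionRing.lift hι
  let _ : Algebra (FractionRing A) k := q.toAlgebra
  let _ : Algebra (FractionRing A) L := p.toAlgebra
  have hnt : Nontrivial (TensorProduct (FractionRing A) L k) :=
    (Algebra.TensorProduct.includeLeft_injective (R := FractionRing A) (S := FractionRing A)
      (A := L) (B := k) (algebraMap (FractionRing A) k).injective).nontrivial
  obtain ⟨M, hM⟩ := Ideal.exists_maximal (TensorProduct (FractionRing A) L k)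
  refine ⟨TensorProduct (FractionRing A) L k ⧸ M, Ideal.Quotient.field M,
    (Ideal.Quotient.mk M).comp
      (Algebra.TensorProduct.includeLeft (R := FractionRing A) (S := FractionRing A)
        (A := L) (B := k)).toRingHom,
    (Ideal.Quotient.mk M).comp
      (Algebra.TensorProduct.includeRight (R := FractionRing A) (A := L) (B := k)).toRingHom,
    fun a => ?_⟩
  have h1 : ι a = algebraMap (FractionRing A) L (algebraMap A (FractionRing A) a) :=
    (IsFractionRing.lift_algebraMap hι a).symm
  have h2 : j a = algebraMap (FractionRing A) k (algebraMap A (FractionRing A) a) :=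
    (IsFractionRing.lift_algebraMap hj a).symm
  rw [RingHom.comp_apply, RingHom.comp_apply, h1, h2]
  congr 1
  exact (AlgHom.commutes _ _).trans (AlgHom.commutes _ _).symm

/-- Independent functionals have a nonzero minor. -/
theorem exists_minor {L : Type*} [Field L] {r : ℕ} {I : Type*} [Finite I] (c : Fin r → I → L)
    (hci : ∀ lam : Fin r → L, (∀ a, ∑ v, lam v * c v a = 0) → lam = 0) :
    ∃ g : Fin r → I, (Matrix.of fun v u => c v (g u)).det ≠ 0 := by
  classical
  set w : I → Fin r → L := fun a v => c v a with hw
  have hspan : Submodule.span L (Set.range w) = ⊤ := by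
    by_contra hne
    obtain ⟨f, hf, hle⟩ := Submodule.exists_le_ker_of_lt_top _ (lt_top_iff_ne_top.2 hne)
    apply hf
    have h1 : ∀ x : Fin r → L, f x = ∑ v, f (Pi.single v 1) * x v := by
      intro x
      conv_lhs => rw [pi_eq_sum_univ' x]
      rw [map_sum]
      refine Finset.sum_congr rfl fun v _ => ?_
      rw [map_smul, smul_eq_mul, mul_comm]
    have h3 : (fun v => f (Pi.single v 1)) = 0 := by
      refine hci _ fun a => ?_
      have h6 : f (w a) = 0 := hle (Submodule.subset_span ⟨a, rfl⟩)
      rw [h1] at h6
      exact h6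
    refine LinearMap.ext fun x => ?_
    rw [h1, LinearMap.zero_apply]
    refine Finset.sum_eq_zero fun v _ => ?_
    have := congrFun h3 v
    rw [Pi.zero_apply] at this
    rw [this, zero_mul]
  obtain ⟨κ, a, ha, hs, hli⟩ := exists_linearIndependent' L w
  have B : Module.Basis κ L (Fin r → L) := Module.Basis.mk hli (by rw [hs, hspan])
  have : Fintype κ := Module.Basis.fintypeIndexOfRankLtAleph0 B (by
    rw [rank_fun']
    exact Cardinal.natCast_lt_aleph0)
  have hcard : Fintype.card κ = Fintype.card (Fin r) := by
    rw [← Module.finrank_eq_card_basis B, Module.finrank_fintype_fun_eq_card]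
  obtain ⟨q⟩ := Fintype.card_eq.1 hcard
  refine ⟨fun u => a (q.symm u), ?_⟩
  have h1 : LinearIndependent L (Matrix.of fun u v => w (a (q.symm u)) v).row :=
    hli.comp q.symm q.symm.injective
  rw [Matrix.linearIndependent_rows_iff_isUnit, Matrix.isUnit_iff_isUnit_det] at h1
  have h2 : (Matrix.of fun v u => c v (a (q.symm u))) =
      (Matrix.of fun u v => w (a (q.symm u)) v).transpose := by
    ext v u
    rw [Matrix.of_apply, Matrix.transpose_apply, Matrix.of_apply]
  rw [h2, Matrix.det_transpose]
  exact h1.ne_zero

/-- A finite family in an extension field can be specialized into the algebraically closed field `k`, with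
a given nonzero element of the generated algebra staying nonzero. -/
theorem exists_point {k L' : Type*} [Field k] [IsAlgClosed k] [Field L'] [Algebra k L'] {J : Type*}
    [Finite J] (x : J → L') (y : MvPolynomial J k) (hy : MvPolynomial.aeval x y ≠ 0) :
    ∃ x' : J → k, MvPolynomial.aeval x' y ≠ 0 ∧
      ∀ p : MvPolynomial J k, MvPolynomial.aeval x p = 0 → MvPolynomial.aeval x' p = 0 := by
  by_contra hcon
  push Not at hcon
  let P : Ideal (MvPolynomial J k) := RingHom.ker (MvPolynomial.aeval x : MvPolynomial J k →ₐ[k] L')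
  have hprime : P.IsPrime := RingHom.ker_isPrime _
  have hrad := MvPolynomial.IsPrime.vanishingIdeal_zeroLocus (K := k) P
  apply hy
  have h1 : y ∈ P := by
    rw [← hrad]
    intro x' hx'
    by_contra hne
    obtain ⟨p, hp, hp'⟩ := hcon x' hne
    exact hp' (hx' p hp)
  exact h1

theorem mk_dec {A k L : Type u} [CommRing A] [Field k] [IsAlgClosed k] [Field L] {j : A →+* k}
    {ι : A →+* L} (hj : Function.Injective j) (hι : Function.Injective ι) {r : ℕ} {I : Type}
    [Fintype I] (c : Fin r → I → L)
    (hci : ∀ lam : Fin r → L, (∀ a, ∑ v, lam v * c v a = 0) → lam = 0)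
    {H : Type v} [AddCommGroup H] [Module k H] (b : Module.Basis I k H) :
    ∃ ω ∈ Mk j ι c b, IsDec ω := by
  classical
  obtain ⟨L', _, e, e', hee⟩ := exists_comp hj hι
  let _ : Algebra k L' := e'.toAlgebra
  have hee' : ∀ a, e (ι a) = algebraMap k L' (j a) := hee
  obtain ⟨g, hg⟩ := exists_minor c hci
  obtain ⟨x', hx1, hx2⟩ := exists_point (k := k) (fun q : Fin r × I => e (c q.1 q.2))
    (Matrix.of fun v u => MvPolynomial.X (v, g u) : Matrix (Fin r) (Fin r)
      (MvPolynomial (Fin r × I) k)).det (by
      rw [AlgHom.map_det]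
      have h1 : (MvPolynomial.aeval fun q : Fin r × I => e (c q.1 q.2)).mapMatrix
          (Matrix.of fun v u => (MvPolynomial.X (v, g u) : MvPolynomial (Fin r × I) k)) =
          e.mapMatrix (Matrix.of fun v u => c v (g u)) := by
        ext v u
        rw [AlgHom.mapMatrix_apply, Matrix.map_apply, Matrix.of_apply, MvPolynomial.aeval_X,
          RingHom.mapMatrix_apply, Matrix.map_apply, Matrix.of_apply]
      rw [h1, ← RingHom.map_det]
      exact (map_ne_zero e).2 hg)
  refine ⟨wdg fun v => b.constr k fun a => x' (v, a), ?_, ?_, _, fun f => wdg_apply _ f⟩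
  · rw [mem_mk]
    intro S _ β P h
    have h1 := hx2 (∑ s, MvPolynomial.C (j (β s)) * (Matrix.of fun v u =>
      ∑ a, MvPolynomial.C (j (P s u a)) * MvPolynomial.X (v, a) :
        Matrix (Fin r) (Fin r) (MvPolynomial (Fin r × I) k)).det) (by
      rw [map_sum]
      have h2 : ∀ s, MvPolynomial.aeval (fun q : Fin r × I => e (c q.1 q.2))
          (MvPolynomial.C (j (β s)) * (Matrix.of fun v u =>
            ∑ a, MvPolynomial.C (j (P s u a)) * MvPolynomial.X (v, a) :
            Matrix (Fin r) (Fin r) (MvPolynomial (Fin r × I) k)).det) =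
          e (ι (β s) * Lam ι c (P s)) := by
        intro s
        rw [map_mul, AlgHom.map_det, map_mul, MvPolynomial.aeval_C, hee']
        congr 1
        unfold Lam
        rw [RingHom.map_det]
        congr 1
        ext v u
        rw [AlgHom.mapMatrix_apply, Matrix.map_apply, Matrix.of_apply, RingHom.mapMatrix_apply,
          Matrix.map_apply, Matrix.of_apply, map_sum, map_sum]
        refine Finset.sum_congr rfl fun a _ => ?_
        rw [map_mul, map_mul, MvPolynomial.aeval_C, MvPolynomial.aeval_X, hee']
      rw [Finset.sum_congr rfl fun s _ => h2 s, ← map_sum, h, map_zero])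
    rw [map_sum] at h1
    rw [← h1]
    refine Finset.sum_congr rfl fun s _ => ?_
    rw [map_mul, AlgHom.map_det, MvPolynomial.aeval_C, wdg_apply]
    congr 2
    ext v u
    rw [AlgHom.mapMatrix_apply, Matrix.map_apply, Matrix.of_apply, Matrix.of_apply, map_sum]
    unfold cls
    rw [map_sum]
    refine Finset.sum_congr rfl fun a _ => ?_
    rw [map_smul, Module.Basis.constr_basis, map_mul, MvPolynomial.aeval_C, MvPolynomial.aeval_X,
      smul_eq_mul]
    rfl
  · intro h0
    apply hx1
    have h1 : wdg (fun v => b.constr k fun a => x' (v, a)) (fun u => b (g u)) = 0 := by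
      rw [h0, AlternatingMap.zero_apply]
    rw [AlgHom.map_det, ← h1, wdg_apply]
    congr 1
    ext v u
    rw [AlgHom.mapMatrix_apply, Matrix.map_apply, Matrix.of_apply, Matrix.of_apply,
      MvPolynomial.aeval_X, Module.Basis.constr_basis]

/-- A form which vanishes on a basis of `F` vanishes on `F`. -/
theorem vanish_span {k : Type u} [Field k] {H : Type v} [AddCommGroup H] [Module k H] {r : ℕ}
    (ω : H [⋀^Fin r]→ₗ[k] k) (f : Fin r → H) (hf : LinearIndependent k f) (h0 : ω f = 0)
    (f' : Fin r → H) (hf' : ∀ u, f' u ∈ Submodule.span k (Set.range f)) : ω f' = 0 := by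
  classical
  let bs := Module.Basis.span hf
  have h1 := (ω.compLinearMap (Submodule.span k (Set.range f)).subtype).eq_smul_basis_det bs
  have h2 : (ω.compLinearMap (Submodule.span k (Set.range f)).subtype) bs = 0 := by
    rw [AlternatingMap.compLinearMap_apply]
    have h3 : (fun i => (Submodule.span k (Set.range f)).subtype (bs i)) = f := by
      funext i
      rw [Submodule.subtype_apply, Module.Basis.span_apply]
    rw [h3, h0]
  rw [h2, zero_smul] at h1
  have h4 := congrArg (fun (q : (Submodule.span k (Set.range f)) [⋀^Fin r]→ₗ[k] k) =>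
    q fun u => ⟨f' u, hf' u⟩) h1
  exact h4

/-- The key theorem. -/
theorem key_gp {A k L : Type u} [CommRing A] [Field k] [IsAlgClosed k] [Field L] {j : A →+* k}
    {ι : A →+* L} (hj : Function.Injective j) (hι : Function.Injective ι) {I : Type} [Fintype I]
    {H : Type v} [AddCommGroup H] [Module k H] (b : Module.Basis I k H)
    {nab : Derivation ℤ k k → H →+ H} (hnab : IsConn nab) {m : ℕ}
    (D : Fin m → Derivation ℤ A A) (Δ : Fin m → Derivation ℤ L L)
    (hΔ : ∀ l x, Δ l (ι x) = ι (D l x)) (G : Fin m → I → I → A)
    (hDk : ∀ D' : Derivation ℤ k k, ∃ α : Fin m → k, (∀ x, D' (j x) = ∑ l, α l * j (D l x)) ∧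
      ∀ a, nab D' (b a) = ∑ a', (∑ l, α l * j (G l a' a)) • b a')
    {V : Type} [Fintype V] [DecidableEq V] (c : V → I → L)
    (hcD : ∀ l v a, Δ l (c v a) = ∑ a', ι (G l a' a) * c v a')
    (hci : ∀ lam : V → L, (∀ a, ∑ v, lam v * c v a = 0) → lam = 0)
    (f : V → I → A) (hf : LinearIndependent k fun u => ∑ a, j (f u a) • b a)
    (hGP : GP nab (Submodule.span k (Set.range fun u => ∑ a, j (f u a) • b a)) (Fintype.card V)) :
    (Matrix.of fun v u => ∑ a, ι (f u a) * c v a).det ≠ 0 := by
  classical
  intro h0
  let q : Fin (Fintype.card V) ≃ V := (Fintype.equivFin V).symm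
  have hci' : ∀ lam : Fin (Fintype.card V) → L, (∀ a, ∑ v, lam v * c (q v) a = 0) → lam = 0 := by
    intro lam hlam
    have h2 := hci (fun v => lam (q.symm v)) (fun x => by
      rw [← hlam x]
      exact (Fintype.sum_equiv q _ _ fun v' => by rw [Equiv.symm_apply_apply]).symm)
    funext v
    have h3 := congrFun h2 (q v)
    simpa using h3
  obtain ⟨ω₀, hω₀, hdec⟩ := mk_dec hj hι (fun v => c (q v)) hci' b
  have hhor : IsHor nab (Mk j ι (fun v => c (q v)) b) :=
    mk_hor hnab D Δ hΔ G hDk fun l => ⟨0, fun v a => by
      rw [hcD l (q v) a]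
      simp⟩
  obtain ⟨ω, hω, f', hf', hne⟩ := hGP _ hhor ω₀ hω₀ hdec
  apply hne
  have h1 : ω (fun u => ∑ a, j (f (q u) a) • b a) = 0 := by
    have h2 := (mem_mk j ι _ b ω).1 hω Unit (fun _ => 1) (fun _ u => f (q u)) (by
      rw [Fintype.sum_unique]
      have h3 : Lam ι (fun v => c (q v)) (fun u => f (q u)) = 0 := by
        unfold Lam
        rw [← h0]
        exact Matrix.det_submatrix_equiv_self q
          (Matrix.of fun v u => ∑ a, ι (f u a) * c v a)
      rw [h3, mul_zero])
    rw [Fintype.sum_unique, map_one, one_mul] at h2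
    exact h2
  have hrange : (Set.range fun u : Fin (Fintype.card V) => ∑ a, j (f (q u) a) • b a) =
      Set.range fun u => ∑ a, j (f u a) • b a := by
    exact q.surjective.range_comp fun u => ∑ a, j (f u a) • b a
  refine vanish_span ω _ (hf.comp q q.injective) h1 f' fun u => ?_
  have h5 := hf' u
  rw [← hrange] at h5
  exact h5

/-- The key theorem for the determinants of a part of the basis. -/
theorem key_basis {A k L : Type u} [CommRing A] [Field k] [IsAlgClosed k] [Field L] {j : A →+* k}
    {ι : A →+* L} (hj : Function.Injective j) (hι : Function.Injective ι) {I : Type} [Fintype I]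
    {H : Type v} [AddCommGroup H] [Module k H] (b : Module.Basis I k H)
    {nab : Derivation ℤ k k → H →+ H} (hnab : IsConn nab) {m : ℕ}
    (D : Fin m → Derivation ℤ A A) (Δ : Fin m → Derivation ℤ L L)
    (hΔ : ∀ l x, Δ l (ι x) = ι (D l x)) (G : Fin m → I → I → A)
    (hDk : ∀ D' : Derivation ℤ k k, ∃ α : Fin m → k, (∀ x, D' (j x) = ∑ l, α l * j (D l x)) ∧
      ∀ a, nab D' (b a) = ∑ a', (∑ l, α l * j (G l a' a)) • b a')
    {V : Type} [Fintype V] [DecidableEq V] (c : V → I → L)
    (hcD : ∀ l v a, Δ l (c v a) = ∑ a', ι (G l a' a) * c v a')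
    (hci : ∀ lam : V → L, (∀ a, ∑ v, lam v * c v a = 0) → lam = 0)
    (g : V → I) (hg : Function.Injective g)
    (hGP : GP nab (Submodule.span k (Set.range fun u => b (g u))) (Fintype.card V)) :
    (Matrix.of fun v u => c v (g u)).det ≠ 0 := by
  classical
  have h1 : ∀ u, ∑ a, j ((Pi.single (g u) 1 : I → A) a) • b a = b (g u) := by
    intro u
    rw [Finset.sum_eq_single (g u)]
    · rw [Pi.single_eq_same, map_one, one_smul]
    · intro a _ ha
      rw [Pi.single_eq_of_ne ha, map_zero, zero_smul]
    · intro h
      exact absurd (Finset.mem_univ _) h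
  have h2 : ∀ v u, ∑ a, ι ((Pi.single (g u) 1 : I → A) a) * c v a = c v (g u) := by
    intro v u
    rw [Finset.sum_eq_single (g u)]
    · rw [Pi.single_eq_same, map_one, one_mul]
    · intro a _ ha
      rw [Pi.single_eq_of_ne ha, map_zero, zero_mul]
    · intro h
      exact absurd (Finset.mem_univ _) h
  have h3 := key_gp hj hι b hnab D Δ hΔ G hDk c hcD hci (fun u => Pi.single (g u) 1)
    (by simp only [h1]; exact b.linearIndependent.comp g hg) (by simp only [h1]; exact hGP)
  simp only [h2] at h3
  exact h3

end MPadcCM
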