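import Pool.Agent.Lib.MP_adc574_ag_CM.KeyD
import Pool.Agent.Lib.MP_adc574_ag_BM.LaA

/-!
# Big monodromy implies general position

* `gp_of`: if all horizontal spaces are stable under a set of endomorphisms which moves any independent family `f` to a family on which any given nonzero decomposable form does not vanish, then `GP` holds.
* `gp_of_sp`: symplectic group. `gp_of_sl`: special linear group.
-/

set_option autoImplicit false

namespace MPadcCM

universe u v

variable {k : Type u} [Field k] {H : Type v} [AddCommGroup H] [Module k H]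

theorem gp_of {nab : Derivation ℤ k k → H →+ H} {r : ℕ} {F : Submodule k H} [Module.Finite k F]
    (hr : r ≤ Module.finrank k F) (S : (H →ₗ[k] H) → Prop)
    (hst : ∀ W : Submodule k (H [⋀^Fin r]→ₗ[k] k), IsHor nab W → ∀ g, S g →
      ∀ ω ∈ W, ω.compLinearMap g ∈ W)
    (htr : ∀ l : Fin r → H →ₗ[k] k, (∀ lam : Fin r → k, (∀ x, ∑ v, lam v * l v x = 0) → lam = 0) →
      ∀ f : Fin r → H, LinearIndependent k f →
        ∃ g, S g ∧ (Matrix.of fun v u => l v (g (f u))).det ≠ 0) : GP nab F r := by
  classical
  rintro W hW ω₀ hω₀ ⟨hne, l, hl⟩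
  obtain ⟨f, hf⟩ : ∃ f : Fin r → F, LinearIndependent k f := by
    have h1 : ∃ f : Fin (Module.finrank k F) → F, LinearIndependent k f :=
      ⟨Module.finBasis k F, (Module.finBasis k F).linearIndependent⟩
    obtain ⟨f, hf⟩ := h1
    exact ⟨fun u => f (Fin.castLE hr u), hf.comp _ (Fin.castLE_injective hr)⟩
  have hf' : LinearIndependent k fun u => (f u : H) := hf.map' F.subtype F.ker_subtype
  have hind : ∀ lam : Fin r → k, (∀ x, ∑ v, lam v * l v x = 0) → lam = 0 := by
    intro lam hlam
    by_contra h0
    apply hne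
    ext h
    rw [hl, AlternatingMap.zero_apply]
    refine Matrix.exists_vecMul_eq_zero_iff.1 ⟨lam, h0, ?_⟩
    funext u
    exact hlam (h u)
  obtain ⟨g, hg, hdet⟩ := htr l hind _ hf'
  refine ⟨ω₀.compLinearMap g, ?_, fun u => (f u : H), fun u => (f u).2, ?_⟩
  · exact hst W hW g hg ω₀ hω₀
  · rw [AlternatingMap.compLinearMap_apply, hl]
    exact hdet

theorem gp_of_sp [CharZero k] [Module.Finite k H] {nab : Derivation ℤ k k → H →+ H} {r : ℕ}
    {F : Submodule k H} (hr : r ≤ Module.finrank k F) (B : H →ₗ[k] H →ₗ[k] k)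
    (halt : ∀ x, B x x = 0) (hnd : ∀ x, (∀ y, B x y = 0) → x = 0)
    (hst : ∀ W : Submodule k (H [⋀^Fin r]→ₗ[k] k), IsHor nab W → ∀ g : H →ₗ[k] H,
      (∀ x y, B (g x) (g y) = B x y) → ∀ ω ∈ W, ω.compLinearMap g ∈ W) : GP nab F r := by
  refine gp_of hr (fun g => ∀ x y, B (g x) (g y) = B x y) hst ?_
  intro l hl f hf
  obtain ⟨g, hg, -, hdet⟩ := MPadcBM.exists_transv B hnd l hl halt f hf
  exact ⟨g, hg, hdet⟩

/-- Separation: a functional which kills `w` and not `y`. -/
private theorem keyl_sep (w y : H) (h : ∀ t : k, y ≠ t • w) : ∃ μ : H →ₗ[k] k, μ w = 0 ∧ μ y ≠ 0 := by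
  have h1 : y ∉ Submodule.span k {w} := by
    rw [Submodule.mem_span_singleton]
    rintro ⟨t, ht⟩
    exact h t ht.symm
  obtain ⟨μ, hμ, hle⟩ := Submodule.exists_le_ker_of_notMem h1
  exact ⟨μ, hle (Submodule.mem_span_singleton_self w), hμ⟩

private theorem keyl_ind [Module.Finite k H] {r : ℕ} (l : Fin r → H →ₗ[k] k)
    (hl : ∀ lam : Fin r → k, (∀ x, ∑ v, lam v * l v x = 0) → lam = 0) :
    ∀ (d : ℕ) (f : Fin r → H), LinearIndependent k f →
      r - (Matrix.of fun v u => l v (f u)).rank ≤ d →
      ∃ g : H →ₗ[k] H, LinearMap.det g = 1 ∧ (Matrix.of fun v u => l v (g (f u))).det ≠ 0 := by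
  have hstep : ∀ f : Fin r → H, LinearIndependent k f →
      (Matrix.of fun v u => l v (f u)).det = 0 → ∃ (μ : H →ₗ[k] k) (w : H), μ w = 0 ∧
        (Matrix.of fun v u => l v (f u)).rank + 1 ≤
          (Matrix.of fun v u => l v (LinearMap.transvection μ w (f u))).rank := by
    intro f hf hdet
    obtain ⟨a, ha0, ha⟩ := Matrix.exists_mulVec_eq_zero_iff.2 hdet
    obtain ⟨lam, hlam0, hlam⟩ := Matrix.exists_vecMul_eq_zero_iff.2 hdet
    obtain ⟨w, hw⟩ : ∃ w, ∑ v, lam v * l v w ≠ 0 := by
      by_contra h
      push Not at h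
      exact hlam0 (hl lam h)
    have hy0 : ∑ u, a u • f u ≠ 0 := by
      intro h0
      apply ha0
      funext u
      exact Fintype.linearIndependent_iff.1 hf _ h0 u
    have hly : ∀ v, l v (∑ u, a u • f u) = 0 := by
      intro v
      have h1 := congrFun ha v
      rw [Matrix.mulVec, Pi.zero_apply] at h1
      rw [map_sum, ← h1]
      refine Finset.sum_congr rfl fun u _ => ?_
      rw [map_smul, smul_eq_mul, mul_comm]
      rfl
    obtain ⟨μ, hμ1, hμ2⟩ := keyl_sep (k := k) w (∑ u, a u • f u) (by
      intro t ht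
      by_cases ht0 : t = 0
      · rw [ht0, zero_smul] at ht
        exact hy0 ht
      · apply hw
        have h1 : ∀ v, l v w = 0 := by
          intro v
          have h2 := hly v
          rw [ht, map_smul, smul_eq_mul] at h2
          exact (mul_eq_zero.1 h2).resolve_left ht0
        exact Finset.sum_eq_zero fun v _ => by rw [h1, mul_zero])
    refine ⟨μ, w, hμ1, ?_⟩
    have hMat : (Matrix.of fun v u => l v (LinearMap.transvection μ w (f u))) =
        (Matrix.of fun v u => l v (f u)) + Matrix.vecMulVec (fun v => l v w)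
          (fun u => μ (f u)) := by
      ext v u
      rw [Matrix.of_apply, Matrix.add_apply, Matrix.of_apply, Matrix.vecMulVec_apply,
        LinearMap.transvection.apply, map_add, map_smul, smul_eq_mul, mul_comm (l v w)]
    rw [hMat]
    refine MPadcBM.rank_update _ _ _ a ?_ ha ?_
    · rintro ⟨q, hq⟩
      apply hw
      have h3 : dotProduct lam ((Matrix.of fun v u => l v (f u)).mulVec q) = 0 := by
        rw [Matrix.dotProduct_mulVec, hlam, zero_dotProduct]
      rw [Matrix.mulVecLin_apply] at hq
      rw [hq] at h3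
      exact h3
    · intro h
      apply hμ2
      rw [map_sum, ← h]
      refine Finset.sum_congr rfl fun u _ => ?_
      rw [map_smul, smul_eq_mul, mul_comm]
  intro d
  induction d with
  | zero =>
    intro f hf hd
    by_cases hdet : (Matrix.of fun v u => l v (f u)).det = 0
    · obtain ⟨μ, w, _, h⟩ := hstep f hf hdet
      have h3 := Matrix.rank_le_width
        (Matrix.of fun v u => l v (LinearMap.transvection μ w (f u)))
      omega
    · exact ⟨LinearMap.id, LinearMap.det_id, hdet⟩
  | succ d ih =>
    intro f hf hd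
    by_cases hdet : (Matrix.of fun v u => l v (f u)).det = 0
    · obtain ⟨μ, w, hμ, h⟩ := hstep f hf hdet
      have hdt : LinearMap.det (LinearMap.transvection μ w) = 1 := by
        rw [LinearMap.transvection.det, hμ, add_zero]
      have hker : LinearMap.ker (LinearMap.transvection μ w) = ⊥ := by
        rw [LinearMap.ker_eq_bot']
        intro x hx
        rw [LinearMap.transvection.apply] at hx
        have h1 : μ x = 0 := by
          have h2 := congrArg μ hx
          rw [map_add, map_smul, hμ, smul_zero, add_zero, map_zero] at h2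
          exact h2
        rw [h1, zero_smul, add_zero] at hx
        exact hx
      have hf' : LinearIndependent k fun u => LinearMap.transvection μ w (f u) :=
        hf.map' (LinearMap.transvection μ w) hker
      obtain ⟨g, hg1, hg2⟩ := ih (fun u => LinearMap.transvection μ w (f u)) hf' (by omega)
      refine ⟨g.comp (LinearMap.transvection μ w), ?_, hg2⟩
      rw [LinearMap.det_comp, hdt, hg1, mul_one]
    · exact ⟨LinearMap.id, LinearMap.det_id, hdet⟩

theorem gp_of_sl [Module.Finite k H] {nab : Derivation ℤ k k → H →+ H} {r : ℕ}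
    {F : Submodule k H} (hr : r ≤ Module.finrank k F)
    (hst : ∀ W : Submodule k (H [⋀^Fin r]→ₗ[k] k), IsHor nab W → ∀ g : H →ₗ[k] H,
      LinearMap.det g = 1 → ∀ ω ∈ W, ω.compLinearMap g ∈ W) : GP nab F r :=
  gp_of hr (fun g => LinearMap.det g = 1) hst fun l hl f hf => keyl_ind l hl _ f hf le_rfl

end MPadcCM
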