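import Pool.Agent.Lib.MP_adc574_ag_CM.PJ
import Pool.Agent.Lib.MP_adc574_ag_GM.Fields
import Pool.Agent.Lib.MP_adc574_ag_GM.Ultra

/-!
# UA: the ultraproduct

`KeyFor A ch D G χ` is the key theorem for the part of degree `χ` of the cohomology.
JOB UA.
* `block_det`: `M : Matrix V V L` over a field, `g : V → X`, `M v u = 0` if `g v ≠ g u`; if all blocks `{v // g v = χ}` have nonzero determinant, then `M.det ≠ 0`. If `M.det = 0` there is `r ≠ 0` with `M.mulVec r = 0`
  (`Matrix.exists_mulVec_eq_zero_iff`); `r u0 ≠ 0`, `χ := g u0`: the restriction of `r` to the block is killed by the block (split the sum `∑ u` with `Finset.sum_subtype`-like lemmas, terms with `g u ≠ χ` vanish), contradiction.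
* `det_large`. `MPadcGM.exists_fields A` (A is a domain of characteristic 0, `Algebra.FiniteType ℤ A` from `hA : A.FG`) gives `B : A → ℕ` and for all primes `p > B 0` a field `κ_p`, `φ_p : A →+* κ_p` with all derivations. Suppose the conclusion fails: the set `S` of primes `p ≡ 1 [MOD m₀]`, `p > B 0`, `p > B b`, with `φ_p ((hwM a p s).det) = 0` is infinite
  (otherwise take `p₀` larger than `B 0`, `B b` and all elements of `S`: for `p ≥ p₀` then `φ_p (b * det) = φ_p b * φ_p det ≠ 0`). Let `U := Filter.hyperfilter S` (`S` as a type, infinite), `Lf := Ult U κ`, `ι x := ultMk (fun p => φ_p x)`; injective: `x ≠ 0` implies `φ_p x ≠ 0` for all `p > B x`, all but finitely many `p` (`ultMk_eq_zero`; a cofinite set is in the hyperfilter: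
  `Filter.Eventually.of cofinite ≤`, `Filter.hyperfilter_le_cofinite`). For all `p ∈ S`: `HS κ_p φ_p` (Specs) gives `E`, `Cv`, `Gr`, structure constants; `c_p v b := Cf dK e p v.1 v.2 (hh κ_p f m' b)` with the properties of PI (choose everything for all `p ∈ S`; it is convenient to first prove a lemma `exists_c` for ONE field: existence of `c : Ix a → II a → κ_p` with (i) independence, (ii) `gr ch b ≠ gr ch (.inl v) → c v b = 0`,
  (iii) `c v (.inl u) = (hwM a p (fun i j l => (s i j l).map φ_p)) v u`, (iv) `δ (c v b) = ∑ b', φ_p (G l b' b) * c v b'` for `δ` over `D l`). In (ii) `p • x = x`: `p = 1 + q m₀`, `m₀ • x = 0`.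
  `c v b := ultMk (fun p => c_p v b)`, `Δ l` from `exists_ultD`. Independence in `Lf`: write `lam v = ultMk (lam_p v)` (`ultMk_surjective`), `∀ b, ∑ v, lam_p v * c_p v b = 0` for almost all `p` (finitely many `b`: `Filter.eventually_all`), so `lam_p = 0`. The matrix `M v u := c v (.inl u)` is `ultMk` of `(hwM a p s).map φ_p` entrywise, so `M.det = ultMk (φ_p det) = 0`
  (`RingHom.map_det`). But `block_det` with `g v := gr ch (.inl v)`: the blocks: `hK χ Lf ι hι Δ .. (c restricted) ..`: independence of the restricted family: extend `lam` by zero, use (ii) in `Lf`. Contradiction.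
-/

set_option autoImplicit false

namespace MPadcCM

open Polynomial MPadcCov MPadcGM

universe u

theorem block_det {L : Type*} [Field L] {V X' : Type*} [Fintype V] [DecidableEq V]
    [DecidableEq X'] (g : V → X') (M : Matrix V V L) (h0 : ∀ v u, g v ≠ g u → M v u = 0)
    (h : ∀ χ, (Matrix.of fun v u : {v // g v = χ} => M v.1 u.1).det ≠ 0) : M.det ≠ 0 := by
  intro hM
  obtain ⟨r, hr, hMr⟩ := Matrix.exists_mulVec_eq_zero_iff.2 hM
  obtain ⟨u0, hu0⟩ := Function.ne_iff.1 hr
  apply h (g u0)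
  apply Matrix.exists_mulVec_eq_zero_iff.1
  refine ⟨fun u => r u.1, fun h1 => hu0 (congrFun h1 ⟨u0, rfl⟩), ?_⟩
  funext v
  have h2 := congrFun hMr v.1
  simp only [Matrix.mulVec, dotProduct, Pi.zero_apply, Matrix.of_apply] at h2 ⊢
  rw [← h2, ← Finset.sum_subtype (Finset.univ.filter fun u => g u = g u0) (fun u => by simp)
    (fun u => M v.1 u * r u), Finset.sum_filter]
  refine Finset.sum_congr rfl fun u _ => ?_
  split_ifs with h3
  · rfl
  · rw [h0 v.1 u (fun h4 => h3 (h4.symm.trans v.2)), zero_mul]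

open Classical in
/-- The key theorem for the part of degree `χ` of the cohomology. -/
def KeyFor {k : Type u} [Field k] (A : Subalgebra ℤ k) {n : ℕ} {a : Fin n → ℕ} {Y : Type*}
    [AddCommGroup Y] (ch : Fin n → Y) {m : ℕ} (D : Fin m → Derivation ℤ A A)
    (G : Fin m → II a → II a → A) (χ : Y) : Prop :=
  ∀ (Lf : Type u) [Field Lf] (ι : A →+* Lf), Function.Injective ι →
    ∀ Δ : Fin m → Derivation ℤ Lf Lf, (∀ l x, Δ l (ι x) = ι (D l x)) →
    ∀ c : {v : Ix a // gr ch (.inl v) = χ} → {b : II a // gr ch b = χ} → Lf,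
      (∀ lam : {v : Ix a // gr ch (.inl v) = χ} → Lf, (∀ b, ∑ v, lam v * c v b = 0) → lam = 0) →
      (∀ l v b, Δ l (c v b) = ∑ b', ι (G l b'.1 b.1) * c v b') →
      (Matrix.of fun v u : {v : Ix a // gr ch (.inl v) = χ} => c v ⟨.inl u.1, u.2⟩).det ≠ 0

private theorem uab_sum {V W : Type*} [Fintype V] [AddCommMonoid W] (q : V → Prop)
    [Fintype {v // q v}] (f : V → W) (h : ∀ v, ¬ q v → f v = 0) :
    ∑ v, f v = ∑ v : {v // q v}, f v.1 := by
  classical
  have h1 : ∑ v ∈ Finset.univ.filter q, f v = ∑ v, f v := by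
    refine Finset.sum_filter_of_ne fun v _ hv => ?_
    by_contra hq
    exact hv (h v hq)
  rw [← h1]
  exact Finset.sum_subtype _ (fun v => by simp) f

private theorem uab_exists_c {k : Type u} [Field k] {A : Subalgebra ℤ k} {n : ℕ}
    {a : Fin n → ℕ} {i0 : Fin n} {Y : Type*} [AddCommGroup Y] {ch : Fin n → Y}
    {s : Fin n → Fin n → Fin n → A[X]} {F : A[X][X]} {m : ℕ} {D : Fin m → Derivation ℤ A A}
    {G : Fin m → II a → II a → A} (HS : Specs A a i0 ch s F D G) (m₀ : ℕ)
    (hexp : ∀ y : Y, m₀ • y = 0) (p : ℕ) (hpp : p.Prime) (hp : p ≡ 1 [MOD m₀])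
    (κ : Type u) (_ : Field κ) (_ : CharP κ p) (ψ : A →+* κ) :
    ∃ c : Ix a → II a → κ,
      (∀ lam : Ix a → κ, (∀ b, ∑ v, lam v * c v b = 0) → lam = 0) ∧
      (∀ v b, gr ch b ≠ gr ch (.inl v) → c v b = 0) ∧
      (∀ v u, c v (.inl u) = ψ (hwM a p s v u)) ∧
      (∀ (l : Fin m) (δ : Derivation ℤ κ κ), (∀ x, δ (ψ x) = ψ (D l x)) →
        ∀ v b, δ (c v b) = ∑ b', ψ (G l b' b) * c v b') := by
  have hfact : Fact p.Prime := ⟨hpp⟩
  obtain ⟨E, iE, iA, e, f, m', dK, d, H, HG, hs, _, hD⟩ := HS κ ψ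
  refine ⟨fun v b => Cf dK e p v.1 v.2 (hh κ f m' b), ?_, ?_, ?_, ?_⟩
  · intro lam h
    exact H.cf_indep p lam h
  · intro v b hb
    refine H.cf_gr HG p ?_ v b hb
    intro x
    obtain ⟨q, hq⟩ := (Nat.modEq_iff_dvd' hpp.one_le).1 hp.symm
    have h1 : p = q * m₀ + 1 := by
      have h2 := hpp.one_le
      have h3 : m₀ * q = q * m₀ := Nat.mul_comm _ _
      omega
    rw [h1, add_smul, mul_smul, hexp, smul_zero, zero_add, one_smul]
  · intro v u
    refine (H.cf_reg p hs v u).trans ?_
    have h1 := congrFun (congrFun (hwM_map ψ a p s) v) u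
    exact h1
  · intro l δ hδ v b
    obtain ⟨D', hD1, hD2⟩ := hD l δ hδ
    exact H.cf_der p hD1 hD2 v b

theorem det_large {k : Type u} [Field k] [CharZero k] {A : Subalgebra ℤ k} (hA : A.FG) {n : ℕ}
    {a : Fin n → ℕ} {i0 : Fin n} {Y : Type*} [AddCommGroup Y] {ch : Fin n → Y}
    {s : Fin n → Fin n → Fin n → A[X]} {F : A[X][X]} {m : ℕ} {D : Fin m → Derivation ℤ A A}
    {G : Fin m → II a → II a → A} (HS : Specs A a i0 ch s F D G) (m₀ : ℕ)
    (hexp : ∀ y : Y, m₀ • y = 0) (hK : ∀ χ : Y, KeyFor A ch D G χ) (b : A) (hb : b ≠ 0) :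
    ∃ p₀ : ℕ, ∀ p : ℕ, p₀ ≤ p → p.Prime → p ≡ 1 [MOD m₀] →
      ∃ (κ : Type u) (_ : Field κ) (ψ : A →+* κ), CharP κ p ∧ ψ (b * (hwM a p s).det) ≠ 0 := by
  classical
  by_contra hcon
  push Not at hcon
  have hft : Algebra.FiniteType ℤ A := A.fg_iff_finiteType.1 hA
  obtain ⟨B, hB⟩ := exists_fields A
  set P0 : ℕ := max (B 0) (B b) with hP0
  let ι : Type := {p : ℕ // p.Prime ∧ (p ≡ 1 [MOD m₀] ∧ ∀ (κ : Type u) (_ : Field κ)
    (ψ : A →+* κ), CharP κ p → ψ (b * (hwM a p s).det) = 0) ∧ P0 < p}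
  have hinf : Infinite ι := by
    have h1 : Set.Infinite {p : ℕ | p.Prime ∧ (p ≡ 1 [MOD m₀] ∧ ∀ (κ : Type u) (_ : Field κ)
        (ψ : A →+* κ), CharP κ p → ψ (b * (hwM a p s).det) = 0) ∧ P0 < p} := by
      apply Set.infinite_of_forall_exists_gt
      intro n
      obtain ⟨p, hp1, hp2, hp3, hp4⟩ := hcon (max n P0 + 1)
      exact ⟨p, ⟨hp2, ⟨hp3, hp4⟩, lt_of_le_of_lt (le_max_right n P0) hp1⟩,
        lt_of_le_of_lt (le_max_left n P0) hp1⟩
    exact h1.to_subtype
  have hBi : ∀ i : ι, B 0 < i.1 := fun i => lt_of_le_of_lt (le_max_left _ _) i.2.2.2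
  have hbi : ∀ i : ι, B b < i.1 := fun i => lt_of_le_of_lt (le_max_right _ _) i.2.2.2
  choose κ hκ φ hchar hder hne using fun i : ι => hB i.1 i.2.1 (hBi i)
  let U : Ultrafilter ι := Filter.hyperfilter ι
  have hlarge : ∀ n : ℕ, ∀ᶠ i in (U : Filter ι), n < i.1 := by
    intro n
    apply Filter.hyperfilter_le_cofinite
    rw [Filter.mem_cofinite]
    have h1 : Set.Finite {x : ℕ | x ≤ n} := Set.finite_le_nat n
    refine (Set.Finite.preimage (f := fun i : ι => i.1) Subtype.val_injective.injOn h1).subset ?_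
    intro i hi
    simp only [Set.mem_compl_iff, Set.mem_ofPred_eq, not_lt] at hi
    exact hi
  choose δ hδ using hder
  choose Δ hΔ using fun D : Derivation ℤ A A => exists_ultD U κ (fun i => δ i D)
  choose c c1 c2 c3 c4 using fun i : ι =>
    uab_exists_c HS m₀ hexp i.1 i.2.1 i.2.2.1.1 (κ i) (hκ i) (hchar i) (φ i)
  let ιh : A →+* Ult U κ := (ultMk U κ).comp (RingHom.pi φ)
  have hιh : ∀ x, ιh x = ultMk U κ (fun i => φ i x) := fun x => rfl
  let M : Ix a → II a → Ult U κ := fun v b => ultMk U κ (fun i => c i v b)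
  have hM0 : ∀ v b, gr ch b ≠ gr ch (.inl v) → M v b = 0 := by
    intro v b' hb'
    have h1 : (fun i => c i v b') = (0 : ∀ i, κ i) := funext fun i => c2 i v b' hb'
    change ultMk U κ (fun i => c i v b') = 0
    rw [h1, map_zero]
  have hdet : (Matrix.of fun v u : Ix a => M v (.inl u)).det = 0 := by
    have h1 : (Matrix.of fun v u : Ix a => M v (.inl u)) =
        (ultMk U κ).mapMatrix (Matrix.of fun (v u : Ix a) (i : ι) => φ i (hwM a i.1 s v u)) := by
      ext v u
      simp only [RingHom.mapMatrix_apply, Matrix.map_apply, Matrix.of_apply]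
      exact congrArg _ (funext fun i => c3 i v u)
    rw [h1, ← RingHom.map_det]
    have h2 : (Matrix.of fun (v u : Ix a) (i : ι) => φ i (hwM a i.1 s v u)).det = 0 := by
      ext i
      have h3 := (Pi.evalRingHom κ i).map_det
        (Matrix.of fun (v u : Ix a) (i : ι) => φ i (hwM a i.1 s v u))
      rw [Pi.evalRingHom_apply] at h3
      rw [h3]
      have h4 : (Pi.evalRingHom κ i).mapMatrix
          (Matrix.of fun (v u : Ix a) (i : ι) => φ i (hwM a i.1 s v u)) =
          (φ i).mapMatrix (hwM a i.1 s) := by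
        ext v u
        rfl
      rw [h4, ← RingHom.map_det]
      have h5 := i.2.2.1.2 (κ i) (hκ i) (φ i) (hchar i)
      rw [map_mul] at h5
      exact (mul_eq_zero.1 h5).resolve_left (hne i b hb (hbi i))
    rw [h2, map_zero]
  refine block_det (fun v : Ix a => gr ch (.inl v)) (Matrix.of fun v u : Ix a => M v (.inl u))
    ?_ ?_ hdet
  · intro v u hvu
    exact hM0 v (.inl u) (Ne.symm hvu)
  · intro χ
    have key := hK χ (Ult U κ) ιh ?_ (fun l => Δ (D l)) ?_ (fun v b => M v.1 b.1) ?_ ?_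
    · intro h0
      apply key
      rw [← h0]
      congr 1
    · rw [injective_iff_map_eq_zero]
      intro x hx
      by_contra hx0
      rw [hιh, ultMk_eq_zero] at hx
      have h1 := hx.and (hlarge (B x))
      obtain ⟨i, hi1, hi2⟩ := h1.exists
      exact hne i x hx0 hi2 hi1
    · intro l x
      refine (hΔ (D l) fun i => φ i x).trans ?_
      rw [hιh]
      exact congrArg _ (funext fun i => hδ i (D l) x)
    · intro lam hlam
      choose L hL using fun v => ultMk_surjective U κ (lam v)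
      let L' : Ix a → ∀ i, κ i := fun v =>
        if h : gr ch (.inl v) = χ then L ⟨v, h⟩ else 0
      have hL'1 : ∀ v (h : gr ch (.inl v) = χ), L' v = L ⟨v, h⟩ := fun v h => dif_pos h
      have hL'2 : ∀ v, gr ch (.inl v) ≠ χ → L' v = 0 := fun v h => dif_neg h
      have h1 : ∀ b' : II a, ∑ v, ultMk U κ (L' v) * M v b' = 0 := by
        intro b'
        by_cases hb' : gr ch b' = χ
        · have h2 : ∑ v, ultMk U κ (L' v) * M v b' =
              ∑ v : {v : Ix a // gr ch (.inl v) = χ}, ultMk U κ (L' v.1) * M v.1 b' := by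
            refine uab_sum _ _ fun v hv => ?_
            rw [hL'2 v hv, map_zero, zero_mul]
          rw [h2]
          have h3 := hlam ⟨b', hb'⟩
          rw [← h3]
          refine Finset.sum_congr rfl fun v _ => ?_
          rw [hL'1 v.1 v.2, hL]
        · refine Finset.sum_eq_zero fun v _ => ?_
          by_cases hv : gr ch (.inl v) = χ
          · rw [hM0 v b' (fun h => hb' (h.trans hv)), mul_zero]
          · rw [hL'2 v hv, map_zero, zero_mul]
      have h2 : ∀ᶠ i in (U : Filter ι), ∀ b' : II a, ∑ v, L' v i * c i v b' = 0 := by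
        rw [Filter.eventually_all]
        intro b'
        have h3 := h1 b'
        have h4 : ultMk U κ (∑ v, L' v * fun i => c i v b') = 0 := by
          rw [map_sum, ← h3]
          refine Finset.sum_congr rfl fun v _ => ?_
          rw [map_mul]
        rw [ultMk_eq_zero] at h4
        filter_upwards [h4] with i hi
        rw [Finset.sum_apply] at hi
        exact hi
      funext v
      rw [Pi.zero_apply, ← hL v, ultMk_eq_zero]
      filter_upwards [h2] with i hi
      have h5 := congrFun (c1 i (fun v => L' v i) hi) v.1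
      rw [hL'1 v.1 v.2] at h5
      exact h5
    · intro l v b'
      refine (hΔ (D l) fun i => c i v.1 b'.1).trans ?_
      have h1 : (fun i => δ i (D l) (c i v.1 b'.1)) =
          ∑ b'' : II a, (fun i => φ i (G l b'' b'.1)) * (fun i => c i v.1 b'') := by
        funext i
        rw [c4 i l (δ i (D l)) (hδ i (D l)) v.1 b'.1, Finset.sum_apply]
        rfl
      rw [h1, map_sum]
      have h2 : ∑ b'' : II a, ultMk U κ ((fun i => φ i (G l b'' b'.1)) * fun i => c i v.1 b'') =
          ∑ b'' : {b // gr ch b = χ}, ultMk U κ ((fun i => φ i (G l b''.1 b'.1)) *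
            fun i => c i v.1 b''.1) := by
        refine uab_sum _ _ fun b'' hb'' => ?_
        rw [map_mul]
        have h3 : ultMk U κ (fun i => c i v.1 b'') = 0 :=
          hM0 v.1 b'' (fun h => hb'' (h.trans v.2))
        rw [h3, mul_zero]
      rw [h2]
      refine Finset.sum_congr rfl fun b'' _ => ?_
      exact map_mul (ultMk U κ) _ _

end MPadcCM
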