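import Pool.Agent.Lib.MP_adc574_ag_CM.BrC
import Pool.Agent.Lib.MP_adc574_ag_CM.KeyB
import Pool.Agent.Lib.MP_adc574_ag_CM.KeyL
import Pool.Agent.Lib.MP_adc574_ag_CM.UA

/-!
# FinB: the key theorem for all characters

`wt ζ ch b g = ζ ^ (gr ch b (ρ g)).val` is the eigenvalue of `ρ g` on `hh k f m b`.
JOB FinB.
* `hh_wt`: `hh k f m b` is homogeneous of degree `y = gr ch b` (`Gr.hom_hh`), so it is a combination of the `e l` with `ch l = y`, and `σ (e l) = pol (C (ζ ^ (ch l σ).val)) • e l` by `he`; `σ` is `RatFunc k`-linear.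
* `wt_inj`: `ζ ^ s.val = ζ ^ t.val` implies `s = t` in `ZMod m₀` (`IsPrimitiveRoot.pow_inj`, `ZMod.val_lt` with `NeZero m₀`, `ZMod.val_injective`).
* `keyFor`: let `y : Set.range ρ → ZMod m₀`. If there is no `v : Ix a` with `gr ch (.inl v) = y` the determinant is that of an empty matrix (`Matrix.det_isEmpty`), `1 ≠ 0`. Otherwise `h := hh k f m (.inl v) ≠ 0` (`hZ` with `g = 0`, `r` the indicator of `.inl v`) is an eigenvector of all `ρ g` with eigenvalue `ζ ^ (y (ρ g)).val`, so `g ↦ ζ ^ (y (ρ g)).val` is multiplicative: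
  `χ : G →* kˣ` with `(χ g : k) = ζ ^ (y (ρ g)).val` (`Units`: `ζ` is a unit). `P b := gr ch b = y`; `hP`: `gr ch b = y ↔ ∀ g, wt b g = χ g` (`wt_inj`). `exists_basis`, `regularClasses_eq`, `exists_nab`, `isHor_iff`, `gp_iff`: `GP nab (span of the B (.inl v)) (card)`, where `Module.finrank k (regularClasses ρ χ) = Fintype.card {v // gr ch (.inl v) = y}` (`finrank_span_eq_card` for the independent family `B ∘ inl`).
  `key_basis` (KeyB) with `H := H1 ρ χ`, `I := {b // gr ch b = y}`, `V := {v // gr ch (.inl v) = y}`, `g := inl`, `j := algebraMap A k` (injective), `G l b' b` restricted, `hDk`: for `D'` take `α` from `hD`, a lift `Δ` (third property of `exists_nab`), `nab D' (B b) = cohClass (Δ (h b))`, and by `hR` (`Rel`) `Δ (h b) = ∑ b', pol (C (∑ l, α l * G l b' b)) • h b' + d g`; the terms with `gr ch b' ≠ y` vanish by `hG`;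
  so `nab D' (B b) = ∑ b', (∑ l, α l * G l b' b) • B b'` (`exactForms`, `isExact_iff`).
* `generic_of_big`: `exists_basis` with `P b := ∀ g, wt b g = χ g` gives `Module.Finite k (H1 ρ χ)`; `exists_nab`, `isHor_iff`, `gp_iff`; `gp_of_sp`, `gp_of_sl` (KeyL) with `r = Module.finrank k (regularClasses ρ χ)`, `le_rfl`.
-/

set_option autoImplicit false

namespace MPadcCM

open Polynomial MPadcCov

universe u

section

variable {k : Type u} [Field k] {L : Type u} [CommRing L] [Algebra (RatFunc k) L] [Algebra k L]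
  [IsScalarTower k (RatFunc k) L] {n : ℕ} {e : Module.Basis (Fin n) (RatFunc k) L} {a : Fin n → ℕ}
  {i0 : Fin n} {f : Fin n → L} {m' : Ix a → L} {dK : Derivation ℤ (RatFunc k) (RatFunc k)}
  {d : Derivation ℤ L L} {Gp : Type*} [CommGroup Gp] {ρ : Gp →* (L ≃ₐ[RatFunc k] L)}
  {m₀ : ℕ} {ζ : k} {ch : Fin n → (Set.range ρ → ZMod m₀)}

/-- The eigenvalue of `ρ g` on `hh k f m b`. -/
noncomputable def wt (ζ : k) (ch : Fin n → (Set.range ρ → ZMod m₀)) (b : II a) (g : Gp) : k :=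
  ζ ^ (gr ch b ⟨ρ g, Set.mem_range_self g⟩).val

theorem hh_wt (H : Cv e a i0 f m' dK d) (HG : Gr e ch m' d)
    (he : ∀ i (σ : Set.range ρ), σ.1 (e i) = pol (C (ζ ^ (ch i σ).val)) • e i) (b : II a) (g : Gp) :
    ρ g (hh k f m' b) = pol (C (wt ζ ch b g)) • hh k f m' b := by
  have h1 := HG.hom_hh H b
  have h2 : ∑ l, e.repr (hh k f m' b) l • e l = hh k f m' b := e.sum_repr _
  calc ρ g (hh k f m' b) = ρ g (∑ l, e.repr (hh k f m' b) l • e l) := by rw [h2]
    _ = ∑ l, pol (C (wt ζ ch b g)) • (e.repr (hh k f m' b) l • e l) := by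
      rw [map_sum]
      refine Finset.sum_congr rfl fun l _ => ?_
      rw [map_smul]
      by_cases hl : e.repr (hh k f m' b) l = 0
      · rw [hl, zero_smul, zero_smul, smul_zero]
      · have h3 := he l ⟨ρ g, Set.mem_range_self g⟩
        rw [h1 l hl] at h3
        have h4 : ρ g (e l) = pol (C (wt ζ ch b g)) • e l := h3
        rw [h4, smul_comm]
    _ = pol (C (wt ζ ch b g)) • hh k f m' b := by rw [← Finset.smul_sum, h2]

private theorem finb2_sum {V W : Type*} [Fintype V] [AddCommMonoid W] (q : V → Prop)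
    [Fintype {v // q v}] (f : V → W) (h : ∀ v, ¬ q v → f v = 0) :
    ∑ v, f v = ∑ v : {v // q v}, f v.1 := by
  classical
  have h1 : ∑ v ∈ Finset.univ.filter q, f v = ∑ v, f v := by
    refine Finset.sum_filter_of_ne fun v _ hv => ?_
    by_contra hq
    exact hv (h v hq)
  rw [← h1]
  exact Finset.sum_subtype _ (fun v => by simp) f

private theorem finb2_pol0 : pol (C (0 : k)) = 0 := by
  change algebraMap k[X] (RatFunc k) (C 0) = 0
  rw [map_zero, map_zero]

private theorem finb2_pol1 : pol (C (1 : k)) = 1 := by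
  change algebraMap k[X] (RatFunc k) (C 1) = 1
  rw [map_one, map_one]

private theorem finb2_polmul (c c' : k) : pol (C (c * c')) = pol (C c) * pol (C c') := by
  change algebraMap k[X] (RatFunc k) (C (c * c')) = _
  rw [map_mul, map_mul]

private theorem finb2_smul (c : k) (z : L) : c • z = pol (C c) • z := by
  rw [← algebraMap_smul (RatFunc k) c z]
  rfl

private theorem finb2_ne (hZ : ∀ (r : II a → k) (g : L),
    ∑ b, pol (C (r b)) • hh k f m' b = d g → r = 0) (b : II a) : hh k f m' b ≠ 0 := by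
  classical
  intro h
  have h1 := hZ (Pi.single b 1) 0 (by
    rw [map_zero]
    refine Finset.sum_eq_zero fun b' _ => ?_
    by_cases hb : b' = b
    · subst hb
      rw [h, smul_zero]
    · rw [Pi.single_eq_of_ne hb, finb2_pol0, zero_smul])
  have h2 := congrFun h1 b
  rw [Pi.single_eq_same, Pi.zero_apply] at h2
  exact one_ne_zero h2

private theorem finb2_char [NeZero m₀] (hh_ne : ∀ b : II a, hh k f m' b ≠ 0) (hm₀ : 0 < m₀)
    (hζ : IsPrimitiveRoot ζ m₀)
    (hw : ∀ (b : II a) (g : Gp), ρ g (hh k f m' b) = pol (C (wt ζ ch b g)) • hh k f m' b)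
    (v0 : Ix a) {y : Set.range ρ → ZMod m₀} (hv0 : gr ch (.inl v0 : II a) = y) :
    ∃ χ : Gp →* kˣ, ∀ b : II a, gr ch b = y ↔ ∀ g, wt ζ ch b g = χ g := by
  have hinj : Function.Injective fun c : k => pol (C c) • hh k f m' (.inl v0) := by
    intro c c' h
    have h1 := smul_left_injective (RatFunc k) (hh_ne (.inl v0)) h
    have h2 : algebraMap k (RatFunc k) c = algebraMap k (RatFunc k) c' := by
      have e : ∀ z : k, algebraMap k (RatFunc k) z = pol (C z) := fun z =>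
        (RatFunc.algebraMap_C z).symm
      rw [e, e]
      exact h1
    exact (algebraMap k (RatFunc k)).injective h2
  let μ : Gp →* k :=
    { toFun := fun g => wt ζ ch (.inl v0) g
      map_one' := by
        apply hinj
        change pol (C (wt ζ ch (.inl v0) 1)) • hh k f m' (.inl v0) =
          pol (C 1) • hh k f m' (.inl v0)
        rw [← hw, map_one, finb2_pol1, one_smul]
        rfl
      map_mul' := by
        intro g g'
        apply hinj
        change pol (C (wt ζ ch (.inl v0) (g * g'))) • hh k f m' (.inl v0) =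
          pol (C (wt ζ ch (.inl v0) g * wt ζ ch (.inl v0) g')) • hh k f m' (.inl v0)
        rw [← hw, map_mul, finb2_polmul, AlgEquiv.mul_apply, hw, map_smul, hw, smul_smul,
          mul_comm] }
  refine ⟨μ.toHomUnits, fun b => ⟨?_, ?_⟩⟩
  · intro h g
    rw [MonoidHom.coe_toHomUnits]
    change wt ζ ch b g = wt ζ ch (.inl v0) g
    unfold wt
    rw [h, hv0]
  · intro h
    funext σ
    obtain ⟨σ, g, rfl⟩ := σ
    have h1 := h g
    rw [MonoidHom.coe_toHomUnits] at h1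
    change wt ζ ch b g = wt ζ ch (.inl v0) g at h1
    unfold wt at h1
    rw [hv0] at h1
    exact ZMod.val_injective m₀ (hζ.pow_inj (ZMod.val_lt _) (ZMod.val_lt _) h1)

theorem keyFor [IsAlgClosed k] [CharZero k] [Finite Gp] {A : Subalgebra ℤ k} {m : ℕ}
    {D : Fin m → Derivation ℤ A A}
    (hD : ∀ D' : Derivation ℤ k k, ∃ c : Fin m → k, ∀ x : A, D' (x : k) = ∑ l, c l * ((D l x : A) : k))
    (hm₀ : 0 < m₀) (hζ : IsPrimitiveRoot ζ m₀)
    (H : Cv e a i0 f m' dK d) (HG : Gr e ch m' d)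
    (he : ∀ i (σ : Set.range ρ), σ.1 (e i) = pol (C (ζ ^ (ch i σ).val)) • e i)
    {G : Fin m → II a → II a → A} (hG : ∀ l b b', G l b' b ≠ 0 → gr ch b' = gr ch b)
    (hX : ∀ z : L, IntX k z ↔ InB e z) (hO : ∀ z : L, IntO k z ↔ InCi e a z)
    (hZ : ∀ (r : II a → k) (g : L), ∑ b, pol (C (r b)) • hh k f m' b = d g → r = 0)
    (hR : ∀ (D' : Derivation ℤ k k) (c : Fin m → k),
      (∀ x : A, D' (x : k) = ∑ l, c l * ((D l x : A) : k)) →
        ∀ Δ : Derivation ℤ L L, IsLiftE D' Δ → (∀ φ, SK2 e a d φ → SK2 e a d (Δ φ)) ∧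
          Rel f m' d Δ fun b' b => ∑ l, c l * (G l b' b : k))
    (hgen : ∀ χ : Gp →* kˣ, IsGeneric ρ χ) (y : Set.range ρ → ZMod m₀) : KeyFor A ch D G y := by
  classical
  intro Lf _ ι hι Δ hΔ c hci hcD
  by_cases hv : ∃ v : Ix a, gr ch (.inl v : II a) = y
  swap
  · have hemp : IsEmpty {v : Ix a // gr ch (.inl v : II a) = y} := ⟨fun v => hv ⟨v.1, v.2⟩⟩
    rw [Matrix.det_isEmpty]
    exact one_ne_zero
  obtain ⟨v0, hv0⟩ := hv
  have : NeZero m₀ := ⟨hm₀.ne'⟩
  have hw : ∀ (b : II a) (g : Gp), ρ g (hh k f m' b) = pol (C (wt ζ ch b g)) • hh k f m' b :=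
    fun b g => hh_wt H HG he b g
  obtain ⟨χ, hP⟩ := finb2_char (hh_ne := finb2_ne hZ) hm₀ hζ hw v0 hv0
  have hS : ∀ (D : Derivation ℤ k k) (Δ : Derivation ℤ L L), IsLiftE D Δ →
      ∀ φ, SK2 e a d φ → SK2 e a d (Δ φ) := by
    intro D' Δ' h
    obtain ⟨α, hα⟩ := hD D'
    exact (hR D' α hα Δ' h).1
  obtain ⟨nab, hconn, h1, h2, h3⟩ := exists_nab (ρ := ρ) (χ := χ) H hX hO hS
  obtain ⟨B, hB⟩ := exists_basis (ρ := ρ) (χ := χ) H hX hO hZ hw (fun b => gr ch b = y) hP
  have hreg := regularClasses_eq (ρ := ρ) (χ := χ) H hX hO hZ hw (fun b => gr ch b = y) hP B hB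
  have hGP0 := (gp_iff (ρ := ρ) (χ := χ) (fun r W => isHor_iff h1 h2 h3 W)).2 (hgen χ)
  have hinj : Function.Injective (fun v : {v : Ix a // gr ch (.inl v : II a) = y} =>
      (⟨.inl v.1, v.2⟩ : {b : II a // gr ch b = y})) := by
    intro v v' h
    exact Subtype.ext (Sum.inl_injective (congrArg Subtype.val h))
  have hli : LinearIndependent k (fun v : {v : Ix a // gr ch (.inl v : II a) = y} =>
      B ⟨.inl v.1, v.2⟩) := B.linearIndependent.comp _ hinj
  have hcard : Module.finrank k (regularClasses ρ χ) =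
      Fintype.card {v : Ix a // gr ch (.inl v : II a) = y} := by
    rw [hreg]
    exact finrank_span_eq_card hli
  rw [hcard] at hGP0
  rw [hreg] at hGP0
  have hj : Function.Injective (algebraMap A k) := Subtype.val_injective
  refine key_basis hj hι B hconn D Δ hΔ (fun l b' b => G l b'.1 b.1) ?_ c hcD hci
    (fun v => ⟨.inl v.1, v.2⟩) hinj hGP0
  intro D'
  obtain ⟨α, hα⟩ := hD D'
  refine ⟨α, hα, fun b => ?_⟩
  obtain ⟨Δ', hΔ'⟩ := h3 D'
  obtain ⟨-, hrel⟩ := hR D' α hα Δ' ((isLift_iff D' Δ').1 hΔ')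
  obtain ⟨g, hg⟩ := hrel b.1
  choose hm hBe using hB
  obtain ⟨ψ, hψ⟩ := h2 D' Δ' hΔ' ⟨hh k f m' b.1, hm b⟩
  rw [hBe b, h1 D' Δ' hΔ' _ ψ hψ]
  obtain ⟨θ, hθ⟩ : ∃ θ : secondKind ρ χ, θ = ∑ a' : {b : II a // gr ch b = y},
    (∑ l, α l * (G l a'.1 b.1 : k)) • (⟨hh k f m' a'.1, hm a'⟩ : secondKind ρ χ) := ⟨_, rfl⟩
  have e1 : cohClass ρ χ θ = ∑ a' : {b : II a // gr ch b = y},
      (∑ l, α l * (G l a'.1 b.1 : k)) • B a' := by
    rw [hθ]
    change (exactForms ρ χ).mkQ _ = _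
    rw [map_sum]
    refine Finset.sum_congr rfl fun a' _ => ?_
    rw [map_smul, hBe a']
    rfl
  refine Eq.trans ?_ e1
  refine (Submodule.Quotient.eq _).2 ?_
  change IsExact k ((ψ - θ : secondKind ρ χ) : L)
  rw [isExact_iff H]
  refine ⟨g, ?_⟩
  have e2 : (θ : L) = ∑ b' : II a, pol (C (∑ l, α l * (G l b' b.1 : k))) • hh k f m' b' := by
    rw [hθ]
    rw [finb2_sum (fun b' : II a => gr ch b' = y)
      (fun b' => pol (C (∑ l, α l * (G l b' b.1 : k))) • hh k f m' b')]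
    · rw [Submodule.coe_sum]
      refine Finset.sum_congr rfl fun a' _ => ?_
      rw [Submodule.coe_smul, finb2_smul]
    · intro b' hb'
      have h0 : ∀ l, G l b' b.1 = 0 := by
        intro l
        by_contra h
        exact hb' ((hG l b.1 b' h).trans b.2)
      have h00 : (∑ l, α l * (G l b' b.1 : k)) = 0 := by
        refine Finset.sum_eq_zero fun l _ => ?_
        rw [h0 l, ZeroMemClass.coe_zero, mul_zero]
      change pol (C (∑ l, α l * (G l b' b.1 : k))) • hh k f m' b' = 0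
      rw [h00, finb2_pol0, zero_smul]
  rw [Submodule.coe_sub, e2, hψ]
  change Δ' (hh k f m' b.1) - _ = _
  rw [hg, add_sub_cancel_left]

theorem generic_of_big [CharZero k] [Finite Gp] (H : Cv e a i0 f m' dK d) (HG : Gr e ch m' d)
    (he : ∀ i (σ : Set.range ρ), σ.1 (e i) = pol (C (ζ ^ (ch i σ).val)) • e i)
    (hX : ∀ z : L, IntX k z ↔ InB e z) (hO : ∀ z : L, IntO k z ↔ InCi e a z)
    (hZ : ∀ (r : II a → k) (g : L), ∑ b, pol (C (r b)) • hh k f m' b = d g → r = 0)
    (hS : ∀ (D : Derivation ℤ k k) (Δ : Derivation ℤ L L), IsLiftE D Δ →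
      ∀ φ, SK2 e a d φ → SK2 e a d (Δ φ))
    (χ : Gp →* kˣ) (hbig : HasBigMonodromy ρ χ) : IsGeneric ρ χ := by
  obtain ⟨B, -⟩ := exists_basis (χ := χ) H hX hO hZ (fun b g => hh_wt H HG he b g)
    (fun b => ∀ g, wt ζ ch b g = χ g) (fun b => Iff.rfl)
  have hfin : Module.Finite k (H1 ρ χ) := Module.Finite.of_basis B
  obtain ⟨nab, -, h1, h2, h3⟩ := exists_nab (ρ := ρ) (χ := χ) H hX hO hS
  have hh1 : ∀ (r : ℕ) (W : Submodule k (H1 ρ χ [⋀^Fin r]→ₗ[k] k)),
      IsHor nab W ↔ IsHorizontal ρ χ W := fun r W => isHor_iff h1 h2 h3 W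
  refine (gp_iff hh1).1 ?_
  rcases hbig with ⟨Bf, halt, hnd, hst⟩ | hst
  · exact gp_of_sp le_rfl Bf halt hnd fun W hW g hg ω hω => hst W ((hh1 _ W).1 hW) g hg ω hω
  · exact gp_of_sl le_rfl fun W hW g hg ω hω => hst W ((hh1 _ W).1 hW) g hg ω hω

end

end MPadcCM
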