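import Pool.Agent.Lib.MP_adc574_ag_CM.SpE

/-!
# Gd: a finitely generated ring with enough derivations

* JOB Gd (`exists_good`; this is the easy part of helper59's `exists_A0` in the campaign BM: copy from there if it is in the store as MP_adc574_ag_BM_RgA/RgB.lean): let `G` be a finite set of generators of `A` (`hA`), `K = FractionRing A` or the subfield generated by `G`, `j₀ : K → k`. There is `t : Fin m → A` algebraically independent over `ℚ` (or `ℤ`) with `K` algebraic over `ℚ(t)` (a transcendence basis contained in `G`: `exists_isTranscendenceBasis_subset`-type for `ℤ` or `ℚ`, `Algebra.IsAlgebraic`). For every `i : Fin m` there is a derivation `∂_i` of the field `K` with `∂_i t_j = δ_ij`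
  (on `ℤ[t]`, `MvPolynomial.pderiv`; extend to its field of fractions (`MPadcCov.ext_frac`) and to the algebraic extension `K` (`MPadcCov.exists_extension`)). Let `b ∈ A`, `b ≠ 0`, be a common denominator of all `∂_i g`, `g ∈ G` (elements of `K`), and `A₀ = A[1/b] ⊂ k`: generated by `G` and `b⁻¹`, it is stable under the `∂_i` (`∂ b⁻¹ = -b⁻² ∂ b`). For a derivation `D'` of `k`, `D' ∘ j₀` and `∑ D'(t_i) j₀ ∘ ∂_i` are derivations
  `K → k` which agree on `t`, so on `ℚ(t)`, so on the algebraic extension `K` (`p (x) = 0`, `p' (x) ≠ 0`, characteristic 0: minimal polynomial; see `ext_der` in Cov/Ext.lean or Mathlib `Derivation` uniqueness for algebraic separable extensions). So they agree on `A₀ ⊂ K`.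
-/

set_option autoImplicit false

namespace MPadcCM

open Polynomial MPadcCov

universe u

/-- An algebraic element satisfies an equation with nonzero derivative (characteristic zero). -/
private theorem gd_exists_sep {R K : Type*} [CommRing R] [IsDomain R] [CharZero R] [Field K] [Algebra R K]
    (hinj : Function.Injective (algebraMap R K)) (x : K) (hx : IsAlgebraic R x) :
    ∃ P : R[X], aeval x P = 0 ∧ aeval x (derivative P) ≠ 0 := by
  classical
  have h : ∃ n, ∃ P : R[X], P ≠ 0 ∧ aeval x P = 0 ∧ P.natDegree = n := by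
    obtain ⟨P, h1, h2⟩ := hx
    exact ⟨_, P, h1, h2, rfl⟩
  obtain ⟨P, h1, h2, h3⟩ := Nat.find_spec h
  refine ⟨P, h2, fun h4 => ?_⟩
  have h5 : P.natDegree ≠ 0 := by
    intro h0
    have h6 := Polynomial.eq_C_of_natDegree_eq_zero h0
    rw [h6, aeval_C] at h2
    have h7 : P.coeff 0 = 0 := hinj (by rw [h2, map_zero])
    exact h1 (by rw [h6, h7, C_0])
  have h6 : derivative P ≠ 0 := by
    intro h
    exact h5 (Polynomial.derivative_eq_zero.1 h)
  have h7 := Nat.find_min h (m := (derivative P).natDegree)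
    (by rw [← h3]; exact Polynomial.natDegree_derivative_lt h5)
  exact h7 ⟨_, h6, h4, rfl⟩

/-- Derivations extend along formally etale extensions. -/
private theorem gd_extend {S T : Type u} [CommRing S] [CommRing T] [Algebra S T]
    [Algebra.FormallyEtale S T] (d : Derivation ℤ S T) :
    ∃ d' : Derivation ℤ T T, ∀ s, d' (algebraMap S T s) = d s := by
  have hbc : IsBaseChange T (KaehlerDifferential.map ℤ ℤ S T) :=
    KaehlerDifferential.isBaseChange_of_formallyEtale ℤ S T
  refine ⟨(hbc.lift d.liftKaehlerDifferential).compDer (KaehlerDifferential.D ℤ T), ?_⟩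
  intro s
  have h1 : KaehlerDifferential.D ℤ T (algebraMap S T s) =
      KaehlerDifferential.map ℤ ℤ S T (KaehlerDifferential.D ℤ S s) := by
    rw [KaehlerDifferential.map_D]
  change hbc.lift d.liftKaehlerDifferential (KaehlerDifferential.D ℤ T (algebraMap S T s)) = d s
  rw [h1, hbc.lift_eq, Derivation.liftKaehlerDifferential_comp_D]

/-- An algebraic extension field of a domain of characteristic zero is formally etale. -/
private theorem gd_etale {S K : Type u} [CommRing S] [IsDomain S] [CharZero S] [Field K] [Algebra S K]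
    (hinj : Function.Injective (algebraMap S K)) (halg : Algebra.IsAlgebraic S K) :
    Algebra.FormallyEtale S K := by
  have hf : FaithfulSMul S K := (faithfulSMul_iff_algebraMap_injective S K).2 hinj
  let := FractionRing.liftAlgebra S K
  have h1 : Algebra.IsAlgebraic (FractionRing S) K := IsFractionRing.comap_isAlgebraic_iff.1 halg
  have h2 : Algebra.FormallyEtale S (FractionRing S) :=
    Algebra.FormallyEtale.of_isLocalization (nonZeroDivisors S)
  have h3 : Algebra.FormallyEtale (FractionRing S) K := Algebra.FormallyEtale.of_isSeparable _ _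
  exact Algebra.FormallyEtale.comp S (FractionRing S) K

/-- Everything is algebraic over the polynomials in a transcendence basis. -/
private theorem gd_alg {ι B : Type*} [CommRing B] [Algebra (MvPolynomial ι ℤ) B] {x : ι → B}
    (hx : IsTranscendenceBasis ℤ x)
    (hmap : algebraMap (MvPolynomial ι ℤ) B = (MvPolynomial.aeval (R := ℤ) x).toRingHom) :
    Algebra.IsAlgebraic (MvPolynomial ι ℤ) B := by
  have h1 := hx.isAlgebraic
  have hran : Algebra.adjoin ℤ (Set.range x) = (MvPolynomial.aeval (R := ℤ) x).range :=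
    Algebra.adjoin_range_eq_range_aeval ℤ x
  constructor
  intro a
  obtain ⟨P, hP, hPa⟩ := h1.isAlgebraic a
  let f : MvPolynomial ι ℤ →+* Algebra.adjoin ℤ (Set.range x) :=
    RingHom.codRestrict (MvPolynomial.aeval (R := ℤ) x).toRingHom (Algebra.adjoin ℤ (Set.range x))
      (fun z => by
        rw [hran]
        exact ⟨z, rfl⟩)
  have hsur : Function.Surjective f := by
    intro y
    have h2 : (y : B) ∈ (MvPolynomial.aeval (R := ℤ) x).range := by
      rw [← hran]
      exact y.2
    obtain ⟨z, hz⟩ := h2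
    exact ⟨z, Subtype.ext hz⟩
  obtain ⟨P', rfl⟩ := Polynomial.map_surjective f hsur P
  refine ⟨P', fun h => hP (by rw [h, Polynomial.map_zero]), ?_⟩
  rw [← hPa, Polynomial.aeval_def, Polynomial.aeval_def, Polynomial.eval₂_map, hmap]
  rfl

/-- Dual derivations of a field of characteristic zero. -/
private theorem gd_pder {k : Type u} [Field k] [CharZero k] {m : ℕ} (t : Fin m → k)
    (ht : AlgebraicIndependent ℤ t) :
    ∃ D : Fin m → Derivation ℤ k k, ∀ l j, D l (t j) = if j = l then 1 else 0 := by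
  classical
  have h1 : AlgebraicIndepOn ℤ id (Set.range t) := by
    exact ht.to_subtype_range
  obtain ⟨T, hT, hTb⟩ := exists_isTranscendenceBasis_superset h1
  let S := MvPolynomial T ℤ
  let θ : S →ₐ[ℤ] k := MvPolynomial.aeval ((↑) : T → k)
  have hθ : Function.Injective θ.toRingHom := hTb.1
  let _ : Algebra S k := θ.toRingHom.toAlgebra
  have halg : Algebra.IsAlgebraic S k := gd_alg hTb rfl
  have het : Algebra.FormallyEtale S k := gd_etale hθ halg
  have htm : ∀ j, t j ∈ T := fun j => hT ⟨j, rfl⟩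
  have hex : ∀ l : Fin m, ∃ d' : Derivation ℤ k k, ∀ s : S, d' (algebraMap S k s) =
      (Algebra.linearMap S k).compDer (MvPolynomial.pderiv (R := ℤ) (⟨t l, htm l⟩ : T)) s :=
    fun l => gd_extend _
  choose D hD using hex
  refine ⟨D, fun l j => ?_⟩
  have h2 := hD l (MvPolynomial.X ⟨t j, htm j⟩)
  have h3 : algebraMap S k (MvPolynomial.X ⟨t j, htm j⟩) = t j :=
    MvPolynomial.aeval_X ((↑) : T → k) ⟨t j, htm j⟩
  rw [h3] at h2
  rw [h2]
  change algebraMap S k (MvPolynomial.pderiv (R := ℤ) (⟨t l, htm l⟩ : T)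
    (MvPolynomial.X ⟨t j, htm j⟩)) = _
  by_cases hjl : j = l
  · subst hjl
    rw [MvPolynomial.pderiv_X_self, map_one, if_pos rfl]
  · rw [MvPolynomial.pderiv_X_of_ne, map_zero, if_neg hjl]
    intro h
    exact hjl (ht.injective (Subtype.ext_iff.1 h))

/-- The Leibniz rule for a polynomial expression. -/
private theorem gd_leib {R k : Type*} [CommRing R] [CommRing k] [Algebra R k] (D : Derivation ℤ k k)
    (P : R[X]) (x : k) : D (aeval x P) = aeval x (derivative P) * D x +
      ∑ n ∈ P.support, x ^ n * D (algebraMap R k (P.coeff n)) := by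
  have h1 : aeval x P = ∑ n ∈ P.support, algebraMap R k (P.coeff n) * x ^ n := by
    rw [Polynomial.aeval_def, Polynomial.eval₂_eq_sum]
    rfl
  have h2 : aeval x (derivative P) =
      ∑ n ∈ P.support, algebraMap R k (P.coeff n) * ((n : k) * x ^ (n - 1)) := by
    rw [Polynomial.derivative_apply, Polynomial.sum, map_sum]
    refine Finset.sum_congr rfl fun n _ => ?_
    rw [map_mul, aeval_C, map_pow, aeval_X, map_mul, map_natCast, mul_assoc]
  rw [h2, Finset.sum_mul, ← Finset.sum_add_distrib, h1, map_sum]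
  refine Finset.sum_congr rfl fun n _ => ?_
  rw [Derivation.leibniz, Derivation.leibniz_pow, smul_eq_mul, smul_eq_mul, smul_eq_mul,
    nsmul_eq_mul]
  ring

/-- A derivation which maps generators into a subalgebra maps the generated algebra into it. -/
private theorem gd_adjoin {k : Type*} [CommRing k] (D : Derivation ℤ k k) (B : Subalgebra ℤ k) (S : Set k)
    (hS : S ⊆ B) (hD : ∀ x ∈ S, D x ∈ B) : ∀ y ∈ Algebra.adjoin ℤ S, D y ∈ B := by
  have hSB : Algebra.adjoin ℤ S ≤ B := Algebra.adjoin_le hS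
  intro y hy
  induction hy using Algebra.adjoin_induction with
  | mem x hx => exact hD x hx
  | algebraMap r =>
    rw [Derivation.map_algebraMap]
    exact B.zero_mem
  | add x y _ _ h1 h2 =>
    rw [map_add]
    exact B.add_mem h1 h2
  | mul x y hx hy h1 h2 =>
    rw [Derivation.leibniz, smul_eq_mul, smul_eq_mul]
    exact B.add_mem (B.mul_mem (hSB hx) h2) (B.mul_mem (hSB hy) h1)

/-- A derivation which kills generators kills the generated algebra. -/
private theorem gd_adjoin_zero {k M : Type*} [CommRing k] [AddCommGroup M] [Module k M] [Module ℤ M]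
    (D : Derivation ℤ k M) (S : Set k)
    (hD : ∀ x ∈ S, D x = 0) : ∀ y ∈ Algebra.adjoin ℤ S, D y = 0 := by
  intro y hy
  induction hy using Algebra.adjoin_induction with
  | mem x hx => exact hD x hx
  | algebraMap r => rw [Derivation.map_algebraMap]
  | add x y _ _ h1 h2 => rw [map_add, h1, h2, add_zero]
  | mul x y hx hy h1 h2 => rw [Derivation.leibniz, h1, h2, smul_zero, smul_zero, add_zero]

theorem exists_good {k : Type u} [Field k] [CharZero k] (A : Subalgebra ℤ k) (hA : A.FG) :
    ∃ (A₀ : Subalgebra ℤ k) (_ : A ≤ A₀) (m : ℕ) (D : Fin m → Derivation ℤ A₀ A₀), Good A₀ D := by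
  classical
  obtain ⟨s, hs⟩ := hA
  have hftA : Algebra.FiniteType ℤ A := (Subalgebra.fg_iff_finiteType A).1 ⟨s, hs⟩
  obtain ⟨X, hX⟩ := exists_isTranscendenceBasis ℤ A
  have hfin : Algebra.trdeg ℤ A < Cardinal.aleph0 := trdeg_lt_aleph0_of_finiteType
  have hXfin : Finite X := by
    rw [← Cardinal.lt_aleph0_iff_finite, hX.cardinalMk_eq_trdeg]
    exact hfin
  obtain ⟨m, ⟨e⟩⟩ := Finite.exists_equiv_fin X
  -- the transcendence basis of `A`
  let t₀ : Fin m → A := fun i => ((e.symm i : X) : A)
  have ht₀ : IsTranscendenceBasis ℤ t₀ := hX.comp_equiv e.symm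
  let tk : Fin m → k := fun i => (t₀ i : k)
  have htk : AlgebraicIndependent ℤ tk :=
    ht₀.1.map' (f := A.val) Subtype.val_injective
  let θ : MvPolynomial (Fin m) ℤ →ₐ[ℤ] k := MvPolynomial.aeval tk
  let _ : Algebra (MvPolynomial (Fin m) ℤ) k := θ.toRingHom.toAlgebra
  have hθ : Function.Injective (algebraMap (MvPolynomial (Fin m) ℤ) k) := htk
  let _ : Algebra (MvPolynomial (Fin m) ℤ) A :=
    (MvPolynomial.aeval (R := ℤ) t₀).toRingHom.toAlgebra
  have halgA : Algebra.IsAlgebraic (MvPolynomial (Fin m) ℤ) A := gd_alg ht₀ rfl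
  have hθA : ∀ f : MvPolynomial (Fin m) ℤ, algebraMap (MvPolynomial (Fin m) ℤ) k f =
      ((algebraMap (MvPolynomial (Fin m) ℤ) A f : A) : k) := by
    intro f
    change MvPolynomial.aeval tk f = A.val (MvPolynomial.aeval t₀ f)
    rw [MvPolynomial.comp_aeval_apply]
    rfl
  have htowA : IsScalarTower (MvPolynomial (Fin m) ℤ) A k :=
    IsScalarTower.of_algebraMap_eq hθA
  have halgk : ∀ a ∈ A, IsAlgebraic (MvPolynomial (Fin m) ℤ) a := by
    intro a ha
    exact (isAlgebraic_algebraMap_iff (R := MvPolynomial (Fin m) ℤ) (S := A) (A := k)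
      (a := ⟨a, ha⟩) Subtype.val_injective).2 (halgA.isAlgebraic _)
  have hsA : ∀ a ∈ s, a ∈ A := by
    intro a ha
    rw [← hs]
    exact Algebra.subset_adjoin ha
  have hex : ∀ a : k, ∃ P : (MvPolynomial (Fin m) ℤ)[X], a ∈ s → aeval a P = 0 ∧
      aeval a (derivative P) ≠ 0 := by
    intro a
    by_cases ha : a ∈ s
    · obtain ⟨P, h1, h2⟩ := gd_exists_sep hθ a (halgk a (hsA a ha))
      exact ⟨P, fun _ => ⟨h1, h2⟩⟩
    · exact ⟨0, fun h => absurd h ha⟩
  choose P hP using hex
  have hevA : ∀ (a : k) (_ : a ∈ A) (p : (MvPolynomial (Fin m) ℤ)[X]), aeval a p ∈ A := by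
    intro a ha p
    have h1 : aeval a p = ((aeval (⟨a, ha⟩ : A) p : A) : k) :=
      Polynomial.aeval_algebraMap_apply (R := MvPolynomial (Fin m) ℤ) (A := A) k
        (⟨a, ha⟩ : A) p
    rw [h1]
    exact (aeval (⟨a, ha⟩ : A) p : A).2
  let h : k := ∏ a ∈ s, aeval a (derivative (P a))
  have hh0 : h ≠ 0 := Finset.prod_ne_zero_iff.2 fun a ha => (hP a ha).2
  have hhA : h ∈ A := A.prod_mem fun a ha => hevA a (hsA a ha) _
  let S₀ : Set k := insert h⁻¹ (s : Set k)
  obtain ⟨A₀, hA₀⟩ : ∃ A₀ : Subalgebra ℤ k, A₀ = Algebra.adjoin ℤ S₀ := ⟨_, rfl⟩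
  have hle : A ≤ A₀ := by
    rw [← hs, hA₀]
    exact Algebra.adjoin_mono (Set.subset_insert _ _)
  have hfg : A₀.FG := by
    rw [hA₀]
    exact Subalgebra.fg_def.2 ⟨S₀, (Finset.finite_toSet s).insert _, rfl⟩
  have hinv : h⁻¹ ∈ A₀ := by
    rw [hA₀]
    exact Algebra.subset_adjoin (Set.mem_insert _ _)
  have hinvP : ∀ a ∈ s, (aeval a (derivative (P a)))⁻¹ ∈ A₀ := by
    intro a ha
    have h1 : (aeval a (derivative (P a)))⁻¹ =
        h⁻¹ * ∏ b ∈ s.erase a, aeval b (derivative (P b)) := by
      have h2 : aeval a (derivative (P a)) * ∏ b ∈ s.erase a, aeval b (derivative (P b)) = h :=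
        Finset.mul_prod_erase s (fun b => aeval b (derivative (P b))) ha
      have h3 := (hP a ha).2
      rw [← h2, mul_inv]
      have h4 : ∏ b ∈ s.erase a, aeval b (derivative (P b)) ≠ 0 := by
        intro h5
        apply hh0
        rw [← h2, h5, mul_zero]
      field_simp
    rw [h1]
    exact A₀.mul_mem hinv (A₀.prod_mem fun b hb =>
      hle (hevA b (hsA b (Finset.mem_of_mem_erase hb)) _))
  -- the derivations
  obtain ⟨D, hD⟩ := gd_pder tk htk
  have hran : ∀ f : MvPolynomial (Fin m) ℤ, algebraMap (MvPolynomial (Fin m) ℤ) k f ∈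
      Algebra.adjoin ℤ (Set.range tk) := by
    intro f
    rw [Algebra.adjoin_range_eq_range_aeval]
    exact ⟨f, rfl⟩
  have htkA : ∀ i, tk i ∈ A := fun i => (t₀ i).2
  have hDR : ∀ l (f : MvPolynomial (Fin m) ℤ),
      D l (algebraMap (MvPolynomial (Fin m) ℤ) k f) ∈ A := by
    intro l f
    refine gd_adjoin (D l) A (Set.range tk) ?_ ?_ _ (hran f)
    · rintro _ ⟨i, rfl⟩
      exact htkA i
    · rintro _ ⟨i, rfl⟩
      rw [hD]
      by_cases h1 : i = l
      · rw [if_pos h1]
        exact A.one_mem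
      · rw [if_neg h1]
        exact A.zero_mem
  have hDs : ∀ l, ∀ a ∈ s, D l a ∈ A₀ := by
    intro l a ha
    have h1 := gd_leib (R := MvPolynomial (Fin m) ℤ) (D l) (P a) a
    rw [(hP a ha).1, map_zero] at h1
    have h2 := (hP a ha).2
    have h3 : D l a = -((aeval a (derivative (P a)))⁻¹ * ∑ n ∈ (P a).support,
        a ^ n * D l (algebraMap (MvPolynomial (Fin m) ℤ) k ((P a).coeff n))) := by
      rw [eq_neg_iff_add_eq_zero]
      apply mul_left_cancel₀ h2
      rw [mul_add, mul_zero, ← mul_assoc, mul_inv_cancel₀ h2, one_mul]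
      exact h1.symm
    rw [h3]
    exact A₀.neg_mem (A₀.mul_mem (hinvP a ha) (A₀.sum_mem fun n _ =>
      A₀.mul_mem (A₀.pow_mem (hle (hsA a ha)) n) (hle (hDR l _))))
  have hDh : ∀ l, D l h ∈ A₀ := by
    intro l
    refine gd_adjoin (D l) A₀ (s : Set k) (fun x hx => hle (hsA x hx)) (hDs l) h ?_
    rw [hs]
    exact hhA
  have hDA₀ : ∀ l, ∀ x ∈ A₀, D l x ∈ A₀ := by
    intro l x hx
    rw [hA₀] at hx
    refine gd_adjoin (D l) A₀ S₀ ?_ ?_ x hx
    · rw [hA₀]
      exact Algebra.subset_adjoin
    · rintro y (rfl | hy)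
      · rw [Derivation.leibniz_inv, smul_eq_mul]
        exact A₀.mul_mem (A₀.neg_mem (A₀.pow_mem hinv 2)) (hDh l)
      · exact hDs l y hy
  let D₀ : Fin m → Derivation ℤ A₀ A₀ := fun l =>
    Derivation.mk' (AddMonoidHom.toIntLinearMap
      { toFun := fun x : A₀ => (⟨D l x, hDA₀ l x x.2⟩ : A₀)
        map_zero' := Subtype.ext (map_zero (D l))
        map_add' := fun x y => Subtype.ext (map_add (D l) (x : k) (y : k)) })
      (fun x y => Subtype.ext ((D l).leibniz (x : k) (y : k)))
  have hD₀ : ∀ l (x : A₀), ((D₀ l x : A₀) : k) = D l (x : k) := fun l x => rfl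
  refine ⟨A₀, hle, m, D₀, hfg, ?_⟩
  · intro D'
    refine ⟨fun l => D' (tk l), fun x => ?_⟩
    let E : Derivation ℤ k k := D' - ∑ l, (D' (tk l)) • D l
    have hE : ∀ y, E y = D' y - ∑ l, D' (tk l) * D l y := by
      intro y
      change (D' - ∑ l, (D' (tk l)) • D l) y = _
      have h1 := congrFun (map_sum Derivation.coeFnAddMonoidHom
        (fun l => (D' (tk l)) • D l) Finset.univ) y
      rw [Finset.sum_apply] at h1
      rw [Derivation.sub_apply]
      exact congrArg (fun z => D' y - z) h1
    have hEt : ∀ i, E (tk i) = 0 := by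
      intro i
      rw [hE, Finset.sum_eq_single i]
      · rw [hD, if_pos rfl, mul_one, sub_self]
      · intro j _ hj
        rw [hD, if_neg (Ne.symm hj), mul_zero]
      · intro hi
        exact absurd (Finset.mem_univ i) hi
    have hER : ∀ f : MvPolynomial (Fin m) ℤ, E (algebraMap (MvPolynomial (Fin m) ℤ) k f) = 0 := by
      intro f
      refine gd_adjoin_zero E (Set.range tk) ?_ _ (hran f)
      rintro _ ⟨i, rfl⟩
      exact hEt i
    have hEs : ∀ a ∈ s, E a = 0 := by
      intro a ha
      have h1 := gd_leib (R := MvPolynomial (Fin m) ℤ) E (P a) a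
      rw [(hP a ha).1, map_zero, Finset.sum_eq_zero (fun n _ => by rw [hER, mul_zero]),
        add_zero] at h1
      exact (mul_eq_zero.1 h1.symm).resolve_left (hP a ha).2
    have hEh : E h = 0 := by
      refine gd_adjoin_zero E (s : Set k) hEs h ?_
      rw [hs]
      exact hhA
    have hEx : E (x : k) = 0 := by
      refine gd_adjoin_zero E S₀ ?_ _ (by rw [← hA₀]; exact x.2)
      rintro y (rfl | hy)
      · rw [Derivation.leibniz_inv, hEh, smul_zero]
      · exact hEs y hy
    rw [hE, sub_eq_zero] at hEx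
    exact hEx

end MPadcCM
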