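import Pool.Agent.Lib.MP_adc574_ag_CM.InA

/-!
# The input from characteristic zero (interface of the sections 3 and 4)
-/

set_option autoImplicit false

namespace MPadcCM

open Polynomial MPadcCov

universe u

private theorem in_map {k : Type u} [Field k] {A A' : Subalgebra ℤ k} (hle : A ≤ A') (p : A[X]) :
    (p.map (Subalgebra.inclusion hle).toRingHom).map (algebraMap A' k) =
      p.map (algebraMap A k) := by
  rw [Polynomial.map_map]
  rfl

private theorem in_coeffs {k : Type u} [Field k] (A : Subalgebra ℤ k) (P : k[X])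
    (h : ∀ x ∈ P.coeffs, x ∈ A) : ∃ r : A[X], r.map (algebraMap A k) = P := by
  refine exists_map_of_coeff A P fun l => ?_
  by_cases h0 : P.coeff l = 0
  · rw [h0]
    exact A.zero_mem
  · exact h _ (Polynomial.coeff_mem_coeffs h0)

private theorem in_inv {k : Type u} [Field k] (A : Subalgebra ℤ k) (x y : k) (hx : x ∈ A)
    (hy : y ∈ A) (hxy : (x * y)⁻¹ ∈ A) (hy0 : y ≠ 0) : x⁻¹ ∈ A := by
  have h1 : x⁻¹ = y * (x * y)⁻¹ := by
    rw [mul_inv, mul_left_comm, mul_inv_cancel₀ hy0, mul_one]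
  rw [h1]
  exact A.mul_mem hy hxy

theorem input {k : Type u} [Field k] [IsAlgClosed k] [CharZero k] {L : Type u} [Field L]
    [Algebra (RatFunc k) L] (A₀ : Subalgebra ℤ k) (hA : A₀.FG) (F₀ : A₀[X][X]) (hF : F₀.Monic) (y : L)
    (hy : F₀.eval₂ ((algebraMap (RatFunc k) L).comp (fp (algebraMap A₀ k))) y = 0)
    (hgen : Algebra.adjoin (RatFunc k) {y} = ⊤)
    (hdeg : Module.finrank (RatFunc k) L = F₀.natDegree)
    (Γ : Set (L ≃ₐ[RatFunc k] L)) (hΓ : ∀ σ ∈ Γ, ∀ τ ∈ Γ, σ * τ = τ * σ) (m₀ : ℕ) (hm₀ : 0 < m₀)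
    (hexp : ∀ σ ∈ Γ, σ ^ m₀ = 1) (ζ : k) (hζ : IsPrimitiveRoot ζ m₀) :
    ∃ (A : Subalgebra ℤ k) (hle : A₀ ≤ A) (n : ℕ) (e : Module.Basis (Fin n) (RatFunc k) L)
      (a : Fin n → ℕ) (ch : Fin n → (Γ → ZMod m₀)) (i0 : Fin n) (f : Fin n → L) (m' : Ix a → L)
      (dK : Derivation ℤ (RatFunc k) (RatFunc k)) (d : Derivation ℤ L L)
      (m : ℕ) (D : Fin m → Derivation ℤ A A) (s : Fin n → Fin n → Fin n → A[X])
      (G : Fin m → II a → II a → A),
      Good A D ∧ Cv e a i0 f m' dK d ∧ Gr e ch m' d ∧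
      (∀ i (σ : Γ), σ.1 (e i) = pol (C (ζ ^ (ch i σ).val)) • e i) ∧
      (∀ l b b', G l b' b ≠ 0 → gr ch b' = gr ch b) ∧
      (∀ z, IntX k z ↔ InB e z) ∧ (∀ z, IntO k z ↔ InCi e a z) ∧
      (∀ (r : II a → k) (g : L), ∑ b, pol (C (r b)) • hh k f m' b = d g → r = 0) ∧
      (∀ (D' : Derivation ℤ k k) (c : Fin m → k), (∀ x : A, D' (x : k) = ∑ l, c l * ((D l x : A) : k)) →
        ∀ Δ : Derivation ℤ L L, IsLiftE D' Δ → (∀ φ, SK2 e a d φ → SK2 e a d (Δ φ)) ∧
          Rel f m' d Δ fun b' b => ∑ l, c l * (G l b' b : k)) ∧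
      Specs A a i0 ch s (F₀.map (mapRingHom (Subalgebra.inclusion hle).toRingHom)) D G := by
  classical
  -- finite dimension
  have hint : IsIntegral (RatFunc k) y :=
    ⟨F₀.map (fp (algebraMap A₀ k)), hF.map _, by rw [eval₂_map]; exact hy⟩
  haveI : FiniteDimensional (RatFunc k) L := by
    have h1 := hint.fg_adjoin_singleton
    rw [hgen] at h1
    exact ⟨by simpa using h1⟩
  obtain ⟨n, e, a, ch, i0, f, m', dK, d, HBk, HCv, HGr, hch⟩ :=
    in_base Γ hΓ m₀ hm₀ hexp ζ hζ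
  have hn : F₀.natDegree = n := by
    rw [← hdeg, Module.finrank_eq_card_basis e, Fintype.card_fin]
  have hyB : InB e y := (HBk.hX y).1
    ⟨F₀.map (mapRingHom (algebraMap A₀ k)), hF.map _, by rw [eval₂_map]; exact hy⟩
  obtain ⟨P, hP0, hPdet⟩ := in_disc HCv.toCw y hyB hgen
  obtain ⟨T, hT⟩ := HCv.exists_T
  have hS : ∀ i j l, ∃ p : k[X], pol p = e.repr (e i * e j) l := fun i j l => (HCv.mul i j l).1
  choose S hS using hS
  -- the first ring: coordinates of `T₁`, structure constants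
  set T₁ : Finset L := insert y T with hT₁
  obtain ⟨A₁, hle₁, hA₁, hfr₁, hmem₁⟩ := exists_A1 A₀ hA
    (T₁.biUnion fun z => Finset.univ.image fun i => e.repr z i)
    (P.coeffs ∪ Finset.univ.biUnion fun i => Finset.univ.biUnion fun j =>
      Finset.univ.biUnion fun l => (S i j l).coeffs)
  have hP₁ : ∀ x ∈ P.coeffs, x ∈ A₁ := fun x hx => hmem₁ x (Finset.mem_union_left _ hx)
  have hS₁ : ∀ i j l, ∀ x ∈ (S i j l).coeffs, x ∈ A₁ := by
    intro i j l x hx
    refine hmem₁ x (Finset.mem_union_right _ ?_)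
    simp only [Finset.mem_biUnion, Finset.mem_univ, true_and]
    exact ⟨i, j, l, hx⟩
  have hfr₁' : ∀ z ∈ T₁, ∀ i, FracA A₁ (e.repr z i) := by
    intro z hz i
    refine hfr₁ _ ?_
    simp only [Finset.mem_biUnion, Finset.mem_image, Finset.mem_univ, true_and]
    exact ⟨z, hz, i, rfl⟩
  -- derivations
  obtain ⟨A₂, hle₂, N, D₂, hGood₂⟩ := exists_good A₁ hA₁
  obtain ⟨b₁, hb₁, hq₁⟩ := exists_q A₂
    (T₁.biUnion fun z => Finset.univ.image fun i => e.repr z i) (by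
      intro r hr
      simp only [Finset.mem_biUnion, Finset.mem_image, Finset.mem_univ, true_and] at hr
      obtain ⟨z, hz, i, rfl⟩ := hr
      exact (hfr₁' z hz i).mono hle₂)
  obtain ⟨P₂, hP₂⟩ := in_coeffs A₂ P fun x hx => hle₂ (hP₁ x hx)
  have hP₂0 : P₂ ≠ 0 := by
    rintro rfl
    exact hP0 (by rw [← hP₂, Polynomial.map_zero])
  have hlc0 : P₂.leadingCoeff ≠ 0 := Polynomial.leadingCoeff_ne_zero.2 hP₂0
  obtain ⟨A₃, hle₃, D₃, hinv₃, hGood₃, hcomp₃⟩ := good_loc hGood₂ (b₁ * P₂.leadingCoeff)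
    (mul_ne_zero hb₁ hlc0)
  have hb₁inv : (b₁ : k)⁻¹ ∈ A₃ := by
    refine in_inv A₃ (b₁ : k) (P₂.leadingCoeff : k) (hle₃ b₁.2) (hle₃ P₂.leadingCoeff.2) hinv₃ ?_
    exact fun h => hlc0 (Subtype.ext h)
  have hlcinv : (P₂.leadingCoeff : k)⁻¹ ∈ A₃ := by
    refine in_inv A₃ (P₂.leadingCoeff : k) (b₁ : k) (hle₃ P₂.leadingCoeff.2) (hle₃ b₁.2) ?_ ?_
    · rw [mul_comm]
      exact hinv₃
    · exact fun h => hb₁ (Subtype.ext h)
  obtain ⟨q₁, hq₁m, hq₁X, hq₁r⟩ := hq₁ A₃ hle₃ hb₁inv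
  have hle₁₃ : A₁ ≤ A₃ := hle₂.trans hle₃
  have hs₃ : ∀ i j l, ∃ r : A₃[X], r.map (algebraMap A₃ k) = S i j l := fun i j l =>
    in_coeffs A₃ (S i j l) fun x hx => hle₁₃ (hS₁ i j l x hx)
  choose s₃ hs₃ using hs₃
  obtain ⟨j₀, E₂, iR, iA, e₂, f₂, m₂, dK₂, d₂, θ, M⟩ :=
    exists_md (FractionRing A₃) q₁ hq₁m hq₁X s₃
      (fun i j l => by rw [hs₃, hS]) HCv T hT (by
        intro z hz i
        refine hq₁r _ ?_
        simp only [Finset.mem_biUnion, Finset.mem_image, Finset.mem_univ, true_and]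
        exact ⟨z, Finset.mem_insert_of_mem hz, i, rfl⟩)
  -- the lifts
  have hDk : ∀ l, ∃ Dk : Derivation ℤ k k, ∀ x : A₃, Dk (x : k) = (D₃ l x : A₃) := fun l =>
    exists_Dk A₃ (D₃ l)
  choose Dk hDk using hDk
  have hDL : ∀ l, ∃ DL : Derivation ℤ L L, IsLiftE (Dk l) DL := fun l =>
    exists_liftE HCv.dual (Dk l)
  choose DL hDL using hDL
  have hCd : ∀ {δ : Derivation ℤ k k} {Δ : Derivation ℤ L L}, IsLiftE δ Δ → Cd e a d Δ :=
    fun hΔ => HBk.cd HCv.dK_pol HCv.d_alg hΔ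
  have hG₂ : ∀ l, ∃ (G : II a → II a → FractionRing A₃) (g : II a → E₂),
      (∀ b, DL l (hh k f m' b) =
        ∑ b', pol (C (j₀ (G b' b))) • hh k f m' b' + d (θ (g b))) ∧
      (∀ b b', G b' b ≠ 0 → gr ch b' = gr ch b) ∧ ∀ i, ∃ z, DL l (e i) = θ z := fun l =>
    M.rel (D₃ l) (hDk l) (hDL l) (hCd (hDL l)) HGr fun b =>
      hom_lift hm₀ hζ hch (hDL l) _ _ (HGr.hom_hh HCv b)
  choose G₂ g₂ hGrel hGblk hDe using hG₂
  -- the second localization
  set T₂ : Finset L := (T₁ ∪ Finset.univ.biUnion fun l => Finset.univ.image fun b => θ (g₂ l b)) ∪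
    Finset.univ.biUnion fun l => Finset.univ.image fun i => DL l (e i) with hT₂
  have hT₂a : ∀ z ∈ T₁, z ∈ T₂ := fun z hz =>
    Finset.mem_union_left _ (Finset.mem_union_left _ hz)
  have hT₂b : ∀ l b, θ (g₂ l b) ∈ T₂ := by
    intro l b
    refine Finset.mem_union_left _ (Finset.mem_union_right _ ?_)
    simp only [Finset.mem_biUnion, Finset.mem_image, Finset.mem_univ, true_and]
    exact ⟨l, b, rfl⟩
  have hT₂c : ∀ l i, DL l (e i) ∈ T₂ := by
    intro l i
    refine Finset.mem_union_right _ ?_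
    simp only [Finset.mem_biUnion, Finset.mem_image, Finset.mem_univ, true_and]
    exact ⟨l, i, rfl⟩
  have hfr₂ : ∀ z ∈ T₂, ∀ i, FracA A₃ (e.repr z i) := by
    intro z hz i
    have hθ : ∀ w : E₂, FracA A₃ (e.repr (θ w) i) := by
      intro w
      rw [M.th.repr]
      exact fracA_sg j₀ M.hj _
    rcases Finset.mem_union.1 hz with hz | hz
    · rcases Finset.mem_union.1 hz with hz | hz
      · exact (hfr₁' z hz i).mono hle₁₃
      · simp only [Finset.mem_biUnion, Finset.mem_image, Finset.mem_univ, true_and] at hz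
        obtain ⟨l, b, rfl⟩ := hz
        exact hθ _
    · simp only [Finset.mem_biUnion, Finset.mem_image, Finset.mem_univ, true_and] at hz
      obtain ⟨l, i', rfl⟩ := hz
      obtain ⟨w, hw⟩ := hDe l i'
      rw [hw]
      exact hθ _
  have hfm : ∀ l b' b, ∃ β : A₃, β ≠ 0 ∧ (β : k) * j₀ (G₂ l b' b) ∈ A₃ := fun l b' b =>
    frac_mem j₀ M.hj (G₂ l b' b)
  choose β hβ0 hβ using hfm
  obtain ⟨b₂, hb₂, hq₂⟩ := exists_q A₃
    (T₂.biUnion fun z => Finset.univ.image fun i => e.repr z i) (by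
      intro r hr
      simp only [Finset.mem_biUnion, Finset.mem_image, Finset.mem_univ, true_and] at hr
      obtain ⟨z, hz, i, rfl⟩ := hr
      exact hfr₂ z hz i)
  set β' : A₃ := ∏ l, ∏ b', ∏ b, β l b' b with hβ'
  have hβ'0 : β' ≠ 0 := Finset.prod_ne_zero_iff.2 fun l _ => Finset.prod_ne_zero_iff.2 fun b' _ =>
    Finset.prod_ne_zero_iff.2 fun b _ => hβ0 l b' b
  have hdvd : ∀ l b' b, ∃ c : A₃, β' = β l b' b * c := by
    intro l b' b
    have h1 : β l b' b ∣ β' :=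
      (Finset.dvd_prod_of_mem (fun b => β l b' b) (Finset.mem_univ b)).trans
        ((Finset.dvd_prod_of_mem (fun b' => ∏ b, β l b' b) (Finset.mem_univ b')).trans
          (Finset.dvd_prod_of_mem (fun l => ∏ b', ∏ b, β l b' b) (Finset.mem_univ l)))
    exact h1
  obtain ⟨A, hle₄, D, hinv₄, hGood, hcomp₄⟩ := good_loc hGood₃ (b₂ * β') (mul_ne_zero hb₂ hβ'0)
  have hb₂inv : (b₂ : k)⁻¹ ∈ A := by
    refine in_inv A (b₂ : k) (β' : k) (hle₄ b₂.2) (hle₄ β'.2) hinv₄ ?_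
    exact fun h => hβ'0 (Subtype.ext h)
  have hβinv : (β' : k)⁻¹ ∈ A := by
    refine in_inv A (β' : k) (b₂ : k) (hle₄ β'.2) (hle₄ b₂.2) ?_ ?_
    · rw [mul_comm]
      exact hinv₄
    · exact fun h => hb₂ (Subtype.ext h)
  have hGA : ∀ l b' b, j₀ (G₂ l b' b) ∈ A := by
    intro l b' b
    obtain ⟨c, hc⟩ := hdvd l b' b
    have hck : (β' : k) = (β l b' b : k) * (c : k) := congrArg (fun z : A₃ => (z : k)) hc
    have hβk : (β l b' b : k) ≠ 0 := fun h => hβ0 l b' b (Subtype.ext h)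
    have hc0 : (c : k) ≠ 0 := by
      intro h
      apply hβ'0
      apply Subtype.ext
      rw [hck, h, mul_zero]
      rfl
    have h1 : j₀ (G₂ l b' b) = (β' : k)⁻¹ * ((c : k) * ((β l b' b : k) * j₀ (G₂ l b' b))) := by
      rw [hck, mul_inv]
      field_simp
    rw [h1]
    exact A.mul_mem hβinv (A.mul_mem (hle₄ c.2) (hle₄ (hβ l b' b)))
  obtain ⟨q₂, hq₂m, hq₂X, hq₂r⟩ := hq₂ A hle₄ hb₂inv
  have hle : A₀ ≤ A := hle₁.trans (hle₁₃.trans hle₄)
  have hD₄ : ∀ l (x : A₃), ((D l ⟨x, hle₄ x.2⟩ : A) : k) = ((D₃ l x : A₃) : k) := fun l x =>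
    (hcomp₄ l x ⟨x, hle₄ x.2⟩ rfl).symm
  -- the combination lemma
  have hcomb : ∀ (D' : Derivation ℤ k k) (c : Fin N → k),
      (∀ x : A, D' (x : k) = ∑ l, c l * ((D l x : A) : k)) →
      ∀ Δ : Derivation ℤ L L, IsLiftE D' Δ → ∀ z : E₂, Δ (θ z) = ∑ l, pol (C (c l)) • DL l (θ z) := by
    intro D' c hc Δ hΔ z
    refine M.comb Dk DL hDL D' Δ hΔ c (fun x => ?_) z
    have h1 : D' (x : k) = ∑ l, c l * ((D l ⟨x, hle₄ x.2⟩ : A) : k) := hc ⟨x, hle₄ x.2⟩
    rw [h1]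
    refine Finset.sum_congr rfl fun l _ => ?_
    rw [hD₄, hDk]
  have hs₄ : ∀ i j l, e.repr (e i * e j) l =
      pol (((s₃ i j l).map (Subalgebra.inclusion hle₄).toRingHom).map (algebraMap A k)) := by
    intro i j l
    rw [in_map, hs₃, hS]
  refine ⟨A, hle, n, e, a, ch, i0, f, m', dK, d, N, D,
    fun i j l => (s₃ i j l).map (Subalgebra.inclusion hle₄).toRingHom,
    fun l b' b => ⟨j₀ (G₂ l b' b), hGA l b' b⟩, hGood, HCv, HGr, hch, ?_, HBk.hX, HBk.hI,
    fun r g h => HBk.indep HCv r g h, ?_, ?_⟩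
  · intro l b b' h
    refine hGblk l b b' fun h0 => h ?_
    apply Subtype.ext
    change j₀ (G₂ l b' b) = 0
    rw [h0, map_zero]
  · intro D' c hc Δ hΔ
    refine ⟨fun φ hφ => HCv.nabla hΔ (hCd hΔ) φ hφ, fun b => ?_⟩
    refine ⟨∑ l, pol (C (c l)) • θ (g₂ l b), ?_⟩
    rw [← M.hh b, hcomb D' c hc Δ hΔ, map_sum]
    simp only [HCv.toCw.d_smul_C]
    rw [M.hh b]
    simp only [hGrel, smul_add, Finset.smul_sum]
    rw [Finset.sum_add_distrib, Finset.sum_comm]
    congr 1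
    refine Finset.sum_congr rfl fun b' _ => ?_
    rw [pol, map_sum, map_sum, Finset.sum_smul]
    refine Finset.sum_congr rfl fun l _ => ?_
    rw [smul_smul, map_mul, map_mul]
  · -- specializations
    have hDk' : ∀ l, ∃ Dk' : Derivation ℤ k k, ∀ x : A, Dk' (x : k) = (D l x : A) := fun l =>
      exists_Dk A (D l)
    choose Dk' hDk' using hDk'
    have hDL' : ∀ l, ∃ DL' : Derivation ℤ L L, IsLiftE (Dk' l) DL' := fun l =>
      exists_liftE HCv.dual (Dk' l)
    choose DL' hDL' using hDL'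
    have heq : ∀ l z, DL' l (θ z) = DL l (θ z) := by
      intro l z
      rw [hcomb (Dk' l) (Pi.single l 1) (fun x => ?_) (DL' l) (hDL' l) z]
      · rw [Finset.sum_eq_single l]
        · rw [Pi.single_eq_same, pol, map_one, map_one, one_smul]
        · intro l' _ hl'
          rw [Pi.single_eq_of_ne hl', pol, map_zero, map_zero, zero_smul]
        · intro h
          exact absurd (Finset.mem_univ l) h
      · rw [Finset.sum_eq_single l]
        · rw [Pi.single_eq_same, one_mul, hDk']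
        · intro l' _ hl'
          rw [Pi.single_eq_of_ne hl', zero_mul]
        · intro h
          exact absurd (Finset.mem_univ l) h
    refine in_specs HCv HGr T hT A q₂ hq₂m hq₂X _ hs₄ T₂
      (fun z hz => hT₂a z (Finset.mem_insert_of_mem hz)) ?_ _ (hF.map _) ?_ y
      (hT₂a y (Finset.mem_insert_self _ _)) ?_
      (P₂.map (Subalgebra.inclusion (hle₃.trans hle₄)).toRingHom) ?_ ?_ D _ Dk' hDk' DL' hDL' ?_ ?_
    · intro z hz i
      refine hq₂r _ ?_
      simp only [Finset.mem_biUnion, Finset.mem_image, Finset.mem_univ, true_and]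
      exact ⟨z, hz, i, rfl⟩
    · rw [hF.natDegree_map, hn]
    · rw [eval₂_map]
      have h1 : (((algebraMap (RatFunc k) L).comp (fp (algebraMap A k))).comp
          (mapRingHom (Subalgebra.inclusion hle).toRingHom)) =
          (algebraMap (RatFunc k) L).comp (fp (algebraMap A₀ k)) := by
        refine RingHom.ext fun p => ?_
        change algebraMap (RatFunc k) L (pol ((p.map _).map _)) =
          algebraMap (RatFunc k) L (pol (p.map _))
        rw [Polynomial.map_map]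
        rfl
      rw [h1]
      exact hy
    · have hinj : Function.Injective (Subalgebra.inclusion (hle₃.trans hle₄)).toRingHom :=
        Subalgebra.inclusion_injective (hle₃.trans hle₄)
      rw [Polynomial.leadingCoeff_map_of_injective hinj]
      refine IsUnit.of_mul_eq_one ⟨(P₂.leadingCoeff : k)⁻¹, hle₄ hlcinv⟩ ?_
      apply Subtype.ext
      change (P₂.leadingCoeff : k) * (P₂.leadingCoeff : k)⁻¹ = 1
      exact mul_inv_cancel₀ fun h => hlc0 (Subtype.ext h)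
    · rw [in_map, hP₂, hPdet]
    · intro l i
      rw [← M.th.basis i, heq, M.th.basis]
      exact hT₂c l i
    · intro l b
      refine ⟨θ (g₂ l b), hT₂b l b, ?_⟩
      rw [← M.hh b, heq, M.hh b, hGrel]

end MPadcCM
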