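import Pool.Agent.Lib.MP_adc574_ag_CM.SpE

/-!
# Mdl: the model of the cover over the field of fractions of `A`

`Md`: the cover `E₂` over the field of fractions `K₂` of `A` with the structure `Cv`, embedded by `θ` into `L`, compatible with all data.
* JOB MdA: - `exists_md`: `j₀` = `IsFractionRing.lift` of the inclusion `A → k` (as `exists_j₀` in SpE); `exists_BR A q hq (algebraMap A K₂) e s hs i0 HC.one`: `E₂, e₂, B, Φ`. `T ⊂ B` by `BR.mem` and `hTq`, so `DatB B ..` by `hT`. `BR.cv` gives `Cv` for `f₂ i = Φ (f i)`, `m₂ c = Φ (m c)` and `Cpt Φ d d₂`. `exists_theta` (SpD): `θ (Φ z) = z`, so `θ (f₂ i) = f i`. `θ (d₂ z) = d (θ z)` by `theta_der` with `Δ₀ = dK`, `Δ = dK₂` (`sg_pol`, `dK_pol`, `Polynomial.derivative_map`).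
  - `Md.hh`: `hh κ f m (inl c) = X ^ l • f i`, `θ (r • z) = sg j₀ r • θ z` (`Algebra.smul_def`, `IsTh.alg`), `sg j₀ (X ^ l) = X ^ l` (`sg_pol`, `RatFunc.algebraMap_X`).
* JOB MdB (`Md.rel`): `δ₂ : Derivation ℤ K₂ K₂` extending `δ` (`MPadcCov.ext_frac`); `Dk (j₀ x) = j₀ (δ₂ x)` for `x ∈ K₂`: `x = a / b` with `a, b ∈ A`, both sides are derivations along `j₀` which agree on `A`. `D₂` on `E₂` from `exists_liftE` (DeB, with `M.cv.dual`). `θ (D₂ z) = DL (θ z)`: `theta_der` with `Δ₀` from `exists_DK Dk`, `Δ` from `exists_DK δ₂` and `IsLiftE.alg`; `cD Dk (p.map j₀) = (cD δ₂ p).map j₀` (coefficients, copy `Deg_coeff` from Cov/Deg.lean).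
  `theta_cd`: `Cd e₂ a d₂ D₂`. `Cv.sk2_hh`, `Cv.nabla`, `Cv.sk` (file Sk) for `E₂`: `Rel f₂ m₂ d₂ D₂ G`. Grading on `E₂`: `Gr e₂ ch m₂ d₂`: coordinates: `e.repr (θ z) i = sg (e₂.repr z i)`, so `e₂.repr z i ≠ 0 → e.repr (θ z) i ≠ 0` (`sg_inj`), with `θ (e₂ i * e₂ j) = e i * e j`, `θ (d₂ (e₂ i)) = d (e i)`, `θ (m₂ c) = m c`; in the same way `Hom e₂ ch (gr ch b) (D₂ (hh b))` from `hhom`. `Gr.rel` (Grd) makes `G` block diagonal.
  Apply `θ` to the equation for `hh K₂ f₂ m₂ b` (`Md.hh`). `DL (e i) = θ (D₂ (e₂ i))`.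
* JOB MdC (`Md.comb`): first `D' (j₀ x) = ∑ c l * Dk l (j₀ x)` for `x ∈ K₂` (both sides are derivations along `j₀`, agree on `A`: quotient rule). `δ₁ z = Δ (θ z)`, `δ₂ z = ∑ pol (C (c l)) • DL l (θ z)` are additive `E₂ → L` with the Leibniz rule along `θ`: by `der_ext` (DeA, dual basis `M.cv.dual`) it is enough that they agree on `algebraMap r`, `r ∈ K₂(x)`: `θ (algebraMap r) = algebraMap (sg r)`, `Δ (algebraMap s) = algebraMap (DK' s)` (`IsLiftE.alg`, `exists_DK`), so one needs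
  `DK' (sg r) = ∑ pol (C (c l)) * DK l (sg r)`: `der_rat_ext` (LatA) with `V = RatFunc k` as `RatFunc K₂`-module along `sg` (`Module.compHom`): for `r = pol p`: `cD D' (p.map j₀) = ∑ C (c l) * cD (Dk l) (p.map j₀)` coefficientwise.
-/

set_option autoImplicit false

namespace MPadcCM

open Polynomial MPadcCov

universe u

/-- The model over the field of fractions of `A`. -/
structure Md {k : Type u} [Field k] (A : Subalgebra ℤ k) {K₂ : Type u} [Field K₂]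
    [Algebra A K₂] (j₀ : K₂ →+* k)
    {L : Type u} [CommRing L] [Algebra (RatFunc k) L] {n : ℕ}
    (e : Module.Basis (Fin n) (RatFunc k) L) {a : Fin n → ℕ} (i0 : Fin n) (f : Fin n → L)
    (m : Ix a → L) (d : Derivation ℤ L L) {E₂ : Type u} [CommRing E₂]
    [Algebra (RatFunc K₂) E₂]
    (e₂ : Module.Basis (Fin n) (RatFunc K₂) E₂) (f₂ : Fin n → E₂) (m₂ : Ix a → E₂)
    (dK₂ : Derivation ℤ (RatFunc K₂) (RatFunc K₂))
    (d₂ : Derivation ℤ E₂ E₂) (θ : E₂ →+* L) : Prop where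
  hj : ∀ x : A, j₀ (algebraMap A K₂ x) = (x : k)
  th : IsTh j₀ e e₂ θ
  cv : Cv e₂ a i0 f₂ m₂ dK₂ d₂
  th_f : ∀ i, θ (f₂ i) = f i
  th_m : ∀ c, θ (m₂ c) = m c
  th_d : ∀ z, θ (d₂ z) = d (θ z)

variable {k : Type u} [Field k] {A : Subalgebra ℤ k} {K₂ : Type u} [Field K₂] [Algebra A K₂]
  [IsFractionRing A K₂] {L : Type u} [CommRing L]
  [Algebra (RatFunc k) L] {n : ℕ} {e : Module.Basis (Fin n) (RatFunc k) L} {a : Fin n → ℕ}
  {i0 : Fin n} {f : Fin n → L} {m : Ix a → L} {dK : Derivation ℤ (RatFunc k) (RatFunc k)}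
  {d : Derivation ℤ L L}

variable (K₂) in
theorem exists_md (q : A[X]) (hq : q.Monic) (hX : X ∣ q) (s : Fin n → Fin n → Fin n → A[X])
    (hs : ∀ i j l, e.repr (e i * e j) l = pol ((s i j l).map (algebraMap A k)))
    (HC : Cv e a i0 f m dK d) (T : Finset L)
    (hT : ∀ B : Subring L, (∀ z ∈ T, z ∈ B) → DatB B e a f m d)
    (hTq : ∀ z ∈ T, ∀ i, ∃ r' : Localization.Away q, rq (algebraMap A k) q hq r' = e.repr z i) :
    ∃ (j₀ : K₂ →+* k) (E₂ : Type u) (_ : CommRing E₂)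
      (_ : Algebra (RatFunc K₂) E₂)
      (e₂ : Module.Basis (Fin n) (RatFunc K₂) E₂) (f₂ : Fin n → E₂)
      (m₂ : Ix a → E₂)
      (dK₂ : Derivation ℤ (RatFunc K₂) (RatFunc K₂))
      (d₂ : Derivation ℤ E₂ E₂) (θ : E₂ →+* L), Md A j₀ e i0 f m d e₂ f₂ m₂ dK₂ d₂ θ := by
  have hg : Function.Injective (algebraMap A k) := fun _ _ h => Subtype.ext h
  obtain ⟨j₀, hj⟩ : ∃ j₀ : K₂ →+* k, ∀ x : A, j₀ (algebraMap A K₂ x) = (x : k) :=
    ⟨IsFractionRing.lift hg, fun x => IsFractionRing.lift_algebraMap hg x⟩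
  obtain ⟨E₂, iR, iA, e₂, B, Φ, H⟩ :=
    exists_BR A q hq (algebraMap A K₂) e s hs i0 HC.one
  have hTB : ∀ z ∈ T, z ∈ B := fun z hz => (H.mem z).2 (hTq z hz)
  have HB := hT B hTB
  obtain ⟨dK₂, d₂, hcv, -⟩ := H.cv hX HC HB
  obtain ⟨θ, hθ, hθΦ⟩ := exists_theta H hj
  refine ⟨j₀, E₂, iR, iA, e₂, fun i => Φ ⟨f i, HB.f_mem i⟩, fun c => Φ ⟨m c, HB.m_mem c⟩, dK₂,
    d₂, θ, ⟨hj, hθ, hcv, fun i => hθΦ _, fun c => hθΦ _, fun z => ?_⟩⟩
  refine theta_der hθ hcv.dual (fun p => ?_) HC.d_alg hcv.d_alg z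
  rw [sg_pol, HC.dK_pol, hcv.dK_pol, sg_pol, Polynomial.derivative_map]

variable {j₀ : K₂ →+* k} {E₂ : Type u} [CommRing E₂]
  [Algebra (RatFunc K₂) E₂]
  {e₂ : Module.Basis (Fin n) (RatFunc K₂) E₂} {f₂ : Fin n → E₂} {m₂ : Ix a → E₂}
  {dK₂ : Derivation ℤ (RatFunc K₂) (RatFunc K₂)}
  {d₂ : Derivation ℤ E₂ E₂} {θ : E₂ →+* L}

omit [IsFractionRing A K₂] in
theorem Md.hh (M : Md A j₀ e i0 f m d e₂ f₂ m₂ dK₂ d₂ θ) (b : II a) :
    θ (MPadcCM.hh K₂ f₂ m₂ b) = MPadcCM.hh k f m b := by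
  rcases b with c | c
  · change θ ((RatFunc.X : RatFunc K₂) ^ (c.2 : ℕ) • f₂ c.1) =
      (RatFunc.X : RatFunc k) ^ (c.2 : ℕ) • f c.1
    have h1 : sg j₀ (RatFunc.X : RatFunc K₂) = RatFunc.X := by
      have h2 := sg_pol j₀ (X : K₂[X])
      rw [Polynomial.map_X] at h2
      rw [pol, pol, RatFunc.algebraMap_X, RatFunc.algebraMap_X] at h2
      exact h2
    rw [Algebra.smul_def, map_mul, M.th.alg, M.th_f, map_pow, h1, Algebra.smul_def]
  · exact M.th_m c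

private theorem mdb_coeff {R : Type*} [CommRing R] (δ : Derivation ℤ R R) (p : R[X]) (m : ℕ) :
    (cD δ p).coeff m = δ (p.coeff m) := by
  unfold cD
  rw [Polynomial.sum_def, Polynomial.finsetSum_coeff]
  simp only [coeff_monomial]
  rw [Finset.sum_ite_eq']
  by_cases hm : m ∈ p.support
  · rw [if_pos hm]
  · rw [if_neg hm, Polynomial.notMem_support_iff.1 hm, map_zero]

private theorem mdb_ext {k : Type*} [Field k] {A : Subalgebra ℤ k} {K : Type*} [Field K]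
    [Algebra A K] [IsFractionRing A K] (j₀ : K →+* k)
    (hj : ∀ x : A, j₀ (algebraMap A K x) = (x : k)) (δ : Derivation ℤ A A)
    {Dk : Derivation ℤ k k} (hDk : ∀ x : A, Dk (x : k) = ((δ x : A) : k))
    (δ₂ : Derivation ℤ K K)
    (hδ₂ : ∀ r : A, δ₂ (algebraMap A K r) = algebraMap A K (δ r))
    (x : K) : Dk (j₀ x) = j₀ (δ₂ x) := by
  have hA : ∀ r : A, Dk (j₀ (algebraMap A K r)) =
      j₀ (δ₂ (algebraMap A K r)) := by
    intro r
    rw [hj, hδ₂, hj]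
    exact hDk r
  obtain ⟨p, q, hq, hx⟩ := IsFractionRing.div_surjective (A := A) x
  have hq0 : q ≠ 0 := nonZeroDivisors.ne_zero hq
  have hq1 : algebraMap A K q ≠ 0 := by
    intro h0
    exact hq0 ((IsFractionRing.injective A K) (by rw [map_zero]; exact h0))
  have hq2 : j₀ (algebraMap A K q) ≠ 0 := (map_ne_zero j₀).2 hq1
  have e1 : x * algebraMap A K q = algebraMap A K p := by
    rw [← hx]
    exact div_mul_cancel₀ _ hq1
  have e2 : Dk (j₀ x * j₀ (algebraMap A K q)) =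
      j₀ (δ₂ (x * algebraMap A K q)) := by
    rw [← map_mul, e1]
    exact hA p
  rw [Derivation.leibniz, Derivation.leibniz, smul_eq_mul, smul_eq_mul, smul_eq_mul, smul_eq_mul,
    map_add, map_mul, map_mul, hA q] at e2
  exact mul_left_cancel₀ hq2 (add_left_cancel e2)

private theorem mdb_gr {k κ : Type u} [Field k] [Field κ] {L E : Type u} [CommRing L] [CommRing E]
    [Algebra (RatFunc k) L] [Algebra (RatFunc κ) E] {n : ℕ} {j₀ : κ →+* k}
    {e : Module.Basis (Fin n) (RatFunc k) L} {e' : Module.Basis (Fin n) (RatFunc κ) E}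
    {θ : E →+* L} (hθ : IsTh j₀ e e' θ) {z : E} {l : Fin n} (h : e'.repr z l ≠ 0) :
    e.repr (θ z) l ≠ 0 := by
  rw [hθ.repr]
  exact (map_ne_zero_iff _ (sg_inj j₀)).2 h

theorem Md.rel (M : Md A j₀ e i0 f m d e₂ f₂ m₂ dK₂ d₂ θ) (δ : Derivation ℤ A A)
    {Dk : Derivation ℤ k k} (hDk : ∀ x : A, Dk (x : k) = ((δ x : A) : k)) {DL : Derivation ℤ L L}
    (hDL : IsLiftE Dk DL) (hCd : Cd e a d DL) {Y : Type*} [AddCommGroup Y] {ch : Fin n → Y}
    (hG : Gr e ch m d) (hhom : ∀ b, Hom e ch (gr ch b) (DL (MPadcCM.hh k f m b))) :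
    ∃ (G : II a → II a → K₂) (g : II a → E₂),
      (∀ b, DL (MPadcCM.hh k f m b) =
        ∑ b', pol (C (j₀ (G b' b))) • MPadcCM.hh k f m b' + d (θ (g b))) ∧
      (∀ b b', G b' b ≠ 0 → gr ch b' = gr ch b) ∧ ∀ i, ∃ z, DL (e i) = θ z := by
  obtain ⟨δ₂, hδ₂⟩ := ext_frac (R := A) (K := K₂) δ
  have hx := mdb_ext j₀ M.hj δ hDk δ₂ hδ₂
  obtain ⟨D₂, hD₂⟩ := exists_liftE M.cv.toCw.dual δ₂
  obtain ⟨DK, hDK⟩ := exists_DK Dk
  obtain ⟨DK₂, hDK₂⟩ := exists_DK δ₂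
  have hcD : ∀ p : K₂[X], cD Dk (p.map j₀) = (cD δ₂ p).map j₀ := by
    intro p
    ext r
    rw [mdb_coeff, coeff_map, coeff_map, mdb_coeff]
    exact hx _
  have hth : ∀ z, θ (D₂ z) = DL (θ z) := by
    intro z
    refine theta_der M.th M.cv.toCw.dual (Δ₀ := DK) (Δ := DK₂) ?_ (fun r => hDL.alg hDK r)
      (fun r => hD₂.alg hDK₂ r) z
    intro p
    rw [sg_pol, hDK, hDK₂, sg_pol, hcD]
  have hCd₂ : Cd e₂ a d₂ D₂ := theta_cd M.th M.th_d hth hCd
  have hrel : ∀ b, ∃ (r : II a → K₂) (g : E₂),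
      D₂ (MPadcCM.hh K₂ f₂ m₂ b) =
        ∑ b', pol (C (r b')) • MPadcCM.hh K₂ f₂ m₂ b' + d₂ g := fun b =>
    M.cv.sk _ (M.cv.nabla hD₂ hCd₂ _ (M.cv.sk2_hh b))
  choose G₀ g₀ hG₀ using hrel
  have hG₂ : Gr e₂ ch m₂ d₂ := by
    refine { mul := ?_, der := ?_, mgr := ?_ }
    · intro i j l h
      have h1 := mdb_gr M.th h
      rw [map_mul, M.th.basis, M.th.basis] at h1
      exact hG.mul i j l h1
    · intro i l h
      have h1 := mdb_gr M.th h
      rw [M.th_d, M.th.basis] at h1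
      exact hG.der i l h1
    · intro c l h
      have h1 := mdb_gr M.th h
      rw [M.th_m] at h1
      exact hG.mgr c l h1
  have hhom₂ : ∀ b, Hom e₂ ch (gr ch b) (D₂ (MPadcCM.hh K₂ f₂ m₂ b)) := by
    intro b l h
    have h1 := mdb_gr M.th h
    rw [hth, M.hh] at h1
    exact hhom b l h1
  obtain ⟨G, hG', hG''⟩ := Gr.rel M.cv hG₂ D₂ hhom₂ (fun b' b => G₀ b b')
    (fun b => ⟨g₀ b, hG₀ b⟩)
  choose g hg using hG'
  refine ⟨G, g, ?_, hG'', ?_⟩
  · intro b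
    have h1 := congrArg θ (hg b)
    rw [hth, M.hh, map_add, map_sum, M.th_d] at h1
    rw [h1]
    congr 1
    refine Finset.sum_congr rfl fun b' _ => ?_
    rw [Algebra.smul_def, map_mul, M.th.alg, sg_pol, M.hh, map_C, Algebra.smul_def]
  · intro i
    exact ⟨D₂ (e₂ i), by rw [hth, M.th.basis]⟩

private theorem mdc_coeff {κ : Type*} [Field κ] (δ : Derivation ℤ κ κ) (p : κ[X]) (m : ℕ) :
    (cD δ p).coeff m = δ (p.coeff m) := by
  rw [cD, Polynomial.sum_def, finsetSum_coeff]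
  simp only [coeff_monomial]
  rw [Finset.sum_ite_eq' p.support m]
  split_ifs with h
  · rfl
  · rw [notMem_support_iff.mp h, map_zero]

private theorem mdc_quot {F : Type*} [Field F] {N : ℕ} (D' : F → F) (Dk : Fin N → F → F)
    (h1 : ∀ x y, D' (x * y) = x * D' y + y * D' x)
    (h2 : ∀ l x y, Dk l (x * y) = x * Dk l y + y * Dk l x) (c : Fin N → F) {u b x : F}
    (hb : b ≠ 0) (hu : u * b = x)
    (hx' : D' x = ∑ l, c l * Dk l x) (hb' : D' b = ∑ l, c l * Dk l b) :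
    D' u = ∑ l, c l * Dk l u := by
  have e1 : u * D' b + b * D' u = D' x := by
    rw [← hu, h1]
  have e2 : ∀ l, u * Dk l b + b * Dk l u = Dk l x := by
    intro l
    rw [← hu, h2]
  have e3 : b * ∑ l, c l * Dk l u = ∑ l, c l * Dk l x - u * ∑ l, c l * Dk l b := by
    rw [Finset.mul_sum, Finset.mul_sum, ← Finset.sum_sub_distrib]
    exact Finset.sum_congr rfl fun l _ => by
      rw [← e2 l]
      ring
  apply mul_left_cancel₀ hb
  rw [e3, ← hx', ← hb', ← e1]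
  ring

private theorem mdc_field {k : Type u} [Field k] {A : Subalgebra ℤ k} {K₂ : Type u} [Field K₂]
    [Algebra A K₂] [IsFractionRing A K₂] {j₀ : K₂ →+* k}
    (hj : ∀ x : A, j₀ (algebraMap A K₂ x) = (x : k)) {N : ℕ}
    (Dk : Fin N → Derivation ℤ k k) (D' : Derivation ℤ k k) (c : Fin N → k)
    (hc : ∀ x : A, D' (x : k) = ∑ l, c l * Dk l (x : k)) (y : K₂) :
    D' (j₀ y) = ∑ l, c l * Dk l (j₀ y) := by
  obtain ⟨s, t, ht, rfl⟩ := IsFractionRing.div_surjective (A := A) y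
  have ht0 : t ≠ 0 := nonZeroDivisors.ne_zero ht
  have ht1 : (t : k) ≠ 0 := fun h => ht0 (Subtype.ext h)
  refine mdc_quot (fun z => D' z) (fun l z => Dk l z)
    (fun x y => by rw [Derivation.leibniz, smul_eq_mul, smul_eq_mul])
    (fun l x y => by rw [Derivation.leibniz, smul_eq_mul, smul_eq_mul]) c ht1 (x := (s : k)) ?_
    (hc s) (hc t)
  rw [map_div₀, hj, hj, div_mul_cancel₀ _ ht1]

private theorem mdc_pol {k κ : Type u} [Field k] [Field κ] {j₀ : κ →+* k} {N : ℕ}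
    (Dk : Fin N → Derivation ℤ k k) (D' : Derivation ℤ k k) (c : Fin N → k)
    (h : ∀ y : κ, D' (j₀ y) = ∑ l, c l * Dk l (j₀ y)) (p : κ[X]) :
    cD D' (p.map j₀) = ∑ l, C (c l) * cD (Dk l) (p.map j₀) := by
  ext m
  rw [mdc_coeff, finsetSum_coeff, coeff_map, h]
  refine Finset.sum_congr rfl fun l _ => ?_
  rw [coeff_C_mul, mdc_coeff, coeff_map]

private theorem mdc_rat {k κ : Type u} [Field k] [Field κ] {j₀ : κ →+* k} {N : ℕ}
    (Dk : Fin N → Derivation ℤ k k) (D' : Derivation ℤ k k) (c : Fin N → k)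
    (h : ∀ y : κ, D' (j₀ y) = ∑ l, c l * Dk l (j₀ y))
    (DK : Fin N → Derivation ℤ (RatFunc k) (RatFunc k))
    (hDK : ∀ l (p : k[X]), DK l (pol p) = pol (cD (Dk l) p))
    (DK' : Derivation ℤ (RatFunc k) (RatFunc k)) (hDK' : ∀ p : k[X], DK' (pol p) = pol (cD D' p))
    (r : RatFunc κ) : DK' (sg j₀ r) = ∑ l, pol (C (c l)) * DK l (sg j₀ r) := by
  obtain ⟨p, q, hq, rfl⟩ := IsFractionRing.div_surjective (A := κ[X]) r
  have hq0 : q ≠ 0 := nonZeroDivisors.ne_zero hq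
  have hp : ∀ p : κ[X], DK' (pol (p.map j₀)) =
      ∑ l, pol (C (c l)) * DK l (pol (p.map j₀)) := by
    intro p
    rw [hDK', mdc_pol Dk D' c h p]
    show algebraMap k[X] (RatFunc k) (∑ l, C (c l) * cD (Dk l) (p.map j₀)) = _
    rw [map_sum]
    refine Finset.sum_congr rfl fun l _ => ?_
    rw [hDK l, map_mul]
  have hq1 : pol (q.map j₀) ≠ 0 := by
    intro h0
    have h1 : q.map j₀ = 0 := (IsFractionRing.injective k[X] (RatFunc k)) (by rw [map_zero]; exact h0)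
    exact hq0 ((Polynomial.map_eq_zero j₀).mp h1)
  refine mdc_quot (fun z => DK' z) (fun l z => DK l z)
    (fun x y => by rw [Derivation.leibniz, smul_eq_mul, smul_eq_mul])
    (fun l x y => by rw [Derivation.leibniz, smul_eq_mul, smul_eq_mul]) (fun l => pol (C (c l))) hq1
    (x := pol (p.map j₀)) ?_ (hp p) (hp q)
  have e1 : sg j₀ (algebraMap κ[X] (RatFunc κ) p) = pol (p.map j₀) := sg_pol j₀ p
  have e2 : sg j₀ (algebraMap κ[X] (RatFunc κ) q) = pol (q.map j₀) := sg_pol j₀ q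
  rw [map_div₀, e1, e2, div_mul_cancel₀ _ hq1]

theorem Md.comb (M : Md A j₀ e i0 f m d e₂ f₂ m₂ dK₂ d₂ θ) {N : ℕ}
    (Dk : Fin N → Derivation ℤ k k) (DL : Fin N → Derivation ℤ L L)
    (hDL : ∀ l, IsLiftE (Dk l) (DL l)) (D' : Derivation ℤ k k) (Δ : Derivation ℤ L L)
    (hΔ : IsLiftE D' Δ) (c : Fin N → k) (hc : ∀ x : A, D' (x : k) = ∑ l, c l * Dk l (x : k))
    (z : E₂) : Δ (θ z) = ∑ l, pol (C (c l)) • DL l (θ z) := by
  obtain ⟨DK', hDK'⟩ := exists_DK D'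
  choose DK hDK using fun l => exists_DK (Dk l)
  have h0 := mdc_field M.hj Dk D' c hc
  have h1 := mdc_rat Dk D' c h0 DK hDK DK' hDK'
  let δ₁ : E₂ →+ L :=
    { toFun := fun z => Δ (θ z)
      map_zero' := by rw [map_zero, map_zero]
      map_add' := fun x y => by rw [map_add, map_add] }
  let δ₂ : E₂ →+ L :=
    { toFun := fun z => ∑ l, pol (C (c l)) • DL l (θ z)
      map_zero' := by
        refine Finset.sum_eq_zero fun l _ => ?_
        rw [map_zero, map_zero, smul_zero]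
      map_add' := fun x y => by
        rw [← Finset.sum_add_distrib]
        refine Finset.sum_congr rfl fun l _ => ?_
        rw [map_add, map_add, smul_add] }
  refine der_ext e₂ f₂ M.cv.dual θ δ₁ δ₂ ?_ ?_ ?_ z
  · intro z w
    show Δ (θ (z * w)) = θ z * Δ (θ w) + θ w * Δ (θ z)
    rw [map_mul, Derivation.leibniz, smul_eq_mul, smul_eq_mul]
  · intro z w
    show ∑ l, pol (C (c l)) • DL l (θ (z * w)) =
      θ z * ∑ l, pol (C (c l)) • DL l (θ w) + θ w * ∑ l, pol (C (c l)) • DL l (θ z)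
    rw [Finset.mul_sum, Finset.mul_sum, ← Finset.sum_add_distrib]
    refine Finset.sum_congr rfl fun l _ => ?_
    rw [map_mul, Derivation.leibniz, smul_eq_mul, smul_eq_mul, smul_add, mul_smul_comm,
      mul_smul_comm]
  · intro r
    show Δ (θ (algebraMap _ E₂ r)) = ∑ l, pol (C (c l)) • DL l (θ (algebraMap _ E₂ r))
    rw [M.th.alg, hΔ.alg hDK', h1, map_sum]
    refine Finset.sum_congr rfl fun l _ => ?_
    rw [(hDL l).alg (hDK l), map_mul, Algebra.smul_def]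

end MPadcCM
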