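import Pool.Agent.Lib.MP_adc574_ag_CM.Defs
import Pool.Agent.Lib.MP_adc574_ag_CM.Bkc
import Pool.Agent.Lib.MP_adc574_ag_CM.Mdl
import Pool.Agent.Lib.MP_adc574_ag_CM.Gd

/-!
# InA: the input from characteristic zero, the parts of the assembly

* `in_base`: the Birkhoff basis of eigenvectors with the structures `Cv`, `Gr`.
* `in_disc`: the discriminant of the powers of `y` is a nonzero polynomial.
* `in_specs`: the specializations.
-/

set_option autoImplicit false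

namespace MPadcCM

open Polynomial MPadcCov

universe u

private noncomputable def inA_der {k : Type*} [Field k]
    (ΔK : Derivation ℤ (RatFunc k) (RatFunc k)) :
    @Derivation ℤ (RatFunc k) (RatFunc k) _ _ _ (Ring.toIntAlgebra _) _ _ :=
  @Derivation.mk ℤ (RatFunc k) (RatFunc k) _ _ _ (Ring.toIntAlgebra _) _ _
    (ΔK.toLinearMap.toAddMonoidHom.toIntLinearMap) (ΔK.map_one_eq_zero)
    (fun x y => ΔK.leibniz x y)

private theorem inA_ext {k : Type*} [Field k] [CharZero k] {L : Type*} [Field L]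
    [Algebra (RatFunc k) L] (dK : Derivation ℤ (RatFunc k) (RatFunc k)) :
    ∃ d : Derivation ℤ L L, ∀ x, d (algebraMap (RatFunc k) L x) =
      algebraMap (RatFunc k) L (dK x) := by
  obtain ⟨d, hd⟩ := exists_extension (L := L) (inA_der dK)
  exact ⟨d, hd⟩

/-- The Birkhoff basis of eigenvectors with all structures. -/
theorem in_base {k : Type u} [Field k] [IsAlgClosed k] [CharZero k] {L : Type u} [Field L]
    [Algebra (RatFunc k) L] [FiniteDimensional (RatFunc k) L]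
    (Γ : Set (L ≃ₐ[RatFunc k] L)) (hΓ : ∀ σ ∈ Γ, ∀ τ ∈ Γ, σ * τ = τ * σ) (m₀ : ℕ) (hm₀ : 0 < m₀)
    (hexp : ∀ σ ∈ Γ, σ ^ m₀ = 1) (ζ : k) (hζ : IsPrimitiveRoot ζ m₀) :
    ∃ (n : ℕ) (e : Module.Basis (Fin n) (RatFunc k) L)
      (a : Fin n → ℕ) (ch : Fin n → (Γ → ZMod m₀)) (i0 : Fin n) (f : Fin n → L) (m' : Ix a → L)
      (dK : Derivation ℤ (RatFunc k) (RatFunc k)) (d : Derivation ℤ L L),
      Bk e a i0 ∧ Cv e a i0 f m' dK d ∧ Gr e ch m' d ∧
      (∀ i (σ : Γ), σ.1 (e i) = pol (C (ζ ^ (ch i σ).val)) • e i) := by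
  obtain ⟨n, e, a, i0, ch, HBk, hch⟩ := exists_bk Γ hΓ m₀ hm₀ hexp ζ hζ
  obtain ⟨dK, hdK⟩ := exists_dK (k := k)
  obtain ⟨d, hd⟩ := inA_ext (L := L) dK
  obtain ⟨f, hf⟩ := exists_dual e
  have HCw := HBk.cw hdK hd hf
  have HG0 : Gr0 e ch d := gr0_of_eig hm₀ hζ hch hd
  obtain ⟨m', HCv, HGr⟩ := HCw.exists_m HG0
  exact ⟨n, e, a, ch, i0, f, m', dK, d, HBk, HCv, HGr, hch⟩

/-- The discriminant of the powers of a generator. -/
theorem in_disc {k : Type u} [Field k] [CharZero k] {L : Type u} [Field L]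
    [Algebra (RatFunc k) L] [FiniteDimensional (RatFunc k) L] {n : ℕ}
    {e : Module.Basis (Fin n) (RatFunc k) L} {a : Fin n → ℕ} {i0 : Fin n} {f : Fin n → L}
    {dK : Derivation ℤ (RatFunc k) (RatFunc k)} {d : Derivation ℤ L L}
    (HC : Cw e a i0 f dK d) (y : L) (hy : InB e y) (hgen : Algebra.adjoin (RatFunc k) {y} = ⊤) :
    ∃ P : k[X], P ≠ 0 ∧ (Matrix.of fun i j : Fin n => Tr k L (y ^ (i.1 + j.1))).det = pol P := by
  have hint : IsIntegral (RatFunc k) y := Algebra.IsIntegral.isIntegral y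
  have h1 : ∀ i j : Fin n, ∃ p : k[X], pol p = Tr k L (y ^ (i.1 + j.1)) := fun i j =>
    HC.tr_isPol (HC.inB_pow hy _)
  choose p hp using h1
  have h2 : (Matrix.of fun i j : Fin n => Tr k L (y ^ (i.1 + j.1))).det =
      pol (Matrix.of p).det := by
    change _ = algebraMap k[X] (RatFunc k) (Matrix.of p).det
    rw [RingHom.map_det]
    refine congrArg _ (Matrix.ext fun i j => ?_)
    rw [Matrix.of_apply, RingHom.mapMatrix_apply, Matrix.map_apply, Matrix.of_apply]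
    exact (hp i j).symm
  refine ⟨_, ?_, h2⟩
  intro h0
  rw [h0, pol, map_zero] at h2
  let pb := PowerBasis.ofAdjoinEqTop hint hgen
  have hdim : pb.dim = n := by
    rw [← pb.finrank, Module.finrank_eq_card_basis e, Fintype.card_fin]
  have h6 := Algebra.discr_not_zero_of_basis (RatFunc k) (pb.basis.reindex (finCongr hdim))
  rw [Algebra.discr_def] at h6
  apply h6
  rw [← h2]
  refine congrArg _ (Matrix.ext fun i j => ?_)
  simp only [Algebra.traceMatrix_apply, Algebra.traceForm_apply, Matrix.of_apply,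
    Module.Basis.reindex_apply, PowerBasis.basis_eq_pow]
  rw [← pow_add]
  rfl

/-- The specializations of the cover. -/
theorem in_specs {k : Type u} [Field k] [CharZero k] {L : Type u} [Field L]
    [Algebra (RatFunc k) L] {n : ℕ} {e : Module.Basis (Fin n) (RatFunc k) L}
    {a : Fin n → ℕ} {i0 : Fin n} {f : Fin n → L} {m' : Ix a → L}
    {dK : Derivation ℤ (RatFunc k) (RatFunc k)} {d : Derivation ℤ L L}
    (HC : Cv e a i0 f m' dK d) {Y : Type*} [AddCommGroup Y] {ch : Fin n → Y} (HG : Gr e ch m' d)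
    (T : Finset L) (hT : ∀ B : Subring L, (∀ z ∈ T, z ∈ B) → DatB B e a f m' d)
    (A : Subalgebra ℤ k) (q : A[X]) (hq : q.Monic) (hX : X ∣ q)
    (s : Fin n → Fin n → Fin n → A[X])
    (hs : ∀ i j l, e.repr (e i * e j) l = pol ((s i j l).map (algebraMap A k)))
    (T₂ : Finset L) (hTT : ∀ z ∈ T, z ∈ T₂)
    (hTq : ∀ z ∈ T₂, ∀ i, ∃ r' : Localization.Away q, rq (algebraMap A k) q hq r' = e.repr z i)
    (F : A[X][X]) (hF : F.Monic) (hn : F.natDegree = n) (y : L) (hyT : y ∈ T₂)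
    (hFy : F.eval₂ ((algebraMap (RatFunc k) L).comp (fp (algebraMap A k))) y = 0)
    (p : A[X]) (hp : IsUnit p.leadingCoeff)
    (hdet : (Matrix.of fun i j : Fin n => Tr k L (y ^ (i.1 + j.1))).det =
      pol (p.map (algebraMap A k)))
    {N : ℕ} (D : Fin N → Derivation ℤ A A) (G : Fin N → II a → II a → A)
    (Dk : Fin N → Derivation ℤ k k) (hDk : ∀ l (x : A), Dk l (x : k) = ((D l x : A) : k))
    (DL : Fin N → Derivation ℤ L L) (hDL : ∀ l, IsLiftE (Dk l) (DL l))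
    (hDe : ∀ l i, DL l (e i) ∈ T₂)
    (hrel : ∀ l b, ∃ g ∈ T₂, DL l (hh k f m' b) =
      ∑ b', pol (C (G l b' b : k)) • hh k f m' b' + d g) :
    Specs A a i0 ch s F D G := by
  intro κ _ ψ
  obtain ⟨E, iR, iA, e', B, Φ, H⟩ := exists_BR A q hq ψ e s hs i0 HC.one
  have hT₂ : ∀ z ∈ T₂, z ∈ B := fun z hz => (H.mem z).2 (hTq z hz)
  have HB := hT B fun z hz => hT₂ z (hTT z hz)
  obtain ⟨dK', d', hcv, hcpt⟩ := H.cv hX HC HB
  refine ⟨E, iR, iA, e', fun i => Φ ⟨f i, HB.f_mem i⟩, fun c => Φ ⟨m' c, HB.m_mem c⟩, dK', d',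
    hcv, H.gr HB hcpt HG, ?_, H.equiv F hF hn y (hT₂ y hyT) hFy p hp hdet, ?_⟩
  · intro i j l
    have h1 := H.rep' (⟨e i, H.e_mem i⟩ * ⟨e j, H.e_mem j⟩) l
    rw [map_mul, H.phi_e, H.phi_e] at h1
    have h2 := rl_pol A q hq ψ (s i j l)
    rw [← hs] at h2
    exact h1.eq h2
  · intro l δ hδ
    obtain ⟨D', hD', hcD'⟩ := H.lift (hDk l) hδ (hDL l) fun i => hT₂ _ (hDe l i)
    refine ⟨D', hD', H.rel hX HB hcpt hcD' (G l) fun b => ?_⟩
    obtain ⟨g, hg, hgg⟩ := hrel l b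
    exact ⟨g, hT₂ g hg, hgg⟩

end MPadcCM
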