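import Pool.Agent.Lib.MP_adc574_ag_CM.KeyD

/-!
# Section 1: the key theorem in the general position form

`A` a ring, `j : A → k`, `ι : A → L` injective homomorphisms to fields, `k` algebraically closed. `H` has the basis `b` (index set `I`), `[P] = ∑ a, j (P a) • b a` for
`P : I → A`, `Lam ι c P = det (∑ a, ι (P u a) * c v a)_{v,u}`. `Mk` = the alternating forms `ω` on `H` such that every relation `∑ s, ι (a s) * Lam (P s) = 0` implies
`∑ s, j (a s) * ω ([P s 1], …, [P s r]) = 0`. `Mk` is horizontal (`mk_hor`), contains a nonzero decomposable form (`mk_dec`), and if `Lam P = 0` all its elements vanish at `[P]`.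
-/

set_option autoImplicit false

namespace MPadcCM

universe u v

section

variable {A : Type u} [CommRing A] {k L : Type u} [Field k] [Field L]
  (j : A →+* k) (ι : A →+* L) {r : ℕ} {I : Type} [Fintype I] (c : Fin r → I → L)
  {H : Type v} [AddCommGroup H] [Module k H] (b : Module.Basis I k H)

/-- The class of a vector with coordinates in `A`. -/
noncomputable def cls (P : I → A) : H := ∑ a, j (P a) • b a

/-- The determinant of the functionals. -/
noncomputable def Lam (P : Fin r → I → A) : L :=
  (Matrix.of fun v u => ∑ a, ι (P u a) * c v a).det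

/-- The forms which satisfy all relations of the determinants. -/
noncomputable def Mk : Submodule k (H [⋀^Fin r]→ₗ[k] k) where
  carrier := {ω | ∀ (S : Type) [Fintype S] (a : S → A) (P : S → Fin r → I → A),
    ∑ s, ι (a s) * Lam ι c (P s) = 0 → ∑ s, j (a s) * ω (fun u => cls j b (P s u)) = 0}
  zero_mem' := by
    intro S _ a P _
    exact Finset.sum_eq_zero fun s _ => by rw [AlternatingMap.zero_apply, mul_zero]
  add_mem' := by
    intro ω ω' hω hω' S _ a P h
    have h1 := hω S a P h
    have h2 := hω' S a P h
    have h3 : ∀ s, j (a s) * (ω + ω') (fun u => cls j b (P s u)) =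
        j (a s) * ω (fun u => cls j b (P s u)) +
          j (a s) * ω' (fun u => cls j b (P s u)) := fun s => by
      rw [AlternatingMap.add_apply, mul_add]
    rw [Finset.sum_congr rfl fun s _ => h3 s, Finset.sum_add_distrib, h1, h2, add_zero]
  smul_mem' := by
    intro q ω hω S _ a P h
    have h1 := hω S a P h
    have h3 : ∀ s, j (a s) * (q • ω) (fun u => cls j b (P s u)) =
        q * (j (a s) * ω (fun u => cls j b (P s u))) := fun s => by
      rw [AlternatingMap.smul_apply, smul_eq_mul, mul_left_comm]
    rw [Finset.sum_congr rfl fun s _ => h3 s, ← Finset.mul_sum, h1, mul_zero]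

theorem mem_mk (ω : H [⋀^Fin r]→ₗ[k] k) : ω ∈ Mk j ι c b ↔
    ∀ (S : Type) [Fintype S] (a : S → A) (P : S → Fin r → I → A),
      ∑ s, ι (a s) * Lam ι c (P s) = 0 →
        ∑ s, j (a s) * ω (fun u => cls j b (P s u)) = 0 := Iff.rfl

end

section

variable {k : Type u} [Field k] {H : Type v} [AddCommGroup H] [Module k H]

theorem exists_cov {nab : Derivation ℤ k k → H →+ H} (hnab : IsConn nab) (D : Derivation ℤ k k)
    {r : ℕ} (ω : H [⋀^Fin r]→ₗ[k] k) : ∃ ω', IsCov nab D ω ω' := by
  classical
  have hn2 := hnab D
  have hT1 : ∀ (m : Fin r → H) (i u : Fin r) (x y : H),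
      ω (Function.update (Function.update m i (x + y)) u (nab D (Function.update m i (x + y) u))) =
      ω (Function.update (Function.update m i x) u (nab D (Function.update m i x u))) +
      ω (Function.update (Function.update m i y) u (nab D (Function.update m i y u))) := by
    intro m i u x y
    by_cases hu : u = i
    · subst hu
      simp only [Function.update_self, Function.update_idem, map_add, AlternatingMap.map_update_add]
    · rw [Function.update_of_ne hu, Function.update_of_ne hu, Function.update_of_ne hu,
        Function.update_comm (Ne.symm hu), Function.update_comm (Ne.symm hu),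
        Function.update_comm (Ne.symm hu), AlternatingMap.map_update_add]
  have hT2 : ∀ (m : Fin r → H) (i u : Fin r) (c : k) (x : H),
      ω (Function.update (Function.update m i (c • x)) u (nab D (Function.update m i (c • x) u))) =
      c * ω (Function.update (Function.update m i x) u (nab D (Function.update m i x u))) +
      if u = i then D c * ω (Function.update m i x) else 0 := by
    intro m i u c x
    by_cases hu : u = i
    · subst hu
      rw [if_pos rfl]
      simp only [Function.update_self, Function.update_idem, hn2, AlternatingMap.map_update_add,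
        AlternatingMap.map_update_smul, smul_eq_mul]
      ring
    · rw [if_neg hu, Function.update_of_ne hu, Function.update_of_ne hu,
        Function.update_comm (Ne.symm hu), Function.update_comm (Ne.symm hu),
        AlternatingMap.map_update_smul, smul_eq_mul, add_zero]
  let g : (Fin r → H) → k := fun f =>
    D (ω f) - ∑ u, ω (Function.update f u (nab D (f u)))
  let G : MultilinearMap k (fun _ : Fin r => H) k := MultilinearMap.mk' g
    (by
      intro m i x y
      change D _ - ∑ u, _ = D _ - ∑ u, _ + (D _ - ∑ u, _)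
      simp only [hT1, Finset.sum_add_distrib, AlternatingMap.map_update_add, map_add]
      ring)
    (by
      intro m i c x
      change D _ - ∑ u, _ = c * (D _ - ∑ u, _)
      simp only [hT2, Finset.sum_add_distrib, AlternatingMap.map_update_smul, smul_eq_mul,
        Derivation.leibniz, ← Finset.mul_sum, Finset.sum_ite_eq', Finset.mem_univ, if_true]
      ring)
  refine ⟨{ G with
    map_eq_zero_of_eq' := ?_ }, ?_⟩
  · intro f p q hpq hne
    change D (ω f) - ∑ u, ω (Function.update f u (nab D (f u))) = 0
    have h0 : ω f = 0 := ω.map_eq_zero_of_eq f hpq hne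
    have h1 : ∑ u, ω (Function.update f u (nab D (f u))) = 0 := by
      have h2 : ∀ u, u ≠ p → u ≠ q → ω (Function.update f u (nab D (f u))) = 0 := by
        intro u hp hq
        apply ω.map_eq_zero_of_eq _ _ hne
        rw [Function.update_of_ne (Ne.symm hp), Function.update_of_ne (Ne.symm hq), hpq]
      rw [← Finset.add_sum_erase Finset.univ _ (Finset.mem_univ p),
        ← Finset.add_sum_erase _ _ (Finset.mem_erase.2 ⟨Ne.symm hne, Finset.mem_univ q⟩),
        Finset.sum_eq_zero (s := (Finset.univ.erase p).erase q)]
      · have h3 : Function.update f q (nab D (f q)) =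
            Function.update f p (nab D (f p)) ∘ Equiv.swap p q := by
          funext u
          rw [Function.comp_apply]
          by_cases hp : u = p
          · subst hp
            rw [Equiv.swap_apply_left, Function.update_of_ne hne,
              Function.update_of_ne (Ne.symm hne), hpq]
          · by_cases hq : u = q
            · subst hq
              rw [Equiv.swap_apply_right, Function.update_self, Function.update_self, hpq]
            · rw [Equiv.swap_apply_of_ne_of_ne hp hq, Function.update_of_ne hq,
                Function.update_of_ne hp]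
        rw [h3, AlternatingMap.map_swap _ _ hne]
        ring
      · intro u hu
        rw [Finset.mem_erase, Finset.mem_erase] at hu
        exact h2 u hu.2.1 hu.1
    rw [h0, h1, map_zero, sub_zero]
  · intro P
    change D _ - ∑ u, _ = D _ - ∑ u, _
    rfl

end

section

variable {A : Type u} [CommRing A] {k L : Type u} [Field k] [Field L]
  {j : A →+* k} {ι : A →+* L} {r m : ℕ} {I : Type} [Fintype I] {c : Fin r → I → L}
  {H : Type v} [AddCommGroup H] [Module k H] {b : Module.Basis I k H}

private theorem keya_prod {B : Type*} [CommRing B] {σ : Type*} [DecidableEq σ]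
    (D : Derivation ℤ B B) (f : σ → B) (s : Finset σ) :
    D (∏ i ∈ s, f i) = ∑ u ∈ s, ∏ i ∈ s, (if i = u then D (f i) else f i) := by
  classical
  induction s using Finset.induction_on with
  | empty => simp
  | insert a s ha ih =>
    rw [Finset.prod_insert ha, Derivation.leibniz, Finset.sum_insert ha, ih, smul_eq_mul,
      smul_eq_mul, Finset.mul_sum, Finset.prod_insert ha, if_pos rfl, add_comm]
    congr 1
    · rw [mul_comm]
      congr 1
      refine Finset.prod_congr rfl fun i hi => ?_
      rw [if_neg]
      rintro rfl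
      exact ha hi
    · refine Finset.sum_congr rfl fun u hu => ?_
      rw [Finset.prod_insert ha, if_neg]
      rintro rfl
      exact ha hu

private theorem keya_det {B : Type*} [CommRing B] {r : ℕ} (D : Derivation ℤ B B)
    (M : Matrix (Fin r) (Fin r) B) :
    D M.det = ∑ u, (M.updateCol u fun v => D (M v u)).det := by
  classical
  have h1 : ∀ u, (M.updateCol u fun v => D (M v u)).det =
      ∑ σ : Equiv.Perm (Fin r), Equiv.Perm.sign σ •
        ∏ i, (if i = u then D (M (σ i) i) else M (σ i) i) := by
    intro u
    rw [Matrix.det_apply]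
    refine Finset.sum_congr rfl fun σ _ => ?_
    congr 1
    refine Finset.prod_congr rfl fun i _ => ?_
    rw [Matrix.updateCol_apply]
    by_cases hi : i = u
    · subst hi
      simp
    · rw [if_neg hi, if_neg hi]
  rw [Finset.sum_congr rfl fun u _ => h1 u, Finset.sum_comm, Matrix.det_apply, map_sum]
  refine Finset.sum_congr rfl fun σ _ => ?_
  rw [← Finset.smul_sum, ← keya_prod]
  rcases Int.units_eq_one_or (Equiv.Perm.sign σ) with h | h
  · rw [h, one_smul, one_smul]
  · rw [h, Units.neg_smul, Units.neg_smul, one_smul, one_smul, map_neg]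

/-- The derivative of a coordinate vector: `D P + G P`. -/
def nbA (D : Derivation ℤ A A) (G : I → I → A) (P : I → A) : I → A :=
  fun a => D (P a) + ∑ a', G a a' * P a'

theorem lam_der (D : Derivation ℤ A A) (Δ : Derivation ℤ L L) (hΔ : ∀ x, Δ (ι x) = ι (D x))
    (G : I → I → A) (ν : Matrix (Fin r) (Fin r) L)
    (hν : ∀ v a, Δ (c v a) = ∑ a', ι (G a' a) * c v a' + ∑ v', ν v v' * c v' a)
    (P : Fin r → I → A) :
    Δ (Lam ι c P) = ∑ u, Lam ι c (Function.update P u (nbA D G (P u))) +
      ν.trace * Lam ι c P := by
  classical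
  obtain ⟨M, hM⟩ : ∃ M : Matrix (Fin r) (Fin r) L,
    M = Matrix.of fun v u => ∑ a, ι (P u a) * c v a := ⟨_, rfl⟩
  have hMe : ∀ v u, M v u = ∑ a, ι (P u a) * c v a := fun v u => by rw [hM, Matrix.of_apply]
  have hL : Lam ι c P = M.det := by rw [hM]; rfl
  have hder : ∀ v u, Δ (M v u) = (∑ a, ι (nbA D G (P u) a) * c v a) + ∑ v', ν v v' * M v' u := by
    intro v u
    rw [hMe, map_sum]
    have e1 : ∀ a, Δ (ι (P u a) * c v a) = ι (D (P u a)) * c v a +
        ι (P u a) * ∑ a', ι (G a' a) * c v a' + ∑ v', ν v v' * (ι (P u a) * c v' a) := by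
      intro a
      rw [Derivation.leibniz, hΔ, hν, smul_eq_mul, smul_eq_mul, mul_add, Finset.mul_sum
        (f := fun v' => ν v v' * c v' a)]
      have e2 : ∑ v', ι (P u a) * (ν v v' * c v' a) = ∑ v', ν v v' * (ι (P u a) * c v' a) :=
        Finset.sum_congr rfl fun v' _ => by ring
      rw [e2]
      ring
    rw [Finset.sum_congr rfl fun a _ => e1 a, Finset.sum_add_distrib, Finset.sum_add_distrib]
    congr 1
    · have e3 : ∑ a, ι (nbA D G (P u) a) * c v a =
          ∑ a, ι (D (P u a)) * c v a + ∑ a, ∑ a', ι (G a a') * ι (P u a') * c v a := by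
        rw [← Finset.sum_add_distrib]
        refine Finset.sum_congr rfl fun a _ => ?_
        unfold nbA
        rw [map_add, map_sum, add_mul, Finset.sum_mul]
        congr 1
        exact Finset.sum_congr rfl fun a' _ => by rw [map_mul]
      rw [e3]
      congr 1
      rw [Finset.sum_comm]
      refine Finset.sum_congr rfl fun a _ => ?_
      rw [Finset.mul_sum]
      exact Finset.sum_congr rfl fun a' _ => by ring
    · rw [Finset.sum_comm]
      refine Finset.sum_congr rfl fun v' _ => ?_
      rw [hMe, Finset.mul_sum]
  have hcol : ∀ u, (M.updateCol u fun v => Δ (M v u)).det =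
      Lam ι c (Function.update P u (nbA D G (P u))) + (M.adjugate * (ν * M)) u u := by
    intro u
    have h1 : (fun v => Δ (M v u)) =
        (fun v => ∑ a, ι (nbA D G (P u) a) * c v a) + (ν * M).col u := by
      funext v
      rw [Pi.add_apply, hder]
      congr 1
    rw [h1, Matrix.det_updateCol_add]
    congr 1
    · unfold Lam
      congr 1
      ext v w
      rw [Matrix.updateCol_apply, Matrix.of_apply, Function.update_apply]
      by_cases hw : w = u
      · rw [if_pos hw, if_pos hw]
      · rw [if_neg hw, if_neg hw, hMe]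
    · rw [← Matrix.cramer_apply, Matrix.cramer_eq_adjugate_mulVec, Matrix.mul_apply]
      rfl
  rw [hL, keya_det, Finset.sum_congr rfl fun u _ => hcol u, Finset.sum_add_distrib]
  congr 1
  have h2 : ∑ u, (M.adjugate * (ν * M)) u u = (M.adjugate * (ν * M)).trace := rfl
  rw [h2, Matrix.trace_mul_comm, Matrix.mul_assoc, Matrix.mul_adjugate, Matrix.mul_smul,
    Matrix.mul_one, Matrix.trace_smul, smul_eq_mul, mul_comm]

theorem nab_cls {nab : Derivation ℤ k k → H →+ H} (hnab : IsConn nab)
    (D : Fin m → Derivation ℤ A A) (G : Fin m → I → I → A) (D' : Derivation ℤ k k) (α : Fin m → k)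
    (hα : ∀ x, D' (j x) = ∑ l, α l * j (D l x))
    (hG : ∀ a, nab D' (b a) = ∑ a', (∑ l, α l * j (G l a' a)) • b a') (P : I → A) :
    nab D' (cls j b P) = ∑ l, α l • cls j b (nbA (D l) (G l) P) := by
  classical
  have h1 : nab D' (cls j b P) = ∑ a, (D' (j (P a)) • b a + j (P a) • nab D' (b a)) := by
    unfold cls
    rw [map_sum]
    exact Finset.sum_congr rfl fun a _ => hnab D' _ _
  have h2 : ∀ l, cls j b (nbA (D l) (G l) P) =
      ∑ a, j (D l (P a)) • b a + ∑ a, ∑ a', (j (G l a a') * j (P a')) • b a := by
    intro l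
    unfold cls nbA
    rw [← Finset.sum_add_distrib]
    refine Finset.sum_congr rfl fun a _ => ?_
    rw [map_add, map_sum, add_smul, Finset.sum_smul]
    congr 1
    exact Finset.sum_congr rfl fun a' _ => by rw [map_mul]
  rw [h1, Finset.sum_add_distrib]
  have h3 : ∑ a, D' (j (P a)) • b a = ∑ l, α l • ∑ a, j (D l (P a)) • b a := by
    rw [Finset.sum_congr rfl fun a _ => by rw [hα, Finset.sum_smul], Finset.sum_comm]
    refine Finset.sum_congr rfl fun l _ => ?_
    rw [Finset.smul_sum]
    exact Finset.sum_congr rfl fun a _ => by rw [smul_smul]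
  have h4 : ∑ a, j (P a) • nab D' (b a) =
      ∑ l, α l • ∑ a, ∑ a', (j (G l a a') * j (P a')) • b a := by
    have e1 : ∀ a, j (P a) • nab D' (b a) =
        ∑ a', ∑ l, (j (P a) * (α l * j (G l a' a))) • b a' := by
      intro a
      rw [hG, Finset.smul_sum]
      refine Finset.sum_congr rfl fun a' _ => ?_
      rw [smul_smul, Finset.mul_sum, Finset.sum_smul]
    rw [Finset.sum_congr rfl fun a _ => e1 a, Finset.sum_comm]
    have e2 : ∀ a', ∑ a, ∑ l, (j (P a) * (α l * j (G l a' a))) • b a' =
        ∑ l, α l • ∑ a, (j (G l a' a) * j (P a)) • b a' := by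
      intro a'
      rw [Finset.sum_comm]
      refine Finset.sum_congr rfl fun l _ => ?_
      rw [Finset.smul_sum]
      refine Finset.sum_congr rfl fun a _ => ?_
      rw [smul_smul]
      congr 1
      ring
    rw [Finset.sum_congr rfl fun a' _ => e2 a', Finset.sum_comm]
    refine Finset.sum_congr rfl fun l _ => ?_
    rw [← Finset.smul_sum]
  rw [h3, h4, ← Finset.sum_add_distrib]
  refine Finset.sum_congr rfl fun l _ => ?_
  rw [h2, smul_add]

theorem mk_hor {nab : Derivation ℤ k k → H →+ H} (hnab : IsConn nab)
    (D : Fin m → Derivation ℤ A A) (Δ : Fin m → Derivation ℤ L L)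
    (hΔ : ∀ l x, Δ l (ι x) = ι (D l x)) (G : Fin m → I → I → A)
    (hDk : ∀ D' : Derivation ℤ k k, ∃ α : Fin m → k, (∀ x, D' (j x) = ∑ l, α l * j (D l x)) ∧
      ∀ a, nab D' (b a) = ∑ a', (∑ l, α l * j (G l a' a)) • b a')
    (hcD : ∀ l, ∃ ν : Matrix (Fin r) (Fin r) L, ∀ v a,
      Δ l (c v a) = ∑ a', ι (G l a' a) * c v a' + ∑ v', ν v v' * c v' a) :
    IsHor nab (Mk j ι c b) := by
  classical
  intro D' ω hω
  obtain ⟨a, ha, hG⟩ := hDk D'
  obtain ⟨ω', hω'⟩ := exists_cov hnab D' ω
  refine ⟨ω', ?_, hω'⟩
  rw [mem_mk] at hω ⊢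
  intro S _ β P h
  have hE : ∀ l, ∑ s, (j (D l (β s)) * ω (fun u => cls j b (P s u)) +
      ∑ u, j (β s) * ω (Function.update (fun u => cls j b (P s u)) u
        (cls j b (nbA (D l) (G l) (P s u))))) = 0 := by
    intro l
    obtain ⟨ν, hν⟩ := hcD l
    have h1 : ∑ s, (ι (D l (β s)) * Lam ι c (P s) +
        ∑ u, ι (β s) * Lam ι c (Function.update (P s) u (nbA (D l) (G l) (P s u)))) = 0 := by
      have h2 : Δ l (∑ s, ι (β s) * Lam ι c (P s)) = 0 := by rw [h, map_zero]
      rw [map_sum] at h2
      have h3 : ∀ s, Δ l (ι (β s) * Lam ι c (P s)) =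
          (ι (D l (β s)) * Lam ι c (P s) +
            ∑ u, ι (β s) * Lam ι c (Function.update (P s) u (nbA (D l) (G l) (P s u)))) +
          ν.trace * (ι (β s) * Lam ι c (P s)) := by
        intro s
        rw [Derivation.leibniz, smul_eq_mul, smul_eq_mul,
          lam_der (D l) (Δ l) (hΔ l) (G l) ν hν (P s), hΔ, ← Finset.mul_sum]
        ring
      rw [Finset.sum_congr rfl fun s _ => h3 s, Finset.sum_add_distrib, ← Finset.mul_sum, h,
        mul_zero, add_zero] at h2
      exact h2
    have h4 := hω (S × Option (Fin r)) (fun x => x.2.elim (D l (β x.1)) fun _ => β x.1)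
      (fun x => x.2.elim (P x.1) fun u => Function.update (P x.1) u (nbA (D l) (G l) (P x.1 u)))
      (by
        rw [Fintype.sum_prod_type]
        rw [← h1]
        refine Finset.sum_congr rfl fun s _ => ?_
        rw [Fintype.sum_option]
        rfl)
    rw [Fintype.sum_prod_type] at h4
    rw [← h4]
    refine Finset.sum_congr rfl fun s _ => ?_
    rw [Fintype.sum_option]
    refine congrArg₂ (· + ·) rfl ?_
    refine Finset.sum_congr rfl fun u _ => ?_
    show j (β s) * _ = j (β s) * ω (fun w => cls j b
      (Function.update (P s) u (nbA (D l) (G l) (P s u)) w))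
    congr 2
    funext w
    rw [Function.update_apply, Function.update_apply]
    by_cases hw : w = u
    · rw [if_pos hw, if_pos hw]
    · rw [if_neg hw, if_neg hw]
  have hD0 : ∑ s, j (β s) * D' (ω fun u => cls j b (P s u)) =
      -∑ s, ω (fun u => cls j b (P s u)) * ∑ l, a l * j (D l (β s)) := by
    have h1 := hω S β P h
    have h2 : D' (∑ s, j (β s) * ω (fun u => cls j b (P s u))) = 0 := by
      rw [h1, map_zero]
    rw [map_sum] at h2
    have h3 : ∀ s, D' (j (β s) * ω (fun u => cls j b (P s u))) =
        j (β s) * D' (ω fun u => cls j b (P s u)) +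
          ω (fun u => cls j b (P s u)) * ∑ l, a l * j (D l (β s)) := by
      intro s
      rw [Derivation.leibniz, smul_eq_mul, smul_eq_mul, ha]
    rw [Finset.sum_congr rfl fun s _ => h3 s, Finset.sum_add_distrib] at h2
    exact eq_neg_of_add_eq_zero_left h2
  have hterm : ∀ s, ω' (fun u => cls j b (P s u)) =
      D' (ω fun u => cls j b (P s u)) -
        ∑ u, ∑ l, a l * ω (Function.update (fun u => cls j b (P s u)) u
          (cls j b (nbA (D l) (G l) (P s u)))) := by
    intro s
    rw [hω' fun u => cls j b (P s u)]
    congr 1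
    refine Finset.sum_congr rfl fun u _ => ?_
    rw [nab_cls hnab D G D' a ha hG (P s u), AlternatingMap.map_update_sum]
    refine Finset.sum_congr rfl fun l _ => ?_
    rw [AlternatingMap.map_update_smul, smul_eq_mul]
  rw [Finset.sum_congr rfl fun s _ => by rw [hterm s, mul_sub], Finset.sum_sub_distrib, hD0]
  have hfin : ∑ s, ω (fun u => cls j b (P s u)) * ∑ l, a l * j (D l (β s)) +
      ∑ s, j (β s) * ∑ u, ∑ l, a l *
        ω (Function.update (fun u => cls j b (P s u)) u
          (cls j b (nbA (D l) (G l) (P s u)))) = 0 := by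
    have h5 : ∑ l, a l * ∑ s, (j (D l (β s)) * ω (fun u => cls j b (P s u)) +
      ∑ u, j (β s) * ω (Function.update (fun u => cls j b (P s u)) u
        (cls j b (nbA (D l) (G l) (P s u))))) = 0 :=
      Finset.sum_eq_zero fun l _ => by rw [hE l, mul_zero]
    rw [← Finset.sum_add_distrib, ← h5]
    have h6 : ∀ l, a l * ∑ s, (j (D l (β s)) *
        ω (fun u => cls j b (P s u)) +
      ∑ u, j (β s) * ω (Function.update (fun u => cls j b (P s u)) u
        (cls j b (nbA (D l) (G l) (P s u))))) =
        ∑ s, a l * (j (D l (β s)) * ω (fun u => cls j b (P s u)) +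
      ∑ u, j (β s) * ω (Function.update (fun u => cls j b (P s u)) u
        (cls j b (nbA (D l) (G l) (P s u))))) := fun l => Finset.mul_sum _ _ _
    rw [Finset.sum_congr rfl fun l _ => h6 l, Finset.sum_comm]
    refine Finset.sum_congr rfl fun s _ => ?_
    rw [Finset.sum_comm (s := Finset.univ (α := Fin r)), Finset.mul_sum, Finset.mul_sum,
      ← Finset.sum_add_distrib]
    refine Finset.sum_congr rfl fun l _ => ?_
    rw [mul_add, Finset.mul_sum, Finset.mul_sum]
    congr 1
    · ring
    · refine Finset.sum_congr rfl fun u _ => ?_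
      ring
  rw [← sub_eq_zero] at hfin
  linear_combination -hfin

end

end MPadcCM
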