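import Pool.Agent.Lib.MP_adc574_ag_CM.Defs
import Pool.Agent.Lib.MP_adc574_ag_Cov.Deg
import Pool.Agent.Lib.MP_adc574_ag_Cov.Birk

/-!
# LatA: rational functions: degrees, polynomial parts

`Dle r m` means `r = 0 ∨ r.intDegree ≤ m`; `MPadcCov.dle_add`, `dle_mul`, `dle_mono`, `dle_xpow_mul`, `dK_dle`, `dK_xpow` are in `Cov/Deg.lean`, `MPadcCov.exists_residue` (`Dle r 0 → ∃ c, Dle (r - pol (C c)) (-1)`) in `Cov/Birk.lean`. Beware: do not open other namespaces than `Polynomial MPadcCov`.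
* JOB LatA1 (all except the last three):
  - `isPol_dle_neg`: a polynomial `p ≠ 0` has `intDegree = natDegree ≥ 0` (`RatFunc.intDegree_polynomial`).
  - `exists_polpart`: `r = num / denom`, `denom` monic: `num = denom * Q + R` (`Polynomial.modByMonic_add_div`), `P = Q`, `r - Q = R / denom` with `deg R < deg denom` (or `R = 0`), `RatFunc.intDegree` of the quotient (`intDegree_mul`, `intDegree_inv`, `intDegree_polynomial`).
  - `isPol_dle_coeff`: `r = pol p` with `natDegree p ≤ N` (or `p = 0`): `p = ∑ l ∈ range (N + 1), C (p.coeff l) * X ^ l` (`Polynomial.as_sum_range'`), `Finset.sum_range`.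
  - `dle_dK0`: `r = pol (C c) + s`, `Dle s (-1)` (`exists_residue`), `dK r = dK s` (`dK (pol (C c)) = pol (derivative (C c)) = 0`), `dK_dle`.
  - `dK_twist`: `r = X ^ (-a) * s` with `Dle s 0` (`dle_xpow_mul`): `dK r = -a X ^ (-a - 1) s + X ^ (-a) dK s` (`dK_xpow`), so `dK r + a X⁻¹ r = X ^ (-a) dK s`, degree `≤ -a - 2` (`dle_dK0`).
* JOB LatA2 (`split1`, `der_rat_ext`, `der_comm`):
  - `split1`: if `a ≤ 1`, `p = polynomial part` (`exists_polpart`), `Fin (a - 1)` is empty, and `Dle (r - pol p) (-1)` gives degree `≤ -a`. If `a = N + 2`: take the polynomial part `Q` of `X ^ (N + 1) * r`: `r = X ^ (-(N+1)) * pol Q + s`, `Dle s (-(N + 1) - 1)`. `Q = ∑ j, q_j X ^ j`: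
    the terms with `j ≥ N + 1` give the polynomial `p = ∑_{j ≥ N+1} q_j X ^ (j - N - 1)` (`Polynomial.divX`-iterate, or `Q = X ^ (N + 1) * p + R` by `modByMonic` with `X ^ (N + 1)` monic, `natDegree R ≤ N`), and the terms `q_j X ^ (j - N - 1)`, `j ≤ N`, are `c l X ^ (-(l + 1))` with `l = N - j` (`Fin.rev`, `Finset.sum_equiv`).
  - `der_rat_ext`: two additive maps `δ₁ δ₂ : RatFunc κ → V` into a vector space which satisfy the Leibniz rule and agree on `pol p`: `r = pol p / pol q`: apply both to `pol q * r = pol p`, divide by `pol q`.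
  - `der_comm`: the commutator `x ↦ DK (dK x) - dK (DK x)` satisfies the Leibniz rule (`ring`) and vanishes on `pol p`, since `cD δ (derivative p) = derivative (cD δ p)` (coefficients: `(cD δ p).coeff m = δ (p.coeff m)`, copy the private lemma `Deg_coeff` from `Cov/Deg.lean`, `δ` of a natural number is `0`); `der_rat_ext`.
-/

set_option autoImplicit false

namespace MPadcCM

open Polynomial MPadcCov

variable {κ : Type*} [Field κ]

theorem isPol_zero : IsPol (0 : RatFunc κ) := by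
  exact ⟨0, map_zero _⟩

theorem isPol_one : IsPol (1 : RatFunc κ) := by
  exact ⟨1, map_one _⟩

theorem isPol_pol (p : κ[X]) : IsPol (pol p) := ⟨p, rfl⟩

theorem isPol_add {r s : RatFunc κ} (hr : IsPol r) (hs : IsPol s) : IsPol (r + s) := by
  obtain ⟨p, rfl⟩ := hr
  obtain ⟨q, rfl⟩ := hs
  exact ⟨p + q, map_add _ _ _⟩

theorem isPol_sub {r s : RatFunc κ} (hr : IsPol r) (hs : IsPol s) : IsPol (r - s) := by
  obtain ⟨p, rfl⟩ := hr
  obtain ⟨q, rfl⟩ := hs
  exact ⟨p - q, map_sub _ _ _⟩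

theorem isPol_mul {r s : RatFunc κ} (hr : IsPol r) (hs : IsPol s) : IsPol (r * s) := by
  obtain ⟨p, rfl⟩ := hr
  obtain ⟨q, rfl⟩ := hs
  exact ⟨p * q, map_mul _ _ _⟩

theorem isPol_sum {ι : Type*} (s : Finset ι) (r : ι → RatFunc κ) (h : ∀ i ∈ s, IsPol (r i)) :
    IsPol (∑ i ∈ s, r i) := by
  exact Finset.sum_induction _ IsPol (fun _ _ => isPol_add) isPol_zero h

theorem isPol_xpow (N : ℕ) : IsPol ((RatFunc.X : RatFunc κ) ^ N) := by
  refine ⟨X ^ N, ?_⟩
  rw [pol, map_pow, RatFunc.algebraMap_X]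

theorem dle_zero (m : ℤ) : Dle (0 : RatFunc κ) m := Or.inl rfl

theorem dle_neg {r : RatFunc κ} {m : ℤ} (h : Dle r m) : Dle (-r) m := by
  rcases h with h | h
  · exact Or.inl (by rw [h, neg_zero])
  · exact Or.inr (by rw [RatFunc.intDegree_neg]; exact h)

theorem dle_sub {r s : RatFunc κ} {m : ℤ} (hr : Dle r m) (hs : Dle s m) : Dle (r - s) m := by
  rw [sub_eq_add_neg]
  exact dle_add hr (dle_neg hs)

theorem dle_sum {ι : Type*} (s : Finset ι) (r : ι → RatFunc κ) (m : ℤ) (h : ∀ i ∈ s, Dle (r i) m) :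
    Dle (∑ i ∈ s, r i) m := by
  exact Finset.sum_induction _ (fun x => Dle x m) (fun _ _ => dle_add) (dle_zero m) h

theorem dle_zpow (N : ℤ) : Dle ((RatFunc.X : RatFunc κ) ^ N) N := by
  have h1 : Dle (1 : RatFunc κ) 0 := Or.inr (by rw [RatFunc.intDegree_one])
  have h2 := (dle_xpow_mul (1 : RatFunc κ) 0 N).2 h1
  rwa [mul_one, zero_add] at h2

theorem dle_natCast (N : ℕ) : Dle ((N : RatFunc κ)) 0 := by
  right
  have h1 : (N : RatFunc κ) = pol (C (N : κ)) := by
    rw [pol, map_natCast, map_natCast]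
  rw [h1, RatFunc.intDegree_polynomial, natDegree_C]
  exact le_rfl

theorem dle_pol (p : κ[X]) : Dle (pol p) p.natDegree := by
  right
  rw [RatFunc.intDegree_polynomial]

theorem dle_C (c : κ) : Dle (pol (C c)) 0 := by
  right
  rw [RatFunc.intDegree_polynomial, natDegree_C]
  exact le_rfl

theorem isPol_dle_neg {r : RatFunc κ} (h : IsPol r) (hd : Dle r (-1)) : r = 0 := by
  obtain ⟨p, rfl⟩ := h
  rcases dle_pol_iff.1 hd with h1 | h1
  · rw [h1]
    exact map_zero _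
  · exfalso
    omega

theorem exists_polpart (r : RatFunc κ) : ∃ P : κ[X], Dle (r - pol P) (-1) := by
  have hq0 : r.denom ≠ 0 := r.denom_ne_zero
  have hmon : r.denom.Monic := RatFunc.monic_denom r
  have h1 : pol r.denom * r = pol r.num := by
    have h2 : pol r.denom ≠ 0 := by
      rw [Ne, pol, map_eq_zero_iff _ pol_injective]
      exact hq0
    rw [mul_comm, ← eq_div_iff h2]
    exact (RatFunc.num_div_denom r).symm
  refine ⟨r.num /ₘ r.denom, dle_of_mul hq0 ?_⟩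
  have h2 : pol r.denom * (r - pol (r.num /ₘ r.denom)) = pol (r.num %ₘ r.denom) := by
    rw [mul_sub, h1]
    simp only [pol]
    rw [← map_mul, ← map_sub]
    congr 1
    have h3 := modByMonic_add_div r.num r.denom
    linear_combination -h3
  rw [h2, dle_pol_iff]
  by_cases hR : r.num %ₘ r.denom = 0
  · exact Or.inl hR
  · right
    have h4 := natDegree_lt_natDegree hR (degree_modByMonic_lt r.num hmon)
    omega

theorem isPol_dle_coeff {r : RatFunc κ} (N : ℕ) (h : IsPol r) (hd : Dle r N) :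
    ∃ c : Fin (N + 1) → κ, r = ∑ l, pol (C (c l)) * (RatFunc.X : RatFunc κ) ^ (l : ℕ) := by
  obtain ⟨p, rfl⟩ := h
  have h1 : p.natDegree < N + 1 := by
    rcases dle_pol_iff.1 hd with h2 | h2
    · rw [h2, natDegree_zero]
      omega
    · omega
  refine ⟨fun l => p.coeff l, ?_⟩
  conv_lhs => rw [p.as_sum_range' (N + 1) h1]
  rw [Finset.sum_range, pol, map_sum]
  refine Finset.sum_congr rfl fun l _ => ?_
  rw [← C_mul_X_pow_eq_monomial, map_mul, map_pow, RatFunc.algebraMap_X]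

theorem dle_dK0 {dK : Derivation ℤ (RatFunc κ) (RatFunc κ)}
    (hd : ∀ p : κ[X], dK (pol p) = pol (derivative p)) {r : RatFunc κ} (h : Dle r 0) :
    Dle (dK r) (-2) := by
  obtain ⟨c, hc⟩ := Birk.exists_residue h
  have h1 : dK (r - pol (C c)) = dK r := by
    rw [map_sub, hd, derivative_C, pol, map_zero, sub_zero]
  have h2 := dK_dle hd _ (-1) hc
  rw [h1] at h2
  exact h2

theorem dK_twist {dK : Derivation ℤ (RatFunc κ) (RatFunc κ)}
    (hd : ∀ p : κ[X], dK (pol p) = pol (derivative p)) (a : ℕ) {r : RatFunc κ}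
    (h : Dle r (-(a : ℤ))) : Dle (dK r + (a : RatFunc κ) * RatFunc.X⁻¹ * r) (-(a : ℤ) - 2) := by
  have hX : (RatFunc.X : RatFunc κ) ≠ 0 := RatFunc.X_ne_zero
  obtain ⟨s, hs⟩ : ∃ s, s = (RatFunc.X : RatFunc κ) ^ (a : ℤ) * r := ⟨_, rfl⟩
  have hs0 : Dle s 0 := by
    have h1 := (dle_xpow_mul r (-(a : ℤ)) a).2 h
    rw [neg_add_cancel] at h1
    rw [hs]
    exact h1
  have hr : r = (RatFunc.X : RatFunc κ) ^ (-(a : ℤ)) * s := by
    rw [hs, ← mul_assoc, ← zpow_add₀ hX, neg_add_cancel, zpow_zero, one_mul]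
  have h2 : dK r + (a : RatFunc κ) * RatFunc.X⁻¹ * r =
      (RatFunc.X : RatFunc κ) ^ (-(a : ℤ)) * dK s := by
    rw [hr, Derivation.leibniz, smul_eq_mul, smul_eq_mul, dK_xpow hd, zpow_sub_one₀ hX]
    push_cast
    ring
  have h3 := (dle_xpow_mul (dK s) (-2) (-(a : ℤ))).2 (dle_dK0 hd hs0)
  rw [h2]
  refine dle_mono h3 ?_
  omega

private theorem lata2_polsum (N : ℕ) (R : κ[X]) (hR : R.natDegree ≤ N) :
    (RatFunc.X : RatFunc κ) ^ (-((N : ℤ) + 1)) * pol R =
      ∑ l : Fin (N + 1), pol (C (R.coeff (Fin.rev l))) *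
        (RatFunc.X : RatFunc κ) ^ (-((l : ℤ) + 1)) := by
  have hX : (RatFunc.X : RatFunc κ) ≠ 0 := RatFunc.X_ne_zero
  have h1 : pol R = ∑ j : Fin (N + 1), pol (C (R.coeff j)) * (RatFunc.X : RatFunc κ) ^ (j : ℤ) := by
    have h2 : R = ∑ j ∈ Finset.range (N + 1), C (R.coeff j) * X ^ j :=
      R.as_sum_range_C_mul_X_pow' (Nat.lt_succ_of_le hR)
    have h3 : pol R = pol (∑ j ∈ Finset.range (N + 1), C (R.coeff j) * X ^ j) :=
      congrArg pol h2
    rw [h3, Finset.sum_range]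
    have h4 : pol (∑ i : Fin (N + 1), C (R.coeff i) * X ^ (i : ℕ)) =
        ∑ i : Fin (N + 1), pol (C (R.coeff i) * X ^ (i : ℕ)) :=
      map_sum (algebraMap κ[X] (RatFunc κ)) _ _
    rw [h4]
    refine Finset.sum_congr rfl fun j _ => ?_
    have h5 : pol (C (R.coeff j) * X ^ (j : ℕ)) = pol (C (R.coeff j)) * pol (X ^ (j : ℕ)) :=
      map_mul (algebraMap κ[X] (RatFunc κ)) _ _
    have h6 : pol (X ^ (j : ℕ) : κ[X]) = (RatFunc.X : RatFunc κ) ^ (j : ℕ) := by
      show algebraMap κ[X] (RatFunc κ) (X ^ (j : ℕ)) = _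
      rw [map_pow, RatFunc.algebraMap_X]
    rw [h5, h6, zpow_natCast]
  rw [h1, Finset.mul_sum, ← Equiv.sum_comp Fin.revPerm]
  refine Finset.sum_congr rfl fun l _ => ?_
  rw [Fin.revPerm_apply, mul_left_comm, ← zpow_add₀ hX]
  congr 2
  have h2 : ((Fin.rev l : Fin (N + 1)) : ℕ) = N - l := by
    rw [Fin.val_rev]
    omega
  rw [h2]
  have := l.2
  omega

theorem split1 (a : ℕ) (r : RatFunc κ) : ∃ (p : κ[X]) (c : Fin (a - 1) → κ),
    Dle (r - pol p - ∑ l, pol (C (c l)) * (RatFunc.X : RatFunc κ) ^ (-((l : ℤ) + 1))) (-(a : ℤ)) := by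
  have h01 : ∀ a : ℕ, a ≤ 1 → ∃ (p : κ[X]) (c : Fin (a - 1) → κ),
      Dle (r - pol p - ∑ l, pol (C (c l)) * (RatFunc.X : RatFunc κ) ^ (-((l : ℤ) + 1)))
        (-(a : ℤ)) := by
    intro a ha
    obtain ⟨P, hP⟩ := exists_polpart r
    refine ⟨P, fun _ => 0, ?_⟩
    have h1 : ∑ l : Fin (a - 1), pol (C (0 : κ)) * (RatFunc.X : RatFunc κ) ^ (-((l : ℤ) + 1)) =
        0 := by
      refine Finset.sum_eq_zero fun l _ => ?_
      exact absurd l.2 (by omega)
    rw [h1, sub_zero]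
    exact dle_mono hP (by omega)
  match a with
  | 0 => exact h01 0 (by norm_num)
  | 1 => exact h01 1 le_rfl
  | N + 2 =>
    have hX : (RatFunc.X : RatFunc κ) ≠ 0 := RatFunc.X_ne_zero
    obtain ⟨Q, hQ⟩ := exists_polpart ((RatFunc.X : RatFunc κ) ^ ((N : ℤ) + 1) * r)
    have hm : (X ^ (N + 1) : κ[X]).Monic := monic_X_pow _
    have hdec : Q %ₘ (X ^ (N + 1)) + X ^ (N + 1) * (Q /ₘ (X ^ (N + 1))) = Q :=
      modByMonic_add_div Q (X ^ (N + 1))
    have hR : (Q %ₘ (X ^ (N + 1))).natDegree ≤ N := by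
      have h1 := natDegree_modByMonic_lt Q hm (by
        intro h
        have h2 := congrArg natDegree h
        rw [natDegree_X_pow, natDegree_one] at h2
        omega)
      rw [natDegree_X_pow] at h1
      omega
    refine ⟨Q /ₘ (X ^ (N + 1)), fun l => (Q %ₘ (X ^ (N + 1))).coeff
      ((Fin.rev (l : Fin (N + 1)) : Fin (N + 1)) : ℕ), ?_⟩
    have h1 := lata2_polsum N (Q %ₘ (X ^ (N + 1))) hR
    have h2 : r - pol (Q /ₘ (X ^ (N + 1))) - ∑ l : Fin (N + 1),
        pol (C ((Q %ₘ (X ^ (N + 1))).coeff (Fin.rev l))) *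
          (RatFunc.X : RatFunc κ) ^ (-((l : ℤ) + 1)) =
        (RatFunc.X : RatFunc κ) ^ (-((N : ℤ) + 1)) *
          ((RatFunc.X : RatFunc κ) ^ ((N : ℤ) + 1) * r - pol Q) := by
      rw [← h1]
      have h3 : pol Q = pol (Q %ₘ (X ^ (N + 1))) +
          (RatFunc.X : RatFunc κ) ^ ((N : ℤ) + 1) * pol (Q /ₘ (X ^ (N + 1))) := by
        have h4 : pol Q = pol (Q %ₘ (X ^ (N + 1)) + X ^ (N + 1) * (Q /ₘ (X ^ (N + 1)))) :=
          congrArg pol hdec.symm
        have h5 : pol (Q %ₘ (X ^ (N + 1)) + X ^ (N + 1) * (Q /ₘ (X ^ (N + 1)))) =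
            pol (Q %ₘ (X ^ (N + 1))) + pol (X ^ (N + 1)) * pol (Q /ₘ (X ^ (N + 1))) := by
          show algebraMap κ[X] (RatFunc κ) _ = _
          rw [map_add, map_mul]
        have h6 : pol (X ^ (N + 1) : κ[X]) = (RatFunc.X : RatFunc κ) ^ ((N : ℤ) + 1) := by
          show algebraMap κ[X] (RatFunc κ) (X ^ (N + 1)) = _
          rw [map_pow, RatFunc.algebraMap_X, ← zpow_natCast]
          norm_cast
        rw [h4, h5, h6]
      rw [h3]
      have h7 : (RatFunc.X : RatFunc κ) ^ (-((N : ℤ) + 1)) *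
          (RatFunc.X : RatFunc κ) ^ ((N : ℤ) + 1) = 1 := by
        rw [← zpow_add₀ hX, neg_add_cancel, zpow_zero]
      linear_combination (-r + pol (Q /ₘ (X ^ (N + 1)))) * h7
    have h8 : Dle ((RatFunc.X : RatFunc κ) ^ (-((N : ℤ) + 1)) *
        ((RatFunc.X : RatFunc κ) ^ ((N : ℤ) + 1) * r - pol Q)) (-1 + -((N : ℤ) + 1)) :=
      (dle_xpow_mul _ _ _).2 hQ
    rw [← h2] at h8
    exact dle_mono h8 (by push_cast; omega)

theorem der_rat_ext {V : Type*} [AddCommGroup V] [Module (RatFunc κ) V] (δ₁ δ₂ : RatFunc κ →+ V)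
    (h₁ : ∀ x y, δ₁ (x * y) = x • δ₁ y + y • δ₁ x) (h₂ : ∀ x y, δ₂ (x * y) = x • δ₂ y + y • δ₂ x)
    (h : ∀ p : κ[X], δ₁ (pol p) = δ₂ (pol p)) (r : RatFunc κ) : δ₁ r = δ₂ r := by
  obtain ⟨p, q, hq, rfl⟩ := IsFractionRing.div_surjective (A := κ[X]) r
  have hq0 : q ≠ 0 := nonZeroDivisors.ne_zero hq
  have hq1 : pol q ≠ 0 := by
    intro h0
    exact hq0 ((IsFractionRing.injective κ[X] (RatFunc κ)) (by rw [map_zero]; exact h0))
  have e1 : (pol p / pol q) * pol q = pol p := div_mul_cancel₀ _ hq1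
  have e2 := h₁ (pol p / pol q) (pol q)
  have e3 := h₂ (pol p / pol q) (pol q)
  rw [e1, h p] at e2
  rw [e1] at e3
  have e4 : pol q • δ₁ (pol p / pol q) = pol q • δ₂ (pol p / pol q) := by
    have e5 := e2.symm.trans e3
    rw [h q] at e5
    exact add_left_cancel e5
  have e6 := congrArg (fun v => (pol q)⁻¹ • v) e4
  simp only [inv_smul_smul₀ hq1] at e6
  exact e6

private theorem lata2_coeff {R : Type*} [CommRing R] (δ : Derivation ℤ R R) (p : R[X]) (m : ℕ) :
    (cD δ p).coeff m = δ (p.coeff m) := by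
  unfold cD
  rw [Polynomial.sum_def, Polynomial.finsetSum_coeff]
  simp only [coeff_monomial]
  rw [Finset.sum_ite_eq']
  by_cases hm : m ∈ p.support
  · rw [if_pos hm]
  · rw [if_neg hm, Polynomial.notMem_support_iff.1 hm, map_zero]

private theorem lata2_cD {δ : Derivation ℤ κ κ} (p : κ[X]) :
    cD δ (derivative p) = derivative (cD δ p) := by
  ext m
  rw [lata2_coeff, coeff_derivative, coeff_derivative, lata2_coeff, Derivation.leibniz]
  have h1 : δ ((m : κ) + 1) = 0 := by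
    have h2 : ((m : κ) + 1) = ((m + 1 : ℕ) : κ) := by push_cast; rfl
    rw [h2]
    exact Derivation.map_natCast δ (m + 1)
  rw [h1, smul_zero, zero_add, smul_eq_mul, mul_comm]

theorem der_comm {δ : Derivation ℤ κ κ} {dK DK : Derivation ℤ (RatFunc κ) (RatFunc κ)}
    (hd : ∀ p : κ[X], dK (pol p) = pol (derivative p)) (hD : ∀ p : κ[X], DK (pol p) = pol (cD δ p))
    (r : RatFunc κ) : DK (dK r) = dK (DK r) := by
  have h := der_rat_ext (V := RatFunc κ)
    { toFun := fun x => DK (dK x) - dK (DK x)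
      map_zero' := by simp
      map_add' := fun x y => by
        simp only [map_add]
        ring } 0 (by
      intro x y
      show DK (dK (x * y)) - dK (DK (x * y)) = x • (DK (dK y) - dK (DK y)) +
        y • (DK (dK x) - dK (DK x))
      simp only [Derivation.leibniz, map_add, smul_eq_mul]
      ring) (by
      intro x y
      show (0 : RatFunc κ) = x • (0 : RatFunc κ) + y • (0 : RatFunc κ)
      rw [smul_zero, smul_zero, add_zero]) (by
      intro p
      show DK (dK (pol p)) - dK (DK (pol p)) = 0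
      rw [hd, hD, hD, hd, lata2_cD, sub_self]) r
  exact sub_eq_zero.1 h

end MPadcCM
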