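import Pool.Agent.Lib.MP_adc574_ag_CM.LatA
import Pool.Agent.Lib.MP_adc574_ag_CM.DeA

/-!
# LatB: the lattices `B`, `M`, `Ci`, `Mi`

Write `z_i = e.repr z i`, `z = ∑ z_i • e i` (`Module.Basis.sum_repr`), `s_ijl = e.repr (e i * e j) l`, `T_ij = Tr (e i * e j)`, `N_ij = Tr (d (e i) * e j)`. `Tr (r • z) = r * Tr z` (`map_smul`), `r • z = algebraMap r * z` (`Algebra.smul_def`).
* JOB LatB1 (everything about `B` and `M`):
  - `Cw.inB_mul`: `(z w)_l = ∑ i j, z_i w_j s_ijl` polynomial. `InB 1` from `H.one` (`e i0 = 1`).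
  - `Cw.tr_isPol`: `Tr z = ∑ j, (z * e j)_j` (`MPadcCov.tr_eq`), `InB (z * e j)`.
  - `Cw.inM_iff`: `InM e z ↔ ∀ b, InB e b → IsPol (Tr (z * b))`: `Tr (z * b) = ∑ b_i Tr (z * e i)`. `Cw.inM_mul` (`b ∈ B`, `z ∈ M`: `b z ∈ M`) from it and `inB_mul`.
  - `Cw.tr_d`: `MPadcCov.tr_der e dK d H.d_alg z` (if the instance of `Algebra ℤ (RatFunc κ)` does not match use `Subsingleton.elim` as in `Deg_conv` of `Cov/Deg.lean` or `Input_der` of `Cov/Input.lean`).
  - `Cw.inM_d`: `d z = ∑ (dK z_i) • e i + z_i • d (e i)`, `Tr (d z * e j) = ∑ dK z_i T_ij + z_i N_ij`, `H.derB`, `H.dK_pol`.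
  - `Cw.inM_f`: `H.dual`. `Cw.sum_f` : `z = ∑ Tr (z * e i) • f i` is `sum_tr`.
* JOB LatB2 (everything about `Ci` and `Mi`):
  - `Cw.inCi_mul`: `(z w)_l = ∑ z_i w_j s_ijl`, degree `≤ -a_i - a_j + (a_i + a_j - a_l)`. `inCi_one`: `1 = e i0`, `a i0 = 0`, `H.one`.
  - `Cw.tr_dle`: `Tr (e i) = ∑ j s_ijj` has degree `≤ a_i`, so `Tr z = ∑ z_i Tr (e i)` has degree `≤ 0`.
  - `Cw.tr_ee`: `e i * e j = ∑ s_ijl • e l`, `Tr (e l)` polynomial of degree `≤ a_l`.
  - `Cw.inMi_mul`: `c * e j = ∑ c_i s_ijl • e l`, so `Tr (c z e j) = ∑ c_i s_ijl Tr (z e l)` has degree `≤ -a_i + (a_i + a_j - a_l) + a_l - 2`.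
  - `Cw.inMi_d`: `Tr (d z * e j) = ∑_i (dK z_i + a_i X⁻¹ z_i) T_ij + z_i (N_ij - a_i X⁻¹ T_ij)`; first term: `dK_twist` and `tr_ee`: degree `≤ (-a_i - 2) + (a_i + a_j)`, second: `H.derI`.
  - `Cw.inMi_f`: `Tr (X ^ (a_i - 2) • f i * e j) = X ^ (a_i - 2) δ_ij`.
* JOB LatB3 (`Cw.exists_gen`, `Cw.exists_geni`):
  - `exists_gen`: `z ∈ M`: `z = ∑_i Tr (z * e i) • f i = ∑_i ∑_s (pol p_i • u_is) * d (b_is)` (`H.genB`): a finite family indexed by `Σ i, Fin (N i)`, reindex by `Fin (card ..)` (`Fintype.equivFin`, or induction: the set of `z` of this form is closed under addition and multiplication by `pol p` and contains `f i`).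
  - `exists_geni`: `z ∈ Mi`: `z = ∑_i (Tr (z * e i) X ^ (2 - a_i)) • (X ^ (a_i - 2) • f i) = ∑_i (r_i • c_i) * d w` with `Dle r_i 0`, `H.genI`.
-/

set_option autoImplicit false

namespace MPadcCM

open Polynomial MPadcCov

variable {κ : Type*} [Field κ] {E : Type*} [CommRing E] [Algebra (RatFunc κ) E] {n : ℕ}
  {e : Module.Basis (Fin n) (RatFunc κ) E} {a : Fin n → ℕ} {i0 : Fin n} {f : Fin n → E}
  {dK : Derivation ℤ (RatFunc κ) (RatFunc κ)} {d : Derivation ℤ E E}

theorem inB_zero : InB e 0 := by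
  intro i
  rw [map_zero, Finsupp.zero_apply]
  exact isPol_zero

theorem inB_add {z w : E} (hz : InB e z) (hw : InB e w) : InB e (z + w) := by
  intro i
  rw [map_add, Finsupp.add_apply]
  exact isPol_add (hz i) (hw i)

theorem inB_sub {z w : E} (hz : InB e z) (hw : InB e w) : InB e (z - w) := by
  intro i
  rw [map_sub, Finsupp.sub_apply]
  exact isPol_sub (hz i) (hw i)

theorem inB_smul {r : RatFunc κ} (hr : IsPol r) {z : E} (hz : InB e z) : InB e (r • z) := by
  intro i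
  rw [map_smul, Finsupp.smul_apply, smul_eq_mul]
  exact isPol_mul hr (hz i)

theorem inB_sum {ι : Type*} (s : Finset ι) (z : ι → E) (h : ∀ i ∈ s, InB e (z i)) :
    InB e (∑ i ∈ s, z i) := by
  intro i
  rw [map_sum, Finsupp.finsetSum_apply]
  exact isPol_sum _ _ fun j hj => h j hj i

theorem inB_e (i : Fin n) : InB e (e i) := by
  intro j
  rw [e.repr_self, Finsupp.single_apply]
  split_ifs
  · exact isPol_one
  · exact isPol_zero

theorem Cw.inB_one (H : Cw e a i0 f dK d) : InB e 1 := by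
  rw [← H.one]
  exact inB_e i0

private theorem latb1_repr_mul (z y : E) (k : Fin n) :
    e.repr (z * y) k = ∑ i, ∑ j, e.repr z i * e.repr y j * e.repr (e i * e j) k := by
  conv_lhs => rw [← e.sum_repr z, ← e.sum_repr y, Finset.sum_mul_sum]
  rw [map_sum, Finsupp.finsetSum_apply]
  refine Finset.sum_congr rfl fun i _ => ?_
  rw [map_sum, Finsupp.finsetSum_apply]
  refine Finset.sum_congr rfl fun j _ => ?_
  rw [smul_mul_smul_comm, map_smul, Finsupp.smul_apply, smul_eq_mul]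

theorem Cw.inB_mul (H : Cw e a i0 f dK d) {z w : E} (hz : InB e z) (hw : InB e w) : InB e (z * w) := by
  intro k
  rw [latb1_repr_mul z w k]
  exact isPol_sum _ _ fun i _ => isPol_sum _ _ fun j _ =>
    isPol_mul (isPol_mul (hz i) (hw j)) (H.mul i j k).1

theorem Cw.inB_pow (H : Cw e a i0 f dK d) {z : E} (hz : InB e z) (N : ℕ) : InB e (z ^ N) := by
  induction N with
  | zero =>
    rw [pow_zero]
    exact H.inB_one
  | succ N ih =>
    rw [pow_succ]
    exact H.inB_mul ih hz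

theorem Cw.inB_alg (H : Cw e a i0 f dK d) {r : RatFunc κ} (hr : IsPol r) :
    InB e (algebraMap (RatFunc κ) E r) := by
  rw [Algebra.algebraMap_eq_smul_one]
  exact inB_smul hr H.inB_one

theorem Cw.tr_isPol (H : Cw e a i0 f dK d) {z : E} (hz : InB e z) : IsPol (Tr κ E z) := by
  rw [MPadcCov.tr_eq e z]
  exact isPol_sum _ _ fun j _ => H.inB_mul hz (inB_e j) j

theorem inM_zero : InM e 0 := by
  intro i
  rw [zero_mul, map_zero]
  exact isPol_zero

theorem inM_add {z w : E} (hz : InM e z) (hw : InM e w) : InM e (z + w) := by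
  intro i
  rw [add_mul, map_add]
  exact isPol_add (hz i) (hw i)

theorem inM_sub {z w : E} (hz : InM e z) (hw : InM e w) : InM e (z - w) := by
  intro i
  rw [sub_mul, map_sub]
  exact isPol_sub (hz i) (hw i)

theorem inM_smul {r : RatFunc κ} (hr : IsPol r) {z : E} (hz : InM e z) : InM e (r • z) := by
  intro i
  rw [smul_mul_assoc, map_smul, smul_eq_mul]
  exact isPol_mul hr (hz i)

theorem inM_sum {ι : Type*} (s : Finset ι) (z : ι → E) (h : ∀ i ∈ s, InM e (z i)) :
    InM e (∑ i ∈ s, z i) := by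
  intro i
  rw [Finset.sum_mul, map_sum]
  exact isPol_sum _ _ fun j hj => h j hj i

private theorem latb1_tr_mul (z y : E) :
    Tr κ E (z * y) = ∑ j, e.repr y j * Tr κ E (z * e j) := by
  conv_lhs => rw [← e.sum_repr y, Finset.mul_sum]
  rw [map_sum]
  refine Finset.sum_congr rfl fun j _ => ?_
  rw [mul_smul_comm, map_smul, smul_eq_mul]

theorem Cw.inM_iff (H : Cw e a i0 f dK d) (z : E) :
    InM e z ↔ ∀ b, InB e b → IsPol (Tr κ E (z * b)) := by
  constructor
  · intro h b hb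
    rw [latb1_tr_mul (e := e)]
    exact isPol_sum _ _ fun j _ => isPol_mul (hb j) (h j)
  · intro h i
    exact h (e i) (inB_e i)

theorem Cw.inM_mul (H : Cw e a i0 f dK d) {b z : E} (hb : InB e b) (hz : InM e z) :
    InM e (b * z) := by
  rw [H.inM_iff]
  intro c hc
  have h1 : b * z * c = z * (b * c) := by ring
  rw [h1]
  exact (H.inM_iff z).1 hz _ (H.inB_mul hb hc)

private theorem latb1_conv {R : Type*} [CommRing R] (i1 i2 : Algebra ℤ R)
    (D : @Derivation ℤ R R _ _ _ i1 _ _) :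
    ∃ D' : @Derivation ℤ R R _ _ _ i2 _ _, ∀ x, D' x = D x := by
  obtain rfl : i1 = i2 := Subsingleton.elim _ _
  exact ⟨D, fun x => rfl⟩

theorem Cw.tr_d (H : Cw e a i0 f dK d) (z : E) : Tr κ E (d z) = dK (Tr κ E z) := by
  obtain ⟨dK', hdK'⟩ := latb1_conv _ (Ring.toIntAlgebra (RatFunc κ)) dK
  have h := MPadcCov.tr_der e dK' d (fun r => by rw [H.d_alg r, hdK' r]) z
  exact h.trans (hdK' _)

theorem Cw.inM_d (H : Cw e a i0 f dK d) {z : E} (hz : InB e z) : InM e (d z) := by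
  intro j
  have h1 : d z = ∑ k, (dK (e.repr z k) • e k + e.repr z k • d (e k)) := by
    conv_lhs => rw [← e.sum_repr z, map_sum]
    refine Finset.sum_congr rfl fun k _ => ?_
    rw [Algebra.smul_def, Derivation.leibniz, H.d_alg, smul_eq_mul, smul_eq_mul, Algebra.smul_def,
      Algebra.smul_def]
    ring
  rw [h1, Finset.sum_mul, map_sum]
  refine isPol_sum _ _ fun k _ => ?_
  rw [add_mul, map_add, smul_mul_assoc, smul_mul_assoc, map_smul, map_smul, smul_eq_mul,
    smul_eq_mul]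
  refine isPol_add (isPol_mul ?_ (H.tr_isPol (H.inB_mul (inB_e k) (inB_e j))))
    (isPol_mul (hz k) (H.derB k j))
  obtain ⟨p, hp⟩ := hz k
  rw [← hp, H.dK_pol]
  exact isPol_pol _

theorem Cw.inM_f (H : Cw e a i0 f dK d) (i : Fin n) : InM e (f i) := by
  intro j
  rw [H.dual i j]
  split_ifs
  · exact isPol_one
  · exact isPol_zero

theorem Cw.sum_f (H : Cw e a i0 f dK d) (z : E) : z = ∑ i, Tr κ E (z * e i) • f i := by
  exact sum_tr e f H.dual z

private theorem latB2_repr_mul_e (z : E) (j l : Fin n) :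
    e.repr (z * e j) l = ∑ i, e.repr z i * e.repr (e i * e j) l := by
  have h1 : z * e j = ∑ i, e.repr z i • (e i * e j) := by
    conv_lhs => rw [← e.sum_repr z, Finset.sum_mul]
    exact Finset.sum_congr rfl fun i _ => smul_mul_assoc _ _ _
  rw [h1, map_sum, Finsupp.finsetSum_apply]
  refine Finset.sum_congr rfl fun i _ => ?_
  rw [map_smul, Finsupp.smul_apply, smul_eq_mul]

private theorem latB2_repr_mul (z w : E) (l : Fin n) :
    e.repr (z * w) l = ∑ j, e.repr w j * ∑ i, e.repr z i * e.repr (e i * e j) l := by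
  have h1 : z * w = ∑ j, e.repr w j • (z * e j) := by
    conv_lhs => rw [← e.sum_repr w, Finset.mul_sum]
    exact Finset.sum_congr rfl fun i _ => mul_smul_comm _ _ _
  rw [h1, map_sum, Finsupp.finsetSum_apply]
  refine Finset.sum_congr rfl fun i _ => ?_
  rw [map_smul, Finsupp.smul_apply, smul_eq_mul, latB2_repr_mul_e]

private theorem latB2_tr_mul (e : Module.Basis (Fin n) (RatFunc κ) E) (z w : E) :
    Tr κ E (z * w) = ∑ l, e.repr w l * Tr κ E (z * e l) := by
  have h1 : z * w = ∑ j, e.repr w j • (z * e j) := by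
    conv_lhs => rw [← e.sum_repr w, Finset.mul_sum]
    exact Finset.sum_congr rfl fun i _ => mul_smul_comm _ _ _
  rw [h1, map_sum]
  refine Finset.sum_congr rfl fun i _ => ?_
  rw [map_smul, smul_eq_mul]

private theorem latB2_tr (e : Module.Basis (Fin n) (RatFunc κ) E) (z : E) :
    Tr κ E z = ∑ l, e.repr z l * Tr κ E (e l) := by
  have h := latB2_tr_mul e 1 z
  rw [one_mul] at h
  rw [h]
  exact Finset.sum_congr rfl fun i _ => by rw [one_mul]

theorem inCi_zero : InCi e a 0 := by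
  intro i
  rw [map_zero, Finsupp.zero_apply]
  exact dle_zero _

theorem inCi_add {z w : E} (hz : InCi e a z) (hw : InCi e a w) : InCi e a (z + w) := by
  intro i
  rw [map_add, Finsupp.add_apply]
  exact dle_add (hz i) (hw i)

theorem inCi_sub {z w : E} (hz : InCi e a z) (hw : InCi e a w) : InCi e a (z - w) := by
  intro i
  rw [map_sub, Finsupp.sub_apply]
  exact dle_sub (hz i) (hw i)

theorem inCi_smul {r : RatFunc κ} (hr : Dle r 0) {z : E} (hz : InCi e a z) : InCi e a (r • z) := by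
  intro i
  rw [map_smul, Finsupp.smul_apply, smul_eq_mul]
  have h := dle_mul hr (hz i)
  rwa [zero_add] at h

theorem inCi_sum {ι : Type*} (s : Finset ι) (z : ι → E) (h : ∀ i ∈ s, InCi e a (z i)) :
    InCi e a (∑ i ∈ s, z i) := by
  exact Finset.sum_induction z (InCi e a) (fun _ _ => inCi_add) inCi_zero h

theorem inCi_e (i : Fin n) : InCi e a ((RatFunc.X : RatFunc κ) ^ (-(a i : ℤ)) • e i) := by
  intro j
  rw [map_smul, Finsupp.smul_apply, smul_eq_mul, e.repr_self, Finsupp.single_apply]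
  by_cases h : i = j
  · rw [if_pos h, mul_one, h]
    exact dle_zpow _
  · rw [if_neg h, mul_zero]
    exact dle_zero _

theorem Cw.inCi_one (H : Cw e a i0 f dK d) : InCi e a 1 := by
  have h : InCi e a (e i0) := by
    intro j
    rw [e.repr_self, Finsupp.single_apply]
    by_cases h : i0 = j
    · rw [if_pos h, ← h, H.a_zero]
      have h1 := dle_zpow (κ := κ) 0
      rw [zpow_zero] at h1
      exact h1
    · rw [if_neg h]
      exact dle_zero _
  rwa [H.one] at h

theorem Cw.inCi_mul (H : Cw e a i0 f dK d) {z w : E} (hz : InCi e a z) (hw : InCi e a w) :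
    InCi e a (z * w) := by
  intro l
  rw [latB2_repr_mul]
  refine dle_sum _ _ _ fun j _ => ?_
  have h1 : Dle (∑ i, e.repr z i * e.repr (e i * e j) l) ((a j : ℤ) - a l) := by
    refine dle_sum _ _ _ fun i _ => ?_
    exact dle_mono (dle_mul (hz i) (H.mul i j l).2) (by omega)
  exact dle_mono (dle_mul (hw j) h1) (by omega)

theorem Cw.inCi_pow (H : Cw e a i0 f dK d) {z : E} (hz : InCi e a z) (N : ℕ) :
    InCi e a (z ^ N) := by
  induction N with
  | zero =>
    rw [pow_zero]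
    exact H.inCi_one
  | succ N ih =>
    rw [pow_succ]
    exact H.inCi_mul ih hz

theorem Cw.tr_e_dle (H : Cw e a i0 f dK d) (i : Fin n) : Dle (Tr κ E (e i)) (a i) := by
  rw [show Tr κ E (e i) = _ from MPadcCov.tr_eq e (e i)]
  refine dle_sum _ _ _ fun j _ => ?_
  exact dle_mono (H.mul i j j).2 (by omega)

theorem Cw.tr_dle (H : Cw e a i0 f dK d) {z : E} (hz : InCi e a z) : Dle (Tr κ E z) 0 := by
  rw [latB2_tr e z]
  refine dle_sum _ _ _ fun i _ => ?_
  exact dle_mono (dle_mul (hz i) (H.tr_e_dle i)) (by omega)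

theorem Cw.tr_ee (H : Cw e a i0 f dK d) (i j : Fin n) :
    IsPol (Tr κ E (e i * e j)) ∧ Dle (Tr κ E (e i * e j)) ((a i : ℤ) + a j) := by
  refine ⟨H.tr_isPol (H.inB_mul (inB_e i) (inB_e j)), ?_⟩
  rw [latB2_tr e (e i * e j)]
  refine dle_sum _ _ _ fun l _ => ?_
  exact dle_mono (dle_mul (H.mul i j l).2 (H.tr_e_dle l)) (by omega)

theorem inMi_zero : InMi e a 0 := by
  intro i
  rw [zero_mul, map_zero]
  exact dle_zero _

theorem inMi_add {z w : E} (hz : InMi e a z) (hw : InMi e a w) : InMi e a (z + w) := by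
  intro i
  rw [add_mul, map_add]
  exact dle_add (hz i) (hw i)

theorem inMi_sub {z w : E} (hz : InMi e a z) (hw : InMi e a w) : InMi e a (z - w) := by
  intro i
  rw [sub_mul, map_sub]
  exact dle_sub (hz i) (hw i)

theorem inMi_smul {r : RatFunc κ} (hr : Dle r 0) {z : E} (hz : InMi e a z) : InMi e a (r • z) := by
  intro i
  rw [smul_mul_assoc, map_smul, smul_eq_mul]
  have h := dle_mul hr (hz i)
  rwa [zero_add] at h

theorem inMi_sum {ι : Type*} (s : Finset ι) (z : ι → E) (h : ∀ i ∈ s, InMi e a (z i)) :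
    InMi e a (∑ i ∈ s, z i) := by
  exact Finset.sum_induction z (InMi e a) (fun _ _ => inMi_add) inMi_zero h

theorem Cw.inMi_mul (H : Cw e a i0 f dK d) {c z : E} (hc : InCi e a c) (hz : InMi e a z) :
    InMi e a (c * z) := by
  intro j
  have h0 : c * z * e j = z * (c * e j) := by ring
  rw [h0, latB2_tr_mul e z (c * e j)]
  refine dle_sum _ _ _ fun l _ => ?_
  have h1 : Dle (e.repr (c * e j) l) ((a j : ℤ) - a l) := by
    rw [latB2_repr_mul_e]
    refine dle_sum _ _ _ fun i _ => ?_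
    exact dle_mono (dle_mul (hc i) (H.mul i j l).2) (by omega)
  exact dle_mono (dle_mul h1 (hz l)) (by omega)

theorem Cw.inMi_d (H : Cw e a i0 f dK d) {z : E} (hz : InCi e a z) : InMi e a (d z) := by
  intro j
  have hsm : ∀ (r : RatFunc κ) (w : E), d (r • w) = dK r • w + r • d w := by
    intro r w
    rw [Algebra.smul_def, Derivation.leibniz, H.d_alg, smul_eq_mul, smul_eq_mul, Algebra.smul_def,
      Algebra.smul_def]
    ring
  have h1 : d z = ∑ i, (dK (e.repr z i) • e i + e.repr z i • d (e i)) := by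
    conv_lhs => rw [← e.sum_repr z, map_sum]
    exact Finset.sum_congr rfl fun i _ => hsm _ _
  have h2 : Tr κ E (d z * e j) = ∑ i, ((dK (e.repr z i) +
      (a i : RatFunc κ) * RatFunc.X⁻¹ * e.repr z i) * Tr κ E (e i * e j) +
      e.repr z i * (Tr κ E (d (e i) * e j) -
        (a i : RatFunc κ) * RatFunc.X⁻¹ * Tr κ E (e i * e j))) := by
    rw [h1, Finset.sum_mul, map_sum]
    refine Finset.sum_congr rfl fun i _ => ?_
    rw [add_mul, map_add, smul_mul_assoc, smul_mul_assoc, map_smul, map_smul, smul_eq_mul,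
      smul_eq_mul]
    ring
  rw [h2]
  refine dle_sum _ _ _ fun i _ => dle_add ?_ ?_
  · exact dle_mono (dle_mul (dK_twist H.dK_pol (a i) (hz i)) (H.tr_ee i j).2) (by omega)
  · exact dle_mono (dle_mul (hz i) (H.derI i j)) (by omega)

theorem Cw.inMi_f (H : Cw e a i0 f dK d) (i : Fin n) :
    InMi e a ((RatFunc.X : RatFunc κ) ^ ((a i : ℤ) - 2) • f i) := by
  intro j
  rw [smul_mul_assoc, map_smul, smul_eq_mul, H.dual]
  by_cases h : i = j
  · rw [if_pos h, mul_one, h]
    exact dle_zpow _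
  · rw [if_neg h, mul_zero]
    exact dle_zero _

theorem Cw.exists_gen (H : Cw e a i0 f dK d) {z : E} (hz : InM e z) :
    ∃ (N : ℕ) (u b : Fin N → E), (∀ s, InB e (u s)) ∧ (∀ s, InB e (b s)) ∧
      z = ∑ s, u s * d (b s) := by
  classical
  choose N u b hu hb hf using H.genB
  obtain ⟨t, ht⟩ : ∃ t : Fin n → RatFunc κ, ∀ i, t i = Tr κ E (z * e i) := ⟨_, fun i => rfl⟩
  have htp : ∀ i, IsPol (t i) := fun i => by
    rw [ht]
    exact hz i
  have h1 : z = ∑ i, ∑ s : Fin (N i), (t i • u i s) * d (b i s) := by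
    have h2 := H.sum_f z
    rw [h2]
    refine Finset.sum_congr rfl fun i _ => ?_
    rw [← ht i, hf i, Finset.smul_sum]
    refine Finset.sum_congr rfl fun s _ => ?_
    rw [smul_mul_assoc]
  refine ⟨Fintype.card (Σ i : Fin n, Fin (N i)),
    fun s => t ((Fintype.equivFin (Σ i : Fin n, Fin (N i))).symm s).1 •
      u ((Fintype.equivFin (Σ i : Fin n, Fin (N i))).symm s).1
        ((Fintype.equivFin (Σ i : Fin n, Fin (N i))).symm s).2,
    fun s => b ((Fintype.equivFin (Σ i : Fin n, Fin (N i))).symm s).1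
        ((Fintype.equivFin (Σ i : Fin n, Fin (N i))).symm s).2,
    fun s => inB_smul (htp _) (hu _ _), fun s => hb _ _, ?_⟩
  have h3 := Equiv.sum_comp (Fintype.equivFin (Σ i : Fin n, Fin (N i))).symm
    (fun p : (Σ i : Fin n, Fin (N i)) => (t p.1 • u p.1 p.2) * d (b p.1 p.2))
  rw [h3, Fintype.sum_sigma]
  exact h1

theorem Cw.exists_geni (H : Cw e a i0 f dK d) : ∃ w, InCi e a w ∧
    ∀ z, InMi e a z → ∃ c, InCi e a c ∧ z = c * d w := by
  obtain ⟨w, hw, h⟩ := H.genI
  choose c hc hf using h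
  refine ⟨w, hw, fun z hz => ?_⟩
  have hX : (RatFunc.X : RatFunc κ) ≠ 0 := RatFunc.X_ne_zero
  refine ⟨∑ i, (Tr κ E (z * e i) * (RatFunc.X : RatFunc κ) ^ (2 - (a i : ℤ))) • c i,
    inCi_sum _ _ fun i _ => inCi_smul ?_ (hc i), ?_⟩
  · have h1 := Dle.mul (hz i) (dle_zpow (κ := κ) (2 - (a i : ℤ)))
    have e1 : (a i : ℤ) - 2 + (2 - (a i : ℤ)) = 0 := by ring
    rw [e1] at h1
    exact h1
  · have h2 := H.sum_f z
    rw [Finset.sum_mul]
    refine h2.trans (Finset.sum_congr rfl fun i _ => ?_)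
    have e2 : (RatFunc.X : RatFunc κ) ^ (2 - (a i : ℤ)) * (RatFunc.X : RatFunc κ) ^ ((a i : ℤ) - 2) = 1 := by
      rw [← zpow_add₀ hX]
      have e3 : 2 - (a i : ℤ) + ((a i : ℤ) - 2) = 0 := by ring
      rw [e3, zpow_zero]
    rw [smul_mul_assoc, ← hf i, smul_smul, mul_assoc, e2, mul_one]

end MPadcCM
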