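import Pool.Agent.Lib.MP_adc574_ag_CM.LcP

/-!
# LcA: the trace dual of the integral closure of a discrete valuation ring, and derivations

`S ⊂ K` a discrete valuation ring with uniformizer `π` and residue field `k` (algebraically closed, characteristic 0), `L / K` finite, `C = integralClosure S L` (Dedekind, finite over `S`; the instances are available from `integralClosure.isDedekindDomain S K L`, `integralClosure.isFractionRing_of_finite_extension K L`, `IsIntegralClosure.finite S K L (integralClosure S L)` (needs `CharZero K`), see the proofs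
of `local_log`, `local_any`, `local_tame` in `Cov/Loc.lean`: COPY their patterns). `δ` is a derivation of `L` with `δ π = 1` which maps `S` to `S` and kills the constants (`LD`). `P.valuation L` is written multiplicatively: `exp (-1)` = order 1.
* JOB LcA1: - `val_pi_lt`: `loc_pi_mem` and `P.valuation_lt_one_iff_mem`. `val_const`: as `hvk` in the proof of `loc_log_val`. `val_res`: as in the proof of `loc_log_val` (last part: `HeightOneSpectrum.exists_valuation_sub_lt_of_integer P hx 1`, `loc_residue`).
  - `val_del_le`: `loc_log_val` for `(π : K) • δK` and `algebraMap K L π • δ`, as `hval` in the proof of `local_any` in `Cov/Loc.lean`.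
  - `val_del_lt`: `z = c + z'` with `v z' < 1` (`val_res`), `δ c = 0` (`LD.const`), `val_del_le` for `z'`.
  - `val_del_eq`: let `z ≠ 0`, `v z = exp (-q)`, `q ≠ 0`, `v π = exp (-e)`, `e > 0` (`val_pi_lt`, as in `loc_log_val`). `y := z ^ e * π ^ (-q)` (integer powers) has `v y = 1`. `π * δ y / y = e * (π * δ z / z) - q` (`LD.pi`: `δ π = 1`; `Derivation.leibniz`, `Derivation.leibniz_pow`/`leibniz_zpow`..; or multiply out), and `v (π * δ y) < 1` (`val_del_lt`), so `v (e * (π * δ z / z) - q) < 1`; `v q = v e = 1` (nonzero integers are nonzero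
    constants of `k`: `val_const` with `c = (q : k)`), so `v (e * (π * δ z / z)) = 1` (otherwise `v q ≤ max ..< 1`...: if `v (X - q) < 1` and `v q = 1` then `v X = 1`, `Valuation.map_add_eq_of_lt_left`/`Valuation.map_sub_eq_of_lt_..`), hence `v (π * δ z) = v z`. For `z = 0` both sides are `0`.
* JOB LcA2: - `ms_iff`: (⇒) `local_tame` (Cov/Loc.lean) gives `y := π m ∈ C`; for `r ∈ C`: `Tr (y r) = π Tr (m r) ∈ π S`, so `y ∈ P` by `loc_mem_of_trace` (with `loc_trace`), `valuation_lt_one_iff_mem`. (⇐) `v_P (π m) < 1` for all `P` gives `π m ∈ C` (`HeightOneSpectrum.mem_integers_of_valuation_le_one`) and in all `P`; for `z ∈ C`: `π ∣ Tr (π m z)` (`loc_trace_mem` for `y * z`), so `Tr (m z) ∈ S`: this is the end of the proof of `local_any`.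
  - `exists_unif`: the set of all `P` is finite (they contain `π ≠ 0`: `Ideal.finite_factors`), choose `x P ∈ P` with `x P ∉ P ^ 2` (valuation `exp (-1)`: `HeightOneSpectrum.valuation_exists_uniformizer`/`intValuation_exists_uniformizer`), and `w ∈ C` with `w - x P ∈ P ^ 2` for all `P` (`IsDedekindDomain.exists_forall_sub_mem_ideal`), `v (w - x P) ≤ exp (-2)` (`HeightOneSpectrum.intValuation_le_pow_iff_mem`), so `v w = exp (-1)`.
* JOB LcA3: `ms_mul`: `z * w` is integral. `ms_del`: `local_any` (Cov/Loc.lean) with `ΔK = δK`. `int_of_ms_del`: by `ms_iff` `v (π δ G) < 1` for all `P`; if `v G > 1` then `v G ≠ 1` and `v (π δ G) = v G > 1` (`val_del_eq`), contradiction; so `v G ≤ 1` for all `P` and `G ∈ C`.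
  - `exists_w`: `w` from `exists_unif` (`w ∈ C` as `v w ≤ 1`). `δ w ≠ 0` because `v (π δ w) = v w = exp (-1)` (`val_del_eq`). `c := m / δ w`: `v (π m) < 1` means `≤ exp (-1) = v (π δ w)`, so `v c ≤ 1` for all `P`, `c ∈ C`.
  - `br_ms`: `D₁ := D - (D π) • δ` as a derivation of `L` over `DK - (DK π) • δK` (preserves `S`, kills `π`): `D₁ u ∈ C` for `u ∈ C` by `local_log` (`w = 0`). `D u * δ b - δ u * D b = D₁ u * δ b - D₁ b * δ u` (`ring`), `ms_mul`, `ms_del`, and `MS` is closed under subtraction.
-/

set_option autoImplicit false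

namespace MPadcCM

open IsDedekindDomain WithZero MPadcCov

/-- The trace dual of the integral closure of `S`. -/
def MS {K : Type*} [Field K] (S : Subring K) {L : Type*} [Field L] [Algebra K L] (m : L) : Prop :=
  ∀ z : L, IntS S z → Algebra.trace K L (m * z) ∈ S

/-- A derivation with `δ π = 1`, which kills the constants. -/
structure LD {k K L : Type*} [Field k] [Field K] [Field L] [Algebra K L] (S : Subring K)
    (ι : k →+* K) (π : S) (δK : Derivation ℤ K K) (δ : Derivation ℤ L L) : Prop where
  alg : ∀ r, δ (algebraMap K L r) = algebraMap K L (δK r)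
  mapS : ∀ r ∈ S, δK r ∈ S
  pi : δK π = 1
  const : ∀ c : k, δK (ι c) = 0

variable {k K L : Type*} [Field k] [IsAlgClosed k] [CharZero k] [Field K] [Field L] [Algebra K L]
  [FiniteDimensional K L] (S : Subring K) [IsDiscreteValuationRing S] [IsFractionRing S K]
  (ι : k →+* K) (hι : ∀ c, ι c ∈ S) (π : S) (hπ : Irreducible π)
  (hres : ∀ r : S, ∃ c : k, π ∣ r - ⟨ι c, hι c⟩) {δK : Derivation ℤ K K} {δ : Derivation ℤ L L}
  (hδ : LD S ι π δK δ)

include hπ hres

section val

variable [IsDedekindDomain (integralClosure S L)] [IsFractionRing (integralClosure S L) L]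
  [Module.Finite S (integralClosure S L)]

theorem val_pi_lt (P : HeightOneSpectrum (integralClosure S L)) :
    P.valuation L (algebraMap K L π) < 1 := by
  exact (P.valuation_lt_one_iff_mem (K := L) (algebraMap S (integralClosure S L) π)).2
    (loc_pi_mem hπ P)

theorem val_const (P : HeightOneSpectrum (integralClosure S L)) (c : k) (hc : c ≠ 0) :
    P.valuation L (algebraMap K L (ι c)) = 1 := by
  have hvS : ∀ r ∈ S, P.valuation L (algebraMap K L r) ≤ 1 := fun r hr =>
    P.valuation_le_one (K := L) (algebraMap S (integralClosure S L) ⟨r, hr⟩)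
  apply le_antisymm (hvS _ (hι c))
  have h1 : algebraMap K L (ι c) * algebraMap K L (ι c⁻¹) = 1 := by
    rw [← map_mul, ← map_mul, mul_inv_cancel₀ hc, map_one, map_one]
  have h2 := congrArg (P.valuation L) h1
  rw [map_mul, map_one] at h2
  calc (1 : WithZero (Multiplicative ℤ)) =
        P.valuation L (algebraMap K L (ι c)) * P.valuation L (algebraMap K L (ι c⁻¹)) := h2.symm
    _ ≤ P.valuation L (algebraMap K L (ι c)) * 1 := mul_le_mul_right (hvS _ (hι _)) _
    _ = P.valuation L (algebraMap K L (ι c)) := mul_one _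

theorem val_res (P : HeightOneSpectrum (integralClosure S L)) (z : L)
    (hz : P.valuation L z ≤ 1) : ∃ c : k, P.valuation L (z - algebraMap K L (ι c)) < 1 := by
  obtain ⟨a, ha⟩ := HeightOneSpectrum.exists_valuation_sub_lt_of_integer P hz 1
  obtain ⟨c, hc⟩ := loc_residue hπ (ι.codRestrict S hι) hres P a
  refine ⟨c, ?_⟩
  have h1 : P.valuation L (algebraMap (integralClosure S L) L a - algebraMap K L (ι c)) < 1 :=
    (P.valuation_lt_one_iff_mem (K := L) _).2 hc
  have h3 : z - algebraMap K L (ι c) =
      (algebraMap (integralClosure S L) L a - algebraMap K L (ι c)) -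
      (algebraMap (integralClosure S L) L a - z) := by
    ring
  rw [h3]
  refine (Valuation.map_sub (P.valuation L) _ _).trans_lt (max_lt h1 ?_)
  exact ha

include hδ

theorem val_del_le (P : HeightOneSpectrum (integralClosure S L)) (z : L) :
    P.valuation L (algebraMap K L π * δ z) ≤ P.valuation L z := by
  exact loc_log_val S ι hι π hπ hres ((π : K) • δK) (algebraMap K L π • δ)
    (fun r => by
      change algebraMap K L π * δ (algebraMap K L r) = algebraMap K L (π * δK r)
      rw [hδ.alg, map_mul])
    (fun r hr => S.mul_mem π.2 (hδ.mapS r hr)) ⟨δK π, hδ.mapS _ π.2, rfl⟩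
    (C := integralClosure S L) (fun _ => rfl) P z

theorem val_del_lt (P : HeightOneSpectrum (integralClosure S L)) (z : L)
    (hz : P.valuation L z ≤ 1) : P.valuation L (algebraMap K L π * δ z) < 1 := by
  obtain ⟨c, hc⟩ := val_res S ι hι π hπ hres P z hz
  have h1 : δ z = δ (z - algebraMap K L (ι c)) := by
    rw [map_sub, hδ.alg, hδ.const, map_zero, sub_zero]
  rw [h1]
  exact (val_del_le S ι hι π hπ hres hδ P _).trans_lt hc

theorem val_del_eq (P : HeightOneSpectrum (integralClosure S L)) (z : L)
    (hz : P.valuation L z ≠ 1) : P.valuation L (algebraMap K L π * δ z) = P.valuation L z := by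
  rcases eq_or_ne z 0 with h0 | h0
  · rw [h0, map_zero, mul_zero]
  have hπ0 : algebraMap K L π ≠ 0 := by
    rw [Ne, map_eq_zero]
    intro h
    exact hπ.ne_zero (Subtype.ext h)
  obtain ⟨v, hv⟩ : ∃ v, v = P.valuation L := ⟨_, rfl⟩
  obtain ⟨p, hp⟩ : ∃ p, p = algebraMap K L (π : K) := ⟨_, rfl⟩
  have hvp : v p < 1 := by
    rw [hv, hp]
    exact val_pi_lt S ι hι π hπ hres P
  have hlt : ∀ y, v y ≤ 1 → v (p * δ y) < 1 := by
    intro y hy
    rw [hv] at hy
    rw [hv, hp]
    exact val_del_lt S ι hι π hπ hres hδ P y hy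
  rw [← hp] at hπ0
  rw [← hv] at hz
  rw [← hv, ← hp]
  have hvint : ∀ i : ℤ, i ≠ 0 → v (i : L) = 1 := by
    intro i hi
    have h1 := val_const S ι hι π hπ hres P ((i : ℤ) : k) (Int.cast_ne_zero.2 hi)
    rw [map_intCast, map_intCast] at h1
    rw [hv]
    exact h1
  have hδp : δ p = 1 := by
    rw [hp, hδ.alg, hδ.pi, map_one]
  have hvp0 : v p ≠ 0 := (Valuation.ne_zero_iff v).2 hπ0
  have hvz0 : v z ≠ 0 := (Valuation.ne_zero_iff v).2 h0
  obtain ⟨e, he, hve⟩ : ∃ e : ℤ, e < 0 ∧ v p = exp e := by
    refine ⟨log (v p), ?_, (exp_log hvp0).symm⟩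
    rw [← exp_lt_exp, exp_log hvp0, exp_zero]
    exact hvp
  obtain ⟨q, hq, hvq⟩ : ∃ q : ℤ, q ≠ 0 ∧ v z = exp q := by
    refine ⟨log (v z), ?_, (exp_log hvz0).symm⟩
    intro h
    apply hz
    rw [← exp_log hvz0, h, exp_zero]
  have hvy : v (z ^ e * p ^ (-q)) = 1 := by
    rw [map_mul, map_zpow₀, map_zpow₀, hve, hvq, ← exp_zsmul, ← exp_zsmul, ← exp_add, ← exp_zero]
    congr 1
    rw [smul_eq_mul, smul_eq_mul]
    ring
  have hy0 : z ^ e * p ^ (-q) ≠ 0 := mul_ne_zero (zpow_ne_zero _ h0) (zpow_ne_zero _ hπ0)
  have h1 := hlt _ hvy.le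
  have h2 : p * δ (z ^ e * p ^ (-q)) = z ^ e * p ^ (-q) * ((e : L) * (p * δ z / z) - (q : L)) := by
    rw [Derivation.leibniz, Derivation.leibniz_zpow, Derivation.leibniz_zpow, hδp]
    simp only [smul_eq_mul, zsmul_eq_mul]
    rw [zpow_sub_one₀ h0, zpow_sub_one₀ hπ0]
    push_cast
    field_simp
    ring
  rw [h2, map_mul, hvy, one_mul] at h1
  have h3 : v ((e : L) * (p * δ z / z)) = 1 := by
    have h4 : (e : L) * (p * δ z / z) = ((e : L) * (p * δ z / z) - (q : L)) + (q : L) := by ring
    rw [h4, Valuation.map_add_eq_of_lt_right, hvint q hq]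
    rw [hvint q hq]
    exact h1
  rw [map_mul, hvint e he.ne, one_mul, map_div₀, div_eq_one_iff_eq hvz0] at h3
  exact h3

end val


theorem ms_iff [IsDedekindDomain (integralClosure S L)] [IsFractionRing (integralClosure S L) L]
    (m : L) : MS S m ↔ ∀ P : HeightOneSpectrum (integralClosure S L),
      P.valuation L (algebraMap K L π * m) < 1 := by
  have hcK : CharZero K := charZero_of_injective_ringHom ι.injective
  have hfin : Module.Finite S (integralClosure S L) :=
    IsIntegralClosure.finite S K L (integralClosure S L)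
  have htf : Module.IsTorsionFree S L := loc_tf S
  have hfree : Module.Free S (integralClosure S L) :=
    IsIntegralClosure.module_free S K L (integralClosure S L)
  constructor
  · intro hm P
    have hy : IsIntegral S (algebraMap K L π * m) := local_tame S ι hι π hπ hres m hm
    refine (P.valuation_lt_one_iff_mem (K := L)
      (⟨algebraMap K L π * m, hy⟩ : integralClosure S L)).2 ?_
    refine loc_mem_of_trace (ι.codRestrict S hι) hπ _ ?_ P
    intro r
    have h1 := hm (r : L) r.2
    refine ⟨⟨_, h1⟩, ?_⟩
    apply Subtype.ext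
    rw [loc_trace S]
    have h2 : (((⟨algebraMap K L π * m, hy⟩ : integralClosure S L) * r :
        integralClosure S L) : L) = (π : K) • (m * (r : L)) := by
      change algebraMap K L π * m * (r : L) = (π : K) • (m * (r : L))
      rw [Algebra.smul_def]
      ring
    rw [h2, map_smul, smul_eq_mul]
    rfl
  · intro hlt z hz
    have hz' : IsIntegral S z := hz
    obtain ⟨y, hy⟩ := HeightOneSpectrum.mem_integers_of_valuation_le_one
      (R := integralClosure S L) L (algebraMap K L π * m) (fun P => (hlt P).le)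
    have hyP : ∀ P : HeightOneSpectrum (integralClosure S L), y ∈ P.asIdeal := by
      intro P
      refine (P.valuation_lt_one_iff_mem (K := L) y).1 ?_
      have h1 := hlt P
      rw [← hy] at h1
      exact h1
    let z' : integralClosure S L := ⟨z, hz'⟩
    obtain ⟨t, ht⟩ := loc_trace_mem hπ (loc_inj S) (y * z')
      (fun P => P.asIdeal.mul_mem_right _ (hyP P))
    have h5 := loc_trace S (y * z')
    rw [ht] at h5
    have h6 : ((y * z' : integralClosure S L) : L) = (π : K) • (m * z) := by
      have h7 : (y : L) = algebraMap K L π * m := hy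
      change (y : L) * z = _
      rw [h7, Algebra.smul_def, mul_assoc]
    rw [h6, map_smul, smul_eq_mul] at h5
    have h8 : (π : K) * (t : K) = (π : K) * Algebra.trace K L (m * z) := h5
    have hπ0 : (π : K) ≠ 0 := fun h => hπ.ne_zero (Subtype.ext h)
    rw [← mul_left_cancel₀ hπ0 h8]
    exact t.2

theorem exists_unif [IsDedekindDomain (integralClosure S L)]
    [IsFractionRing (integralClosure S L) L] :
    ∃ w : L, ∀ P : HeightOneSpectrum (integralClosure S L), P.valuation L w = exp (-1 : ℤ) := by
  classical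
  have hI : Ideal.span {algebraMap S (integralClosure S L) π} ≠ 0 := by
    rw [Ne, Ideal.zero_eq_bot, Ideal.span_singleton_eq_bot]
    intro h
    rw [← map_zero (algebraMap S (integralClosure S L))] at h
    exact hπ.ne_zero (loc_inj S h)
  have hfin := Ideal.finite_factors hI
  have huniv : {v : HeightOneSpectrum (integralClosure S L) |
      v.asIdeal ∣ Ideal.span {algebraMap S (integralClosure S L) π}} = Set.univ := by
    refine Set.eq_univ_of_forall fun P => ?_
    rw [Set.mem_setOf_eq, Ideal.dvd_span_singleton]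
    exact loc_pi_mem hπ P
  rw [huniv] at hfin
  choose x hx using fun P : HeightOneSpectrum (integralClosure S L) =>
    P.intValuation_exists_uniformizer
  obtain ⟨w, hw⟩ := IsDedekindDomain.exists_forall_sub_mem_ideal (s := hfin.toFinset)
    (fun P : HeightOneSpectrum (integralClosure S L) => P.asIdeal) (fun _ => 2)
    (fun P _ => P.prime) (fun P _ P' _ hne h => hne (HeightOneSpectrum.ext h)) (fun P => x P)
  refine ⟨algebraMap (integralClosure S L) L w, fun P => ?_⟩
  have h1 := hw P (hfin.mem_toFinset.2 (Set.mem_univ P))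
  rw [← HeightOneSpectrum.intValuation_le_pow_iff_mem] at h1
  rw [P.valuation_of_algebraMap, ← hx P]
  refine Valuation.map_eq_of_sub_lt _ (h1.trans_lt ?_)
  rw [hx P, exp_lt_exp]
  norm_num

omit [FiniteDimensional K L] [IsDiscreteValuationRing S] [IsFractionRing S K] [IsAlgClosed k]
  [CharZero k] hπ hres in
theorem ms_mul {c m : L} (hc : IntS S c) (hm : MS S m) : MS S (c * m) := by
  intro z hz
  have h1 : c * m * z = m * (c * z) := by ring
  rw [h1]
  exact hm _ (RingHom.IsIntegralElem.mul _ hc hz)

omit [FiniteDimensional K L] [IsDiscreteValuationRing S] [IsFractionRing S K] [IsAlgClosed k]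
  [CharZero k] hπ hres in
private theorem lca3_ms_sub {m n : L} (hm : MS S m) (hn : MS S n) : MS S (m - n) := by
  intro z hz
  rw [sub_mul, map_sub]
  exact S.sub_mem (hm z hz) (hn z hz)

omit [FiniteDimensional K L] [IsDiscreteValuationRing S] [IsFractionRing S K] [IsAlgClosed k]
  [CharZero k] hπ hres in
private theorem lca3_int [IsDedekindDomain (integralClosure S L)]
    [IsFractionRing (integralClosure S L) L] (z : L)
    (h : ∀ P : HeightOneSpectrum (integralClosure S L), P.valuation L z ≤ 1) : IntS S z := by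
  obtain ⟨y, hy⟩ := HeightOneSpectrum.mem_integers_of_valuation_le_one
    (R := integralClosure S L) L z h
  have h1 : IsIntegral S (y : L) := y.2
  have h2 : (y : L) = z := hy
  rw [h2] at h1
  exact h1

omit [FiniteDimensional K L] [IsAlgClosed k] [CharZero k] hres in
private theorem lca3_exists_P [IsDedekindDomain (integralClosure S L)]
    [IsFractionRing (integralClosure S L) L] :
    Nonempty (HeightOneSpectrum (integralClosure S L)) := by
  by_contra hne
  rw [not_nonempty_iff] at hne
  have h1 : IntS S (algebraMap K L ((π : K)⁻¹)) := lca3_int S _ (fun P => (hne.false P).elim)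
  have h2 : IsIntegral S (algebraMap K L ((π : K)⁻¹)) := h1
  have h3 : IsIntegral S ((π : K)⁻¹) :=
    (isIntegral_algebraMap_iff (algebraMap K L).injective).1 h2
  obtain ⟨y, hy⟩ := IsIntegrallyClosed.isIntegral_iff.1 h3
  have hπ0 : (π : K) ≠ 0 := fun h => hπ.ne_zero (Subtype.ext h)
  have hy' : (y : K) = (π : K)⁻¹ := hy
  have h4 : π * y = 1 := by
    apply Subtype.ext
    change (π : K) * (y : K) = 1
    rw [hy']
    exact mul_inv_cancel₀ hπ0
  exact hπ.not_isUnit (IsUnit.of_mul_eq_one y h4)

omit [FiniteDimensional K L] [IsDiscreteValuationRing S] [IsFractionRing S K] [IsAlgClosed k]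
  [CharZero k] hπ hres in
private theorem lca3_lt_one (x : WithZero (Multiplicative ℤ)) (hx : x < 1) :
    x ≤ exp (-1 : ℤ) := by
  rcases eq_or_ne x 0 with h0 | h0
  · rw [h0]
    exact zero_le
  · have h1 := exp_log h0
    have h2 : log x < 0 := by
      rw [← exp_lt_exp, h1, exp_zero]
      exact hx
    rw [← h1, exp_le_exp]
    omega

include hδ

theorem ms_del {z : L} (hz : IntS S z) : MS S (δ z) := by
  intro w hw
  exact local_any S ι hι π hπ hres δK δ hδ.alg hδ.mapS z w hz hw

theorem int_of_ms_del (G : L) (h : MS S (δ G)) : IntS S G := by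
  have hcK : CharZero K := charZero_of_injective_ringHom ι.injective
  have hded : IsDedekindDomain (integralClosure S L) := integralClosure.isDedekindDomain S K L
  have hfr : IsFractionRing (integralClosure S L) L :=
    integralClosure.isFractionRing_of_finite_extension K L
  have hfin : Module.Finite S (integralClosure S L) :=
    IsIntegralClosure.finite S K L (integralClosure S L)
  apply lca3_int S
  intro P
  by_contra hlt
  have h1 : P.valuation L G ≠ 1 := fun h1 => hlt h1.le
  have h2 := val_del_eq S ι hι π hπ hres hδ P G h1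
  have h3 := (ms_iff S ι hι π hπ hres (δ G)).1 h P
  rw [h2] at h3
  exact hlt h3.le

theorem exists_w : ∃ w, IntS S w ∧ ∀ m, MS S m → ∃ c, IntS S c ∧ m = c * δ w := by
  have hcK : CharZero K := charZero_of_injective_ringHom ι.injective
  have hded : IsDedekindDomain (integralClosure S L) := integralClosure.isDedekindDomain S K L
  have hfr : IsFractionRing (integralClosure S L) L :=
    integralClosure.isFractionRing_of_finite_extension K L
  have hfin : Module.Finite S (integralClosure S L) :=
    IsIntegralClosure.finite S K L (integralClosure S L)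
  obtain ⟨w, hw⟩ := exists_unif (L := L) S ι hι π hπ hres
  have hexp : exp (-1 : ℤ) < (1 : WithZero (Multiplicative ℤ)) := by
    rw [← exp_zero, exp_lt_exp]
    omega
  have hπ0 : algebraMap K L π ≠ 0 := by
    rw [Ne, map_eq_zero]
    intro h
    exact hπ.ne_zero (Subtype.ext h)
  have hdw : ∀ P : HeightOneSpectrum (integralClosure S L),
      P.valuation L (algebraMap K L π * δ w) = exp (-1 : ℤ) := by
    intro P
    have h1 : P.valuation L w ≠ 1 := by
      rw [hw P]
      exact hexp.ne
    rw [val_del_eq S ι hι π hπ hres hδ P w h1, hw P]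
  have hdw0 : δ w ≠ 0 := by
    intro h0
    obtain ⟨P⟩ := lca3_exists_P (L := L) S π hπ
    have h1 := hdw P
    rw [h0, mul_zero, map_zero] at h1
    exact exp_ne_zero h1.symm
  refine ⟨w, lca3_int S w (fun P => ?_), ?_⟩
  · rw [hw P]
    exact hexp.le
  · intro m hm
    refine ⟨m / δ w, lca3_int S _ (fun P => ?_), (div_mul_cancel₀ m hdw0).symm⟩
    have h1 : P.valuation L (algebraMap K L π * m) ≤ exp (-1 : ℤ) :=
      lca3_lt_one _ ((ms_iff S ι hι π hπ hres m).1 hm P)
    have h2 : algebraMap K L π * m = algebraMap K L π * δ w * (m / δ w) := by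
      field_simp
    rw [h2, map_mul, hdw P] at h1
    have h3 : (0 : WithZero (Multiplicative ℤ)) < exp (-1 : ℤ) := exp_pos
    by_contra hlt
    rw [not_le] at hlt
    have h4 : exp (-1 : ℤ) * 1 < exp (-1 : ℤ) * P.valuation L (m / δ w) :=
      mul_lt_mul_of_pos_left hlt h3
    rw [mul_one] at h4
    exact absurd h1 (not_le.2 h4)

theorem br_ms {DK : Derivation ℤ K K} {D : Derivation ℤ L L}
    (hD : ∀ r, D (algebraMap K L r) = algebraMap K L (DK r)) (hDS : ∀ r ∈ S, DK r ∈ S)
    {u b : L} (hu : IntS S u) (hb : IntS S b) : MS S (D u * δ b - δ u * D b) := by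
  have key : ∀ z : L, IntS S z → IntS S (D z - algebraMap K L (DK π) * δ z) := by
    intro z hz
    refine local_log S ι hι π hπ hres (DK - (DK π) • δK) (D - (algebraMap K L (DK π)) • δ)
      ?_ ?_ ⟨0, S.zero_mem, ?_⟩ z hz
    · intro r
      change D (algebraMap K L r) - algebraMap K L (DK π) * δ (algebraMap K L r) =
        algebraMap K L (DK r - DK π * δK r)
      rw [hD, hδ.alg, map_sub, map_mul]
    · intro r hr
      exact S.sub_mem (hDS r hr) (S.mul_mem (hDS _ π.2) (hδ.mapS r hr))
    · change DK π - DK π * δK π = π * 0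
      rw [hδ.pi, mul_one, sub_self, mul_zero]
  have h1 : D u * δ b - δ u * D b = (D u - algebraMap K L (DK π) * δ u) * δ b -
      (D b - algebraMap K L (DK π) * δ b) * δ u := by
    ring
  rw [h1]
  exact lca3_ms_sub S (ms_mul S (key u hu) (ms_del S ι hι π hπ hres hδ hb))
    (ms_mul S (key b hb) (ms_del S ι hι π hπ hres hδ hu))

end MPadcCM
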