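import Pool.Agent.Lib.MP_adc574_ag_CM.LcA
import Pool.Agent.Lib.MP_adc574_ag_CM.LatA
import Pool.Agent.Lib.MP_adc574_ag_CM.DeA
import Pool.Agent.Lib.MP_adc574_ag_Cov.Pt

/-!
# LcB: the local conditions at the points of the line

`e` is a Birkhoff basis of the finite field extension `L` of `k(x)`: `hX`, `hI`. `Rb b` = rational functions without pole at `b`, `Oinf k` = degree `≤ 0` (`Cov/LocR.lean`: `isPol_iff`, `mem_Rb_iff`, `irreducible_Rb`, `residue_Rb`, `irreducible_Oinf`, `residue_Oinf`), `IntS (Oinf k) z` is `IntO k z` by definition (`Iff.rfl`). `intRb_iff hX b z : IntS (Rb b) z ↔ ∀ i, e.repr z i ∈ Rb b`, `inB_of_local`.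
The constants are `ι = (algebraMap k[X] (RatFunc k)).comp C`. See `pt_log`, `pt_any`, `derRb`, `inf_log` in `Cov/Pt.lean` for the way the local theorems are applied, in particular the conversion `Pt_der` of a `Derivation ℤ (RatFunc k) (RatFunc k)` to the other `Algebra ℤ (RatFunc k)` instance (copy it).
* JOB LcB1: - `ms_int_b` / `inM_iff_ms`: (⇒) `z` integral over `Rb b`: `z = ∑ z_i • e i`, `z_i ∈ Rb b`, `Tr (m z) = ∑ z_i Tr (m e i) ∈ Rb b` (`pol_mem_Rb`). (⇐) `Tr (m * e i) ∈ Rb b` for all `b` (`e i` is integral: `hX`, `intS_of_intX`), `isPol_iff`.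
  - `inMi_iff_ms`: `InMi e a m ↔ MS (Oinf k) (X ^ 2 • m)`: the elements integral over `Oinf` are the `∑ z_i • e i` with `Dle z_i (-a i)`; `Tr (X ^ 2 • m * (X ^ (-a i) • e i)) = X ^ (2 - a i) * Tr (m * e i)`, `dle_xpow_mul`.
  - `ld_b`, `ld_inf`: `LD` for `Rb b`, `π = pol (X - C b)`, `dK`, `d` (`derRb`), and for `Oinf k`, `π = X⁻¹`, `-(X ^ 2) • dK`, `-(X ^ 2) • d` (here as existence statements which hide the instance conversion): `dK X⁻¹ = -X⁻²` (`dK_xpow` with `N = -1`), `Dle r 0 → Dle (X ^ 2 * dK r) 0` by `dle_dK0` (LatA).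
* JOB LcB2 (four consequences): `b_del` (`InB z → InM (d z)`): `ms_del` at every `b`. `b_int` (`InM (d G) → InB G`): `int_of_ms_del` at every `b`, `inB_of_local`. `i_del`: `InCi z → InMi (d z)` and `i_int`: `InMi (d G) → InCi G` from `ms_del`, `int_of_ms_del` for `Oinf` (`hI`) (`X ^ 2 • d z = -(δ z)`, `MS` is closed under negation).
  `b_w`: for every `b` there is `w` integral over `Rb b` such that every `m ∈ M` is `c * d w` with `c` integral over `Rb b` (`exists_w`). `i_w`: there is `w ∈ Ci` such that every `m ∈ Mi` is `c * d w`, `c ∈ Ci`: `exists_w` for `Oinf` gives `X ^ 2 • m = c * (-(X ^ 2) • d w)`, so `m = (-c) * d w`.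
  `b_br`: `u, b' ∈ B`: `D u * d b' - d u * D b' ∈ M`: `br_ms` at every `b` with `DK` from `exists_DK δ`, (`IsLiftE.alg` is in DeB; here the hypothesis is `hD : D (algebraMap r) = algebraMap (DK r)`), `derRb` with `hP` from `hDK`. `i_lift`: `InCi z → InCi (D z)`: `inf_log` (Cov/Pt.lean) with `DK_dle`, `DK X⁻¹ = 0` (`DK_xpow`), `w = 0`.
-/

set_option autoImplicit false

namespace MPadcCM

open Polynomial MPadcCov

variable {k : Type*} [Field k] [IsAlgClosed k] [CharZero k] {L : Type*} [Field L]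
  [Algebra (RatFunc k) L] [FiniteDimensional (RatFunc k) L] {n : ℕ}
  {e : Module.Basis (Fin n) (RatFunc k) L} {a : Fin n → ℕ}
  {dK : Derivation ℤ (RatFunc k) (RatFunc k)} {d : Derivation ℤ L L}

/-- The constants. -/
noncomputable abbrev cst (k : Type*) [Field k] : k →+* RatFunc k := (algebraMap k[X] (RatFunc k)).comp C

omit [IsAlgClosed k] [CharZero k] [FiniteDimensional (RatFunc k) L] in
private theorem lcb1_tr (m z : L) : Algebra.trace (RatFunc k) L (m * z) =
    ∑ i, e.repr z i * Algebra.trace (RatFunc k) L (m * e i) := by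
  conv_lhs => rw [← e.sum_repr z]
  rw [Finset.mul_sum, map_sum]
  refine Finset.sum_congr rfl fun i _ => ?_
  rw [mul_smul_comm, map_smul, smul_eq_mul]

omit [IsAlgClosed k] [CharZero k] [FiniteDimensional (RatFunc k) L] in
private theorem lcb1_repr (i j : Fin n) : e.repr (e i) j = if i = j then 1 else 0 := by
  rw [Module.Basis.repr_self, Finsupp.single_apply]

theorem inM_iff_ms (hX : ∀ z : L, IntX k z ↔ InB e z) (m : L) :
    InM e m ↔ ∀ b : k, MS (Rb b) m := by
  constructor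
  · intro h b z hz
    rw [lcb1_tr (e := e) m z]
    refine (Rb b).sum_mem fun i _ => ?_
    refine (Rb b).mul_mem ((intRb_iff hX b z).1 hz i) ?_
    obtain ⟨p, hp⟩ := h i
    have hp' : Algebra.trace (RatFunc k) L (m * e i) = pol p := hp.symm
    rw [hp']
    exact pol_mem_Rb b p
  · intro h i
    rw [isPol_iff]
    intro b
    refine h b (e i) (intS_of_intX b _ ((hX _).2 ?_))
    intro j
    rw [lcb1_repr]
    split_ifs
    · exact ⟨1, map_one _⟩
    · exact ⟨0, map_zero _⟩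

theorem inMi_iff_ms (hI : ∀ z : L, IntO k z ↔ InCi e a z) (m : L) :
    InMi e a m ↔ MS (Oinf k) ((RatFunc.X : RatFunc k) ^ (2 : ℤ) • m) := by
  constructor
  · intro h z hz
    have hz' : InCi e a z := (hI z).1 hz
    rw [smul_mul_assoc, map_smul, smul_eq_mul, lcb1_tr (e := e) m z]
    have h1 : Dle (∑ i, e.repr z i * Algebra.trace (RatFunc k) L (m * e i)) (-2) := by
      refine dle_sum _ _ _ fun i _ => ?_
      have h2 := dle_mul (hz' i) (h i)
      have h3 : (-(a i : ℤ)) + ((a i : ℤ) - 2) = -2 := by ring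
      rw [h3] at h2
      exact h2
    have h4 := (dle_xpow_mul _ (-2) 2).2 h1
    rw [mem_Oinf]
    have h5 : (-2 : ℤ) + 2 = 0 := by norm_num
    rw [h5] at h4
    exact h4
  · intro h i
    have hz : IntS (Oinf k) ((RatFunc.X : RatFunc k) ^ (-(a i : ℤ)) • e i) := by
      refine (hI _).2 ?_
      intro j
      rw [map_smul, Finsupp.smul_apply, smul_eq_mul, lcb1_repr]
      split_ifs with hij
      · subst hij
        rw [mul_one]
        exact dle_zpow _
      · rw [mul_zero]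
        exact dle_zero _
    have h1 := h _ hz
    rw [smul_mul_smul_comm, map_smul, smul_eq_mul, ← zpow_add₀ RatFunc.X_ne_zero, mem_Oinf] at h1
    refine (dle_xpow_mul _ ((a i : ℤ) - 2) (2 + -(a i : ℤ))).1 ?_
    have h5 : ((a i : ℤ) - 2) + (2 + -(a i : ℤ)) = 0 := by ring
    rw [h5]
    exact h1

/-- The same derivation for the canonical structure of a `ℤ`-algebra. -/
private noncomputable def lcb1_der (ΔK : Derivation ℤ (RatFunc k) (RatFunc k)) :
    @Derivation ℤ (RatFunc k) (RatFunc k) _ _ _ (Ring.toIntAlgebra _) _ _ :=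
  @Derivation.mk ℤ (RatFunc k) (RatFunc k) _ _ _ (Ring.toIntAlgebra _) _ _
    (ΔK.toLinearMap.toAddMonoidHom.toIntLinearMap) (ΔK.map_one_eq_zero)
    (fun x y => ΔK.leibniz x y)

omit [IsAlgClosed k] [CharZero k] in
private theorem lcb1_const (hdK : ∀ p : k[X], dK (pol p) = pol (derivative p)) (c : k) :
    dK (cst k c) = 0 := by
  have h1 := hdK (C c)
  rw [derivative_C] at h1
  have h2 : cst k c = pol (C c) := rfl
  rw [h2, h1, pol, map_zero]

theorem ld_b (hdK : ∀ p : k[X], dK (pol p) = pol (derivative p))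
    (hd : ∀ r, d (algebraMap (RatFunc k) L r) = algebraMap (RatFunc k) L (dK r)) (b : k) :
    ∃ δK : @Derivation ℤ (RatFunc k) (RatFunc k) _ _ _ (Ring.toIntAlgebra _) _ _,
      (∀ r, δK r = dK r) ∧ LD (Rb b) (cst k) ⟨pol (X - C b), pol_mem_Rb b _⟩ δK d := by
  refine ⟨lcb1_der dK, fun r => rfl, ?_⟩
  constructor
  · exact hd
  · intro r hr
    exact derRb (fun p => ⟨derivative p, (hdK p).symm⟩) b r hr
  · change dK (pol (X - C b)) = 1
    rw [hdK, derivative_X_sub_C, pol, map_one]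
  · intro c
    exact lcb1_const hdK c

theorem ld_inf (hdK : ∀ p : k[X], dK (pol p) = pol (derivative p))
    (hd : ∀ r, d (algebraMap (RatFunc k) L r) = algebraMap (RatFunc k) L (dK r)) :
    ∃ (δK : @Derivation ℤ (RatFunc k) (RatFunc k) _ _ _ (Ring.toIntAlgebra _) _ _)
      (δ : Derivation ℤ L L), (∀ z, δ z = -((RatFunc.X : RatFunc k) ^ (2 : ℤ) • d z)) ∧
      LD (Oinf k) (cst k) ⟨RatFunc.X⁻¹, inv_mem_Oinf⟩ δK δ := by
  refine ⟨lcb1_der (-((RatFunc.X : RatFunc k) ^ (2 : ℤ) • dK)),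
    -((algebraMap (RatFunc k) L ((RatFunc.X : RatFunc k) ^ (2 : ℤ))) • d), ?_, ?_⟩
  · intro z
    rw [Derivation.neg_apply, Derivation.smul_apply, smul_eq_mul, Algebra.smul_def]
  · constructor
    · intro r
      rw [Derivation.neg_apply, Derivation.smul_apply, smul_eq_mul, hd, ← map_mul, ← map_neg]
      rfl
    · intro r hr
      change -((RatFunc.X : RatFunc k) ^ (2 : ℤ) * dK r) ∈ Oinf k
      refine (Oinf k).neg_mem ?_
      rw [mem_Oinf]
      have h1 := dle_dK0 hdK (mem_Oinf.1 hr)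
      have h2 := (dle_xpow_mul _ (-2) 2).2 h1
      have h5 : (-2 : ℤ) + 2 = 0 := by norm_num
      rw [h5] at h2
      exact h2
    · change -((RatFunc.X : RatFunc k) ^ (2 : ℤ) * dK (RatFunc.X⁻¹)) = 1
      have h1 := dK_xpow hdK (-1)
      rw [zpow_neg_one] at h1
      have h6 : ((-1 : ℤ) - 1) = -2 := by norm_num
      rw [h6, Int.cast_neg, Int.cast_one] at h1
      rw [h1]
      have h2 : (RatFunc.X : RatFunc k) ^ (2 : ℤ) * RatFunc.X ^ (-2 : ℤ) = 1 := by
        rw [← zpow_add₀ RatFunc.X_ne_zero]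
        norm_num
      linear_combination h2
    · intro c
      change -((RatFunc.X : RatFunc k) ^ (2 : ℤ) * dK (cst k c)) = 0
      rw [lcb1_const hdK c, mul_zero, neg_zero]

section

variable (hX : ∀ z : L, IntX k z ↔ InB e z) (hI : ∀ z : L, IntO k z ↔ InCi e a z)
  (hdK : ∀ p : k[X], dK (pol p) = pol (derivative p))
  (hd : ∀ r, d (algebraMap (RatFunc k) L r) = algebraMap (RatFunc k) L (dK r))

include hX hdK hd

theorem b_del {z : L} (hz : InB e z) : InM e (d z) := by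
  rw [inM_iff_ms hX]
  intro b
  obtain ⟨δK, -, hld⟩ := ld_b hdK hd b
  exact ms_del (Rb b) (cst k) (fun c => pol_mem_Rb b (C c)) ⟨pol (X - C b), pol_mem_Rb b _⟩
    (irreducible_Rb b) (residue_Rb b) hld (intS_of_intX b z ((hX z).2 hz))

theorem b_int {G : L} (h : InM e (d G)) : InB e G := by
  rw [inM_iff_ms hX] at h
  refine inB_of_local hX G fun b => ?_
  obtain ⟨δK, -, hld⟩ := ld_b hdK hd b
  exact int_of_ms_del (Rb b) (cst k) (fun c => pol_mem_Rb b (C c))
    ⟨pol (X - C b), pol_mem_Rb b _⟩ (irreducible_Rb b) (residue_Rb b) hld G (h b)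

theorem b_w (b : k) : ∃ w, IntS (Rb b) w ∧ ∀ m, InM e m → ∃ c, IntS (Rb b) c ∧ m = c * d w := by
  obtain ⟨δK, -, hld⟩ := ld_b hdK hd b
  obtain ⟨w, hw, h⟩ := exists_w (Rb b) (cst k) (fun c => pol_mem_Rb b (C c))
    ⟨pol (X - C b), pol_mem_Rb b _⟩ (irreducible_Rb b) (residue_Rb b) hld
  exact ⟨w, hw, fun m hm => h m ((inM_iff_ms hX m).1 hm b)⟩

omit [IsAlgClosed k] [CharZero k] hX hdK hd in
/-- The same derivation for the canonical structure of a `ℤ`-algebra. -/

private noncomputable def lcb2_der (ΔK : Derivation ℤ (RatFunc k) (RatFunc k)) :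
    @Derivation ℤ (RatFunc k) (RatFunc k) _ _ _ (Ring.toIntAlgebra _) _ _ :=
  @Derivation.mk ℤ (RatFunc k) (RatFunc k) _ _ _ (Ring.toIntAlgebra _) _ _
    (ΔK.toLinearMap.toAddMonoidHom.toIntLinearMap) (ΔK.map_one_eq_zero)
    (fun x y => ΔK.leibniz x y)

theorem b_br {δ : Derivation ℤ k k} {DK : Derivation ℤ (RatFunc k) (RatFunc k)}
    (hDK : ∀ p : k[X], DK (pol p) = pol (cD δ p)) {D : Derivation ℤ L L}
    (hD : ∀ r, D (algebraMap (RatFunc k) L r) = algebraMap (RatFunc k) L (DK r)) {u b : L}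
    (hu : InB e u) (hb : InB e b) : InM e (D u * d b - d u * D b) := by
  rw [inM_iff_ms hX]
  intro c
  obtain ⟨δK, -, hld⟩ := ld_b hdK hd c
  exact br_ms (Rb c) (cst k) (fun x => pol_mem_Rb c (C x)) ⟨pol (X - C c), pol_mem_Rb c _⟩
    (irreducible_Rb c) (residue_Rb c) hld (DK := lcb2_der DK) (D := D) (fun r => hD r)
    (fun r hr => derRb (fun p => ⟨cD δ p, (hDK p).symm⟩) c r hr)
    (intS_of_intX c u ((hX u).2 hu)) (intS_of_intX c b ((hX b).2 hb))

omit hX

include hI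

omit [IsAlgClosed k] [CharZero k] [FiniteDimensional (RatFunc k) L] hI hdK hd in
private theorem lcb2_neg {S : Subring (RatFunc k)} {m : L} (h : MS S (-m)) : MS S m := by
  intro z hz
  have h1 := h z hz
  rw [neg_mul, map_neg] at h1
  have h2 := S.neg_mem h1
  rwa [neg_neg] at h2

omit [IsAlgClosed k] [CharZero k] [FiniteDimensional (RatFunc k) L] hI hdK hd in
private theorem lcb2_neg' {S : Subring (RatFunc k)} {m : L} (h : MS S m) : MS S (-m) := by
  intro z hz
  rw [neg_mul, map_neg]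
  exact S.neg_mem (h z hz)

theorem i_del {z : L} (hz : InCi e a z) : InMi e a (d z) := by
  rw [inMi_iff_ms hI]
  obtain ⟨δK, δ, hδ, hld⟩ := ld_inf hdK hd
  have h1 : MS (Oinf k) (δ z) := ms_del (Oinf k) (cst k) (fun c => C_mem_Oinf c)
    ⟨RatFunc.X⁻¹, inv_mem_Oinf⟩ irreducible_Oinf residue_Oinf hld ((hI z).2 hz)
  rw [hδ] at h1
  exact lcb2_neg h1

theorem i_int {G : L} (h : InMi e a (d G)) : InCi e a G := by
  rw [inMi_iff_ms hI] at h
  obtain ⟨δK, δ, hδ, hld⟩ := ld_inf hdK hd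
  have h1 : MS (Oinf k) (δ G) := by
    rw [hδ]
    exact lcb2_neg' h
  exact (hI G).1 (int_of_ms_del (Oinf k) (cst k) (fun c => C_mem_Oinf c)
    ⟨RatFunc.X⁻¹, inv_mem_Oinf⟩ irreducible_Oinf residue_Oinf hld G h1)

theorem i_w : ∃ w, InCi e a w ∧ ∀ m, InMi e a m → ∃ c, InCi e a c ∧ m = c * d w := by
  obtain ⟨δK, δ, hδ, hld⟩ := ld_inf hdK hd
  obtain ⟨w, hw, h⟩ := exists_w (Oinf k) (cst k) (fun c => C_mem_Oinf c)
    ⟨RatFunc.X⁻¹, inv_mem_Oinf⟩ irreducible_Oinf residue_Oinf hld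
  refine ⟨w, (hI w).1 hw, fun m hm => ?_⟩
  obtain ⟨c, hc, hcm⟩ := h _ ((inMi_iff_ms hI m).1 hm)
  refine ⟨-c, (hI (-c)).1 (RingHom.IsIntegralElem.neg _ hc), ?_⟩
  rw [hδ, mul_neg, mul_smul_comm, ← smul_neg] at hcm
  have h0 : ((RatFunc.X : RatFunc k) ^ (2 : ℤ)) ≠ 0 := zpow_ne_zero _ RatFunc.X_ne_zero
  have h1 := smul_right_injective L h0 hcm
  rw [h1, neg_mul]

omit hdK hd in
theorem i_lift {δ : Derivation ℤ k k} {DK : Derivation ℤ (RatFunc k) (RatFunc k)}
    (hDK : ∀ p : k[X], DK (pol p) = pol (cD δ p)) {D : Derivation ℤ L L}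
    (hD : ∀ r, D (algebraMap (RatFunc k) L r) = algebraMap (RatFunc k) L (DK r)) {z : L}
    (hz : InCi e a z) : InCi e a (D z) := by
  refine (hI (D z)).1 (inf_log hD (fun r h => DK_dle hDK r 0 h) ⟨0, Or.inl rfl, ?_⟩ z ((hI z).2 hz))
  rw [mul_zero, ← zpow_neg_one]
  exact DK_xpow hDK (-1)

end

end MPadcCM
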