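import Mathlib

/-!
# PA: derivations in characteristic `p` (helper93)

`E` a commutative ring of characteristic `p`, `d` a derivation, `d x = 1`.
* `prim`: `d ^ (p - 1) y = 0` implies `y = d G`.
* `taylor`: an additive property which holds for all `c x ^ i` with `d c = 0`, `i < p`, holds for all `b` with
  `d ^ p b = 0`.
* `hoch`: `d ^ (p - 1) (b ^ (p - 1) d b) = - (d b) ^ p` if `d ^ p = 0`.
-/

set_option autoImplicit false

namespace MPadcCM

section

variable {E : Type*} [CommRing E] (d : Derivation ℤ E E)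

theorem it_add (n : ℕ) (a b : E) : d^[n] (a + b) = d^[n] a + d^[n] b := by
  induction n generalizing a b with
  | zero => rfl
  | succ n ih => rw [Function.iterate_succ_apply, Function.iterate_succ_apply,
      Function.iterate_succ_apply, map_add, ih]

theorem it_zero (n : ℕ) : d^[n] (0 : E) = 0 := by
  induction n with
  | zero => rfl
  | succ n ih => rw [Function.iterate_succ_apply, map_zero, ih]

theorem it_neg (n : ℕ) (a : E) : d^[n] (-a) = -d^[n] a := by
  have h := it_add d n a (-a)
  rw [add_neg_cancel, it_zero] at h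
  exact (neg_eq_of_add_eq_zero_right h.symm).symm

theorem it_sub (n : ℕ) (a b : E) : d^[n] (a - b) = d^[n] a - d^[n] b := by
  rw [sub_eq_add_neg, it_add, it_neg, sub_eq_add_neg]

theorem it_sum (n : ℕ) {ι : Type*} (s : Finset ι) (f : ι → E) :
    d^[n] (∑ i ∈ s, f i) = ∑ i ∈ s, d^[n] (f i) := by
  classical
  induction s using Finset.induction_on with
  | empty => rw [Finset.sum_empty, Finset.sum_empty, it_zero]
  | insert i s hi ih => rw [Finset.sum_insert hi, Finset.sum_insert hi, it_add, ih]

theorem it_const (n : ℕ) (c a : E) (hc : d c = 0) : d^[n] (c * a) = c * d^[n] a := by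
  induction n generalizing a with
  | zero => rfl
  | succ n ih =>
    rw [Function.iterate_succ_apply, Function.iterate_succ_apply, Derivation.leibniz, hc,
      smul_zero, add_zero, smul_eq_mul, ih]

theorem d_pow (b : E) (n : ℕ) : d (b ^ (n + 1)) = ((n + 1 : ℕ) : E) * b ^ n * d b := by
  rw [Derivation.leibniz_pow, Nat.add_sub_cancel, nsmul_eq_mul, smul_eq_mul]
  ring

theorem it_x (x : E) (hx : d x = 1) (n : ℕ) : ∀ k : ℕ, k ≤ n →
    d^[k] (x ^ n) = ((n.descFactorial k : ℕ) : E) * x ^ (n - k) := by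
  intro k
  induction k with
  | zero => intro _; simp
  | succ k ih =>
    intro hk
    rw [Function.iterate_succ_apply', ih (by omega)]
    obtain ⟨m, hm⟩ : ∃ m, n - k = m + 1 := ⟨n - k - 1, by omega⟩
    have h1 : n - (k + 1) = m := by omega
    rw [hm, h1, Nat.descFactorial_succ, hm, Derivation.leibniz, Derivation.map_natCast, smul_zero,
      add_zero, smul_eq_mul, d_pow, hx]
    push_cast
    ring

end

section

variable {E : Type*} [CommRing E] (d : Derivation ℤ E E) (p : ℕ) [hp : Fact p.Prime] [CharP E p]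
  (x : E) (hx : d x = 1)

omit hx in
/-- Natural numbers prime to `p` are invertible, with inverse a natural number. -/
theorem exists_natinv (m : ℕ) (hm : ¬ p ∣ m) : ∃ r : ℕ, (r : E) * (m : E) = 1 := by
  have h1 : Nat.Coprime m p := ((Nat.Prime.coprime_iff_not_dvd hp.out).2 hm).symm
  obtain ⟨r, hr⟩ := Nat.exists_mul_mod_eq_one_of_coprime h1 hp.out.one_lt
  refine ⟨r, ?_⟩
  have h2 : ((m * r : ℕ) : E) = ((1 : ℕ) : E) := by
    rw [CharP.cast_eq_iff_mod_eq E p, hr.2, Nat.mod_eq_of_lt hp.out.one_lt]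
  rw [← Nat.cast_mul, mul_comm, h2, Nat.cast_one]

include hx in
theorem prim (y : E) (hy : d^[p - 1] y = 0) : ∃ G : E, d G = y := by
  have hp2 := hp.out.two_le
  have hfac : ∀ j : ℕ, j < p → ∃ r : ℕ, (r : E) * ((j.factorial : ℕ) : E) = 1 := fun j hj =>
    exists_natinv p j.factorial (fun h => absurd ((hp.out.dvd_factorial).1 h) (by omega))
  choose! r hr using hfac
  let G : ℕ → E := fun n => ∑ j ∈ Finset.range n, (-1) ^ j * ((r (j + 1) : E) * (x ^ (j + 1) *
    d^[j] y))
  have hG : ∀ n : ℕ, n < p → d (G n) = y - (-1) ^ n * ((r n : E) * (x ^ n * d^[n] y)) := by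
    intro n
    induction n with
    | zero =>
      intro _
      have h0 := hr 0 hp.out.pos
      rw [Nat.factorial_zero, Nat.cast_one, mul_one] at h0
      simp only [G, Finset.range_zero, Finset.sum_empty, map_zero, pow_zero, one_mul, h0,
        Function.iterate_zero, id_eq, sub_self]
    | succ n ih =>
      intro hn
      have h1 : d (G (n + 1)) = d (G n) + d ((-1) ^ n * ((r (n + 1) : E) * (x ^ (n + 1) *
          d^[n] y))) := by
        simp only [G]
        rw [Finset.sum_range_succ, map_add]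
      have hc : d ((-1 : E) ^ n * (r (n + 1) : E)) = 0 := by
        have h3 : ((-1 : E) ^ n * (r (n + 1) : E)) = (((-1) ^ n * (r (n + 1) : ℤ) : ℤ) : E) := by
          push_cast
          ring
        rw [h3]
        exact Derivation.map_intCast d _
      have h4 : d ((-1) ^ n * ((r (n + 1) : E) * (x ^ (n + 1) * d^[n] y))) =
          ((-1) ^ n * (r (n + 1) : E)) * ((n + 1 : ℕ) * x ^ n * d^[n] y + x ^ (n + 1) *
            d^[n + 1] y) := by
        have h5 : (-1 : E) ^ n * ((r (n + 1) : E) * (x ^ (n + 1) * d^[n] y)) =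
            ((-1) ^ n * (r (n + 1) : E)) * (x ^ (n + 1) * d^[n] y) := by ring
        rw [h5, Derivation.leibniz, hc, smul_zero, add_zero, smul_eq_mul, Derivation.leibniz,
          d_pow, hx, smul_eq_mul, smul_eq_mul, Function.iterate_succ_apply']
        ring
      have h6 : (r (n + 1) : E) * ((n + 1 : ℕ) : E) = (r n : E) := by
        have e1 := hr (n + 1) hn
        have e2 := hr n (by omega)
        rw [Nat.factorial_succ, Nat.cast_mul] at e1
        calc (r (n + 1) : E) * ((n + 1 : ℕ) : E) =
            (r (n + 1) : E) * ((n + 1 : ℕ) : E) * ((r n : E) * (n.factorial : E)) := by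
              rw [e2, mul_one]
          _ = ((r (n + 1) : E) * (((n + 1 : ℕ) : E) * (n.factorial : E))) * (r n : E) := by ring
          _ = (r n : E) := by rw [e1, one_mul]
      rw [h1, ih (by omega), h4, ← h6]
      ring
  refine ⟨G (p - 1), ?_⟩
  rw [hG (p - 1) (by omega), hy, mul_zero, mul_zero, mul_zero, sub_zero]

include hx in
theorem taylor (Q : E → Prop) (hadd : ∀ a b, Q a → Q b → Q (a + b))
    (hmon : ∀ (c : E) (i : ℕ), d c = 0 → i < p → Q (c * x ^ i)) (b : E) (hb : d^[p] b = 0) :
    Q b := by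
  have hz : Q 0 := by
    have h := hmon 0 0 (map_zero d) hp.out.pos
    rwa [zero_mul] at h
  have key : ∀ N : ℕ, N ≤ p → ∀ b : E, d^[N] b = 0 → Q b := by
    intro N
    induction N with
    | zero => intro _ b hb; rw [show b = 0 from hb]; exact hz
    | succ N ih =>
      intro hN b hb
      obtain ⟨r, hr⟩ := exists_natinv (E := E) p N.factorial
        (fun h => absurd ((hp.out.dvd_factorial).1 h) (by omega))
      have hc : d (d^[N] b) = 0 := by
        rw [Function.iterate_succ_apply'] at hb
        exact hb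
      have hc' : d ((r : E) * d^[N] b) = 0 := by
        rw [Derivation.leibniz, hc, smul_zero, zero_add, Derivation.map_natCast, smul_zero]
      have h1 : Q (((r : E) * d^[N] b) * x ^ N) := hmon _ N hc' (by omega)
      have h2 : Q (b - ((r : E) * d^[N] b) * x ^ N) := by
        apply ih (by omega)
        rw [it_sub, it_const d N _ _ hc', it_x d x hx N N le_rfl, Nat.sub_self, pow_zero, mul_one,
          Nat.descFactorial_self, mul_right_comm, hr, one_mul, sub_self]
      have h3 := hadd _ _ h2 h1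
      rwa [sub_add_cancel] at h3
  exact key p le_rfl b hb

end

section

variable {E : Type*} [CommRing E] (d : Derivation ℤ E E) (p : ℕ) [hp : Fact p.Prime]

/-- `(f + g) ^ (p - 1) d (f + g) - f ^ (p - 1) d f - g ^ (p - 1) d g` is exact. -/
theorem exists_pow_add (f g : E) : ∃ W : E, (f + g) ^ (p - 1) * d (f + g) =
    f ^ (p - 1) * d f + g ^ (p - 1) * d g + d W := by
  obtain ⟨n, hn⟩ : ∃ n, p = n + 1 := ⟨p - 1, by have := hp.out.pos; omega⟩
  have hc : ∀ k : ℕ, k < n → ∃ c : ℕ, (k + 1) * c = n.choose k ∧ (n - k) * c = n.choose (k + 1) := by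
    intro k hk
    obtain ⟨c, hc⟩ := hp.out.dvd_choose_self (k := k + 1) (by omega) (by omega)
    refine ⟨c, ?_, ?_⟩
    · have h1 := Nat.add_one_mul_choose_eq n k
      rw [← hn, hc] at h1
      apply Nat.eq_of_mul_eq_mul_left hp.out.pos
      rw [h1]
      ring
    · have h1 := Nat.choose_succ_right_eq n k
      have h2 := Nat.add_one_mul_choose_eq n k
      rw [← hn, hc] at h2
      apply Nat.eq_of_mul_eq_mul_left (Nat.mul_pos hp.out.pos (Nat.succ_pos k))
      have h3 : n.choose (k + 1) * (k + 1) = n.choose k * (n - k) := h1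
      calc p * (k + 1) * ((n - k) * c) = (p * c * (k + 1)) * (n - k) := by ring
        _ = (p * n.choose k) * (n - k) := by rw [← h2]
        _ = p * (n.choose k * (n - k)) := by ring
        _ = p * (n.choose (k + 1) * (k + 1)) := by rw [← h3]
        _ = p * (k + 1) * n.choose (k + 1) := by ring
  choose! c hc1 hc2 using hc
  have hpn : p - 1 = n := by omega
  rw [hpn]
  refine ⟨∑ k ∈ Finset.range n, ((c k : ℕ) : E) * (f ^ (k + 1) * g ^ (n - k)), ?_⟩
  have h1 : d (∑ k ∈ Finset.range n, ((c k : ℕ) : E) * (f ^ (k + 1) * g ^ (n - k))) =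
      (∑ k ∈ Finset.range n, f ^ k * g ^ (n - k) * (n.choose k : E)) * d f +
        (∑ k ∈ Finset.range n, f ^ (k + 1) * g ^ (n - (k + 1)) * (n.choose (k + 1) : E)) * d g := by
    rw [map_sum, Finset.sum_mul, Finset.sum_mul, ← Finset.sum_add_distrib]
    refine Finset.sum_congr rfl fun k hk => ?_
    have hk' := Finset.mem_range.1 hk
    obtain ⟨m, hm⟩ : ∃ m, n - k = m + 1 := ⟨n - k - 1, by omega⟩
    have hm2 : n - (k + 1) = m := by omega
    have e1 : ((k + 1 : ℕ) : E) * (c k : E) = (n.choose k : E) := by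
      rw [← Nat.cast_mul, hc1 k hk']
    have e2 : ((m + 1 : ℕ) : E) * (c k : E) = (n.choose (k + 1) : E) := by
      rw [← Nat.cast_mul, ← hm, hc2 k hk']
    rw [hm2, hm, Derivation.leibniz, Derivation.map_natCast, smul_zero, add_zero,
      Derivation.leibniz, d_pow, d_pow, smul_eq_mul, smul_eq_mul, smul_eq_mul, ← e1, ← e2]
    push_cast
    ring
  have h2 : (∑ k ∈ Finset.range n, f ^ k * g ^ (n - k) * (n.choose k : E)) =
      (f + g) ^ n - f ^ n := by
    rw [add_pow, Finset.sum_range_succ, Nat.sub_self, pow_zero, mul_one, Nat.choose_self,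
      Nat.cast_one, mul_one, add_sub_cancel_right]
  have h3 : (∑ k ∈ Finset.range n, f ^ (k + 1) * g ^ (n - (k + 1)) * (n.choose (k + 1) : E)) =
      (f + g) ^ n - g ^ n := by
    rw [add_pow, Finset.sum_range_succ', Nat.sub_zero, pow_zero, one_mul, Nat.choose_zero_right,
      Nat.cast_one, mul_one, add_sub_cancel_right]
  rw [h1, h2, h3, map_add]
  ring

end

section

variable {E : Type*} [CommRing E] (d : Derivation ℤ E E) (p : ℕ) [hp : Fact p.Prime] [CharP E p]
  (x : E) (hx : d x = 1)

include hx in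
theorem hoch (hd : ∀ z, d^[p] z = 0) (b : E) :
    d^[p - 1] (b ^ (p - 1) * d b) = -(d b) ^ p := by
  have hpp := hp.out.pos
  have hpn : p - 1 + 1 = p := by omega
  have hw : (((p - 1).factorial : ℕ) : E) = -1 := by
    have h1 : (((p - 1).factorial : ℕ) : ZMod p) = -1 := ZMod.wilsons_lemma p
    have h2 := congrArg (ZMod.castHom (dvd_refl p) E) h1
    rwa [map_natCast, map_neg, map_one] at h2
  have hex : ∀ W, d^[p - 1] (d W) = 0 := by
    intro W
    rw [← Function.iterate_succ_apply, Nat.succ_eq_add_one, hpn]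
    exact hd W
  have hfr : ∀ f g : E, (f + g) ^ p = f ^ p + g ^ p := fun f g => add_pow_char f g p
  refine taylor d p x hx (fun b => d^[p - 1] (b ^ (p - 1) * d b) = -(d b) ^ p) ?_ ?_ b (hd b)
  · intro f g hf hg
    obtain ⟨W, hW⟩ := exists_pow_add d p f g
    change d^[p - 1] ((f + g) ^ (p - 1) * d (f + g)) = -(d (f + g)) ^ p
    rw [hW, it_add, it_add, hf, hg, hex, map_add, hfr]
    ring
  · intro c i hc hi
    change d^[p - 1] ((c * x ^ i) ^ (p - 1) * d (c * x ^ i)) = -(d (c * x ^ i)) ^ p
    have hdx : d (c * x ^ i) = c * d (x ^ i) := by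
      rw [Derivation.leibniz, hc, smul_zero, add_zero, smul_eq_mul]
    have hcp : d (c ^ p) = 0 := by
      rw [← hpn, d_pow, hc, mul_zero]
    rcases Nat.eq_zero_or_pos i with h0 | h0
    · rw [h0, pow_zero, mul_one, hc, mul_zero, it_zero, zero_pow (by omega), neg_zero]
    · obtain ⟨m, hm⟩ : ∃ m, i = m + 1 := ⟨i - 1, by omega⟩
      rw [hdx, hm, d_pow, hx, mul_one]
      have hxp : d (x ^ p) = 0 := by
        rw [← hpn, d_pow, hpn, CharP.cast_eq_zero, zero_mul, zero_mul]
      have hxm : d ((x ^ p) ^ m) = 0 := by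
        rcases Nat.eq_zero_or_pos m with h1 | h1
        · rw [h1, pow_zero, Derivation.map_one_eq_zero]
        · obtain ⟨l, rfl⟩ : ∃ l, m = l + 1 := ⟨m - 1, by omega⟩
          rw [d_pow, hxp, mul_zero]
      have h1 : (c * x ^ (m + 1)) ^ (p - 1) * (c * (((m + 1 : ℕ) : E) * x ^ m)) =
          (((m + 1 : ℕ) : E) * c ^ p * (x ^ p) ^ m) * x ^ (p - 1) := by
        have e1 : c ^ p = c ^ (p - 1) * c := by rw [← pow_succ, hpn]
        have e2 : (x ^ (m + 1)) ^ (p - 1) * x ^ m = (x ^ p) ^ m * x ^ (p - 1) := by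
          rw [← pow_mul, ← pow_mul, ← pow_add, ← pow_add]
          congr 1
          obtain ⟨q, rfl⟩ : ∃ q, p = q + 1 := ⟨p - 1, by omega⟩
          rw [Nat.add_sub_cancel]
          ring
        rw [mul_pow, e1]
        calc c ^ (p - 1) * (x ^ (m + 1)) ^ (p - 1) * (c * (((m + 1 : ℕ) : E) * x ^ m)) =
            ((m + 1 : ℕ) : E) * (c ^ (p - 1) * c) * ((x ^ (m + 1)) ^ (p - 1) * x ^ m) := by ring
          _ = _ := by rw [e2]; ring
      have h2 : d (((m + 1 : ℕ) : E) * c ^ p * (x ^ p) ^ m) = 0 := by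
        rw [Derivation.leibniz, hxm, smul_zero, zero_add, Derivation.leibniz, hcp, smul_zero,
          zero_add, Derivation.map_natCast, smul_zero, smul_zero]
      rw [h1, it_const d _ _ _ h2, it_x d x hx _ _ le_rfl, Nat.sub_self, pow_zero, mul_one,
        Nat.descFactorial_self, hw]
      have h3 : (((m + 1 : ℕ) : E)) ^ p = ((m + 1 : ℕ) : E) := by
        have e3 : (((m + 1 : ℕ) : ZMod p)) ^ p = ((m + 1 : ℕ) : ZMod p) := ZMod.pow_card _
        have e4 := congrArg (ZMod.castHom (dvd_refl p) E) e3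
        rwa [map_pow, map_natCast] at e4
      rw [mul_pow, mul_pow, h3, ← pow_mul, ← pow_mul, mul_comm p m]
      ring

end

end MPadcCM
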