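import Mathlib

/-!
# PB: the trace commutes with the Frobenius map (helper93)
-/

set_option autoImplicit false

namespace MPadcCM

open Polynomial Matrix

theorem charpoly_frob {K : Type*} [Field K] (p : ℕ) [hp : Fact p.Prime] [CharP K p]
    {n : Type*} [DecidableEq n] [Fintype n] [Nonempty n] (M : Matrix n n K) :
    (M ^ p).charpoly = M.charpoly.map (frobenius K p) := by
  apply expand_injective hp.out.pos
  have h1 : expand K p (M ^ p).charpoly = M.charpoly ^ p := by
    unfold charpoly
    rw [AlgHom.map_det, ← coe_detMonoidHom, ← (detMonoidHom : Matrix n n K[X] →* K[X]).map_pow]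
    apply congr_arg det
    refine matPolyEquiv.injective ?_
    rw [map_pow, matPolyEquiv_charmatrix, sub_pow_char_of_commute, ← C_pow]
    · exact (id (matPolyEquiv_eq_X_pow_sub_C p M) :)
    · exact (C M).commute_X
  rw [h1, ← map_expand, map_frobenius_expand]

theorem tr_mat {K : Type*} [Field K] (p : ℕ) [hp : Fact p.Prime] [CharP K p]
    {n : Type*} [DecidableEq n] [Fintype n] (M : Matrix n n K) :
    Matrix.trace (M ^ p) = Matrix.trace M ^ p := by
  have hp0 := hp.out.ne_zero
  cases isEmpty_or_nonempty n
  · rw [Matrix.trace, Matrix.trace, Finset.univ_eq_empty, Finset.sum_empty, Finset.sum_empty,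
      zero_pow hp0]
  · rw [Matrix.trace_eq_neg_charpoly_coeff, Matrix.trace_eq_neg_charpoly_coeff, charpoly_frob p,
      coeff_map, frobenius_def]
    have h := map_neg (frobenius K p) (M.charpoly.coeff (Fintype.card n - 1))
    rw [frobenius_def, frobenius_def] at h
    exact h.symm

theorem tr_pow {K : Type*} [Field K] (p : ℕ) [hp : Fact p.Prime] [CharP K p] {E : Type*}
    [CommRing E] [Algebra K E] [Module.Finite K E] (y : E) :
    Algebra.trace K E (y ^ p) = Algebra.trace K E y ^ p := by
  classical
  have hb := Module.finBasis K E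
  rw [Algebra.trace_eq_matrix_trace hb, Algebra.trace_eq_matrix_trace hb, map_pow, tr_mat p]

end MPadcCM
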