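import Pool.Agent.Lib.MP_adc574_ag_Cov.CoreA

/-!
# PC: rational functions in characteristic `p` (helper93)
-/

set_option autoImplicit false

namespace MPadcCM

open Polynomial MPadcCov

section

variable {κ : Type*} [Field κ] (dK : Derivation ℤ (RatFunc κ) (RatFunc κ))
  (hdK : ∀ q : κ[X], dK (pol q) = pol (derivative q))

include hdK in
theorem it_pol (m : ℕ) (q : κ[X]) : dK^[m] (pol q) = pol (derivative^[m] q) := by
  induction m generalizing q with
  | zero => rfl
  | succ m ih => rw [Function.iterate_succ_apply, hdK, ih, Function.iterate_succ_apply]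

include hdK in
theorem isPol_it (m : ℕ) {r : RatFunc κ} (hr : IsPol r) : IsPol (dK^[m] r) := by
  obtain ⟨q, rfl⟩ := hr
  rw [it_pol dK hdK]
  exact ⟨_, rfl⟩

include hdK in
theorem dle_dK {r : RatFunc κ} {m : ℤ} (hr : Dle r m) : Dle (dK r) (m - 1) := by
  refine dle_deriv dK 1 (fun q => ?_) hr
  rw [hdK, dle_pol_iff]
  by_cases hq : q.natDegree = 0
  · left
    exact derivative_of_natDegree_zero hq
  · right
    have h := natDegree_derivative_lt hq
    omega

include hdK in
theorem dle_it (j : ℕ) {r : RatFunc κ} {m : ℤ} (hr : Dle r m) : Dle (dK^[j] r) (m - j) := by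
  induction j generalizing r m with
  | zero => simpa using hr
  | succ j ih =>
    rw [Function.iterate_succ_apply]
    refine (ih (dle_dK dK hdK hr)).mono ?_
    push_cast
    linarith

end

section

variable {κ : Type*} [Field κ] (p : ℕ) [hp : Fact p.Prime] [CharP κ p]

theorem desc_cast (j : ℕ) : (((p * j + (p - 1)).descFactorial (p - 1) : ℕ) : κ) = -1 := by
  have h1 : ∀ k : ℕ, k ≤ p - 1 → (((p * j + (p - 1)).descFactorial k : ℕ) : κ) =
      (((p - 1).descFactorial k : ℕ) : κ) := by
    intro k
    induction k with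
    | zero => intro _; rfl
    | succ k ih =>
      intro hk
      rw [Nat.descFactorial_succ, Nat.descFactorial_succ, Nat.cast_mul, Nat.cast_mul,
        ih (by omega)]
      congr 1
      have e1 : p * j + (p - 1) - k = p * j + (p - 1 - k) := by omega
      rw [e1, Nat.cast_add, Nat.cast_mul, CharP.cast_eq_zero, zero_mul, zero_add]
  rw [h1 _ le_rfl, Nat.descFactorial_self]
  have h2 : (((p - 1).factorial : ℕ) : ZMod p) = -1 := ZMod.wilsons_lemma p
  have h3 := congrArg (ZMod.castHom (dvd_refl p) κ) h2
  rwa [map_natCast, map_neg, map_one] at h3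

/-- The coefficients of the `(p - 1)`-th derivative. -/
theorem coeff_it (q : κ[X]) (j : ℕ) :
    (derivative^[p - 1] q).coeff (p * j) = -q.coeff (p * j + (p - 1)) := by
  rw [coeff_iterate_derivative, nsmul_eq_mul, desc_cast, neg_one_mul]

/-- A polynomial with derivative zero is a polynomial in `x ^ p`. -/
theorem exp_of_der (q : κ[X]) (h : derivative q = 0) (m : ℕ)
    (hdeg : ∀ i, p * m ≤ i → q.coeff i = 0) :
    q = ∑ j ∈ Finset.range m, C (q.coeff (p * j)) * X ^ (p * j) := by
  have h0 : ∀ i, ¬ p ∣ i → q.coeff i = 0 := by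
    intro i hi
    obtain ⟨l, rfl⟩ : ∃ l, i = l + 1 := by
      rcases i with _ | l
      · exact absurd (dvd_zero p) hi
      · exact ⟨l, rfl⟩
    have h1 := congrArg (fun f => coeff f l) h
    simp only [coeff_derivative, coeff_zero] at h1
    rcases mul_eq_zero.1 h1 with h2 | h2
    · exact h2
    · exfalso
      have h3 : ((l + 1 : ℕ) : κ) = 0 := by push_cast; exact h2
      exact hi ((CharP.cast_eq_zero_iff κ p _).1 h3)
  ext i
  rw [finsetSum_coeff]
  simp only [coeff_C_mul, coeff_X_pow]
  by_cases hi : p ∣ i
  · obtain ⟨l, rfl⟩ := hi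
    have hpos := hp.out.pos
    by_cases hl : l < m
    · rw [Finset.sum_eq_single l]
      · rw [if_pos rfl, mul_one]
      · intro b _ hb
        rw [if_neg, mul_zero]
        intro h4
        exact hb (Nat.eq_of_mul_eq_mul_left hpos h4).symm
      · intro h5
        exact absurd (Finset.mem_range.2 hl) h5
    · rw [hdeg _ (Nat.mul_le_mul_left p (by omega))]
      symm
      apply Finset.sum_eq_zero
      intro b hb
      rw [if_neg, mul_zero]
      intro h4
      have h5 := Nat.eq_of_mul_eq_mul_left hpos h4
      have h6 := Finset.mem_range.1 hb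
      omega
  · rw [h0 i hi]
    symm
    apply Finset.sum_eq_zero
    intro b _
    rw [if_neg, mul_zero]
    rintro rfl
    exact hi (dvd_mul_right _ _)

end

end MPadcCM
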