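import Pool.Agent.Lib.MP_adc574_ag_Cov.Arr
import Pool.Agent.Lib.MP_adc574_ag_CM.PA
import Pool.Agent.Lib.MP_adc574_ag_CM.PB
import Pool.Agent.Lib.MP_adc574_ag_CM.PC

/-!
# PD: the structure `PCv` of section 5 (characteristic `p`), products and powers

`κ` of characteristic `p`, `E` a `κ(x)`-algebra with basis `e` of degrees `a`; `B = InB e`, `M = InM e`,
`Mi = DDeg e a (-2)`, `Ci = BDeg e a 0`.
JOB PD. Everything is elementary: `repr_mul'`, `tr_mul_eq_sum`, `IsPol.sum`, `Dle.sum`, `Dle.mul`, `Dle.mono`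
(Cov/CoreA).
* `mulB`: `repr_mul'` and `mul`.
* `mulBD`: same with degrees: `m - a i + (m' - a j) + (a i + a j - a k) = m + m' - a k`.
* `mulM`: `Tr (m * b * e i) = ∑ j, repr (b * e i) j * Tr (m * e j)` (`tr_mul_eq_sum` after `mul_assoc`), `b * e i` in `B`.
* `mulMD`: the same with degrees: `b * e i` in `BDeg (m' + a i)`.
* `powB`, `powBD`: induction from exponent 1 (we do not assume anything on `1`, so exponents `m + 1`).
* `dB`: `b = ∑ r_i e_i`, `d (r e_i) = (dK r) e_i + r d e_i`; `(dK r_i) * Tr (e_i e_j)`: `Tr (e_i e_j)` is a polynomial: `trB`.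
* `trB`: `Tr z = ∑ k, repr (z * e k) k` (`tr_eq_sum`), `z * e k` in `B`.
* `repr_pow`: `e i ^ (m + 1)` has coordinates `pol ((N i ^ m) i k)`, `N i = Matrix.of fun j k => s i j k`: induction,
  `e i ^ (m + 2) = e i * e i ^ (m + 1) = ∑ j, (pol ((N i ^ m) i j)) • (e i * e j)`, `N ^ (m + 1) = N ^ m * N`
  (`pow_succ`, `Matrix.mul_apply`). For `m = 0`: `N ^ 0 = 1`, `Matrix.one_apply`.
-/

set_option autoImplicit false

namespace MPadcCM

open Polynomial MPadcCov

variable {κ : Type*} [Field κ] {E : Type*} [CommRing E] [Algebra (RatFunc κ) E] {n : ℕ}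

/-- Covers in characteristic `p`. -/
structure PCv (p : ℕ) (e : Module.Basis (Fin n) (RatFunc κ) E) (a : Fin n → ℕ)
    (dK : Derivation ℤ (RatFunc κ) (RatFunc κ)) (d : Derivation ℤ E E) (f : Fin n → E) : Prop where
  dK_pol : ∀ q : κ[X], dK (pol q) = pol (derivative q)
  d_alg : ∀ r, d (algebraMap (RatFunc κ) E r) = algebraMap (RatFunc κ) E (dK r)
  tr_d : ∀ z, Tr κ E (d z) = dK (Tr κ E z)
  mul : ∀ i j k, IsPol (e.repr (e i * e j) k) ∧ Dle (e.repr (e i * e j) k) ((a i : ℤ) + a j - a k)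
  dM : ∀ i, InM e (d (e i))
  dMi : ∀ z, BDeg e a 0 z → DDeg e a (-2) (d z)
  dual : ∀ i j, Tr κ E (f i * e j) = if i = j then 1 else 0
  gen : ∀ i, ∃ (S : ℕ) (u b : Fin S → E), (∀ s, InB e (u s)) ∧ (∀ s, InB e (b s)) ∧
    f i = ∑ s, u s * d (b s)
  geni : ∃ w, BDeg e a 0 w ∧ ∀ i, ∃ c, BDeg e a 0 c ∧
    inE E ((RatFunc.X : RatFunc κ) ^ a i) * f i = inE E ((RatFunc.X : RatFunc κ) ^ 2) * (c * d w)
  dp : ∀ z, d^[p] z = 0

section mul

variable {e : Module.Basis (Fin n) (RatFunc κ) E} {a : Fin n → ℕ}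
  (hm : ∀ i j k, IsPol (e.repr (e i * e j) k) ∧ Dle (e.repr (e i * e j) k) ((a i : ℤ) + a j - a k))

include hm in
theorem mulB {z y : E} (hz : InB e z) (hy : InB e y) : InB e (z * y) := by
  intro k
  rw [repr_mul']
  exact IsPol.sum _ _ fun i _ => IsPol.sum _ _ fun j _ => ((hz i).mul (hy j)).mul (hm i j k).1

include hm in
theorem mulBD {z y : E} {m k : ℤ} (hz : BDeg e a m z) (hy : BDeg e a k y) :
    BDeg e a (m + k) (z * y) := by
  intro l
  rw [repr_mul']
  exact Dle.sum _ _ fun i _ => Dle.sum _ _ fun j _ =>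
    (((hz i).mul (hy j)).mul (hm i j l).2).mono (by linarith)

private theorem pd_basis (i : Fin n) : BDeg e a (a i) (e i) := by
  intro j
  rw [e.repr_self, Finsupp.single_apply]
  split_ifs with h
  · right
    rw [RatFunc.intDegree_one, h, sub_self]
  · exact Dle.zero _

include hm in
theorem mulM {z y : E} (hz : InM e z) (hy : InB e y) : InM e (z * y) := by
  intro i
  rw [mul_assoc]
  exact InM.tr hz (mulB hm hy (inB_basis i))

include hm in
theorem mulMD {z y : E} {m k : ℤ} (hz : DDeg e a m z) (hy : BDeg e a k y) :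
    DDeg e a (m + k) (z * y) := by
  intro i
  rw [mul_assoc]
  exact (DDeg.tr hz (mulBD hm hy (pd_basis i))).mono (by linarith)

include hm in
theorem powB {z : E} (hz : InB e z) (k : ℕ) : InB e (z ^ (k + 1)) := by
  induction k with
  | zero =>
    rw [zero_add, pow_one]
    exact hz
  | succ k ih =>
    rw [pow_succ]
    exact mulB hm ih hz

include hm in
theorem powBD {z : E} {m : ℤ} (hz : BDeg e a m z) (k : ℕ) : BDeg e a ((k + 1 : ℕ) * m) (z ^ (k + 1)) := by
  induction k with
  | zero =>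
    rw [zero_add, pow_one, Nat.cast_one, one_mul]
    exact hz
  | succ k ih =>
    rw [pow_succ]
    have h := mulBD hm ih hz
    have e1 : (((k + 1 : ℕ) : ℤ) * m + m) = ((k + 1 + 1 : ℕ) : ℤ) * m := by
      push_cast
      ring
    rw [e1] at h
    exact h

include hm in
theorem trB {z : E} (hz : InB e z) : IsPol (Tr κ E z) := by
  rw [tr_eq_sum (e := e)]
  exact IsPol.sum _ _ fun k _ => mulB hm hz (inB_basis k) k

include hm in
theorem dB {dK : Derivation ℤ (RatFunc κ) (RatFunc κ)} {d : Derivation ℤ E E}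
    (hdK : ∀ q : κ[X], dK (pol q) = pol (derivative q))
    (hd : ∀ r, d (algebraMap (RatFunc κ) E r) = algebraMap (RatFunc κ) E (dK r))
    (hM : ∀ i, InM e (d (e i))) {z : E} (hz : InB e z) : InM e (d z) := by
  have hz' : z = ∑ i, inE E (e.repr z i) * e i := by
    conv_lhs => rw [← e.sum_repr z]
    apply Finset.sum_congr rfl
    intro i _
    rw [inE, ← Algebra.smul_def]
  have he : ∀ i, InM e (e i) := fun i j => trB hm (mulB hm (inB_basis i) (inB_basis j))
  rw [hz', map_sum]
  refine Finset.sum_induction _ (fun y => InM e y) (fun _ _ => InM.add) InM.zero ?_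
  intro i _
  obtain ⟨q, hq⟩ := hz i
  rw [← hq, Derivation.leibniz, smul_eq_mul, smul_eq_mul, inE, hd, hdK, mul_comm (e i)]
  exact ((hM i).pol_mul q).add ((he i).pol_mul (derivative q))

end mul

private theorem pd_repr {e : Module.Basis (Fin n) (RatFunc κ) E} (i : Fin n) (y : E) (k : Fin n) :
    e.repr (e i * y) k = ∑ j, e.repr y j * e.repr (e i * e j) k := by
  conv_lhs => rw [← e.sum_repr y, Finset.mul_sum]
  rw [map_sum, Finsupp.finsetSum_apply]
  apply Finset.sum_congr rfl
  intro j _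
  rw [mul_smul_comm, map_smul, Finsupp.smul_apply, smul_eq_mul]

theorem repr_pow {e : Module.Basis (Fin n) (RatFunc κ) E} {s : Fin n → Fin n → Fin n → κ[X]}
    (hs : ∀ i j k, e.repr (e i * e j) k = pol (s i j k)) (i : Fin n) (m : ℕ) (k : Fin n) :
    e.repr (e i ^ (m + 1)) k = pol (((Matrix.of fun j l => s i j l) ^ m) i k) := by
  induction m generalizing k with
  | zero =>
    rw [zero_add, pow_one, pow_zero, Matrix.one_apply, e.repr_self, Finsupp.single_apply]
    split_ifs
    · exact (map_one _).symm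
    · exact (map_zero _).symm
  | succ m ih =>
    rw [pow_succ' (e i) (m + 1), pd_repr, pow_succ (Matrix.of fun j l => s i j l) m,
      Matrix.mul_apply]
    unfold pol
    rw [map_sum]
    apply Finset.sum_congr rfl
    intro j _
    rw [ih j, hs i j k, map_mul]
    rfl

end MPadcCM
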