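import Pool.Agent.Lib.MP_adc574_ag_CM.PD

/-!
# PE: the functionals `c_(i,j)`

`Cif dK e p i φ = dK ^ (p - 1) Tr (φ e_i ^ p)`, `Cf dK e p i j φ` = coefficient of `x ^ (p j)`.
JOB PE.
* `Cif_ex`: `d (e i ^ p) = 0` (`d_pow` of PA with `p = (p - 1) + 1`, `(p : E) = 0`: `E` has characteristic `p`: `(p : E) = algebraMap (algebraMap (p : κ)) = 0`;
  `RatFunc κ` is a `κ`-algebra, use `map_natCast (algebraMap (RatFunc κ) E)`, `map_natCast (algebraMap κ (RatFunc κ))`), so `d g * e i ^ p = d (g * e i ^ p)`,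
  `Tr (d y) = dK (Tr y)`, `dK^[p - 1] (dK r) = dK^[p] r` and `dK^[p] (Tr y) = Tr (d^[p] y) = 0` (`tr_it`, `dp`).
* `Cif_M`: `m ∈ M`: `Tr (m e_i ^ p)` is a polynomial (`powB`, `InM.tr`), `isPol_it`.
* `Cif_Mi`: `Dle (Tr (ψ e_i ^ p)) (-2 + p a_i)` (`DDeg.tr`, `powBD` with `BDeg e a (a i) (e i)`), `dle_it`: `≤ p a_i - 2 - (p - 1)`.
* `Cif_sk`: `Cif φ = Cif m = Cif ψ` is a polynomial `q`, of degree `< p (a i - 1)` or zero if `a i = 0` (degree `≤ p a_i - p - 1 < 0`), `derivative q = 0` because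
  `dK (Cif φ) = dK^[p] Tr (..) = Tr (d^[p] ..) = 0` and `pol` is injective; `exp_of_der` with `m = a i - 1`; `Cf = q.coeff` by `RatFunc.num_algebraMap`.
-/

set_option autoImplicit false

namespace MPadcCM

open Polynomial MPadcCov

variable {κ : Type*} [Field κ] {E : Type*} [CommRing E] [Algebra (RatFunc κ) E] {n : ℕ}

/-- `C_i (φ)`. -/
noncomputable def Cif (dK : Derivation ℤ (RatFunc κ) (RatFunc κ))
    (e : Module.Basis (Fin n) (RatFunc κ) E) (p : ℕ) (i : Fin n) (φ : E) : RatFunc κ :=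
  dK^[p - 1] (Tr κ E (φ * e i ^ p))

/-- `c_(i,j) (φ)`. -/
noncomputable def Cf (dK : Derivation ℤ (RatFunc κ) (RatFunc κ))
    (e : Module.Basis (Fin n) (RatFunc κ) E) (p : ℕ) (i : Fin n) (j : ℕ) (φ : E) : κ :=
  (RatFunc.num (Cif dK e p i φ)).coeff (p * j)

/-- Forms of the second kind: in `M + dE` and in `Mi + dE`. -/
def IsSK (e : Module.Basis (Fin n) (RatFunc κ) E) (a : Fin n → ℕ) (d : Derivation ℤ E E) (φ : E) :
    Prop :=
  (∃ m g, InM e m ∧ φ = m + d g) ∧ ∃ m g, DDeg e a (-2) m ∧ φ = m + d g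

variable {e : Module.Basis (Fin n) (RatFunc κ) E} {a : Fin n → ℕ}
  {dK : Derivation ℤ (RatFunc κ) (RatFunc κ)} {d : Derivation ℤ E E} {f : Fin n → E}

theorem pe_it_add (dK : Derivation ℤ (RatFunc κ) (RatFunc κ)) (m : ℕ) (r s : RatFunc κ) :
    dK^[m] (r + s) = dK^[m] r + dK^[m] s := by
  induction m generalizing r s with
  | zero => rfl
  | succ m ih => rw [Function.iterate_succ_apply, Function.iterate_succ_apply,
      Function.iterate_succ_apply, map_add, ih]

theorem pe_it_zero (dK : Derivation ℤ (RatFunc κ) (RatFunc κ)) (m : ℕ) :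
    dK^[m] (0 : RatFunc κ) = 0 := by
  induction m with
  | zero => rfl
  | succ m ih => rw [Function.iterate_succ_apply, map_zero, ih]

theorem pe_it_sum (dK : Derivation ℤ (RatFunc κ) (RatFunc κ)) (m : ℕ) {J : Type*} (S : Finset J)
    (r : J → RatFunc κ) : dK^[m] (∑ s ∈ S, r s) = ∑ s ∈ S, dK^[m] (r s) := by
  classical
  induction S using Finset.induction_on with
  | empty => rw [Finset.sum_empty, Finset.sum_empty, pe_it_zero]
  | insert i s hi ih => rw [Finset.sum_insert hi, Finset.sum_insert hi, pe_it_add, ih]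

theorem pe_it_const (dK : Derivation ℤ (RatFunc κ) (RatFunc κ)) (m : ℕ) (c r : RatFunc κ)
    (hc : dK c = 0) : dK^[m] (c * r) = c * dK^[m] r := by
  induction m generalizing r with
  | zero => rfl
  | succ m ih =>
    rw [Function.iterate_succ_apply, Function.iterate_succ_apply, Derivation.leibniz, hc,
      smul_zero, add_zero, smul_eq_mul, ih]

theorem Cif_add (p : ℕ) (i : Fin n) (φ ψ : E) :
    Cif dK e p i (φ + ψ) = Cif dK e p i φ + Cif dK e p i ψ := by
  unfold Cif
  rw [add_mul, map_add]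
  exact pe_it_add dK _ _ _

theorem Cif_sum (p : ℕ) (i : Fin n) {J : Type*} (S : Finset J) (φ : J → E) :
    Cif dK e p i (∑ s ∈ S, φ s) = ∑ s ∈ S, Cif dK e p i (φ s) := by
  unfold Cif
  rw [Finset.sum_mul, map_sum]
  exact pe_it_sum dK _ _ _

theorem Cif_smul (hdK : ∀ q : κ[X], dK (pol q) = pol (derivative q)) (p : ℕ) (i : Fin n) (c : κ)
    (φ : E) : Cif dK e p i (inE E (RatFunc.C c) * φ) = RatFunc.C c * Cif dK e p i φ := by
  unfold Cif
  have hc : dK (RatFunc.C c) = 0 := by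
    rw [← RatFunc.algebraMap_C]
    have h1 := hdK (C c)
    rw [derivative_C] at h1
    rw [show (algebraMap κ[X] (RatFunc κ)) (C c) = pol (C c) from rfl, h1, pol, map_zero]
  rw [mul_assoc, tr_inE_mul]
  exact pe_it_const dK _ _ _ hc

theorem tr_it (htr : ∀ z, Tr κ E (d z) = dK (Tr κ E z)) (m : ℕ) (z : E) :
    Tr κ E (d^[m] z) = dK^[m] (Tr κ E z) := by
  induction m generalizing z with
  | zero => rfl
  | succ m ih => rw [Function.iterate_succ_apply, Function.iterate_succ_apply, ih, htr]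

theorem pe_cast (κ E : Type*) [Field κ] [CommRing E] [Algebra (RatFunc κ) E] (p : ℕ) [CharP κ p] :
    ((p : ℕ) : E) = 0 := by
  have h1 : ((p : ℕ) : κ) = 0 := CharP.cast_eq_zero κ p
  have h2 : ((p : ℕ) : RatFunc κ) = 0 := by
    rw [← map_natCast (algebraMap κ (RatFunc κ)), h1, map_zero]
  rw [← map_natCast (algebraMap (RatFunc κ) E), h2, map_zero]

theorem pe_dpow (κ : Type*) {E : Type*} [Field κ] [CommRing E] [Algebra (RatFunc κ) E]
    (d : Derivation ℤ E E) (p : ℕ) [hp : Fact p.Prime] [CharP κ p] (z : E) : d (z ^ p) = 0 := by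
  obtain ⟨m, hm⟩ : ∃ m, p = m + 1 := ⟨p - 1, by have := hp.out.pos; omega⟩
  have h1 := pe_cast κ E p
  have h2 := d_pow d z m
  rw [← hm, h1, zero_mul, zero_mul] at h2
  exact h2

theorem pe_it (p : ℕ) [hp : Fact p.Prime] {A : Type*} (g : A → A) (r : A) :
    g^[p - 1] (g r) = g^[p] r := by
  rw [← Function.iterate_succ_apply, Nat.succ_eq_add_one, Nat.sub_add_cancel hp.out.pos]

theorem pe_it' (p : ℕ) [hp : Fact p.Prime] {A : Type*} (g : A → A) (r : A) :
    g (g^[p - 1] r) = g^[p] r := by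
  rw [← Function.iterate_succ_apply' g, Nat.succ_eq_add_one, Nat.sub_add_cancel hp.out.pos]

theorem PCv.Cif_ex {p : ℕ} [Fact p.Prime] [CharP κ p] (H : PCv p e a dK d f) (i : Fin n) (g : E) :
    Cif dK e p i (d g) = 0 := by
  unfold Cif
  have h1 : d g * e i ^ p = d (g * e i ^ p) := by
    rw [Derivation.leibniz, pe_dpow κ d p, smul_zero, zero_add, smul_eq_mul, mul_comm]
  rw [h1, H.tr_d, pe_it, ← tr_it H.tr_d, H.dp, map_zero]

theorem PCv.Cif_M {p : ℕ} [Fact p.Prime] (H : PCv p e a dK d f) (i : Fin n) {m : E}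
    (hm : InM e m) : IsPol (Cif dK e p i m) := by
  unfold Cif
  have hp := (Fact.out : p.Prime).pos
  have h1 := powB H.mul (inB_basis (e := e) i) (p - 1)
  rw [Nat.sub_add_cancel hp] at h1
  exact isPol_it dK H.dK_pol _ (hm.tr h1)

theorem pe_basis (i : Fin n) : BDeg e a (a i : ℤ) (e i) := by
  intro j
  rw [e.repr_self, Finsupp.single_apply]
  split_ifs with h
  · subst h
    right
    rw [RatFunc.intDegree_one, sub_self]
  · exact Dle.zero _

theorem PCv.Cif_Mi {p : ℕ} [Fact p.Prime] (H : PCv p e a dK d f) (i : Fin n) {m : E}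
    (hm : DDeg e a (-2) m) : Dle (Cif dK e p i m) ((p : ℤ) * (a i : ℤ) - p - 1) := by
  unfold Cif
  have hp := (Fact.out : p.Prime).pos
  have h1 := powBD H.mul (pe_basis (e := e) (a := a) i) (p - 1)
  rw [Nat.sub_add_cancel hp] at h1
  refine (dle_it dK H.dK_pol (p - 1) (hm.tr h1)).mono ?_
  rw [Nat.cast_sub hp]
  push_cast
  linarith

theorem PCv.Cif_sk {p : ℕ} [Fact p.Prime] [CharP κ p] (H : PCv p e a dK d f) (i : Fin n) {φ : E}
    (hφ : IsSK e a d φ) : Cif dK e p i φ =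
      pol (∑ j ∈ Finset.range (a i - 1), C (Cf dK e p i j φ) * X ^ (p * j)) := by
  obtain ⟨⟨m, g, hm, h1⟩, m', g', hm', h2⟩ := hφ
  have hp := (Fact.out : p.Prime).pos
  have e1 : Cif dK e p i φ = Cif dK e p i m := by rw [h1, Cif_add, H.Cif_ex, add_zero]
  have e2 : Cif dK e p i φ = Cif dK e p i m' := by rw [h2, Cif_add, H.Cif_ex, add_zero]
  obtain ⟨q, hq⟩ := H.Cif_M i hm
  have hq' : Cif dK e p i φ = pol q := by rw [e1, hq]
  have hdle := H.Cif_Mi i hm'
  rw [← e2, hq', dle_pol_iff] at hdle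
  have hder : derivative q = 0 := by
    have h3 : dK (Cif dK e p i φ) = 0 := by
      unfold Cif
      rw [pe_it' p dK, ← tr_it H.tr_d, H.dp, map_zero]
    rw [hq', H.dK_pol, pol, map_eq_zero_iff _ pol_injective] at h3
    exact h3
  have hdeg : ∀ l, p * (a i - 1) ≤ l → q.coeff l = 0 := by
    intro l hl
    rcases hdle with h4 | h4
    · rw [h4, coeff_zero]
    · refine coeff_eq_zero_of_natDegree_lt ?_
      rcases Nat.eq_zero_or_pos (a i) with h5 | h5
      · rw [h5] at h4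
        push_cast at h4
        have h6 : (0 : ℤ) ≤ (q.natDegree : ℤ) := Int.natCast_nonneg _
        have h7 : (0 : ℤ) < (p : ℤ) := by exact_mod_cast hp
        exfalso
        linarith
      · obtain ⟨b, hb⟩ : ∃ b, a i = b + 1 := ⟨a i - 1, by omega⟩
        rw [hb] at h4 hl
        rw [Nat.add_sub_cancel] at hl
        push_cast at h4
        have h8 : (q.natDegree : ℤ) < ((p * b : ℕ) : ℤ) := by
          push_cast
          linarith
        have h9 : q.natDegree < p * b := by exact_mod_cast h8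
        exact lt_of_lt_of_le h9 hl
  have h10 := exp_of_der p q hder (a i - 1) hdeg
  have h11 : ∀ j, Cf dK e p i j φ = q.coeff (p * j) := by
    intro j
    unfold Cf
    rw [hq', pol, RatFunc.num_algebraMap]
  rw [hq']
  simp only [h11]
  rw [← h10]

end MPadcCM
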