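import Pool.Agent.Lib.MP_adc574_ag_CM.PE

/-!
# PF: the inverse Cartier operator

JOB PF. Let `j + 2 ≤ a i`. `f i = ∑ u_s d b_s` (`gen`), `x ^ (a i) f i = x ^ 2 (c d w)` (`geni`).
`φ := -∑ s, (x ^ j u_s) ^ p * (b_s ^ (p - 1) * d b_s)`, `ψ := -(x⁻¹ ^ (a i - 2 - j) c) ^ p * (w ^ (p - 1) * d w)`.
* `φ ∈ M`: `d b_s ∈ M` (`dB`), products with elements of `B` (`mulM`, `powB`, `InB.pol_mul`; `p - 1 = (p - 2) + 1`).
* `ψ ∈ Mi = DDeg e a (-2)`: `d w ∈ Mi` (`dMi`), `x⁻¹ ^ q c ∈ BDeg e a 0`, `mulMD`, `powBD`.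
* `x ^ j f i = ∑ (x ^ j u_s) d b_s = (x⁻¹ ^ (a i - 2 - j) c) d w` (`RatFunc.X ≠ 0`).
* `d ^ (p - 1)` of `z ^ p * y` is `z ^ p * d ^ (p - 1) y` (`it_const`, `d (z ^ p) = 0`), `hoch` (PA, with `x = inE E RatFunc.X`, `d x = 1` from `dK_pol X`): `d ^ (p - 1) φ = ∑ (x ^ j u_s d b_s) ^ p = (x ^ j f i) ^ p`
  (`sum_pow_char`, `E` has characteristic `p`) and `d ^ (p - 1) ψ = (x ^ j f i) ^ p`. So `φ - ψ = d G` (`prim`), `φ = ψ + d G`, `IsSK φ`.
* `Cif k φ = dK ^ (p - 1) Tr (φ e_k ^ p) = Tr (d ^ (p - 1) (φ e_k ^ p)) = Tr ((d ^ (p - 1) φ) e_k ^ p) = Tr ((x ^ j f_i e_k) ^ p) = (Tr (x ^ j f_i e_k)) ^ p` (`tr_it`, `it_const`, `tr_pow` of PB) `= (x ^ j δ_ik) ^ p`.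
`E` has characteristic `p`: `charP_of_injective_algebraMap` (if `E` is nontrivial; `n > 0` because `i : Fin n`, `e i ≠ 0`) or work with `(p : E) = 0`.
-/

set_option autoImplicit false

namespace MPadcCM

open Polynomial MPadcCov

variable {κ : Type*} [Field κ] {E : Type*} [CommRing E] [Algebra (RatFunc κ) E] {n : ℕ}
  {e : Module.Basis (Fin n) (RatFunc κ) E} {a : Fin n → ℕ}
  {dK : Derivation ℤ (RatFunc κ) (RatFunc κ)} {d : Derivation ℤ E E} {f : Fin n → E}

theorem pf_charK (κ : Type*) [Field κ] (p : ℕ) [CharP κ p] : CharP (RatFunc κ) p :=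
  charP_of_injective_algebraMap (algebraMap κ (RatFunc κ)).injective p

theorem PCv.charE {p : ℕ} [Fact p.Prime] [CharP κ p] (H : PCv p e a dK d f) (i : Fin n) :
    CharP E p := by
  have h1 : CharP (RatFunc κ) p := pf_charK κ p
  have h2 : Nontrivial E := ⟨e i, 0, e.ne_zero i⟩
  exact charP_of_injective_algebraMap (algebraMap (RatFunc κ) E).injective p

theorem pf_inM_sum {J : Type*} (S : Finset J) (z : J → E) (h : ∀ s ∈ S, InM e (z s)) :
    InM e (∑ s ∈ S, z s) :=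
  Finset.sum_induction _ (fun y => InM e y) (fun _ _ => InM.add) InM.zero h

theorem pf_inv (q : ℕ) : Dle (((RatFunc.X : RatFunc κ)⁻¹) ^ q) 0 := by
  have h1 : Dle ((RatFunc.X : RatFunc κ)⁻¹) 0 := by
    right
    rw [RatFunc.intDegree_inv, RatFunc.intDegree_X]
    norm_num
  induction q with
  | zero =>
    right
    rw [pow_zero, RatFunc.intDegree_one]
  | succ q ih =>
    rw [pow_succ]
    have := ih.mul h1
    rwa [add_zero] at this

theorem PCv.exists_phi {p : ℕ} [Fact p.Prime] [CharP κ p] (H : PCv p e a dK d f) (i : Fin n)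
    (j : ℕ) (hj : j + 2 ≤ a i) :
    ∃ φ, IsSK e a d φ ∧ ∀ k, Cif dK e p k φ = if i = k then pol (X ^ (p * j)) else 0 := by
  have hp := (Fact.out : p.Prime)
  have hp2 := hp.two_le
  have hcE : CharP E p := H.charE i
  have hcK : CharP (RatFunc κ) p := pf_charK κ p
  have hfin : Module.Finite (RatFunc κ) E := Module.Finite.of_basis e
  obtain ⟨S, u, b, hu, hb, hf⟩ := H.gen i
  obtain ⟨w, hw, hc'⟩ := H.geni
  obtain ⟨c, hc, hcf⟩ := hc' i
  have hX : (RatFunc.X : RatFunc κ) ≠ 0 := RatFunc.X_ne_zero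
  set xj : E := inE E (pol (X ^ j : κ[X])) with hxj
  have hxj' : pol (X ^ j : κ[X]) = (RatFunc.X : RatFunc κ) ^ j := by
    rw [pol, map_pow, RatFunc.algebraMap_X]
  set q : ℕ := a i - 2 - j with hq
  set xi : E := inE E (((RatFunc.X : RatFunc κ)⁻¹) ^ q) with hxi
  have hdx : d (inE E (RatFunc.X : RatFunc κ)) = 1 := by
    rw [inE, H.d_alg, ← RatFunc.algebraMap_X]
    have h1 : dK ((algebraMap κ[X] (RatFunc κ)) X) = pol (derivative (X : κ[X])) := H.dK_pol X
    rw [derivative_X] at h1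
    rw [h1, pol, map_one, map_one]
  -- the two expressions of `x ^ j f i`
  have e1 : xj * f i = ∑ s, (xj * u s) * d (b s) := by
    rw [hf, Finset.mul_sum]
    refine Finset.sum_congr rfl fun s _ => ?_
    rw [mul_assoc]
  have e2 : xj * f i = (xi * c) * d w := by
    have h1 : xj = xi * (inE E (((RatFunc.X : RatFunc κ)⁻¹) ^ 2) *
        inE E ((RatFunc.X : RatFunc κ) ^ a i)) := by
      rw [hxj, hxi, hxj', inE, inE, inE, inE, ← map_mul, ← map_mul]
      congr 1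
      obtain ⟨m, hm⟩ : ∃ m, a i = m + 2 + j := ⟨a i - 2 - j, by omega⟩
      have hqm : q = m := by omega
      rw [hm, hqm, pow_add, pow_add, inv_pow, inv_pow]
      field_simp
    have h2 : inE E (((RatFunc.X : RatFunc κ)⁻¹) ^ 2) * inE E ((RatFunc.X : RatFunc κ) ^ 2) = 1 := by
      rw [inE, inE, ← map_mul, ← mul_pow, inv_mul_cancel₀ hX, one_pow, map_one]
    calc xj * f i = xi * (inE E (((RatFunc.X : RatFunc κ)⁻¹) ^ 2) *
        (inE E ((RatFunc.X : RatFunc κ) ^ a i) * f i)) := by rw [h1]; ring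
      _ = xi * ((inE E (((RatFunc.X : RatFunc κ)⁻¹) ^ 2) * inE E ((RatFunc.X : RatFunc κ) ^ 2)) *
        (c * d w)) := by rw [hcf]; ring
      _ = (xi * c) * d w := by rw [h2]; ring
  set φ : E := -∑ s, (xj * u s) ^ p * (b s ^ (p - 1) * d (b s)) with hφ
  set ψ : E := -((xi * c) ^ p * (w ^ (p - 1) * d w)) with hψ
  have hφd : d^[p - 1] φ = (xj * f i) ^ p := by
    rw [hφ, it_neg, it_sum, e1, sum_pow_char, ← Finset.sum_neg_distrib]
    refine Finset.sum_congr rfl fun s _ => ?_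
    rw [it_const d _ _ _ (pe_dpow κ d p _), hoch d p _ hdx H.dp, mul_neg, neg_neg, ← mul_pow]
  have hψd : d^[p - 1] ψ = (xj * f i) ^ p := by
    rw [hψ, it_neg, e2, it_const d _ _ _ (pe_dpow κ d p _), hoch d p _ hdx H.dp, mul_neg, neg_neg,
      ← mul_pow]
  obtain ⟨G, hG⟩ := prim d p _ hdx (φ - ψ) (by rw [it_sub, hφd, hψd, sub_self])
  have hpp : p - 1 + 1 = p := by omega
  have hpp2 : p - 2 + 1 = p - 1 := by omega
  have hφM : InM e φ := by
    refine InM.neg (pf_inM_sum _ _ fun s _ => ?_)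
    have h1 : InB e ((xj * u s) ^ p) := by
      have := powB H.mul ((hu s).pol_mul (X ^ j)) (p - 1)
      rwa [hpp] at this
    have h2 : InB e (b s ^ (p - 1)) := by
      have := powB H.mul (hb s) (p - 2)
      rwa [hpp2] at this
    have h3 := mulM H.mul (dB H.mul H.dK_pol H.d_alg H.dM (hb s)) (mulB H.mul h2 h1)
    have h4 : (xj * u s) ^ p * (b s ^ (p - 1) * d (b s)) =
        d (b s) * (b s ^ (p - 1) * (xj * u s) ^ p) := by ring
    rw [h4]
    exact h3
  have hψM : DDeg e a (-2) ψ := by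
    have h0 : BDeg e a 0 (xi * c) := by
      intro k
      rw [hxi, repr_inE_mul]
      exact ((pf_inv q).mul (hc k)).mono (by linarith)
    have h1 : BDeg e a 0 ((xi * c) ^ p) := by
      have := powBD H.mul h0 (p - 1)
      rwa [hpp, mul_zero] at this
    have h2 : BDeg e a 0 (w ^ (p - 1)) := by
      have := powBD H.mul hw (p - 2)
      rwa [hpp2, mul_zero] at this
    have h3 := mulMD H.mul (H.dMi w hw) (mulBD H.mul h2 h1)
    have h4 : (xi * c) ^ p * (w ^ (p - 1) * d w) = d w * (w ^ (p - 1) * (xi * c) ^ p) := by ring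
    intro k
    rw [hψ, neg_mul, map_neg, h4]
    exact ((h3 k).mono (by linarith)).neg
  refine ⟨φ, ⟨⟨φ, 0, hφM, by rw [map_zero, add_zero]⟩, ψ, G, hψM, by rw [hG]; ring⟩, ?_⟩
  intro k
  unfold Cif
  have h1 : φ * e k ^ p = e k ^ p * φ := mul_comm _ _
  rw [h1, ← tr_it H.tr_d, it_const d _ _ _ (pe_dpow κ d p _), hφd, ← mul_pow, tr_pow p]
  have h2 : e k * (xj * f i) = xj * (f i * e k) := by ring
  have h3 : (Algebra.trace (RatFunc κ) E) (e k * (xj * f i)) =
      pol (X ^ j : κ[X]) * (if i = k then 1 else 0) := by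
    rw [h2]
    have h4 := tr_inE_mul (E := E) (pol (X ^ j : κ[X])) (f i * e k)
    rw [H.dual] at h4
    exact h4
  rw [h3]
  split_ifs with h5
  · rw [mul_one, pol, pol, ← map_pow, ← pow_mul, mul_comm j p]
  · rw [mul_zero, zero_pow hp.ne_zero]

end MPadcCM
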