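import Pool.Agent.Lib.MP_adc574_ag_CM.PE

/-!
# PG: derivations, grading, and the values at the regular forms

JOB PG.
* `Cif_D`: `D (e k ^ p) = 0`; `D` commutes with `d`, so `Tr (D φ * e k ^ p) = Tr (D (φ * e k ^ p)) = DK (Tr (φ e_k ^ p))`, and `DK` commutes with `dK` (`hKK`), hence with `dK^[p - 1]`.
* `Cf_D`: `φ` of the second kind and `D φ = ∑ G y h y + d g`, all `h y` of the second kind: compare `Cif_D` and `Cif_sk`: `DK (pol (∑ C (Cf φ) X ^ (p j))) = pol (∑ C (δ (Cf φ)) X ^ (p j))`, and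
  `Cif (D φ) = ∑ C (G y) * pol (∑ C (Cf (h y)) X ^ (p j))`; injectivity of `pol`, coefficient of `X ^ (p j)`, `j < a i - 1`.
* `Cif_grade`: `e i ^ p = ∑ k, (coordinate k) e k`, coordinate `k` nonzero only if `ch k = ch i ^ p = ch i` (induction on the exponent: `e.repr (e i ^ (m + 1)) k ≠ 0 → ch k = ch i ^ (m + 1)`), `tr_mul_eq_sum`.
* `Cf_reg`: `Tr (x ^ l f_k e_i ^ p) = x ^ l (e.repr (e i ^ p) k) = pol (X ^ l * q)`, `q = ((N i ^ (p - 1)) i k)` (`tr_mul_eq_sum`, `dual`, `repr_pow` with `m = p - 1`), `it_pol`, `RatFunc.num_algebraMap`, `coeff_it`.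
-/

set_option autoImplicit false

namespace MPadcCM

open Polynomial MPadcCov

/-- The matrix of the functionals on the regular forms, from the structure constants. -/
noncomputable def HW {R : Type*} [CommRing R] {n : ℕ} (p : ℕ) (s : Fin n → Fin n → Fin n → R[X])
    (v u : (_ : Fin n) × ℕ) : R :=
  -(X ^ u.2 * ((Matrix.of fun j l => s v.1 j l) ^ (p - 1)) v.1 u.1).coeff (p * v.2 + (p - 1))

theorem HW_map {R S : Type*} [CommRing R] [CommRing S] (ψ : R →+* S) {n : ℕ} (p : ℕ)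
    (s : Fin n → Fin n → Fin n → R[X]) (v u : (_ : Fin n) × ℕ) :
    HW p (fun i j k => (s i j k).map ψ) v u = ψ (HW p s v u) := by
  have h1 : (Matrix.of fun j l => (s v.1 j l).map ψ) =
      (Polynomial.mapRingHom ψ).mapMatrix (Matrix.of fun j l => s v.1 j l) := by
    ext j l
    rfl
  have h2 : ((Matrix.of fun j l => (s v.1 j l).map ψ) ^ (p - 1)) v.1 u.1 =
      (((Matrix.of fun j l => s v.1 j l) ^ (p - 1)) v.1 u.1).map ψ := by
    rw [h1, ← map_pow]
    rfl
  unfold HW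
  rw [h2, map_neg, ← coeff_map, Polynomial.map_mul, Polynomial.map_pow, map_X]

private theorem pg_cD_coeff {R : Type*} [CommRing R] (δ : Derivation ℤ R R) (q : R[X]) (m : ℕ) :
    (cD δ q).coeff m = δ (q.coeff m) := by
  unfold cD
  rw [Polynomial.sum, finsetSum_coeff]
  simp only [coeff_monomial]
  rw [Finset.sum_ite_eq']
  split_ifs with h
  · rfl
  · rw [notMem_support_iff.1 h, map_zero]

private theorem pg_coeff {R : Type*} [CommRing R] {p : ℕ} (hp : 0 < p) (m : ℕ) (c : ℕ → R) (j : ℕ)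
    (hj : j < m) : (∑ l ∈ Finset.range m, C (c l) * X ^ (p * l)).coeff (p * j) = c j := by
  rw [finsetSum_coeff]
  simp only [coeff_C_mul, coeff_X_pow]
  rw [Finset.sum_eq_single j]
  · rw [if_pos rfl, mul_one]
  · intro b _ hb
    rw [if_neg, mul_zero]
    intro h
    exact hb (Nat.eq_of_mul_eq_mul_left hp h).symm
  · intro h
    exact absurd (Finset.mem_range.2 hj) h

variable {κ : Type*} [Field κ] {E : Type*} [CommRing E] [Algebra (RatFunc κ) E] {n : ℕ}
  {e : Module.Basis (Fin n) (RatFunc κ) E} {a : Fin n → ℕ}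
  {dK : Derivation ℤ (RatFunc κ) (RatFunc κ)} {d : Derivation ℤ E E} {f : Fin n → E}

theorem PCv.Cif_D {p : ℕ} [Fact p.Prime] [CharP κ p] (H : PCv p e a dK d f)
    {DK : Derivation ℤ (RatFunc κ) (RatFunc κ)} {D : Derivation ℤ E E}
    (hKK : ∀ r, dK (DK r) = DK (dK r)) (htr : ∀ z, Tr κ E (D z) = DK (Tr κ E z)) (i : Fin n)
    (φ : E) : Cif dK e p i (D φ) = DK (Cif dK e p i φ) := by
  have hit : ∀ (m : ℕ) (r : RatFunc κ), dK^[m] (DK r) = DK (dK^[m] r) := by
    intro m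
    induction m with
    | zero => intro r; rfl
    | succ m ih =>
      intro r
      rw [Function.iterate_succ_apply, Function.iterate_succ_apply, hKK, ih]
  unfold Cif
  have h1 : D φ * e i ^ p = D (φ * e i ^ p) := by
    rw [Derivation.leibniz, pe_dpow κ D p, smul_zero, zero_add, smul_eq_mul, mul_comm]
  rw [h1, htr, hit]

theorem PCv.Cf_D {p : ℕ} [Fact p.Prime] [CharP κ p] (H : PCv p e a dK d f)
    {δ : Derivation ℤ κ κ} {DK : Derivation ℤ (RatFunc κ) (RatFunc κ)} {D : Derivation ℤ E E}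
    (hδ : ∀ q : κ[X], DK (pol q) = pol (cD δ q))
    (hKK : ∀ r, dK (DK r) = DK (dK r)) (htr : ∀ z, Tr κ E (D z) = DK (Tr κ E z))
    {J : Type*} [Fintype J] (h : J → E) (hh : ∀ y, IsSK e a d (h y)) {φ : E}
    (hφ : IsSK e a d φ) (G : J → κ) (g : E)
    (hD : D φ = ∑ y, inE E (RatFunc.C (G y)) * h y + d g) (i : Fin n) (j : ℕ) (hj : j < a i - 1) :
    δ (Cf dK e p i j φ) = ∑ y, G y * Cf dK e p i j (h y) := by
  have hp := (Fact.out : p.Prime).pos
  have h1 : DK (Cif dK e p i φ) = ∑ y, RatFunc.C (G y) * Cif dK e p i (h y) := by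
    rw [← H.Cif_D hKK htr, hD, Cif_add, H.Cif_ex, add_zero, Cif_sum]
    exact Finset.sum_congr rfl fun y _ => Cif_smul H.dK_pol p i (G y) (h y)
  rw [H.Cif_sk i hφ, hδ] at h1
  have h2 : ∑ y, RatFunc.C (G y) * Cif dK e p i (h y) = pol (∑ y, C (G y) *
      ∑ l ∈ Finset.range (a i - 1), C (Cf dK e p i l (h y)) * X ^ (p * l)) := by
    rw [pol, map_sum]
    refine Finset.sum_congr rfl fun y _ => ?_
    rw [map_mul, RatFunc.algebraMap_C, H.Cif_sk i (hh y)]
  rw [h2] at h1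
  have h3 := congrArg (fun q => coeff q (p * j)) (pol_injective h1)
  simp only [pg_cD_coeff] at h3
  rw [pg_coeff hp _ _ j hj, finsetSum_coeff] at h3
  rw [h3]
  refine Finset.sum_congr rfl fun y _ => ?_
  rw [coeff_C_mul, pg_coeff hp _ _ j hj]

private theorem pg_grade {X' : Type*} [CommGroup X'] {ch : Fin n → X'}
    (hch : ∀ i j k, e.repr (e i * e j) k ≠ 0 → ch k = ch i * ch j) (i : Fin n) (m : ℕ) :
    ∀ k, e.repr (e i ^ (m + 1)) k ≠ 0 → ch k = ch i ^ (m + 1) := by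
  induction m with
  | zero =>
    intro k hk
    rw [zero_add, pow_one, e.repr_self, Finsupp.single_apply] at hk
    split_ifs at hk with h
    · rw [h, zero_add, pow_one]
    · exact absurd rfl hk
  | succ m ih =>
    intro k hk
    have h1 : e i ^ (m + 1 + 1) = e i * e i ^ (m + 1) := pow_succ' _ _
    rw [h1, repr_mul'] at hk
    obtain ⟨i', _, hi'⟩ := Finset.exists_ne_zero_of_sum_ne_zero hk
    obtain ⟨j', _, hj'⟩ := Finset.exists_ne_zero_of_sum_ne_zero hi'
    have h2 : e.repr (e i) i' ≠ 0 := fun h => hj' (by rw [h, zero_mul, zero_mul])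
    have h3 : e.repr (e i ^ (m + 1)) j' ≠ 0 := fun h => hj' (by rw [h, mul_zero, zero_mul])
    have h4 : e.repr (e i' * e j') k ≠ 0 := fun h => hj' (by rw [h, mul_zero])
    have h5 : i = i' := by
      by_contra h
      rw [e.repr_self, Finsupp.single_apply, if_neg h] at h2
      exact h2 rfl
    rw [hch _ _ _ h4, ih _ h3, ← h5, ← pow_succ']

theorem Cif_grade {X' : Type*} [CommGroup X'] {ch : Fin n → X'}
    (hch : ∀ i j k, e.repr (e i * e j) k ≠ 0 → ch k = ch i * ch j) (p : ℕ) (hp : p ≠ 0)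
    (i : Fin n) (hpi : ch i ^ p = ch i) (φ : E) (hφ : ∀ k, ch k = ch i → Tr κ E (φ * e k) = 0) :
    Cif dK e p i φ = 0 := by
  obtain ⟨m, rfl⟩ : ∃ m, p = m + 1 := ⟨p - 1, by omega⟩
  unfold Cif
  have h1 : Tr κ E (φ * e i ^ (m + 1)) = 0 := by
    rw [tr_mul_eq_sum (e := e)]
    refine Finset.sum_eq_zero fun k _ => ?_
    by_cases hk : e.repr (e i ^ (m + 1)) k = 0
    · rw [hk, zero_mul]
    · rw [hφ k (by rw [pg_grade hch i m k hk, hpi]), mul_zero]
  rw [h1, pe_it_zero]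

theorem PCv.Cf_reg {p : ℕ} [Fact p.Prime] [CharP κ p] (H : PCv p e a dK d f)
    {s : Fin n → Fin n → Fin n → κ[X]} (hs : ∀ i j k, e.repr (e i * e j) k = pol (s i j k))
    (v u : (_ : Fin n) × ℕ) :
    Cf dK e p v.1 v.2 (inE E ((RatFunc.X : RatFunc κ) ^ u.2) * f u.1) = HW p s v u := by
  have hp := (Fact.out : p.Prime).pos
  have h1 := repr_pow hs v.1 (p - 1)
  rw [Nat.sub_add_cancel hp] at h1
  have h2 : Tr κ E (inE E ((RatFunc.X : RatFunc κ) ^ u.2) * f u.1 * e v.1 ^ p) =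
      pol (X ^ u.2 * ((Matrix.of fun j l => s v.1 j l) ^ (p - 1)) v.1 u.1) := by
    rw [mul_assoc, tr_inE_mul, tr_mul_eq_sum (e := e), Finset.sum_eq_single u.1]
    · rw [H.dual, if_pos rfl, mul_one, h1, pol, pol, map_mul, map_pow, RatFunc.algebraMap_X]
    · intro k _ hk
      rw [H.dual, if_neg (Ne.symm hk), mul_zero]
    · intro h
      exact absurd (Finset.mem_univ _) h
  unfold Cf Cif HW
  rw [h2, it_pol dK H.dK_pol, pol, RatFunc.num_algebraMap, coeff_it]

end MPadcCM
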