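import Pool.Agent.Lib.MP_adc574_ag_CM.LatB
import Pool.Agent.Lib.MP_adc574_ag_CM.DeB

/-!
# Sk: the forms of the second kind

* JOB SkA: - `split`: `split1` (LatA) for every coordinate: `e.repr z i = pol (p i) + ∑ l, pol (C (c i l)) * X ^ (-(l + 1)) + s i`, `Dle (s i) (-a i)`. `b = ∑ pol (p i) • e i`, `β = ∑ s i • e i`, `∑_{c : Ix a} = ∑ i, ∑ l` (`Finset.univ_sigma_univ`, `Finset.sum_sigma`, `Fintype.sum_sigma`), `fc e a ⟨i, l⟩ = X ^ (-(l + 1)) • e i`.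
  - `Cv.sk`: `φ = x₁ + d G₁ = x₂ + d G₂`, `x₁ ∈ M`, `x₂ ∈ Mi`. `split` for `G₂ - G₁ = b + ∑ r_c f_c + β`. `m' := x₁ - d b - ∑ r_c m_c = x₂ + d β - ∑ r_c (m_c - d f_c)` (since `x₁ - x₂ = d (G₂ - G₁)`, `d (pol (C r) • f_c) = pol (C r) • d f_c` by `Cw.d_smul_C`). So `m' ∈ M ∩ Mi` (`inM_d`, `mM`, `inMi_d`, `mI`), a combination of the `hh (inl c)` by `Cv.reg`, and
    `φ = m' + ∑ r_c m_c + d (b + G₁)`. Sum over `II a = Ix a ⊕ Ix a`: `Fintype.sum_sum_type`.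
* JOB SkB: - `Cv.reg`: `φ = ∑ Tr (φ * e i) • f i` (`Cw.sum_f`), `Tr (φ * e i)` is a polynomial of degree `≤ a i - 2`: zero if `a i ≤ 1` (`isPol_dle_neg`), and `∑_{l < a i - 1} c_l X ^ l` by `isPol_dle_coeff (N = a i - 2)` if `2 ≤ a i` (`Fin (N + 1)` with `N + 1 = a i - 1`: `obtain ⟨N, hN⟩ : ∃ N, a i = N + 2`, cast; or
    use the coefficients `c : Fin (a i - 1) → κ`, `c l = P.coeff l`, and `Polynomial.as_sum_range'` directly).
  - `Cv.sk2_hh`: `inl ⟨i, l⟩`: `Tr (X ^ l • f i * e j) = X ^ l δ_ij`, `l ≤ a i - 2`: in `M` and in `Mi`, `G = 0`. `inr c`: in `M` with `G = 0`, and `m c = (m c - d (fc c)) + d (fc c)`.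
  - `Cv.nabla`: (finite part) `φ = x + d G`, `x = ∑ u_s * d (b_s)` (`Cw.exists_gen`): `D φ = ∑ (D u_s * d b_s - d u_s * D b_s) + d (∑ u_s * D b_s) + d (D G)` (`Cw.bracket`, `Cw.comm`), `Cd.br`. (infinite part) `φ = x + d G`, `x = c * d w` (`Cw.exists_geni`): `D x = (D c * d w - d c * D w) + d (c * D w)`, `D c, D w ∈ Ci` (`Cd.inf`), `d w, d c ∈ Mi` (`Cw.inMi_d`), `Cw.inMi_mul`.
-/

set_option autoImplicit false

namespace MPadcCM

open Polynomial MPadcCov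

variable {κ : Type*} [Field κ] {E : Type*} [CommRing E] [Algebra (RatFunc κ) E] {n : ℕ}
  {e : Module.Basis (Fin n) (RatFunc κ) E} {a : Fin n → ℕ} {i0 : Fin n} {f : Fin n → E} {m : Ix a → E}
  {dK : Derivation ℤ (RatFunc κ) (RatFunc κ)} {d : Derivation ℤ E E}

private theorem skb_coef (a : ℕ) {r : RatFunc κ} (h : IsPol r) (hd : Dle r ((a : ℤ) - 2)) :
    ∃ c : Fin (a - 1) → κ, r = ∑ l, pol (C (c l)) * (RatFunc.X : RatFunc κ) ^ (l : ℕ) := by
  rcases Nat.lt_or_ge a 2 with h2 | h2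
  · have h0 : r = 0 := isPol_dle_neg h (dle_mono hd (by omega))
    refine ⟨fun _ => 0, ?_⟩
    rw [h0]
    symm
    apply Finset.sum_eq_zero
    intro l _
    have h3 : pol (C (0 : κ)) = 0 := by rw [C_0, pol, map_zero]
    rw [h3, zero_mul]
  · obtain ⟨N, rfl⟩ : ∃ N, a = N + 2 := ⟨a - 2, by omega⟩
    exact isPol_dle_coeff N h (dle_mono hd (by push_cast; omega))

/-- the regular forms. -/
theorem Cv.reg (H : Cv e a i0 f m dK d) (φ : E) (h : InReg e a φ) :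
    ∃ r : Ix a → κ, φ = ∑ c, pol (C (r c)) • hh κ f m (.inl c) := by
  have h1 : ∀ i, ∃ c : Fin (a i - 1) → κ,
      Tr κ E (φ * e i) = ∑ l, pol (C (c l)) * (RatFunc.X : RatFunc κ) ^ (l : ℕ) :=
    fun i => skb_coef (a i) (h i).1 (h i).2
  choose c hc using h1
  refine ⟨fun x => c x.1 x.2, ?_⟩
  rw [Fintype.sum_sigma]
  calc φ = ∑ i, Tr κ E (φ * e i) • f i := H.toCw.sum_f φ
    _ = _ := by
      refine Finset.sum_congr rfl fun i _ => ?_
      rw [hc i, Finset.sum_smul]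
      refine Finset.sum_congr rfl fun l _ => ?_
      rw [mul_smul]
      rfl

variable (e a) in
theorem split (z : E) : ∃ (b : E) (r : Ix a → κ) (β : E), InB e b ∧ InCi e a β ∧
    z = b + ∑ c, pol (C (r c)) • fc e a c + β := by
  choose p c hs using fun i => split1 (a i) (e.repr z i)
  let s : Fin n → RatFunc κ := fun i => e.repr z i - pol (p i) -
    ∑ l, pol (C (c i l)) * (RatFunc.X : RatFunc κ) ^ (-((l : ℤ) + 1))
  refine ⟨∑ i, pol (p i) • e i, fun x => c x.1 x.2, ∑ i, s i • e i, ?_, ?_, ?_⟩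
  · intro i
    rw [e.repr_sum_self]
    exact isPol_pol _
  · intro i
    rw [e.repr_sum_self]
    exact hs i
  · have h1 : ∑ x : Ix a, pol (C (c x.1 x.2)) • fc e a x =
        ∑ i, (∑ l, pol (C (c i l)) * (RatFunc.X : RatFunc κ) ^ (-((l : ℤ) + 1))) • e i := by
      rw [Fintype.sum_sigma]
      refine Finset.sum_congr rfl fun i _ => ?_
      rw [Finset.sum_smul]
      refine Finset.sum_congr rfl fun l _ => ?_
      rw [mul_smul]
      rfl
    rw [h1, ← Finset.sum_add_distrib, ← Finset.sum_add_distrib]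
    conv_lhs => rw [← e.sum_repr z]
    refine Finset.sum_congr rfl fun i _ => ?_
    rw [← add_smul, ← add_smul]
    congr 1
    change _ = _ + (e.repr z i - pol (p i) -
      ∑ l, pol (C (c i l)) * (RatFunc.X : RatFunc κ) ^ (-((l : ℤ) + 1)))
    ring

theorem Cv.sk (H : Cv e a i0 f m dK d) (φ : E) (h : SK2 e a d φ) :
    ∃ (r : II a → κ) (g : E), φ = ∑ b, pol (C (r b)) • hh κ f m b + d g := by
  obtain ⟨⟨x₁, G₁, hx₁, h₁⟩, ⟨x₂, G₂, hx₂, h₂⟩⟩ := h
  obtain ⟨b, r, β, hb, hβ, hz⟩ := split e a (G₂ - G₁)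
  have hW := H.toCw
  have hd : d (G₂ - G₁) = d b + ∑ c, pol (C (r c)) • d (fc e a c) + d β := by
    rw [hz, map_add, map_add, map_sum]
    simp only [hW.d_smul_C]
  have hM : InM e (x₁ - d b - ∑ c, pol (C (r c)) • m c) :=
    inM_sub (inM_sub hx₁ (hW.inM_d hb)) (inM_sum _ _ fun c _ => inM_smul (isPol_pol _) (H.mM c))
  have heq : x₁ - d b - ∑ c, pol (C (r c)) • m c =
      x₂ + d β - ∑ c, pol (C (r c)) • (m c - d (fc e a c)) := by
    have h3 : x₁ - x₂ = d (G₂ - G₁) := by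
      rw [map_sub]
      linear_combination h₂ - h₁
    have h4 : ∑ c, pol (C (r c)) • (m c - d (fc e a c)) =
        ∑ c, pol (C (r c)) • m c - ∑ c, pol (C (r c)) • d (fc e a c) := by
      rw [← Finset.sum_sub_distrib]
      exact Finset.sum_congr rfl fun c _ => smul_sub _ _ _
    rw [h4]
    rw [hd] at h3
    linear_combination h3
  have hMi : InMi e a (x₁ - d b - ∑ c, pol (C (r c)) • m c) := by
    rw [heq]
    exact inMi_sub (inMi_add hx₂ (hW.inMi_d hβ))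
      (inMi_sum _ _ fun c _ => inMi_smul (dle_C _) (H.mI c))
  obtain ⟨r', hr'⟩ := H.reg _ (fun i => ⟨hM i, hMi i⟩)
  refine ⟨Sum.elim r' r, b + G₁, ?_⟩
  rw [Fintype.sum_sum_type, map_add]
  have h5 : ∑ c : Ix a, pol (C (Sum.elim r' r (Sum.inl c))) • hh κ f m (Sum.inl c) =
      x₁ - d b - ∑ c, pol (C (r c)) • m c := hr'.symm
  have h6 : ∑ c : Ix a, pol (C (Sum.elim r' r (Sum.inr c))) • hh κ f m (Sum.inr c) =
      ∑ c, pol (C (r c)) • m c := rfl
  rw [h5, h6, h₁]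
  ring

theorem Cv.sk2_hh (H : Cv e a i0 f m dK d) (b : II a) : SK2 e a d (hh κ f m b) := by
  rcases b with c | c
  · refine ⟨⟨hh κ f m (.inl c), 0, ?_, by rw [map_zero, add_zero]⟩,
      ⟨hh κ f m (.inl c), 0, ?_, by rw [map_zero, add_zero]⟩⟩
    · exact inM_smul (isPol_xpow _) (H.toCw.inM_f c.1)
    · have hlt : (c.2 : ℕ) < a c.1 - 1 := c.2.2
      have hX : (RatFunc.X : RatFunc κ) ≠ 0 := RatFunc.X_ne_zero
      have h1 : hh κ f m (.inl c) = (RatFunc.X : RatFunc κ) ^ (((c.2 : ℕ) : ℤ) - ((a c.1 : ℤ) - 2)) •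
          ((RatFunc.X : RatFunc κ) ^ ((a c.1 : ℤ) - 2) • f c.1) := by
        rw [smul_smul, ← zpow_add₀ hX, sub_add_cancel, zpow_natCast]
        rfl
      rw [h1]
      exact inMi_smul (dle_mono (dle_zpow _) (by omega)) (H.toCw.inMi_f c.1)
  · refine ⟨⟨hh κ f m (.inr c), 0, H.mM c, by rw [map_zero, add_zero]⟩,
      ⟨m c - d (fc e a c), fc e a c, H.mI c, ?_⟩⟩
    rw [sub_add_cancel]
    rfl

theorem Cv.nabla (H : Cv e a i0 f m dK d) {δ : Derivation ℤ κ κ} {D : Derivation ℤ E E}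
    (hD : IsLiftE δ D) (HD : Cd e a d D) (φ : E) (h : SK2 e a d φ) : SK2 e a d (D φ) := by
  obtain ⟨⟨x, G, hx, h1⟩, ⟨y, K, hy, h2⟩⟩ := h
  constructor
  · obtain ⟨N, u, b, hu, hb, hx'⟩ := H.toCw.exists_gen hx
    refine ⟨∑ s, (D (u s) * d (b s) - d (u s) * D (b s)), (∑ s, u s * D (b s)) + D G, ?_, ?_⟩
    · exact inM_sum _ _ fun s _ => HD.br _ _ (hu s) (hb s)
    · rw [h1, map_add, H.toCw.comm hD, map_add, ← add_assoc]
      congr 1
      rw [hx', map_sum, map_sum, ← Finset.sum_add_distrib]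
      exact Finset.sum_congr rfl fun s _ => H.toCw.bracket hD _ _
  · obtain ⟨w, hw, hgen⟩ := H.toCw.exists_geni
    obtain ⟨c, hc, hy'⟩ := hgen y hy
    refine ⟨D c * d w - d c * D w, c * D w + D K, ?_, ?_⟩
    · refine inMi_sub (H.toCw.inMi_mul (HD.inf _ hc) (H.toCw.inMi_d hw)) ?_
      rw [mul_comm]
      exact H.toCw.inMi_mul (HD.inf _ hw) (H.toCw.inMi_d hc)
    · rw [h2, map_add, H.toCw.comm hD, map_add, ← add_assoc]
      congr 1
      rw [hy']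
      exact H.toCw.bracket hD _ _

end MPadcCM
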