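import Pool.Agent.Lib.MP_adc574_ag_CM.PH
import Pool.Agent.Lib.MP_adc574_ag_CM.PF
import Pool.Agent.Lib.MP_adc574_ag_CM.PG
import Pool.Agent.Lib.MP_adc574_ag_CM.Sk

/-!
# PI: the result of section 5 (assembly)

JOB PI. `H : Cv ..`, `P := H.pcv p`, `c v b := Cf dK e p v.1 v.2 (hh κ f m b)`.
`SK2 e a d φ ↔ IsSK e a d φ` (`isSK_iff`: `InMi` is `DDeg e a (-2)`: `a i - 2 = a i + -2`); `H.sk2_hh`, `H.sk` (Sk.lean). `pol (C r) • z = inE E (RatFunc.C r) * z` (`Algebra.smul_def`, `RatFunc.algebraMap_C`).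
`v.2 : Fin (a v.1 - 1)`, so `v.2 < a v.1 - 1` and `v.2 + 2 ≤ a v.1`.
* (1) independence: `lam` with `∑ v, lam v * c v b = 0` for all `b`. Fix `w : Ix a`. `P.exists_phi w.1 w.2`: `φ` of the second kind, `Cif k φ = if w.1 = k then pol (X ^ (p * w.2)) else 0`. `H.sk`: `φ = ∑ b, r b h b + d g`, so by `Cif_add`, `Cif_sum`, `Cif_smul`, `P.Cif_ex`: `Cif k φ = ∑ b, C (r b) * Cif k (h b)`; with `P.Cif_sk` for all `h b`
  and for `φ`, coefficients of `X ^ (p * j)` (`pol` injective): `Cf k j φ = ∑ b, r b * c (k, j) b` for all `(k, j) : Ix a` (`cf_lin`). So `∑ v, lam v * Cf v.1 v.2 φ = ∑ b, r b * ∑ v, lam v * c v b = 0`. But `Cf k j φ = coefficient of X ^ (p j) in X ^ (p w.2)` or `0` (`RatFunc.num_algebraMap`, `RatFunc.num_zero`): `1` if `(k, j) = w`, else `0` (`p > 0`). So `lam w = 0`.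
* (2) grading: `Cif_grade` with `ch' i := Multiplicative.ofAdd (ch i)`; needs: `gr ch b ≠ gr ch (.inl v)` implies `Tr (h b * e k) = 0` for all `k` with `ch k = ch v.1`. `b = .inl u`: `h b = x ^ l f u.1`, `Tr (f u.1 * e k) = 0` unless `k = u.1`, and `ch u.1 ≠ ch v.1`. `b = .inr c`: `m c = ∑ l, (coordinate l) e l`, only `ch l = ch c.1` (`Gr.mgr`); `Tr (e l * e k)`
  is zero if `ch l + ch k ≠ 0`: `Tr (e l * e k) = ∑ q, e.repr (e l * e k * e q) q` (`tr_eq_sum`), a product `e l * e k * e q` has only coordinates of degree `ch l + ch k + ch q` (`Gr.mul` twice). Here `ch k = ch v.1`, `ch l = ch c.1` and `gr ch (.inr c) = ch c.1 ≠ - ch v.1`.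
* (3) `P.Cf_reg`. (4) `P.Cf_D`, with `D := D`, `DK` := the derivation of `RatFunc κ` over `δ`: from `IsLiftE`: obtain `DK` with `D (algebraMap r) = algebraMap (DK r)` and `DK (pol q) = pol (cD δ q)`: `D` maps the image of `RatFunc κ` to itself (write `r * pol q = pol p`), the map `algebraMap (RatFunc κ) E` is injective (`E` is nontrivial: it contains `e i0 = 1`, basis element `≠ 0`); define `DK` by choice (`Derivation.mk'`).
  `dK (DK r) = DK (dK r)`: both are derivations of `RatFunc κ`-commutator zero on polynomials: `derivative (cD δ q) = cD δ (derivative q)` (see the private lemmas of Cov/SpecD.lean), hence zero on fractions. `Tr (D z) = DK (Tr z)`: same proof as `Cv.trd` (copy `SpecC_trder`: it works for every derivation `D` with `D (algebraMap r) = algebraMap (DK r)`).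
* (5) `Cif` of both sides: `P.Cif_ex`, then `cf_lin`-type argument: `0 = ∑ u, r u * c v (.inl u)`.
* `cf_lin` (general lemma, state it as you like): if `φ = ∑ b, pol (C (r b)) • h b + d g` and `φ` is of the second kind then `Cf v.1 v.2 φ = ∑ b, r b * c v b`.
-/

set_option autoImplicit false

namespace MPadcCM

open Polynomial MPadcCov

/-! ### derivations -/

private theorem pi_cD {R : Type*} [CommRing R] (δ : Derivation ℤ R R) (p : R[X]) (m : ℕ) :
    (cD δ p).coeff m = δ (p.coeff m) := by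
  unfold cD
  rw [Polynomial.sum_def, Polynomial.finsetSum_coeff]
  simp only [coeff_monomial]
  rw [Finset.sum_ite_eq']
  by_cases hm : m ∈ p.support
  · rw [if_pos hm]
  · rw [if_neg hm, Polynomial.notMem_support_iff.1 hm, map_zero]

private theorem pi_der {R : Type*} [CommRing R] (δ : Derivation ℤ R R) :
    ∃ Dp : Derivation ℤ R[X] R[X], ∀ p, Dp p = cD δ p := by
  have h0 : cD δ (0 : R[X]) = 0 := by
    ext m
    rw [pi_cD, coeff_zero, map_zero]
  have ha : ∀ p q : R[X], cD δ (p + q) = cD δ p + cD δ q := by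
    intro p q
    ext m
    rw [pi_cD, coeff_add, map_add, coeff_add, pi_cD, pi_cD]
  refine ⟨Derivation.mk' (AddMonoidHom.toIntLinearMap
    { toFun := cD δ, map_zero' := h0, map_add' := ha }) ?_, fun p => rfl⟩
  intro p q
  show cD δ (p * q) = p * cD δ q + q * cD δ p
  ext m
  rw [pi_cD, coeff_mul, map_sum, coeff_add, mul_comm q, coeff_mul, coeff_mul,
    ← Finset.sum_add_distrib]
  refine Finset.sum_congr rfl fun x _ => ?_
  rw [Derivation.leibniz, pi_cD, pi_cD, smul_eq_mul, smul_eq_mul,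
    mul_comm (δ (p.coeff x.1))]

private theorem pi_deriv {R : Type*} [CommRing R] (δ : Derivation ℤ R R) (p : R[X]) :
    derivative (cD δ p) = cD δ (derivative p) := by
  ext m
  rw [coeff_derivative, pi_cD, pi_cD, coeff_derivative, Derivation.leibniz]
  have h1 : δ ((m : R) + 1) = 0 := by
    have h2 : ((m : R) + 1) = ((m + 1 : ℕ) : R) := by push_cast; rfl
    rw [h2, Derivation.map_natCast]
  rw [h1, smul_zero, zero_add, smul_eq_mul, mul_comm]

/-- A derivation of the rational functions which kills the polynomials is zero. -/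
private theorem pi_rat {κ : Type*} [Field κ] (D : RatFunc κ → RatFunc κ)
    (hmul : ∀ x z, D (x * z) = x * D z + z * D x)
    (hD : ∀ p : κ[X], D (pol p) = 0) (r : RatFunc κ) : D r = 0 := by
  obtain ⟨p, q, hq, rfl⟩ := IsFractionRing.div_surjective (A := κ[X]) r
  have hq0 : pol q ≠ 0 := by
    intro h0
    have h1 : q = 0 := (IsFractionRing.injective κ[X] (RatFunc κ)) (by rw [map_zero]; exact h0)
    exact nonZeroDivisors.ne_zero hq h1
  have h1 : (pol p / pol q) * pol q = pol p := div_mul_cancel₀ _ hq0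
  have h2 : D ((pol p / pol q) * pol q) = 0 := by rw [h1]; exact hD p
  rw [hmul, hD q, mul_zero, zero_add] at h2
  rcases mul_eq_zero.1 h2 with h3 | h3
  · exact absurd h3 hq0
  · exact h3

/-- Change of the `ℤ`-algebra structure. -/
private theorem pi_conv {R : Type*} [CommRing R] (i1 i2 : Algebra ℤ R)
    (D : @Derivation ℤ R R _ _ _ i1 _ _) :
    ∃ D' : @Derivation ℤ R R _ _ _ i2 _ _, ∀ x, D' x = D x := by
  obtain rfl : i1 = i2 := Subsingleton.elim _ _
  exact ⟨D, fun x => rfl⟩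

/-- The derivation of the rational functions over a derivation of `κ`. -/
private theorem pi_DK {κ : Type*} [Field κ] (δ : Derivation ℤ κ κ) :
    ∃ DK : Derivation ℤ (RatFunc κ) (RatFunc κ), ∀ q : κ[X], DK (pol q) = pol (cD δ q) := by
  obtain ⟨Dp, hDp⟩ := pi_der δ
  obtain ⟨DK0, hDK0⟩ := ext_frac (K := RatFunc κ) Dp
  obtain ⟨DK, hcv⟩ : ∃ D1 : Derivation ℤ (RatFunc κ) (RatFunc κ), ∀ x, D1 x = DK0 x :=
    pi_conv _ _ DK0
  refine ⟨DK, fun q => ?_⟩
  rw [hcv, ← hDp]
  exact hDK0 q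

private theorem pi_comm {κ : Type*} [Field κ] {δ : Derivation ℤ κ κ}
    {dK DK : Derivation ℤ (RatFunc κ) (RatFunc κ)} (h1 : ∀ q : κ[X], dK (pol q) = pol (derivative q))
    (h2 : ∀ q : κ[X], DK (pol q) = pol (cD δ q)) (r : RatFunc κ) : dK (DK r) = DK (dK r) := by
  have h := pi_rat (fun r => dK (DK r) - DK (dK r)) (fun x z => by
    simp only [Derivation.leibniz, smul_eq_mul, map_add]
    ring) (fun q => by
    rw [h2, h1, h1, h2, pi_deriv, sub_self]) r
  exact sub_eq_zero.1 h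

variable {κ : Type*} [Field κ] {E : Type*} [CommRing E] [Algebra (RatFunc κ) E] {n : ℕ}
  {e : Module.Basis (Fin n) (RatFunc κ) E} {a : Fin n → ℕ} {i0 : Fin n} {f : Fin n → E} {m : Ix a → E}
  {dK : Derivation ℤ (RatFunc κ) (RatFunc κ)} {d : Derivation ℤ E E}

private theorem pi_lift {δ : Derivation ℤ κ κ} {D : Derivation ℤ E E} (hD : IsLiftE δ D)
    {DK : Derivation ℤ (RatFunc κ) (RatFunc κ)} (h2 : ∀ q : κ[X], DK (pol q) = pol (cD δ q))
    (r : RatFunc κ) : D (algebraMap (RatFunc κ) E r) = algebraMap (RatFunc κ) E (DK r) := by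
  obtain ⟨p, q, hq, h⟩ := exists_rep r
  have hq0 : pol q ≠ 0 := by
    rw [Ne, pol, map_eq_zero_iff _ pol_injective]
    exact hq
  have e1 : D (algebraMap (RatFunc κ) E (pol q * r)) = algebraMap (RatFunc κ) E (DK (pol q * r)) := by
    rw [h, hD p, h2]
  rw [map_mul, Derivation.leibniz, Derivation.leibniz, map_add, hD q, h2, smul_eq_mul, smul_eq_mul,
    smul_eq_mul, smul_eq_mul, map_mul, map_mul] at e1
  have e2 := add_right_cancel e1
  have e3 : algebraMap (RatFunc κ) E (pol q)⁻¹ * algebraMap (RatFunc κ) E (pol q) = 1 := by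
    rw [← map_mul, inv_mul_cancel₀ hq0, map_one]
  have e4 := congrArg (fun z => algebraMap (RatFunc κ) E (pol q)⁻¹ * z) e2
  simp only [← mul_assoc, e3, one_mul] at e4
  exact e4

private theorem pi_trder (e : Module.Basis (Fin n) (RatFunc κ) E)
    (dK : Derivation ℤ (RatFunc κ) (RatFunc κ)) (d : Derivation ℤ E E)
    (hd : ∀ r, d (algebraMap (RatFunc κ) E r) = algebraMap (RatFunc κ) E (dK r)) (z : E) :
    Tr κ E (d z) = dK (Tr κ E z) := by
  let D : @Derivation ℤ (RatFunc κ) (RatFunc κ) _ _ _ (Ring.toIntAlgebra _) _ _ :=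
    @Derivation.mk ℤ (RatFunc κ) (RatFunc κ) _ _ _ (Ring.toIntAlgebra _) _ _
      (dK.toLinearMap.toAddMonoidHom.toIntLinearMap) (dK.map_one_eq_zero)
      (fun x y => dK.leibniz x y)
  exact tr_der e D d hd z

private theorem pi_smul (r : κ) (z : E) : pol (C r) • z = inE E (RatFunc.C r) * z := by
  rw [Algebra.smul_def, inE, pol, RatFunc.algebraMap_C]

private theorem pi_coeff {p : ℕ} (hp : 0 < p) (c : ℕ → κ) {N j₀ : ℕ} (h : j₀ < N) :
    (∑ j ∈ Finset.range N, C (c j) * X ^ (p * j)).coeff (p * j₀) = c j₀ := by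
  rw [finsetSum_coeff, Finset.sum_eq_single j₀]
  · rw [coeff_C_mul_X_pow, if_pos rfl]
  · intro j _ hj
    rw [coeff_C_mul_X_pow, if_neg]
    intro h1
    exact hj (Nat.eq_of_mul_eq_mul_left hp h1).symm
  · intro h1
    exact absurd (Finset.mem_range.2 h) h1

private theorem pi_ext {v w : Ix a} (h1 : v.1 = w.1) (h2 : (v.2 : ℕ) = (w.2 : ℕ)) : v = w := by
  obtain ⟨i, j⟩ := v
  obtain ⟨i', j'⟩ := w
  simp only at h1
  subst h1
  have h3 : j = j' := Fin.ext h2
  rw [h3]

theorem isSK_iff (φ : E) : SK2 e a d φ ↔ IsSK e a d φ := by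
  unfold SK2 IsSK
  simp only [InMi, DDeg, sub_eq_add_neg]

theorem Cv.cf_lin (H : Cv e a i0 f m dK d) (p : ℕ) [Fact p.Prime] [CharP κ p] (φ : E)
    (hφ : SK2 e a d φ) (r : II a → κ) (g : E)
    (h : φ = ∑ b, pol (C (r b)) • hh κ f m b + d g) (v : Ix a) :
    Cf dK e p v.1 v.2 φ = ∑ b, r b * Cf dK e p v.1 v.2 (hh κ f m b) := by
  have P := H.pcv p
  have hp := (Fact.out : p.Prime).pos
  have h1 := P.Cif_sk v.1 ((isSK_iff φ).1 hφ)
  have h2 : Cif dK e p v.1 φ = ∑ b, RatFunc.C (r b) * Cif dK e p v.1 (hh κ f m b) := by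
    conv_lhs => rw [h]
    rw [Cif_add, Cif_sum, P.Cif_ex, add_zero]
    refine Finset.sum_congr rfl fun b _ => ?_
    rw [pi_smul, Cif_smul P.dK_pol]
  have h3 : pol (∑ j ∈ Finset.range (a v.1 - 1), C (Cf dK e p v.1 j φ) * X ^ (p * j)) =
      pol (∑ b, C (r b) * ∑ j ∈ Finset.range (a v.1 - 1),
        C (Cf dK e p v.1 j (hh κ f m b)) * X ^ (p * j)) := by
    rw [← h1, h2, pol, map_sum]
    refine Finset.sum_congr rfl fun b _ => ?_
    rw [P.Cif_sk v.1 ((isSK_iff _).1 (H.sk2_hh b)), map_mul, RatFunc.algebraMap_C]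
  have h4 := pol_injective h3
  have h5 := congrArg (fun q => coeff q (p * (v.2 : ℕ))) h4
  rw [pi_coeff hp _ v.2.2, finsetSum_coeff] at h5
  rw [h5]
  refine Finset.sum_congr rfl fun b _ => ?_
  rw [coeff_C_mul, pi_coeff hp _ v.2.2]

theorem Cv.cf_indep (H : Cv e a i0 f m dK d) (p : ℕ) [Fact p.Prime] [CharP κ p]
    (lam : Ix a → κ) (h : ∀ b, ∑ v, lam v * Cf dK e p v.1 v.2 (hh κ f m b) = 0) : lam = 0 := by
  classical
  have P := H.pcv p
  have hp := (Fact.out : p.Prime).pos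
  funext w
  have hw : (w.2 : ℕ) + 2 ≤ a w.1 := by
    have := w.2.2
    omega
  obtain ⟨φ, hφ, hk⟩ := P.exists_phi w.1 w.2 hw
  obtain ⟨r, g, hr⟩ := H.sk φ ((isSK_iff φ).2 hφ)
  have h1 : ∑ v, lam v * Cf dK e p v.1 v.2 φ = 0 := by
    have e1 : ∀ v, lam v * Cf dK e p v.1 v.2 φ =
        ∑ b, r b * (lam v * Cf dK e p v.1 v.2 (hh κ f m b)) := by
      intro v
      rw [H.cf_lin p φ ((isSK_iff φ).2 hφ) r g hr v, Finset.mul_sum]
      refine Finset.sum_congr rfl fun b _ => ?_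
      ring
    rw [Finset.sum_congr rfl fun v _ => e1 v, Finset.sum_comm]
    refine Finset.sum_eq_zero fun b _ => ?_
    rw [← Finset.mul_sum, h b, mul_zero]
  have h2 : ∀ v : Ix a, Cf dK e p v.1 v.2 φ = if v = w then 1 else 0 := by
    intro v
    unfold Cf
    rw [hk v.1]
    by_cases hv : w.1 = v.1
    · rw [if_pos hv, pol, RatFunc.num_algebraMap, coeff_X_pow]
      by_cases hv2 : (v.2 : ℕ) = (w.2 : ℕ)
      · rw [if_pos (by rw [hv2]), if_pos (pi_ext hv.symm hv2)]
      · rw [if_neg (fun h3 => hv2 (Nat.eq_of_mul_eq_mul_left hp h3)), if_neg]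
        rintro rfl
        exact hv2 rfl
    · rw [if_neg hv, RatFunc.num_zero, coeff_zero, if_neg]
      rintro rfl
      exact hv rfl
  rw [Finset.sum_congr rfl fun v _ => by rw [h2 v]] at h1
  simp only [mul_ite, mul_one, mul_zero, Finset.sum_ite_eq', Finset.mem_univ, if_true] at h1
  exact h1

/-- coordinates of `z * e k` for a homogeneous `z` -/
private theorem pi_hom {X' : Type*} [AddCommGroup X'] {ch : Fin n → X'}
    (hmul : ∀ i j l, e.repr (e i * e j) l ≠ 0 → ch l = ch i + ch j) {z : E} {x : X'}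
    (hz : ∀ l, e.repr z l ≠ 0 → ch l = x) (k l : Fin n) (h : e.repr (z * e k) l ≠ 0) :
    ch l = x + ch k := by
  rw [repr_mul'] at h
  obtain ⟨i, -, hi⟩ := Finset.exists_ne_zero_of_sum_ne_zero h
  obtain ⟨j, -, hj⟩ := Finset.exists_ne_zero_of_sum_ne_zero hi
  have h1 : e.repr z i ≠ 0 := left_ne_zero_of_mul (left_ne_zero_of_mul hj)
  have h2 : e.repr (e k) j ≠ 0 := right_ne_zero_of_mul (left_ne_zero_of_mul hj)
  have h3 : e.repr (e i * e j) l ≠ 0 := right_ne_zero_of_mul hj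
  have h4 : j = k := by
    by_contra h5
    apply h2
    rw [e.repr_self, Finsupp.single_eq_of_ne h5]
  rw [h4] at h3
  rw [hmul i k l h3, hz i h1]

theorem Cv.cf_gr (H : Cv e a i0 f m dK d) {X' : Type*} [AddCommGroup X'] {ch : Fin n → X'}
    (HG : Gr e ch m d) (p : ℕ) [Fact p.Prime] [CharP κ p] (hp : ∀ x : X', p • x = x) (v : Ix a)
    (b : II a) (hb : gr ch b ≠ gr ch (.inl v)) : Cf dK e p v.1 v.2 (hh κ f m b) = 0 := by
  have h1 : Cif dK e p v.1 (hh κ f m b) = 0 := by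
    refine Cif_grade (ch := fun i => Multiplicative.ofAdd (ch i)) ?_ p
      (Fact.out : p.Prime).ne_zero v.1 ?_ _ ?_
    · intro i j k hk
      rw [HG.mul i j k hk]
      rfl
    · rw [← ofAdd_nsmul, hp]
    · intro k hk
      have hk' : ch k = ch v.1 := Multiplicative.ofAdd.injective hk
      rcases b with u | c
      · have hku : u.1 ≠ k := by
          rintro rfl
          apply hb
          change -ch u.1 = -ch v.1
          rw [hk']
        change Tr κ E (((RatFunc.X : RatFunc κ) ^ (u.2 : ℕ) • f u.1) * e k) = 0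
        rw [smul_mul_assoc, map_smul, H.dual, if_neg hku, smul_zero]
      · change Tr κ E (m c * e k) = 0
        rw [tr_eq_sum (e := e)]
        refine Finset.sum_eq_zero fun q _ => ?_
        by_contra h2
        have h3 : ∀ l, e.repr (m c * e k) l ≠ 0 → ch l = ch c.1 + ch k := fun l hl =>
          pi_hom HG.mul (fun l hl => HG.mgr c l hl) k l hl
        have h4 := pi_hom HG.mul h3 q q h2
        apply hb
        change ch c.1 = -ch v.1
        rw [hk'] at h4
        exact eq_neg_of_add_eq_zero_left (left_eq_add.1 (h4.trans (add_comm _ _)))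
  unfold Cf
  rw [h1, RatFunc.num_zero, coeff_zero]

theorem Cv.cf_reg (H : Cv e a i0 f m dK d) (p : ℕ) [Fact p.Prime] [CharP κ p]
    {s : Fin n → Fin n → Fin n → κ[X]} (hs : ∀ i j l, e.repr (e i * e j) l = pol (s i j l))
    (v u : Ix a) : Cf dK e p v.1 v.2 (hh κ f m (.inl u)) = HW p s ⟨v.1, v.2⟩ ⟨u.1, u.2⟩ := by
  have h := (H.pcv p).Cf_reg hs ⟨v.1, v.2⟩ ⟨u.1, u.2⟩
  rw [← h]
  congr 1
  exact Algebra.smul_def _ _

theorem Cv.cf_der (H : Cv e a i0 f m dK d) (p : ℕ) [Fact p.Prime] [CharP κ p]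
    {δ : Derivation ℤ κ κ} {D : Derivation ℤ E E} (hD : IsLiftE δ D) {G : II a → II a → κ}
    (hG : Rel f m d D G) (v : Ix a) (b : II a) :
    δ (Cf dK e p v.1 v.2 (hh κ f m b)) = ∑ b', G b' b * Cf dK e p v.1 v.2 (hh κ f m b') := by
  have P := H.pcv p
  obtain ⟨DK, hDK⟩ := pi_DK δ
  obtain ⟨g, hg⟩ := hG b
  refine P.Cf_D hDK (pi_comm P.dK_pol hDK) (pi_trder e DK D (pi_lift hD hDK)) (hh κ f m)
    (fun y => (isSK_iff _).1 (H.sk2_hh y)) ((isSK_iff _).1 (H.sk2_hh b)) (fun b' => G b' b) g ?_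
    v.1 v.2 v.2.2
  rw [hg]
  congr 1
  exact Finset.sum_congr rfl fun y _ => pi_smul _ _

theorem Cv.cf_ex (H : Cv e a i0 f m dK d) (p : ℕ) [Fact p.Prime] [CharP κ p] (r : Ix a → κ)
    (g : E) (h : ∑ u, pol (C (r u)) • hh κ f m (.inl u) = d g) (v : Ix a) :
    ∑ u, r u * Cf dK e p v.1 v.2 (hh κ f m (.inl u)) = 0 := by
  have hz : SK2 e a d (0 : E) := by
    refine ⟨⟨0, 0, InM.zero, by rw [map_zero, add_zero]⟩, ⟨0, 0, ?_, by rw [map_zero, add_zero]⟩⟩
    intro i
    rw [zero_mul, map_zero]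
    exact Dle.zero _
  have h1 := H.cf_lin p 0 hz (Sum.elim r (fun _ => 0)) (-g) (by
    rw [Fintype.sum_sum_type]
    simp only [Sum.elim_inl, Sum.elim_inr]
    rw [h, map_neg]
    have h2 : ∑ x : Ix a, pol (C (0 : κ)) • hh κ f m (.inr x) = 0 := by
      refine Finset.sum_eq_zero fun x _ => ?_
      rw [C_0, pol, map_zero, zero_smul]
    rw [h2, add_zero, add_neg_cancel]) v
  rw [Fintype.sum_sum_type] at h1
  simp only [Sum.elim_inl, Sum.elim_inr, zero_mul, Finset.sum_const_zero, add_zero] at h1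
  rw [← h1]
  unfold Cf
  have h3 : Cif dK e p v.1 (0 : E) = 0 := by
    unfold Cif
    rw [zero_mul, map_zero]
    exact pe_it_zero dK _
  rw [h3, RatFunc.num_zero, coeff_zero]

end MPadcCM
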