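import Pool.Agent.Lib.MP_adc574_ag_CM.PI
import Pool.Agent.Lib.MP_adc574_ag_Cov.PtA

/-!
# PJ: no exact regular forms if the Hasse-Witt determinant does not vanish

JOB PJ. `hwM p s` = the matrix of `HW` over `Ix a`.
* `hwM_map`: `HW_map`.
* `no_exact_E`: `φ` in `InReg`, `φ = d G`: `H.reg`: `φ = ∑ r_u h (inl u)`; `H.cf_ex`: `∑ u, r u * c v (inl u) = 0` for all `v`, `c v (inl u) = HW ..` (`cf_reg`): `(hwM p s).mulVec r = 0`, the determinant is nonzero, so `r = 0` (`Matrix.eq_zero_of_mulVec_eq_zero`) and `φ = 0`.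
* `no_exact`: transport along `θ : FR κ F ≃ₐ[RatFunc κ] E`: `IsReg.equiv`, `IsEx.equiv` (Cov/PtA: it gives `G` with `d G = θ φ`), `Cv.inReg`, `θ` injective.
-/

set_option autoImplicit false

namespace MPadcCM

open Polynomial MPadcCov

/-- The Hasse-Witt matrix of the structure constants `s`. -/
noncomputable def hwM {R : Type*} [CommRing R] {n : ℕ} (a : Fin n → ℕ) (p : ℕ)
    (s : Fin n → Fin n → Fin n → R[X]) : Matrix (Ix a) (Ix a) R :=
  Matrix.of fun v u => HW p s ⟨v.1, v.2⟩ ⟨u.1, u.2⟩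

theorem hwM_map {R S : Type*} [CommRing R] [CommRing S] (ψ : R →+* S) {n : ℕ} (a : Fin n → ℕ)
    (p : ℕ) (s : Fin n → Fin n → Fin n → R[X]) :
    hwM a p (fun i j k => (s i j k).map ψ) = (hwM a p s).map ψ := by
  ext v u
  rw [hwM, hwM, Matrix.of_apply, Matrix.map_apply, Matrix.of_apply]
  exact HW_map ψ p s _ _

variable {κ : Type*} [Field κ] {E : Type*} [CommRing E] [Algebra (RatFunc κ) E] {n : ℕ}
  {e : Module.Basis (Fin n) (RatFunc κ) E} {a : Fin n → ℕ} {i0 : Fin n} {f : Fin n → E} {m : Ix a → E}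
  {dK : Derivation ℤ (RatFunc κ) (RatFunc κ)} {d : Derivation ℤ E E}

theorem no_exact_E (H : Cv e a i0 f m dK d) (p : ℕ) [Fact p.Prime] [CharP κ p]
    {s : Fin n → Fin n → Fin n → κ[X]} (hs : ∀ i j l, e.repr (e i * e j) l = pol (s i j l))
    (hdet : (hwM a p s).det ≠ 0) (φ : E) (hφ : InReg e a φ) (G : E) (hG : d G = φ) : φ = 0 := by
  obtain ⟨r, hr⟩ := H.reg φ hφ
  have h1 : ∀ v : Ix a, ∑ u, r u * Cf dK e p v.1 v.2 (hh κ f m (.inl u)) = 0 := fun v =>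
    H.cf_ex p r G (by rw [hG, hr]) v
  have h2 : (hwM a p s).mulVec r = 0 := by
    funext v
    rw [Pi.zero_apply, ← h1 v, Matrix.mulVec, dotProduct]
    refine Finset.sum_congr rfl fun u _ => ?_
    rw [H.cf_reg p hs, mul_comm]
    rfl
  have h3 : r = 0 := Matrix.eq_zero_of_mulVec_eq_zero hdet h2
  rw [hr, h3]
  refine Finset.sum_eq_zero fun u _ => ?_
  rw [Pi.zero_apply, C_0, pol, map_zero, zero_smul]

theorem no_exact (H : Cv e a i0 f m dK d) (p : ℕ) [Fact p.Prime] [CharP κ p]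
    {s : Fin n → Fin n → Fin n → κ[X]} (hs : ∀ i j l, e.repr (e i * e j) l = pol (s i j l))
    (hdet : (hwM a p s).det ≠ 0) {F : κ[X][X]} (θ : FR κ F ≃ₐ[RatFunc κ] E)
    (φ : FR κ F) (hφ : IsReg (κ := κ) φ) (hex : IsEx (κ := κ) φ) : φ = 0 := by
  obtain ⟨G, hG⟩ := IsEx.equiv θ hex dK d H.dK_pol H.d_alg
  have h1 := no_exact_E H p hs hdet (θ φ) (H.inReg _ (IsReg.equiv θ hφ)) G hG
  exact (map_eq_zero_iff θ θ.injective).1 h1

end MPadcCM
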