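import Pool.Agent.Lib.MP_adc574_ag_CM.SpR
import Pool.Agent.Lib.MP_adc574_ag_CM.Grd
import Pool.Agent.Lib.MP_adc574_ag_Cov.Gen

/-!
# SpB: specialization of a cover along `ψ : A → κ`

`A ⊂ k` a subring, `q ∈ A[x]` monic, `R = Localization.Away q`, `j = algebraMap A k`. `BR A q hq ψ e e' B Φ`: `B ⊂ L` is the subring of the elements with all coordinates in `R ⊂ k(x)` (`rq j q hq : R → k(x)` is injective: `rq_inj`), `Φ : B → E` is the specialization: the coordinates of `Φ z` are the images under `rq ψ q hq` of the coordinates of `z`. The conclusions `∃ r, x = rq j r ∧ y = rq ψ r` (`Rl x y`, related rational functions) are stable under sums, products.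
* JOB SpBA: - `exists_BR`: `MPadcCov.base_change` (Cov/Bc.lean) for `f = rq j q hq`, `g = rq ψ q hq`, structure constants `algebraMap (s i j l)` (`rq_alg`), unit `Pi.single i0 1`.
  - `Rl.*`: obvious. `BR.rep'`: `Rl (e.repr z i) (e'.repr (Φ z) i)`. `BR.phi_e`: coordinates `0, 1`. `BR.smul`: for `Rl x y` and `z ∈ B`: `x • z ∈ B` and `Φ (x • z) = y • Φ z`: coordinates. `BR.ext`: if `z ∈ B`, `w ∈ E` and `Rl (e.repr z i) (e'.repr w i)` for all `i` then `Φ z = w` (injectivity of `rq j`).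
  - `BR.tr`: `Tr z = ∑ j, e.repr (z * e j) j` (`MPadcCov.tr_eq`), `Φ (z * e j) = Φ z * e' j`.
* JOB SpBB: - `BR.inB`, `BR.inCi`, `BR.inM`, `BR.inMi`: `Rl x y`, `IsPol x → IsPol y` (`rq_pol`, `rq_alg`), `Dle x m → Dle y m` (`rq_dle`), with `rep'` and `tr`.
  - `BR.der`: `D` a derivation of `L` over `Δ₀` with `D (e i) ∈ B`. `z ∈ B → D z ∈ B`: `D z = ∑ Δ₀ (z_i) • e i + z_i • D (e i)` (`rq_der`). `MPadcCov.exists_der` (Cov/Der.lean) for `E`, `e'`, `Δ`, `v i = Φ (D (e i))`: the hypothesis is `Φ` applied to the Leibniz rule for `D (e i * e j)`, expanded in coordinates. `D' (Φ z) = Φ (D z)`: expand both in the basis. (Instance `Algebra ℤ (RatFunc _)`: see the remarks in LatB/`Deg_conv`.)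
-/

set_option autoImplicit false

namespace MPadcCM

open Polynomial MPadcCov

universe u

section

variable {k κ : Type u} [Field k] [Field κ]

/-- The rational functions `x` and `y` are the images of the same element of `A[x][1/q]`. -/
def Rl (A : Subalgebra ℤ k) (q : A[X]) (hq : q.Monic) (ψ : A →+* κ) (x : RatFunc k)
    (y : RatFunc κ) : Prop :=
  ∃ r : Localization.Away q, x = rq (algebraMap A k) q hq r ∧ y = rq ψ q hq r

/-- The algebra `E` over `κ(x)` with the basis `e'` is the specialization, along `ψ : A → κ`, of the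
algebra `L` over `k(x)` with the basis `e`. -/
structure BR (A : Subalgebra ℤ k) (q : A[X]) (hq : q.Monic) (ψ : A →+* κ)
    {L E : Type u} [CommRing L] [CommRing E] [Algebra (RatFunc k) L] [Algebra (RatFunc κ) E]
    {n : ℕ} (e : Module.Basis (Fin n) (RatFunc k) L) (e' : Module.Basis (Fin n) (RatFunc κ) E)
    (B : Subring L) (Φ : B →+* E) : Prop where
  mem : ∀ z : L, z ∈ B ↔ ∀ i, ∃ r, rq (algebraMap A k) q hq r = e.repr z i
  rep : ∀ (z : B) (i : Fin n) (r : Localization.Away q),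
    e.repr z.1 i = rq (algebraMap A k) q hq r → e'.repr (Φ z) i = rq ψ q hq r

end

variable {k κ : Type u} [Field k] [Field κ] {A : Subalgebra ℤ k} {q : A[X]} {hq : q.Monic}
  {ψ : A →+* κ} {L E : Type u} [CommRing L] [CommRing E] [Algebra (RatFunc k) L]
  [Algebra (RatFunc κ) E] {n : ℕ} {e : Module.Basis (Fin n) (RatFunc k) L}
  {e' : Module.Basis (Fin n) (RatFunc κ) E} {B : Subring L} {Φ : B →+* E}

private theorem spba_inj {k : Type u} [Field k] {A : Subalgebra ℤ k} :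
    Function.Injective (algebraMap A k) :=
  Subtype.val_injective

theorem exists_BR (A : Subalgebra ℤ k) (q : A[X]) (hq : q.Monic) (ψ : A →+* κ)
    (e : Module.Basis (Fin n) (RatFunc k) L) (s : Fin n → Fin n → Fin n → A[X])
    (hs : ∀ i j l, e.repr (e i * e j) l = pol ((s i j l).map (algebraMap A k))) (i0 : Fin n)
    (h1 : e i0 = 1) : ∃ (E : Type u) (_ : CommRing E) (_ : Algebra (RatFunc κ) E)
      (e' : Module.Basis (Fin n) (RatFunc κ) E) (B : Subring L) (Φ : B →+* E),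
      BR A q hq ψ e e' B Φ := by
  classical
  obtain ⟨E, i1, i2, e', B, Φ, hm, hr⟩ := base_change (rq (algebraMap A k) q hq)
    (rq_inj _ spba_inj q hq) (rq ψ q hq) e
    (fun i j l => algebraMap A[X] (Localization.Away q) (s i j l)) (Pi.single i0 1)
    (fun i j l => by rw [hs, rq_alg]) (fun l => by
      rw [← h1, Module.Basis.repr_self]
      by_cases hl : l = i0
      · subst hl
        rw [Finsupp.single_eq_same, Pi.single_eq_same, map_one]
      · rw [Finsupp.single_eq_of_ne hl, Pi.single_eq_of_ne hl, map_zero])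
  exact ⟨E, i1, i2, e', B, Φ, ⟨hm, hr⟩⟩

theorem Rl.add {x x' : RatFunc k} {y y' : RatFunc κ} (h : Rl A q hq ψ x y)
    (h' : Rl A q hq ψ x' y') : Rl A q hq ψ (x + x') (y + y') := by
  obtain ⟨r, rfl, rfl⟩ := h
  obtain ⟨r', rfl, rfl⟩ := h'
  exact ⟨r + r', (map_add _ _ _).symm, (map_add _ _ _).symm⟩

theorem Rl.sub {x x' : RatFunc k} {y y' : RatFunc κ} (h : Rl A q hq ψ x y)
    (h' : Rl A q hq ψ x' y') : Rl A q hq ψ (x - x') (y - y') := by
  obtain ⟨r, rfl, rfl⟩ := h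
  obtain ⟨r', rfl, rfl⟩ := h'
  exact ⟨r - r', (map_sub _ _ _).symm, (map_sub _ _ _).symm⟩

theorem Rl.mul {x x' : RatFunc k} {y y' : RatFunc κ} (h : Rl A q hq ψ x y)
    (h' : Rl A q hq ψ x' y') : Rl A q hq ψ (x * x') (y * y') := by
  obtain ⟨r, rfl, rfl⟩ := h
  obtain ⟨r', rfl, rfl⟩ := h'
  exact ⟨r * r', (map_mul _ _ _).symm, (map_mul _ _ _).symm⟩

theorem Rl.sum {ι : Type*} (s : Finset ι) (x : ι → RatFunc k) (y : ι → RatFunc κ)
    (h : ∀ i ∈ s, Rl A q hq ψ (x i) (y i)) : Rl A q hq ψ (∑ i ∈ s, x i) (∑ i ∈ s, y i) := by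
  classical
  induction s using Finset.induction_on with
  | empty =>
    rw [Finset.sum_empty, Finset.sum_empty]
    exact ⟨0, (map_zero _).symm, (map_zero _).symm⟩
  | insert a s ha ih =>
    rw [Finset.sum_insert ha, Finset.sum_insert ha]
    exact (h a (Finset.mem_insert_self _ _)).add
      (ih fun i hi => h i (Finset.mem_insert_of_mem hi))

theorem rl_pol (A : Subalgebra ℤ k) (q : A[X]) (hq : q.Monic) (ψ : A →+* κ) (p : A[X]) :
    Rl A q hq ψ (pol (p.map (algebraMap A k))) (pol (p.map ψ)) :=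
  ⟨algebraMap A[X] (Localization.Away q) p, (rq_alg _ _ _ _).symm, (rq_alg _ _ _ _).symm⟩

theorem rl_zero : Rl A q hq ψ 0 0 := ⟨0, (map_zero _).symm, (map_zero _).symm⟩

theorem rl_one : Rl A q hq ψ 1 1 := ⟨1, (map_one _).symm, (map_one _).symm⟩

private theorem spba_X {κ : Type u} [Field κ] (ψ : A →+* κ) :
    rq ψ q hq (algebraMap A[X] (Localization.Away q) X) = RatFunc.X := by
  rw [rq_alg, Polynomial.map_X, pol, RatFunc.algebraMap_X]

theorem rl_xpow (hX : X ∣ q) (N : ℤ) : Rl A q hq ψ (RatFunc.X ^ N) (RatFunc.X ^ N) := by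
  rcases N with n | n
  · refine ⟨(algebraMap A[X] (Localization.Away q) X) ^ n, ?_, ?_⟩
    · rw [map_pow, spba_X, Int.ofNat_eq_natCast, zpow_natCast]
    · rw [map_pow, spba_X, Int.ofNat_eq_natCast, zpow_natCast]
  · obtain ⟨r, hr⟩ := exists_xinv q hq hX
    refine ⟨r ^ (n + 1), ?_, ?_⟩
    · rw [map_pow, hr, zpow_negSucc, inv_pow]
    · rw [map_pow, hr, zpow_negSucc, inv_pow]

theorem Rl.eq {x : RatFunc k} {y y' : RatFunc κ} (h : Rl A q hq ψ x y) (h' : Rl A q hq ψ x y') :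
    y = y' := by
  obtain ⟨r, h1, rfl⟩ := h
  obtain ⟨r', h1', rfl⟩ := h'
  rw [rq_inj _ spba_inj q hq (h1.symm.trans h1')]

private theorem spbb_inj (A : Subalgebra ℤ k) : Function.Injective (algebraMap A k) :=
  Subtype.val_injective

theorem Rl.isPol {x : RatFunc k} {y : RatFunc κ} (h : Rl A q hq ψ x y) (hx : IsPol x) :
    IsPol y := by
  obtain ⟨r, rfl, rfl⟩ := h
  obtain ⟨p, rfl⟩ := rq_pol (algebraMap A k) (spbb_inj A) q hq r hx
  rw [rq_alg]
  exact ⟨_, rfl⟩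

theorem Rl.dle {x : RatFunc k} {y : RatFunc κ} (h : Rl A q hq ψ x y) {m : ℤ} (hx : Dle x m) :
    Dle y m := by
  obtain ⟨r, rfl, rfl⟩ := h
  exact rq_dle (algebraMap A k) (spbb_inj A) ψ q hq r m hx

theorem BR.rep' (H : BR A q hq ψ e e' B Φ) (z : B) (i : Fin n) :
    Rl A q hq ψ (e.repr z.1 i) (e'.repr (Φ z) i) := by
  obtain ⟨r, hr⟩ := (H.mem z.1).1 z.2 i
  exact ⟨r, hr.symm, H.rep z i r hr.symm⟩

theorem BR.ext (H : BR A q hq ψ e e' B Φ) (z : B) (w : E)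
    (h : ∀ i, Rl A q hq ψ (e.repr z.1 i) (e'.repr w i)) : Φ z = w :=
  e'.ext_elem fun i => (H.rep' z i).eq (h i)

theorem BR.e_mem (H : BR A q hq ψ e e' B Φ) (i : Fin n) : e i ∈ B := by
  refine (H.mem _).2 fun j => ?_
  rw [Module.Basis.repr_self]
  by_cases hj : j = i
  · subst hj
    exact ⟨1, by rw [Finsupp.single_eq_same, map_one]⟩
  · exact ⟨0, by rw [Finsupp.single_eq_of_ne hj, map_zero]⟩

theorem BR.phi_e (H : BR A q hq ψ e e' B Φ) (i : Fin n) : Φ ⟨e i, H.e_mem i⟩ = e' i := by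
  refine H.ext _ _ fun j => ?_
  rw [Module.Basis.repr_self, Module.Basis.repr_self]
  by_cases hj : j = i
  · subst hj
    rw [Finsupp.single_eq_same, Finsupp.single_eq_same]
    exact rl_one
  · rw [Finsupp.single_eq_of_ne hj, Finsupp.single_eq_of_ne hj]
    exact rl_zero

theorem BR.smul (H : BR A q hq ψ e e' B Φ) {x : RatFunc k} {y : RatFunc κ}
    (h : Rl A q hq ψ x y) (z : B) : ∃ hz : x • z.1 ∈ B, Φ ⟨x • z.1, hz⟩ = y • Φ z := by
  have h1 : ∀ i, Rl A q hq ψ (e.repr (x • z.1) i) (e'.repr (y • Φ z) i) := by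
    intro i
    rw [map_smul, map_smul, Finsupp.smul_apply, Finsupp.smul_apply, smul_eq_mul, smul_eq_mul]
    exact h.mul (H.rep' z i)
  have hz : x • z.1 ∈ B := by
    refine (H.mem _).2 fun i => ?_
    obtain ⟨r, hr, -⟩ := h1 i
    exact ⟨r, hr.symm⟩
  exact ⟨hz, H.ext _ _ h1⟩

theorem BR.tr (H : BR A q hq ψ e e' B Φ) (z : B) :
    Rl A q hq ψ (Tr k L z.1) (Tr κ E (Φ z)) := by
  have h1 : Tr k L z.1 = ∑ j, e.repr (z.1 * e j) j := tr_eq e z.1
  have h2 : Tr κ E (Φ z) = ∑ j, e'.repr (Φ z * e' j) j := tr_eq e' (Φ z)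
  rw [h1, h2]
  refine Rl.sum _ _ _ fun j _ => ?_
  have h3 := H.rep' (z * ⟨e j, H.e_mem j⟩) j
  rw [map_mul, H.phi_e] at h3
  exact h3

private theorem spbb_tr (H : BR A q hq ψ e e' B Φ) (z : B) (i : Fin n) :
    Rl A q hq ψ (Tr k L (z.1 * e i)) (Tr κ E (Φ z * e' i)) := by
  have h3 := H.tr (z * ⟨e i, H.e_mem i⟩)
  rw [map_mul, H.phi_e] at h3
  exact h3

theorem BR.inB (H : BR A q hq ψ e e' B Φ) (z : B) (hz : InB e z.1) : InB e' (Φ z) :=
  fun i => (H.rep' z i).isPol (hz i)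

theorem BR.inM (H : BR A q hq ψ e e' B Φ) (z : B) (hz : InM e z.1) : InM e' (Φ z) :=
  fun i => (spbb_tr H z i).isPol (hz i)

theorem BR.inCi (H : BR A q hq ψ e e' B Φ) {a : Fin n → ℕ} (z : B) (hz : InCi e a z.1) :
    InCi e' a (Φ z) :=
  fun i => (H.rep' z i).dle (hz i)

theorem BR.inMi (H : BR A q hq ψ e e' B Φ) {a : Fin n → ℕ} (z : B) (hz : InMi e a z.1) :
    InMi e' a (Φ z) :=
  fun i => (spbb_tr H z i).dle (hz i)

private theorem spbb_conv {R : Type*} [CommRing R] (i1 i2 : Algebra ℤ R)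
    (D : @Derivation ℤ R R _ _ _ i1 _ _) :
    ∃ D' : @Derivation ℤ R R _ _ _ i2 _ _, ∀ x, D' x = D x := by
  obtain rfl : i1 = i2 := Subsingleton.elim _ _
  exact ⟨D, fun x => rfl⟩

/-- the derivative of a combination of the basis -/
private theorem spbb_exp {K E : Type*} [Field K] [CommRing E] [Algebra K E] {n : ℕ}
    (e : Module.Basis (Fin n) K E) (D : Derivation ℤ E E) (d0 : K → K)
    (hD : ∀ r, D (algebraMap K E r) = algebraMap K E (d0 r)) (z : E) :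
    D z = ∑ i, (d0 (e.repr z i) • e i + e.repr z i • D (e i)) := by
  conv_lhs => rw [← e.sum_repr z, map_sum]
  refine Finset.sum_congr rfl fun i _ => ?_
  rw [Algebra.smul_def, Derivation.leibniz, hD, smul_eq_mul, smul_eq_mul, Algebra.smul_def,
    Algebra.smul_def]
  ring

private theorem spbb_der (H : BR A q hq ψ e e' B Φ) {Δ₀ : Derivation ℤ (RatFunc k) (RatFunc k)}
    {Δ : Derivation ℤ (RatFunc κ) (RatFunc κ)} (F : A[X] → A[X])
    (h₀ : ∀ p, Δ₀ (pol (p.map (algebraMap A k))) = pol ((F p).map (algebraMap A k)))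
    (h : ∀ p, Δ (pol (p.map ψ)) = pol ((F p).map ψ)) (D : Derivation ℤ L L)
    (hD : ∀ r, D (algebraMap (RatFunc k) L r) = algebraMap (RatFunc k) L (Δ₀ r))
    (hDe : ∀ i, D (e i) ∈ B) (z : B) : ∃ hz : D z.1 ∈ B, Φ ⟨D z.1, hz⟩ =
      ∑ i, (Δ (e'.repr (Φ z) i) • e' i + e'.repr (Φ z) i • Φ ⟨D (e i), hDe i⟩) := by
  have h1 : ∀ i, ∃ t : B, t.1 = Δ₀ (e.repr z.1 i) • e i + e.repr z.1 i • D (e i) ∧
      Φ t = Δ (e'.repr (Φ z) i) • e' i + e'.repr (Φ z) i • Φ ⟨D (e i), hDe i⟩ := by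
    intro i
    obtain ⟨r, hr⟩ := (H.mem z.1).1 z.2 i
    have hr2 := H.rep z i r hr.symm
    obtain ⟨r', hr3, hr4⟩ := rq_der (algebraMap A k) ψ q hq Δ₀ Δ F h₀ h r
    have hR1 : Rl A q hq ψ (Δ₀ (e.repr z.1 i)) (Δ (e'.repr (Φ z) i)) :=
      ⟨r', by rw [← hr]; exact hr3, by rw [hr2]; exact hr4⟩
    obtain ⟨m1, p1⟩ := H.smul hR1 ⟨e i, H.e_mem i⟩
    obtain ⟨m2, p2⟩ := H.smul (H.rep' z i) ⟨D (e i), hDe i⟩
    refine ⟨⟨_, m1⟩ + ⟨_, m2⟩, rfl, ?_⟩
    rw [map_add, p1, p2, H.phi_e]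
  choose t ht1 ht2 using h1
  have hs : ((∑ i, t i : B) : L) = D z.1 := by
    rw [spbb_exp e D (fun r => Δ₀ r) hD z.1]
    rw [AddSubmonoidClass.coe_finsetSum]
    exact Finset.sum_congr rfl fun i _ => ht1 i
  have hz : D z.1 ∈ B := by
    rw [← hs]
    exact Subtype.property _
  refine ⟨hz, ?_⟩
  have hs' : (⟨D z.1, hz⟩ : B) = ∑ i, t i := Subtype.ext hs.symm
  rw [hs', map_sum]
  exact Finset.sum_congr rfl fun i _ => ht2 i

theorem BR.der (H : BR A q hq ψ e e' B Φ) {Δ₀ : Derivation ℤ (RatFunc k) (RatFunc k)}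
    {Δ : Derivation ℤ (RatFunc κ) (RatFunc κ)} (F : A[X] → A[X])
    (h₀ : ∀ p, Δ₀ (pol (p.map (algebraMap A k))) = pol ((F p).map (algebraMap A k)))
    (h : ∀ p, Δ (pol (p.map ψ)) = pol ((F p).map ψ)) (D : Derivation ℤ L L)
    (hD : ∀ r, D (algebraMap (RatFunc k) L r) = algebraMap (RatFunc k) L (Δ₀ r))
    (hDe : ∀ i, D (e i) ∈ B) :
    ∃ D' : Derivation ℤ E E, (∀ r, D' (algebraMap (RatFunc κ) E r) = algebraMap (RatFunc κ) E (Δ r)) ∧
      ∀ z : B, ∃ hz : D z.1 ∈ B, D' (Φ z) = Φ ⟨D z.1, hz⟩ := by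
  have hkey := spbb_der H F h₀ h D hD hDe
  obtain ⟨Δ', hΔ'⟩ := spbb_conv _ (Ring.toIntAlgebra (RatFunc κ)) Δ
  obtain ⟨D', hD1, hD2⟩ := exists_der e' Δ' (fun i => Φ ⟨D (e i), hDe i⟩) (by
    intro i j
    obtain ⟨hz, h1⟩ := hkey (⟨e i, H.e_mem i⟩ * ⟨e j, H.e_mem j⟩)
    have h2 : (⟨D ((⟨e i, H.e_mem i⟩ * ⟨e j, H.e_mem j⟩ : B) : L), hz⟩ : B) =
        ⟨D (e i), hDe i⟩ * ⟨e j, H.e_mem j⟩ + ⟨e i, H.e_mem i⟩ * ⟨D (e j), hDe j⟩ := by
      refine Subtype.ext ?_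
      show D (e i * e j) = D (e i) * e j + e i * D (e j)
      rw [Derivation.leibniz, smul_eq_mul, smul_eq_mul]
      ring
    rw [h2, map_add, map_mul, map_mul, map_mul, H.phi_e, H.phi_e] at h1
    rw [h1]
    refine Finset.sum_congr rfl fun l _ => ?_
    rw [hΔ', Algebra.smul_def, Algebra.smul_def])
  have hD1' : ∀ r, D' (algebraMap (RatFunc κ) E r) = algebraMap (RatFunc κ) E (Δ r) := by
    intro r
    rw [hD1, hΔ']
  refine ⟨D', hD1', fun z => ?_⟩
  obtain ⟨hz, h1⟩ := hkey z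
  refine ⟨hz, ?_⟩
  rw [h1, spbb_exp e' D' (fun r => Δ r) hD1' (Φ z)]
  refine Finset.sum_congr rfl fun i _ => ?_
  rw [hD2]

end MPadcCM
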