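import Pool.Agent.Lib.MP_adc574_ag_CM.SpB
import Pool.Agent.Lib.MP_adc574_ag_Cov.Gen

/-!
# SpC: specialization of the structures `Cv`, `Gr`, `Rel`

Notation of SpB. `DatB B e a f m d`: all data of the cover lie in the subring `B ⊂ L`. The specialized data are `f' i = Φ (f i)`, `m' c = Φ (m c)`, and `d' ∘ Φ = Φ ∘ d`, `D' ∘ Φ = Φ ∘ D` on `B` (`Cpt Φ D D'`).
* JOB SpCA: - `Cv.exists_T`: choose the witnesses of `H.genB i`, `H.genI` (`choose`), `T` = the finite set of all `f i`, `m c`, `d (e i)`, `u i s`, `b i s`, `w`, `c i` (`Finset.univ.image`, `Finset.univ.biUnion`, unions).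
  - `BR.cv`: `dK'` from `MPadcCov.exists_dK`, `d'` from `BR.der` with `F = derivative` (`Polynomial.derivative_map`), `Δ₀ = dK`. `one`: `Φ (e i0) = e' i0` (`phi_e`) and `e i0 = 1`. `mul`: `rep'` for `e i * e j ∈ B`, `Φ (e i * e j) = e' i * e' j`, `Rl.isPol`, `Rl.dle`. `dual`: `BR.tr` for `f i * e j`, `Rl.eq` with `rl_one`/`rl_zero`. `derB`, `derI`: `BR.tr` for `d (e i) * e j` and `e i * e j`, `rl_xpow hX (-1)` (`X⁻¹ = X ^ (-1)`),
    `Rl (N : RatFunc k) (N : RatFunc κ)` for `N : ℕ` (`rl_pol` with the constant polynomial `(N : A[X])`). `genB`, `genI`: apply `Φ` to the equations (`BR.smul` with `rl_xpow`). `mM`, `mI`: `BR.inM`, `BR.inMi`; `fc e a c ∈ B` and `Φ (fc e a c) = fc e' a c` (`BR.smul`, `rl_xpow`).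
* JOB SpCB: - `BR.gr`: a coordinate `e'.repr (Φ z) i ≠ 0` implies `e.repr z i ≠ 0` (`rep'`, `Rl.eq`, `rl_zero`).
  - `BR.rel`: `Φ (hh k f m b) = hh κ f' m' b` (`inl`: `BR.smul` with `rl_xpow`), apply `Φ` to the equation; `Φ (pol (C x) • z) = pol (C (ψ x)) • Φ z` for `x ∈ A` (`rl_pol` with `C x`).
  - `BR.lift`: `BR.der` with `F = cD δA`, `Δ₀` from `exists_DK δk`, `Δ` from `exists_DK δ` : `cD δk (p.map j) = (cD δA p).map j`, `cD δ (p.map ψ) = (cD δA p).map ψ` (coefficients, `(cD δ p).coeff m = δ (p.coeff m)`: copy `Deg_coeff` from Cov/Deg.lean). `IsLiftE.alg` (DeB) gives `hD`.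
* JOB SpCC (`BR.equiv`): `MPadcCov.gen_equiv e' G hG hn (Φ y)` (Cov/Gen.lean) with `G = (F.map (mapRingHom ψ)).map (algebraMap κ[X] (RatFunc κ))`. `aeval (Φ y) G = 0`: apply `Φ` to `F (y) = 0`: the coefficients of `F` (in `A[x]`) act on `B` (`algebraMap (RatFunc k) L (pol (c.map j)) ∈ B`, `Φ` of it is `algebraMap (RatFunc κ) E (pol (c.map ψ))`: `BR.smul` for `z = 1`): this gives a ring homomorphism `A[X] → B`, `Polynomial.hom_eval₂`.
  The determinant: `Rl (Tr (y ^ (i + j))) (Tr (Φ y ^ (i + j)))` (`BR.tr`), so `Rl (det ..) (det ..)` (`Matrix.det_apply` and `Rl.sum`, `Rl.mul`; or: entries `= rq j r_ij`, `= rq ψ r_ij`, `RingHom.map_det`), and `Rl (pol (p.map j)) (pol (p.map ψ))`, so `det = pol (p.map ψ) ≠ 0` because the leading coefficient of `p` is a unit (`p.map ψ ≠ 0`).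
-/

set_option autoImplicit false

namespace MPadcCM

open Polynomial MPadcCov

universe u

/-- All data of the cover lie in the subring `B`. -/
structure DatB {k : Type u} [Field k] {L : Type u} [CommRing L] [Algebra (RatFunc k) L] {n : ℕ}
    (B : Subring L) (e : Module.Basis (Fin n) (RatFunc k) L) (a : Fin n → ℕ) (f : Fin n → L)
    (m : Ix a → L) (d : Derivation ℤ L L) : Prop where
  f_mem : ∀ i, f i ∈ B
  m_mem : ∀ c, m c ∈ B
  d_mem : ∀ i, d (e i) ∈ B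
  genB : ∀ i, ∃ (N : ℕ) (u b : Fin N → L), (∀ s, u s ∈ B ∧ InB e (u s)) ∧
    (∀ s, b s ∈ B ∧ InB e (b s)) ∧ f i = ∑ s, u s * d (b s)
  genI : ∃ w, w ∈ B ∧ InCi e a w ∧ ∀ i, ∃ c, c ∈ B ∧ InCi e a c ∧
    (RatFunc.X : RatFunc k) ^ ((a i : ℤ) - 2) • f i = c * d w

/-- `Φ` is compatible with the derivations. -/
def Cpt {L E : Type u} [CommRing L] [CommRing E] {B : Subring L} (Φ : B →+* E)
    (D : Derivation ℤ L L) (D' : Derivation ℤ E E) : Prop :=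
  ∀ z : B, ∃ hz : D z.1 ∈ B, D' (Φ z) = Φ ⟨D z.1, hz⟩

variable {k κ : Type u} [Field k] [Field κ] {A : Subalgebra ℤ k} {q : A[X]} {hq : q.Monic}
  {ψ : A →+* κ} {L E : Type u} [CommRing L] [CommRing E] [Algebra (RatFunc k) L]
  [Algebra (RatFunc κ) E] {n : ℕ} {e : Module.Basis (Fin n) (RatFunc k) L}
  {e' : Module.Basis (Fin n) (RatFunc κ) E} {B : Subring L} {Φ : B →+* E}
  {a : Fin n → ℕ} {i0 : Fin n} {f : Fin n → L} {m : Ix a → L}
  {dK : Derivation ℤ (RatFunc k) (RatFunc k)} {d : Derivation ℤ L L}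

private theorem spca_fin {ι : Type*} [Finite ι] {V : Type*} (g : ι → V) :
    ∃ T : Finset V, ∀ i, g i ∈ T := by
  classical
  cases nonempty_fintype ι
  exact ⟨Finset.univ.image g, fun i => Finset.mem_image_of_mem g (Finset.mem_univ i)⟩

theorem Cv.exists_T (H : Cv e a i0 f m dK d) : ∃ T : Finset L, ∀ B : Subring L,
    (∀ z ∈ T, z ∈ B) → DatB B e a f m d := by
  classical
  have hgen := H.genB
  choose N u b hu hb hf using hgen
  obtain ⟨w, hw, hc⟩ := H.genI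
  choose c hc hcf using hc
  obtain ⟨T1, h1⟩ := spca_fin f
  obtain ⟨T2, h2⟩ := spca_fin m
  obtain ⟨T3, h3⟩ := spca_fin fun i => d (e i)
  obtain ⟨T4, h4⟩ := spca_fin fun x : (Σ i : Fin n, Fin (N i)) => u x.1 x.2
  obtain ⟨T5, h5⟩ := spca_fin fun x : (Σ i : Fin n, Fin (N i)) => b x.1 x.2
  obtain ⟨T6, h6⟩ := spca_fin c
  refine ⟨T1 ∪ T2 ∪ T3 ∪ T4 ∪ T5 ∪ T6 ∪ {w}, fun B hB => ?_⟩
  have hT : ∀ z, z ∈ T1 ∨ z ∈ T2 ∨ z ∈ T3 ∨ z ∈ T4 ∨ z ∈ T5 ∨ z ∈ T6 ∨ z = w → z ∈ B := by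
    intro z hz
    apply hB
    simp only [Finset.mem_union, Finset.mem_singleton]
    tauto
  refine ⟨fun i => hT _ (Or.inl (h1 i)), fun i => hT _ (Or.inr (Or.inl (h2 i))),
    fun i => hT _ (Or.inr (Or.inr (Or.inl (h3 i)))), fun i => ?_, ?_⟩
  · exact ⟨N i, u i, b i,
      fun s => ⟨hT _ (Or.inr (Or.inr (Or.inr (Or.inl (h4 ⟨i, s⟩))))), hu i s⟩,
      fun s => ⟨hT _ (Or.inr (Or.inr (Or.inr (Or.inr (Or.inl (h5 ⟨i, s⟩)))))), hb i s⟩, hf i⟩
  · exact ⟨w, hT _ (Or.inr (Or.inr (Or.inr (Or.inr (Or.inr (Or.inr rfl)))))), hw, fun i =>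
      ⟨c i, hT _ (Or.inr (Or.inr (Or.inr (Or.inr (Or.inr (Or.inl (h6 i))))))), hc i, hcf i⟩⟩

private theorem spca_nat (A : Subalgebra ℤ k) (q : A[X]) (hq : q.Monic) (ψ : A →+* κ) (N : ℕ) :
    Rl A q hq ψ (N : RatFunc k) (N : RatFunc κ) := by
  have h := rl_pol A q hq ψ (N : A[X])
  rw [Polynomial.map_natCast, Polynomial.map_natCast] at h
  have h1 : (pol ((N : k[X])) : RatFunc k) = (N : RatFunc k) := map_natCast _ _
  have h2 : (pol ((N : κ[X])) : RatFunc κ) = (N : RatFunc κ) := map_natCast _ _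
  rw [h1, h2] at h
  exact h

theorem BR.cv (H : BR A q hq ψ e e' B Φ) (hX : X ∣ q) (HC : Cv e a i0 f m dK d)
    (HB : DatB B e a f m d) : ∃ (dK' : Derivation ℤ (RatFunc κ) (RatFunc κ))
      (d' : Derivation ℤ E E), Cv e' a i0 (fun i => Φ ⟨f i, HB.f_mem i⟩)
        (fun c => Φ ⟨m c, HB.m_mem c⟩) dK' d' ∧ Cpt Φ d d' := by
  obtain ⟨dK', hdK'⟩ := MPadcCov.exists_dK (k := κ)
  obtain ⟨d', hd1, hd2⟩ := H.der (Δ₀ := dK) (Δ := dK') (fun p => derivative p)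
    (fun p => by rw [HC.dK_pol, Polynomial.derivative_map])
    (fun p => by rw [hdK', Polynomial.derivative_map]) d HC.d_alg HB.d_mem
  have hC : Cpt Φ d d' := hd2
  choose hz hd using hd2
  have hde : ∀ i, d' (e' i) = Φ ⟨d (e i), HB.d_mem i⟩ := by
    intro i
    have h := hd ⟨e i, H.e_mem i⟩
    rw [H.phi_e] at h
    exact h
  have hee : ∀ i j l, Rl A q hq ψ (e.repr (e i * e j) l) (e'.repr (e' i * e' j) l) := by
    intro i j l
    have h := H.rep' (⟨e i, H.e_mem i⟩ * ⟨e j, H.e_mem j⟩) l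
    rw [map_mul, H.phi_e, H.phi_e] at h
    exact h
  have htr : ∀ i j, Rl A q hq ψ (Tr k L (e i * e j)) (Tr κ E (e' i * e' j)) := by
    intro i j
    have h := H.tr (⟨e i, H.e_mem i⟩ * ⟨e j, H.e_mem j⟩)
    rw [map_mul, H.phi_e, H.phi_e] at h
    exact h
  have htd : ∀ i j, Rl A q hq ψ (Tr k L (d (e i) * e j)) (Tr κ E (d' (e' i) * e' j)) := by
    intro i j
    have h := H.tr (⟨d (e i), HB.d_mem i⟩ * ⟨e j, H.e_mem j⟩)
    rw [map_mul, H.phi_e, ← hde] at h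
    exact h
  have hx1 : Rl A q hq ψ (RatFunc.X⁻¹ : RatFunc k) (RatFunc.X⁻¹ : RatFunc κ) := by
    have h := rl_xpow (hq := hq) (ψ := ψ) hX (-1)
    rw [zpow_neg_one, zpow_neg_one] at h
    exact h
  refine ⟨dK', d', ⟨⟨hdK', hd1, ?_, HC.a_zero, HC.a_pos, ?_, ?_, ?_, ?_, ?_, ?_⟩, ?_, ?_⟩, hC⟩
  · rw [← H.phi_e i0, ← map_one Φ]
    exact congrArg Φ (Subtype.ext HC.one)
  · exact fun i j l => ⟨(hee i j l).isPol (HC.mul i j l).1, (hee i j l).dle (HC.mul i j l).2⟩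
  · intro i j
    have h := H.tr (⟨f i, HB.f_mem i⟩ * ⟨e j, H.e_mem j⟩)
    rw [map_mul, H.phi_e] at h
    have h' : Rl A q hq ψ (Tr k L (f i * e j)) (Tr κ E (Φ ⟨f i, HB.f_mem i⟩ * e' j)) := h
    rw [HC.dual] at h'
    by_cases hij : i = j
    · rw [if_pos hij] at h' ⊢
      exact h'.eq rl_one
    · rw [if_neg hij] at h' ⊢
      exact h'.eq rl_zero
  · exact fun i j => (htd i j).isPol (HC.derB i j)
  · intro i j
    exact ((htd i j).sub (((spca_nat A q hq ψ (a i)).mul hx1).mul (htr i j))).dle (HC.derI i j)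
  · intro i
    obtain ⟨N, u, b, hu, hb, hf⟩ := HB.genB i
    refine ⟨N, fun s => Φ ⟨u s, (hu s).1⟩, fun s => Φ ⟨b s, (hb s).1⟩,
      fun s => H.inB _ (hu s).2, fun s => H.inB _ (hb s).2, ?_⟩
    have h1 : ∑ s, Φ ⟨u s, (hu s).1⟩ * d' (Φ ⟨b s, (hb s).1⟩) =
        Φ (∑ s, ⟨u s, (hu s).1⟩ * ⟨d (b s), hz ⟨b s, (hb s).1⟩⟩) := by
      rw [map_sum]
      exact Finset.sum_congr rfl fun s _ => by rw [hd, map_mul]
    show Φ ⟨f i, HB.f_mem i⟩ = ∑ s, Φ ⟨u s, (hu s).1⟩ * d' (Φ ⟨b s, (hb s).1⟩)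
    rw [h1]
    refine congrArg Φ (Subtype.ext ?_)
    rw [AddSubmonoidClass.coe_finsetSum]
    exact hf
  · obtain ⟨w, hw, hwc, hc⟩ := HB.genI
    refine ⟨Φ ⟨w, hw⟩, H.inCi _ hwc, fun i => ?_⟩
    obtain ⟨c, hcB, hcc, hcf⟩ := hc i
    refine ⟨Φ ⟨c, hcB⟩, H.inCi _ hcc, ?_⟩
    obtain ⟨hz1, hs⟩ := H.smul (rl_xpow hX ((a i : ℤ) - 2)) ⟨f i, HB.f_mem i⟩
    show (RatFunc.X : RatFunc κ) ^ ((a i : ℤ) - 2) • Φ ⟨f i, HB.f_mem i⟩ =
      Φ ⟨c, hcB⟩ * d' (Φ ⟨w, hw⟩)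
    rw [← hs, hd, ← map_mul]
    exact congrArg Φ (Subtype.ext hcf)
  · exact fun c => H.inM _ (HC.mM c)
  · intro c
    obtain ⟨hz1, hs⟩ := H.smul (rl_xpow hX (-((c.2 : ℤ) + 1))) ⟨e c.1, H.e_mem c.1⟩
    rw [H.phi_e] at hs
    have hfc : Φ ⟨fc e a c, hz1⟩ = fc e' a c := hs
    have h := H.inMi (a := a) (⟨m c, HB.m_mem c⟩ - ⟨d (fc e a c), hz ⟨fc e a c, hz1⟩⟩) (HC.mI c)
    rw [map_sub] at h
    have h2 := hd ⟨fc e a c, hz1⟩
    rw [hfc] at h2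
    show InMi e' a (Φ ⟨m c, HB.m_mem c⟩ - d' (fc e' a c))
    rw [h2]
    exact h

private theorem spcb_ne (H : BR A q hq ψ e e' B Φ) (z : B) (i : Fin n)
    (h : e'.repr (Φ z) i ≠ 0) : e.repr z.1 i ≠ 0 := by
  intro h0
  have h1 := H.rep' z i
  rw [h0] at h1
  exact h (Rl.eq h1 rl_zero)

theorem BR.gr (H : BR A q hq ψ e e' B Φ) (HB : DatB B e a f m d) {d' : Derivation ℤ E E}
    (hd : Cpt Φ d d') {Y : Type*} [AddCommGroup Y] {ch : Fin n → Y} (hG : Gr e ch m d) :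
    Gr e' ch (fun c => Φ ⟨m c, HB.m_mem c⟩) d' := by
  refine { mul := fun i j l h => ?_, der := fun i l h => ?_, mgr := fun c l h => ?_ }
  · rw [← H.phi_e i, ← H.phi_e j, ← map_mul] at h
    exact hG.mul i j l (spcb_ne H _ l h)
  · obtain ⟨hz, h1⟩ := hd ⟨e i, H.e_mem i⟩
    rw [H.phi_e] at h1
    rw [h1] at h
    exact hG.der i l (spcb_ne H _ l h)
  · exact hG.mgr c l (spcb_ne H _ l h)

private theorem spcb_hh (H : BR A q hq ψ e e' B Φ) (hX : X ∣ q) (HB : DatB B e a f m d)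
    (b : II a) : ∃ hz : hh k f m b ∈ B, Φ ⟨hh k f m b, hz⟩ =
      hh κ (fun i => Φ ⟨f i, HB.f_mem i⟩) (fun c => Φ ⟨m c, HB.m_mem c⟩) b := by
  rcases b with c | c
  · obtain ⟨hz, h1⟩ := H.smul (rl_xpow hX (c.2 : ℤ)) ⟨f c.1, HB.f_mem c.1⟩
    simp only [zpow_natCast] at hz h1
    exact ⟨hz, h1⟩
  · exact ⟨HB.m_mem c, rfl⟩

private theorem spcb_C (H : BR A q hq ψ e e' B Φ) (x : A) (z : B) :
    ∃ hz : pol (C (x : k)) • z.1 ∈ B, Φ ⟨pol (C (x : k)) • z.1, hz⟩ = pol (C (ψ x)) • Φ z := by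
  have h := H.smul (rl_pol A q hq ψ (C x)) z
  rw [map_C, map_C] at h
  exact h

theorem BR.rel (H : BR A q hq ψ e e' B Φ) (hX : X ∣ q) (HB : DatB B e a f m d)
    {d' : Derivation ℤ E E} (hd : Cpt Φ d d') {D : Derivation ℤ L L} {D' : Derivation ℤ E E}
    (hD : Cpt Φ D D') (G : II a → II a → A)
    (h : ∀ b, ∃ g ∈ B, D (hh k f m b) = ∑ b', pol (C (G b' b : k)) • hh k f m b' + d g) :
    Rel (fun i => Φ ⟨f i, HB.f_mem i⟩) (fun c => Φ ⟨m c, HB.m_mem c⟩) d' D'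
      fun b' b => ψ (G b' b) := by
  intro b
  have hb := spcb_hh H hX HB
  choose hz hΦ using hb
  obtain ⟨g, hg, h1⟩ := h b
  obtain ⟨h2, h3⟩ := hD ⟨hh k f m b, hz b⟩
  obtain ⟨h4, h5⟩ := hd ⟨g, hg⟩
  have h6 : ∀ b', ∃ hz' : pol (C (G b' b : k)) • hh k f m b' ∈ B,
      Φ ⟨pol (C (G b' b : k)) • hh k f m b', hz'⟩ =
        pol (C (ψ (G b' b))) • Φ ⟨hh k f m b', hz b'⟩ :=
    fun b' => spcb_C H (G b' b) ⟨hh k f m b', hz b'⟩
  choose hz' h7 using h6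
  refine ⟨Φ ⟨g, hg⟩, ?_⟩
  rw [← hΦ b, h3, h5]
  have h8 : (⟨D (hh k f m b), h2⟩ : B) =
      ∑ b', ⟨pol (C (G b' b : k)) • hh k f m b', hz' b'⟩ + ⟨d g, h4⟩ := by
    apply Subtype.ext
    rw [Subring.coe_add, AddSubmonoidClass.coe_finsetSum]
    exact h1
  rw [h8, map_add, map_sum]
  congr 1
  refine Finset.sum_congr rfl fun b' _ => ?_
  rw [h7, hΦ]

private theorem spcb_coeff {R : Type*} [CommRing R] (δ : Derivation ℤ R R) (p : R[X]) (m : ℕ) :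
    (cD δ p).coeff m = δ (p.coeff m) := by
  unfold cD
  rw [Polynomial.sum_def, Polynomial.finsetSum_coeff]
  simp only [coeff_monomial]
  rw [Finset.sum_ite_eq']
  by_cases hm : m ∈ p.support
  · rw [if_pos hm]
  · rw [if_neg hm, Polynomial.notMem_support_iff.1 hm, map_zero]

theorem BR.lift (H : BR A q hq ψ e e' B Φ) {δA : Derivation ℤ A A} {δk : Derivation ℤ k k}
    (hA : ∀ x : A, δk (x : k) = (δA x : A)) {δ : Derivation ℤ κ κ}
    (hδ : ∀ x, δ (ψ x) = ψ (δA x)) {D : Derivation ℤ L L} (hD : IsLiftE δk D)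
    (hDe : ∀ i, D (e i) ∈ B) : ∃ D' : Derivation ℤ E E, IsLiftE δ D' ∧ Cpt Φ D D' := by
  obtain ⟨Δ₀, h0⟩ := exists_DK δk
  obtain ⟨Δ, h1⟩ := exists_DK δ
  obtain ⟨D', h2, h3⟩ := H.der (Δ₀ := Δ₀) (Δ := Δ) (cD δA) (fun p => by
    rw [h0]
    congr 1
    ext m
    rw [spcb_coeff, coeff_map, coeff_map, spcb_coeff]
    exact hA _) (fun p => by
    rw [h1]
    congr 1
    ext m
    rw [spcb_coeff, coeff_map, coeff_map, spcb_coeff]
    exact hδ _) D (hD.alg h0) hDe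
  refine ⟨D', fun p => ?_, h3⟩
  rw [h2, h1]

theorem BR.equiv (H : BR A q hq ψ e e' B Φ) (F : A[X][X]) (hF : F.Monic) (hn : F.natDegree = n)
    (y : L) (hy : y ∈ B) (hFy : F.eval₂ ((algebraMap (RatFunc k) L).comp (fp (algebraMap A k))) y = 0)
    (p : A[X]) (hp : IsUnit p.leadingCoeff)
    (hdet : (Matrix.of fun i j : Fin n => Tr k L (y ^ (i.1 + j.1))).det =
      pol (p.map (algebraMap A k))) :
    Nonempty (FR κ (F.map (mapRingHom ψ)) ≃ₐ[RatFunc κ] E) := by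
  have hcB : ∀ r : A[X], algebraMap (RatFunc k) L (fp (algebraMap A k) r) ∈ B := by
    intro r
    obtain ⟨hz, -⟩ := H.smul (rl_pol A q hq ψ r) (1 : B)
    rw [Algebra.algebraMap_eq_smul_one]
    exact hz
  have hΦ : ∀ r : A[X], Φ ⟨algebraMap (RatFunc k) L (fp (algebraMap A k) r), hcB r⟩ =
      algebraMap (RatFunc κ) E (fp ψ r) := by
    intro r
    obtain ⟨hz, h1⟩ := H.smul (rl_pol A q hq ψ r) (1 : B)
    rw [map_one] at h1
    have h2 : (⟨algebraMap (RatFunc k) L (fp (algebraMap A k) r), hcB r⟩ : B) =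
        ⟨pol (r.map (algebraMap A k)) • (1 : B).1, hz⟩ :=
      Subtype.ext (Algebra.algebraMap_eq_smul_one _)
    rw [h2, h1, Algebra.algebraMap_eq_smul_one]
    rfl
  let cB : A[X] →+* B :=
    ((algebraMap (RatFunc k) L).comp (fp (algebraMap A k))).codRestrict B hcB
  have hc1 : B.subtype.comp cB = (algebraMap (RatFunc k) L).comp (fp (algebraMap A k)) :=
    RingHom.ext fun _ => rfl
  have hc2 : Φ.comp cB = (algebraMap (RatFunc κ) E).comp (fp ψ) :=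
    RingHom.ext fun r => hΦ r
  have hroot : F.eval₂ cB (⟨y, hy⟩ : B) = 0 := by
    apply Subtype.val_injective
    have h1 := Polynomial.hom_eval₂ F cB B.subtype (⟨y, hy⟩ : B)
    rw [hc1] at h1
    exact h1.trans hFy
  have hroot2 : aeval (Φ ⟨y, hy⟩) ((F.map (mapRingHom ψ)).map (algebraMap κ[X] (RatFunc κ))) = 0 := by
    have h1 := Polynomial.hom_eval₂ F cB Φ (⟨y, hy⟩ : B)
    rw [hroot, map_zero, hc2] at h1
    rw [Polynomial.aeval_def, Polynomial.eval₂_map, Polynomial.eval₂_map]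
    exact h1.symm
  have htr : ∀ i j : Fin n, ∃ r : Localization.Away q,
      Tr k L (y ^ (i.1 + j.1)) = rq (algebraMap A k) q hq r ∧
        Tr κ E ((Φ ⟨y, hy⟩) ^ (i.1 + j.1)) = rq ψ q hq r := by
    intro i j
    obtain ⟨r, h1, h2⟩ := H.tr ((⟨y, hy⟩ : B) ^ (i.1 + j.1))
    rw [map_pow] at h2
    exact ⟨r, h1, h2⟩
  choose r hr1 hr2 using htr
  have e1 : (Matrix.of fun i j : Fin n => Tr k L (y ^ (i.1 + j.1))) =
      (rq (algebraMap A k) q hq).mapMatrix (Matrix.of r) := by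
    ext i j
    exact hr1 i j
  have e2 : (Matrix.of fun i j : Fin n => Tr κ E ((Φ ⟨y, hy⟩) ^ (i.1 + j.1))) =
      (rq ψ q hq).mapMatrix (Matrix.of r) := by
    ext i j
    exact hr2 i j
  have hrl : Rl A q hq ψ (Matrix.of fun i j : Fin n => Tr k L (y ^ (i.1 + j.1))).det
      (Matrix.of fun i j : Fin n => Tr κ E ((Φ ⟨y, hy⟩) ^ (i.1 + j.1))).det := by
    refine ⟨(Matrix.of r).det, ?_, ?_⟩
    · rw [e1, ← RingHom.map_det]
    · rw [e2, ← RingHom.map_det]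
  have hdet2 : (Matrix.of fun i j : Fin n => Tr κ E ((Φ ⟨y, hy⟩) ^ (i.1 + j.1))).det =
      pol (p.map ψ) := by
    rw [hdet] at hrl
    exact hrl.eq (rl_pol A q hq ψ p)
  have hp0 : p.map ψ ≠ 0 := by
    intro h0
    have h1 : (p.map ψ).coeff p.natDegree = 0 := by rw [h0, coeff_zero]
    rw [coeff_map] at h1
    have h2 : IsUnit (ψ (p.coeff p.natDegree)) := hp.map ψ
    rw [h1] at h2
    exact not_isUnit_zero h2
  have hdet3 : (Matrix.of fun i j : Fin n =>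
      Algebra.trace (RatFunc κ) E ((Φ ⟨y, hy⟩) ^ (i.1 + j.1))).det ≠ 0 := by
    intro h0
    have h1 : pol (p.map ψ) = 0 := hdet2.symm.trans h0
    exact hp0 ((map_eq_zero_iff (algebraMap κ[X] (RatFunc κ)) (IsFractionRing.injective κ[X] (RatFunc κ))).1 h1)
  refine gen_equiv e' _ ((hF.map _).map _) ?_ _ hroot2 hdet3
  rw [(hF.map (mapRingHom ψ)).natDegree_map, hF.natDegree_map, hn]

end MPadcCM
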