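import Pool.Agent.Lib.MP_adc574_ag_CM.SpC

/-!
# SpD: the model over the field of fractions of `A`

`j₀ : κ → k` a homomorphism of fields with `j₀ (ψ x) = x` for `x ∈ A` (for instance `κ = FractionRing A`). `sg j₀ : κ(x) → k(x)`.
* JOB SpDA: - `sg`: `RatFunc.mapRingHom (mapRingHom j₀)` with the condition on nonzero divisors (`Polynomial.map_injective`). `sg_pol`: `RatFunc.map_apply`/`algebraMap` lemma (`RatFunc.mapRingHom_apply ..`, `RatFunc.map_algebraMap`-type; write `r = num / denom`). `sg_inj`: a homomorphism of fields. `sg_dle`: `sg j₀ (pol p / pol q) = pol (p.map j₀) / pol (q.map j₀)` and `natDegree_map`. `sg_isPol`: if `sg j₀ r` is a polynomial, `r = p / q` with `q` monic: `q.map j₀ ∣ p.map j₀`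
    so `q ∣ p` (`Polynomial.map_dvd_map`, for a field homomorphism, or `map_modByMonic`). `sg_rq`: both are ring homomorphisms from the localization which agree on `A[X]` (`IsLocalization.ringHom_ext`), so `Rl x y → x = sg j₀ y` (`Rl.sg`).
  - `sg_der`: both sides `δ₁ r = Δ₀ (sg r)`, `δ₂ r = sg (Δ r)` are additive, satisfy the Leibniz rule over `sg` and agree on polynomials: `der_rat_ext` (LatA) with `V = RatFunc k` as a module over `RatFunc κ` along `sg` (`Module.compHom`).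
* JOB SpDB (`exists_theta`): `θ z := ∑ i, sg j₀ (e'.repr z i) • e i`. Multiplicative: `z w = ∑ z_i w_j • (e' i * e' j)`, and `e.repr (e i * e j) l = sg j₀ (e'.repr (e' i * e' j) l)` by `BR.rep'` for `e i * e j ∈ B` and `Rl.sg`; `θ 1 = 1` in the same way from `Φ 1 = 1`. `θ (Φ z) = z` (`rep'`, `Rl.sg`). `Tr (θ z) = ∑ j, e.repr (θ z * e j) j = ∑ j, sg (e'.repr (z * e' j) j)` (`MPadcCov.tr_eq`), `θ (e' j) = e j`. Injective: coordinates.
* JOB SpDC: - `theta_der`: `der_ext` (DeA) for `E`, `e'`, `f'`: `δ₁ z = θ (D' z)`, `δ₂ z = D (θ z)`.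
  - `theta_cd`: `InB e' u → InB e (θ u)` (coordinates `sg (pol p) = pol (p.map j₀)`), `InM e (θ x) → InM e' x`: `Tr (θ x * e i) = sg (Tr (x * e' i))`, `sg_isPol`; `InCi e' a z ↔ InCi e a (θ z)` by `sg_dle`. `θ (D' u * d' b - d' u * D' b) = D (θ u) * d (θ b) - d (θ u) * D (θ b)`.
-/

set_option autoImplicit false

namespace MPadcCM

open Polynomial MPadcCov

universe u

variable {k κ : Type u} [Field k] [Field κ]

/-- The homomorphism `κ(x) → k(x)`. -/
noncomputable def sg (j₀ : κ →+* k) : RatFunc κ →+* RatFunc k :=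
  RatFunc.mapRingHom (mapRingHom j₀) (fun p hp => by
    rw [Submonoid.mem_comap]
    rw [mem_nonZeroDivisors_iff_ne_zero] at hp ⊢
    exact (map_ne_zero_iff _ (Polynomial.map_injective j₀ j₀.injective)).2 hp)

private theorem spd_frac (r : RatFunc κ) : ∃ p q : κ[X], q.Monic ∧ pol q ≠ 0 ∧
    r = pol p / pol q := by
  refine ⟨r.num, r.denom, r.monic_denom, ?_, (RatFunc.num_div_denom r).symm⟩
  rw [Ne, map_eq_zero_iff _ (IsFractionRing.injective κ[X] (RatFunc κ))]
  exact r.denom_ne_zero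

theorem sg_pol (j₀ : κ →+* k) (p : κ[X]) : sg j₀ (pol p) = pol (p.map j₀) := by
  have h1 : pol p = algebraMap κ[X] (RatFunc κ) p / algebraMap κ[X] (RatFunc κ) 1 := by
    rw [map_one, div_one]
  rw [h1, sg, RatFunc.coe_mapRingHom_eq_coe_map, RatFunc.map_apply_div]
  rw [map_one, map_one, div_one]
  rfl

theorem sg_inj (j₀ : κ →+* k) : Function.Injective (sg j₀) := (sg j₀).injective

private theorem spd_div (j₀ : κ →+* k) (p q : κ[X]) :
    sg j₀ (pol p / pol q) = pol (p.map j₀) / pol (q.map j₀) := by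
  rw [map_div₀, sg_pol, sg_pol]

theorem sg_dle (j₀ : κ →+* k) (r : RatFunc κ) (m : ℤ) : Dle (sg j₀ r) m ↔ Dle r m := by
  have h0 : sg j₀ r = 0 ↔ r = 0 := map_eq_zero (sg j₀)
  have h1 : (sg j₀ r).intDegree = r.intDegree := by
    by_cases hr : r = 0
    · rw [hr, map_zero, RatFunc.intDegree_zero, RatFunc.intDegree_zero]
    obtain ⟨p, q, hq, hq0, rfl⟩ := spd_frac r
    have hp0 : pol p ≠ 0 := fun h => hr (by rw [h, zero_div])
    have hp1 : pol (p.map j₀) ≠ 0 := by
      rw [← sg_pol]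
      exact (map_ne_zero (sg j₀)).2 hp0
    have hq1 : pol (q.map j₀) ≠ 0 := by
      rw [← sg_pol]
      exact (map_ne_zero (sg j₀)).2 hq0
    rw [spd_div, div_eq_mul_inv, div_eq_mul_inv, RatFunc.intDegree_mul hp1 (inv_ne_zero hq1),
      RatFunc.intDegree_mul hp0 (inv_ne_zero hq0), RatFunc.intDegree_inv, RatFunc.intDegree_inv,
      RatFunc.intDegree_polynomial, RatFunc.intDegree_polynomial, RatFunc.intDegree_polynomial,
      RatFunc.intDegree_polynomial, natDegree_map, natDegree_map]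
  rw [Dle, Dle, h0, h1]

theorem sg_isPol (j₀ : κ →+* k) (r : RatFunc κ) (h : IsPol (sg j₀ r)) : IsPol r := by
  obtain ⟨P, hP⟩ := h
  obtain ⟨p, q, hq, hq0, rfl⟩ := spd_frac r
  have hq1 : pol (q.map j₀) ≠ 0 := by
    rw [← sg_pol]
    exact (map_ne_zero (sg j₀)).2 hq0
  rw [spd_div, eq_div_iff hq1] at hP
  have h1 : P * q.map j₀ = p.map j₀ := by
    apply IsFractionRing.injective k[X] (RatFunc k)
    rw [map_mul]
    exact hP
  have h2 : q.map j₀ ∣ p.map j₀ := ⟨P, by rw [← h1, mul_comm]⟩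
  obtain ⟨t, ht⟩ := (Polynomial.map_dvd_map j₀ j₀.injective hq).1 h2
  refine ⟨t, ?_⟩
  rw [eq_div_iff hq0, ht]
  change algebraMap κ[X] (RatFunc κ) t * algebraMap κ[X] (RatFunc κ) q =
    algebraMap κ[X] (RatFunc κ) (q * t)
  rw [map_mul, mul_comm]

theorem Rl.sg {A : Subalgebra ℤ k} {q : A[X]} {hq : q.Monic} {ψ : A →+* κ} {j₀ : κ →+* k}
    (hj : ∀ x : A, j₀ (ψ x) = (x : k)) {x : RatFunc k} {y : RatFunc κ} (h : Rl A q hq ψ x y) :
    x = MPadcCM.sg j₀ y := by
  obtain ⟨r, rfl, rfl⟩ := h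
  have hcomp : ∀ p : A[X], (p.map ψ).map j₀ = p.map (algebraMap A k) := by
    intro p
    rw [Polynomial.map_map]
    refine congrArg (fun g => p.map g) (RingHom.ext fun x => ?_)
    exact hj x
  obtain ⟨N, p, hp⟩ := rq_frac q hq r
  have h1 := congrArg (rq (algebraMap A k) q hq) hp
  have h2 := congrArg (fun z => MPadcCM.sg j₀ (rq ψ q hq z)) hp
  simp only [map_mul, rq_alg, sg_pol, hcomp] at h1 h2
  have hq0 : pol ((q ^ N).map (algebraMap A k)) ≠ 0 := by
    rw [Ne, map_eq_zero_iff _ (IsFractionRing.injective k[X] (RatFunc k))]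
    exact ((hq.pow N).map _).ne_zero
  exact mul_left_cancel₀ hq0 (h1.trans h2.symm)

theorem sg_der {j₀ : κ →+* k} {Δ₀ : Derivation ℤ (RatFunc k) (RatFunc k)}
    {Δ : Derivation ℤ (RatFunc κ) (RatFunc κ)} (h : ∀ p, Δ₀ (sg j₀ (pol p)) = sg j₀ (Δ (pol p)))
    (r : RatFunc κ) : Δ₀ (sg j₀ r) = sg j₀ (Δ r) := by
  obtain ⟨p, q, hq, hq0, rfl⟩ := spd_frac r
  have hq1 : sg j₀ (pol q) ≠ 0 := (map_ne_zero (sg j₀)).2 hq0
  set u := pol p / pol q with hu
  have e1 : u * pol q = pol p := div_mul_cancel₀ _ hq0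
  have e2 : Δ₀ (sg j₀ (u * pol q)) = sg j₀ (Δ (u * pol q)) := by
    rw [e1, h]
  rw [map_mul, Derivation.leibniz, Derivation.leibniz, smul_eq_mul, smul_eq_mul, smul_eq_mul,
    smul_eq_mul, map_add, map_mul, map_mul, h q] at e2
  exact mul_left_cancel₀ hq1 (add_left_cancel e2)

section

variable {L E : Type u} [CommRing L] [CommRing E] [Algebra (RatFunc k) L]
  [Algebra (RatFunc κ) E] {n : ℕ}

/-- The embedding of the model over `κ` into the algebra over `k`. -/
structure IsTh (j₀ : κ →+* k) (e : Module.Basis (Fin n) (RatFunc k) L)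
    (e' : Module.Basis (Fin n) (RatFunc κ) E) (θ : E →+* L) : Prop where
  repr : ∀ z i, e.repr (θ z) i = sg j₀ (e'.repr z i)
  alg : ∀ r, θ (algebraMap (RatFunc κ) E r) = algebraMap (RatFunc k) L (sg j₀ r)
  tr : ∀ z, Tr k L (θ z) = sg j₀ (Tr κ E z)
  inj : Function.Injective θ
  basis : ∀ i, θ (e' i) = e i

variable {A : Subalgebra ℤ k} {q : A[X]} {hq : q.Monic}
  {ψ : A →+* κ} {e : Module.Basis (Fin n) (RatFunc k) L}
  {e' : Module.Basis (Fin n) (RatFunc κ) E} {B : Subring L} {Φ : B →+* E} {j₀ : κ →+* k}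

theorem exists_theta (H : BR A q hq ψ e e' B Φ) (hj : ∀ x : A, j₀ (ψ x) = (x : k)) :
    ∃ θ : E →+* L, IsTh j₀ e e' θ ∧ ∀ z : B, θ (Φ z) = z.1 := by
  have hrep : ∀ (z : B) (i : Fin n), e.repr z.1 i = sg j₀ (e'.repr (Φ z) i) := fun z i =>
    Rl.sg hj (H.rep' z i)
  have hst : ∀ i j l, e.repr (e i * e j) l = sg j₀ (e'.repr (e' i * e' j) l) := by
    intro i j l
    have h1 := hrep (⟨e i, H.e_mem i⟩ * ⟨e j, H.e_mem j⟩) l
    rw [map_mul, H.phi_e, H.phi_e] at h1
    exact h1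
  have h1rep : ∀ l, e.repr (1 : L) l = sg j₀ (e'.repr (1 : E) l) := by
    intro l
    have h1 := hrep 1 l
    rw [map_one] at h1
    exact h1
  let θ₀ : E → L := fun z => ∑ i, sg j₀ (e'.repr z i) • e i
  have hθ : ∀ z i, e.repr (θ₀ z) i = sg j₀ (e'.repr z i) := by
    intro z i
    exact congrFun (e.repr_sum_self fun i => sg j₀ (e'.repr z i)) i
  have hmulE : ∀ (z w : E) (l : Fin n), e'.repr (z * w) l =
      ∑ i, ∑ j, e'.repr z i * e'.repr w j * e'.repr (e' i * e' j) l := by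
    intro z w l
    conv_lhs => rw [← e'.sum_repr z, ← e'.sum_repr w, Finset.sum_mul_sum]
    rw [map_sum, Finset.sum_apply']
    refine Finset.sum_congr rfl fun i _ => ?_
    rw [map_sum, Finset.sum_apply']
    refine Finset.sum_congr rfl fun j _ => ?_
    rw [smul_mul_smul_comm, map_smul, Finsupp.smul_apply, smul_eq_mul]
  have hmulL : ∀ (z w : L) (l : Fin n), e.repr (z * w) l =
      ∑ i, ∑ j, e.repr z i * e.repr w j * e.repr (e i * e j) l := by
    intro z w l
    conv_lhs => rw [← e.sum_repr z, ← e.sum_repr w, Finset.sum_mul_sum]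
    rw [map_sum, Finset.sum_apply']
    refine Finset.sum_congr rfl fun i _ => ?_
    rw [map_sum, Finset.sum_apply']
    refine Finset.sum_congr rfl fun j _ => ?_
    rw [smul_mul_smul_comm, map_smul, Finsupp.smul_apply, smul_eq_mul]
  let θ : E →+* L :=
    { toFun := θ₀
      map_one' := by
        refine e.ext_elem fun l => ?_
        rw [hθ, h1rep]
      map_mul' := by
        intro z w
        refine e.ext_elem fun l => ?_
        rw [hθ, hmulE, hmulL, map_sum]
        refine Finset.sum_congr rfl fun i _ => ?_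
        rw [map_sum]
        refine Finset.sum_congr rfl fun j _ => ?_
        rw [map_mul, map_mul, hθ, hθ, hst]
      map_zero' := by
        refine e.ext_elem fun l => ?_
        rw [hθ, map_zero, map_zero, Finsupp.zero_apply, Finsupp.zero_apply, map_zero]
      map_add' := by
        intro z w
        refine e.ext_elem fun l => ?_
        rw [hθ, map_add, map_add, Finsupp.add_apply, Finsupp.add_apply, map_add, hθ, hθ] }
  have hθ' : ∀ z i, e.repr (θ z) i = sg j₀ (e'.repr z i) := hθ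
  have hbasis : ∀ i, θ (e' i) = e i := by
    intro i
    refine e.ext_elem fun l => ?_
    rw [hθ', Module.Basis.repr_self, Module.Basis.repr_self, Finsupp.single_apply,
      Finsupp.single_apply]
    split_ifs
    · exact map_one _
    · exact map_zero _
  refine ⟨θ, ⟨hθ', ?_, ?_, ?_, hbasis⟩, ?_⟩
  · intro r
    refine e.ext_elem fun l => ?_
    rw [hθ', Algebra.algebraMap_eq_smul_one, Algebra.algebraMap_eq_smul_one, map_smul, map_smul,
      Finsupp.smul_apply, Finsupp.smul_apply, smul_eq_mul, smul_eq_mul, map_mul, h1rep]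
  · intro z
    have h1 : Tr k L (θ z) = ∑ j, e.repr (θ z * e j) j := MPadcCov.tr_eq (e := e) (θ z)
    have h2 : Tr κ E z = ∑ j, e'.repr (z * e' j) j := MPadcCov.tr_eq (e := e') z
    rw [h1, h2, map_sum]
    refine Finset.sum_congr rfl fun j _ => ?_
    rw [← hbasis j, ← map_mul, hθ']
  · intro z w hzw
    refine e'.ext_elem fun l => ?_
    apply sg_inj j₀
    rw [← hθ', ← hθ', hzw]
  · intro z
    refine e.ext_elem fun l => ?_
    rw [hθ', hrep]

theorem theta_der {θ : E →+* L} (hθ : IsTh j₀ e e' θ) {f' : Fin n → E}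
    (hf : ∀ i j, Tr κ E (f' i * e' j) = if i = j then 1 else 0)
    {Δ₀ : Derivation ℤ (RatFunc k) (RatFunc k)} {Δ : Derivation ℤ (RatFunc κ) (RatFunc κ)}
    (h : ∀ p, Δ₀ (sg j₀ (pol p)) = sg j₀ (Δ (pol p))) {D : Derivation ℤ L L}
    {D' : Derivation ℤ E E}
    (hD : ∀ r, D (algebraMap (RatFunc k) L r) = algebraMap (RatFunc k) L (Δ₀ r))
    (hD' : ∀ r, D' (algebraMap (RatFunc κ) E r) = algebraMap (RatFunc κ) E (Δ r)) (z : E) :
    θ (D' z) = D (θ z) := by
  refine der_ext e' f' hf θ ((θ : E →+ L).comp (D' : E →ₗ[ℤ] E).toAddMonoidHom)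
    ((D : L →ₗ[ℤ] L).toAddMonoidHom.comp (θ : E →+ L)) (fun z w => ?_) (fun z w => ?_)
    (fun c => ?_) z
  · show θ (D' (z * w)) = θ z * θ (D' w) + θ w * θ (D' z)
    rw [Derivation.leibniz, map_add, smul_eq_mul, smul_eq_mul, map_mul, map_mul]
  · show D (θ (z * w)) = θ z * D (θ w) + θ w * D (θ z)
    rw [map_mul, Derivation.leibniz, smul_eq_mul, smul_eq_mul]
  · show θ (D' (algebraMap (RatFunc κ) E c)) = D (θ (algebraMap (RatFunc κ) E c))
    rw [hD', hθ.alg, hθ.alg, hD, sg_der h]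

private theorem spdc_inB {θ : E →+* L} (hθ : IsTh j₀ e e' θ) {u : E} (hu : InB e' u) :
    InB e (θ u) := by
  intro i
  obtain ⟨p, hp⟩ := hu i
  rw [hθ.repr, ← hp, sg_pol]
  exact ⟨_, rfl⟩

private theorem spdc_inM {θ : E →+* L} (hθ : IsTh j₀ e e' θ) {x : E} (hx : InM e (θ x)) :
    InM e' x := by
  intro i
  apply sg_isPol j₀
  rw [← hθ.tr, map_mul, hθ.basis]
  exact hx i

private theorem spdc_inCi {θ : E →+* L} (hθ : IsTh j₀ e e' θ) (a : Fin n → ℕ) (z : E) :
    InCi e a (θ z) ↔ InCi e' a z := by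
  refine forall_congr' fun i => ?_
  rw [hθ.repr, sg_dle]

theorem theta_cd {θ : E →+* L} (hθ : IsTh j₀ e e' θ) {a : Fin n → ℕ} {d D : Derivation ℤ L L}
    {d' D' : Derivation ℤ E E} (hd : ∀ z, θ (d' z) = d (θ z)) (hD : ∀ z, θ (D' z) = D (θ z))
    (h : Cd e a d D) : Cd e' a d' D' := by
  constructor
  · intro u b hu hb
    apply spdc_inM hθ
    rw [map_sub, map_mul, map_mul, hD, hd, hd, hD]
    exact h.br (θ u) (θ b) (spdc_inB hθ hu) (spdc_inB hθ hb)
  · intro z hz
    rw [← spdc_inCi hθ, hD]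
    exact h.inf (θ z) ((spdc_inCi hθ a z).2 hz)

end

end MPadcCM
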