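import Pool.Agent.Lib.MP_adc574_ag_CM.SpD
import Pool.Agent.Lib.MP_adc574_ag_Cov.Ext
import Pool.Agent.Lib.MP_adc574_ag_Cov.Stab
import Pool.Agent.Lib.MP_adc574_ag_Cov.Desc

/-!
# SpE: denominators and finitely generated rings

`A ⊂ k` a subring. `FracA A r`: the rational function `r ∈ k(x)` is a quotient of two polynomials over `A`.
* JOBS SpEA, SpEC (fracA_sg, frac_mem, exists_j₀, exists_Dk): - `exists_A1`: `A₁ = Algebra.adjoin ℤ (generators of A₀ ∪ T' ∪ coefficients of num and denom of the elements of T)`; `r * pol denom = pol num`; polynomials whose coefficients lie in `A₁` come from `A₁[X]` (`MPadcCov.exists_map_of_coeff A f`, Cov/Desc.lean: see its use in Cov/Input.lean). `FracA.mono`: map by the inclusion.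
  - `exists_q`: `T = {r_1, .., r_N}`, `r_i * q_i = p_i`, `q_i ≠ 0` over `A`. `Q := X * ∏ q_i ≠ 0`, `b := leadingCoeff Q`. For `A' ⊇ A` with `b⁻¹ ∈ A'` let `Q'` be the image of `Q` in `A'[X]`, `q := C b⁻¹ * Q'`, monic, `X ∣ q`; `r_i = p_i * (Q / q_i) / Q`: in `A'[x][1/q]` the element `algebraMap (C b⁻¹ * p_i * X * ∏_{j ≠ i} q_j) * (algebraMap q)⁻¹` is mapped to `r_i` (`rq_alg`; multiply by `pol (q.map _)`, which is not zero).
    Induction on the finset is also possible: prove more generally that for finitely many `q_i` there is one common denominator.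
  - `fracA_sg`: for `r : RatFunc (FractionRing A)` and `j₀ : FractionRing A → k` with `j₀ (algebraMap x) = x`: `FracA A (sg j₀ r)`: `num`, `denom` are polynomials over `FractionRing A`; multiply by a common denominator (`IsLocalization.integerNormalization`/`IsLocalization.exist_integer_multiples`, `Polynomial` over a localization). `frac_mem`: `y : FractionRing A`: `∃ b ≠ 0, (b : k) * j₀ y ∈ A` (`IsFractionRing.div_surjective`).
* JOB SpEB (`good_loc`): `K = FractionRing A`, `j₀ : K → k` (`IsFractionRing.lift`). `D l` extends to `K` (`MPadcCov.ext_frac`, Cov/Der.lean) and to `k` (`MPadcCov.exists_extension`, Cov/Ext.lean, for the algebra structure `j₀.toAlgebra`): `Dk l`. This is also statement `exists_Dk`. `A' := Algebra.adjoin ℤ (generators of A ∪ {b⁻¹})` (or `{x | ∃ N, b ^ N * x ∈ A}`, as a subalgebra, FG because it is generated by the generators of `A` and `b⁻¹`). `Dk l` maps `A'` to `A'`: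
  `Dk l b⁻¹ = - b⁻¹ * b⁻¹ * Dk l b` (induction on the adjoin: `Algebra.adjoin_induction`). Restrict (`MPadcCov.exists_restrict`). `der`: given `D'`, `c` from `H.der` : the set of `x ∈ k` with `D' x = ∑ c l * Dk l x` is closed under sums, products, contains `A` and `b⁻¹` (apply to `b * b⁻¹ = 1`), so it contains `A'`.
-/

set_option autoImplicit false

namespace MPadcCM

open Polynomial MPadcCov

universe u

/-- `r` is a quotient of polynomials over `A`. -/
def FracA {k : Type u} [Field k] (A : Subalgebra ℤ k) (r : RatFunc k) : Prop :=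
  ∃ p q : A[X], q ≠ 0 ∧ r * pol (q.map (algebraMap A k)) = pol (p.map (algebraMap A k))

variable {k : Type u} [Field k]

theorem exists_A1 (A₀ : Subalgebra ℤ k) (hA : A₀.FG) (T : Finset (RatFunc k)) (T' : Finset k) :
    ∃ A₁ : Subalgebra ℤ k, A₀ ≤ A₁ ∧ A₁.FG ∧ (∀ r ∈ T, FracA A₁ r) ∧ ∀ x ∈ T', x ∈ A₁ := by
  classical
  obtain ⟨S, hS⟩ := hA
  let cf : RatFunc k → Finset k := fun r =>
    r.num.support.image r.num.coeff ∪ r.denom.support.image r.denom.coeff
  let U : Finset k := (S ∪ T') ∪ T.biUnion cf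
  have hcf : ∀ r ∈ T, ∀ x ∈ cf r, x ∈ Algebra.adjoin ℤ (U : Set k) := by
    intro r hr x hx
    exact Algebra.subset_adjoin (Finset.mem_coe.2
      (Finset.mem_union_right _ (Finset.mem_biUnion.2 ⟨r, hr, hx⟩)))
  refine ⟨Algebra.adjoin ℤ (U : Set k), ?_, ⟨U, rfl⟩, ?_, ?_⟩
  · rw [← hS]
    exact Algebra.adjoin_mono (Finset.coe_subset.2
      ((Finset.subset_union_left).trans Finset.subset_union_left))
  · intro r hr
    obtain ⟨p, hp⟩ := exists_map_of_coeff (Algebra.adjoin ℤ (U : Set k)) r.num (fun i => by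
      by_cases h0 : r.num.coeff i = 0
      · rw [h0]; exact Subalgebra.zero_mem _
      · exact hcf r hr _ (Finset.mem_union_left _ (Finset.mem_image.2
          ⟨i, Polynomial.mem_support_iff.2 h0, rfl⟩)))
    obtain ⟨q, hq⟩ := exists_map_of_coeff (Algebra.adjoin ℤ (U : Set k)) r.denom (fun i => by
      by_cases h0 : r.denom.coeff i = 0
      · rw [h0]; exact Subalgebra.zero_mem _
      · exact hcf r hr _ (Finset.mem_union_right _ (Finset.mem_image.2
          ⟨i, Polynomial.mem_support_iff.2 h0, rfl⟩)))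
    refine ⟨p, q, ?_, ?_⟩
    · rintro rfl
      rw [Polynomial.map_zero] at hq
      exact r.denom_ne_zero hq.symm
    · rw [hp, hq]
      have h1 : (pol r.denom : RatFunc k) ≠ 0 :=
        RatFunc.algebraMap_ne_zero r.denom_ne_zero
      have h2 : (pol r.num : RatFunc k) / pol r.denom = r := RatFunc.num_div_denom r
      exact ((div_eq_iff h1).1 h2).symm
  · intro x hx
    exact Algebra.subset_adjoin (Finset.mem_coe.2
      (Finset.mem_union_left _ (Finset.mem_union_right _ hx)))

private theorem spea_map {A A' : Subalgebra ℤ k} (hle : A ≤ A') (p : A[X]) :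
    (p.map (Subalgebra.inclusion hle).toRingHom).map (algebraMap A' k) =
      p.map (algebraMap A k) := by
  rw [Polynomial.map_map]
  rfl

theorem FracA.mono {A A' : Subalgebra ℤ k} (hle : A ≤ A') {r : RatFunc k} (h : FracA A r) :
    FracA A' r := by
  obtain ⟨p, q, hq, h1⟩ := h
  refine ⟨p.map (Subalgebra.inclusion hle).toRingHom, q.map (Subalgebra.inclusion hle).toRingHom,
    ?_, ?_⟩
  · intro h2
    apply hq
    apply Polynomial.map_injective _ (Subalgebra.inclusion_injective hle)
    rw [Polynomial.map_zero]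
    exact h2
  · rw [spea_map hle, spea_map hle]
    exact h1

theorem exists_q (A : Subalgebra ℤ k) (T : Finset (RatFunc k)) (hT : ∀ r ∈ T, FracA A r) :
    ∃ b : A, b ≠ 0 ∧ ∀ A' : Subalgebra ℤ k, A ≤ A' → (b : k)⁻¹ ∈ A' →
      ∃ (q : A'[X]) (hq : q.Monic), X ∣ q ∧ ∀ r ∈ T, ∃ r' : Localization.Away q,
        rq (algebraMap A' k) q hq r' = r := by
  classical
  have h0 : ∀ r : RatFunc k, ∃ p q : A[X], q ≠ 0 ∧ (r ∈ T →
      r * pol (q.map (algebraMap A k)) = pol (p.map (algebraMap A k))) := by
    intro r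
    by_cases hr : r ∈ T
    · obtain ⟨p, q, hq, h1⟩ := hT r hr
      exact ⟨p, q, hq, fun _ => h1⟩
    · exact ⟨0, 1, one_ne_zero, fun h => absurd h hr⟩
  choose P Q hQ hPQ using h0
  let Q₀ : A[X] := X * ∏ r ∈ T, Q r
  have hQ₀ : Q₀ ≠ 0 := mul_ne_zero X_ne_zero (Finset.prod_ne_zero_iff.2 fun r _ => hQ r)
  refine ⟨Q₀.leadingCoeff, leadingCoeff_ne_zero.2 hQ₀, fun A' hle hb => ?_⟩
  let ι : A →+* A' := (Subalgebra.inclusion hle).toRingHom
  have hι : Function.Injective ι := Subalgebra.inclusion_injective hle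
  let c : A' := ⟨((Q₀.leadingCoeff : A) : k)⁻¹, hb⟩
  let q : A'[X] := C c * Q₀.map ι
  have hq : q.Monic := by
    refine monic_C_mul_of_mul_leadingCoeff_eq_one ?_
    rw [leadingCoeff_map_of_injective hι]
    apply Subtype.ext
    show ((Q₀.leadingCoeff : A) : k)⁻¹ * ((Q₀.leadingCoeff : A) : k) = 1
    refine inv_mul_cancel₀ fun h1 => ?_
    exact (leadingCoeff_ne_zero.2 hQ₀) (Subtype.ext h1)
  refine ⟨q, hq, ?_, ?_⟩
  · refine Dvd.dvd.mul_left ?_ _
    show X ∣ (X * ∏ r ∈ T, Q r).map ι
    rw [Polynomial.map_mul, Polynomial.map_X]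
    exact dvd_mul_right _ _
  · intro r hr
    let R : A[X] := X * ∏ s ∈ T.erase r, Q s
    have hR : Q₀ = Q r * R := by
      show X * ∏ s ∈ T, Q s = Q r * (X * ∏ s ∈ T.erase r, Q s)
      rw [← Finset.mul_prod_erase T Q hr]
      ring
    have hinv : rq (algebraMap A' k) q hq (IsLocalization.Away.invSelf q) *
        pol (q.map (algebraMap A' k)) = 1 := by
      rw [← rq_alg _ q hq q, ← map_mul, mul_comm, IsLocalization.Away.mul_invSelf, map_one]
    refine ⟨algebraMap A'[X] (Localization.Away q) (C c * (P r * R).map ι) *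
      IsLocalization.Away.invSelf q, ?_⟩
    have h1 : r * pol (q.map (algebraMap A' k)) =
        pol ((C c * (P r * R).map ι).map (algebraMap A' k)) := by
      have h2 : q.map (algebraMap A' k) = (C c).map (algebraMap A' k) *
          ((Q r).map (algebraMap A k) * R.map (algebraMap A k)) := by
        show (C c * Q₀.map ι).map (algebraMap A' k) = _
        rw [Polynomial.map_mul, hR, spea_map hle, Polynomial.map_mul (p := Q r)]
      have h3 : (C c * (P r * R).map ι).map (algebraMap A' k) = (C c).map (algebraMap A' k) *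
          ((P r).map (algebraMap A k) * R.map (algebraMap A k)) := by
        rw [Polynomial.map_mul, spea_map hle, Polynomial.map_mul (p := P r)]
      have pm : ∀ u v : k[X], pol (u * v) = pol u * pol v := fun u v => map_mul _ u v
      rw [h2, h3, pm, pm, pm, pm, ← hPQ r hr]
      ring
    rw [map_mul, rq_alg, ← h1, mul_assoc, mul_comm (pol (q.map (algebraMap A' k))), hinv, mul_one]

private theorem spec_map {A : Subalgebra ℤ k} (j₀ : FractionRing A →+* k)
    (hj : ∀ x : A, j₀ (algebraMap A (FractionRing A) x) = (x : k)) (p : A[X]) :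
    p.map (algebraMap A k) = (p.map (algebraMap A (FractionRing A))).map j₀ := by
  rw [Polynomial.map_map]
  refine congrArg (fun g => p.map g) ?_
  ext x
  exact (hj x).symm

theorem fracA_sg {A : Subalgebra ℤ k} (j₀ : FractionRing A →+* k)
    (hj : ∀ x : A, j₀ (algebraMap A (FractionRing A) x) = (x : k))
    (r : RatFunc (FractionRing A)) : FracA A (sg j₀ r) := by
  have h0 : r * pol r.denom = pol r.num := by
    have h1 : pol r.denom ≠ 0 := by
      intro h
      have h2 := (map_eq_zero_iff _ (IsFractionRing.injective (FractionRing A)[X]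
        (RatFunc (FractionRing A)))).1 h
      exact r.denom_ne_zero h2
    have h3 : pol r.num / pol r.denom = r := RatFunc.num_div_denom r
    rw [div_eq_iff h1] at h3
    exact h3.symm
  obtain ⟨b, hb, h1⟩ := IsLocalization.integerNormalization_spec (nonZeroDivisors A) r.num
  obtain ⟨c, hc, h2⟩ := IsLocalization.integerNormalization_spec (nonZeroDivisors A) r.denom
  have hb0 : b ≠ 0 := nonZeroDivisors.ne_zero hb
  refine ⟨C c * IsLocalization.integerNormalization (nonZeroDivisors A) r.num,
    C b * IsLocalization.integerNormalization (nonZeroDivisors A) r.denom, ?_, ?_⟩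
  · refine mul_ne_zero (C_ne_zero.2 hb0) ?_
    intro h
    exact r.denom_ne_zero ((IsLocalization.integerNormalization_eq_zero_iff le_rfl
      r.denom).1 h)
  · rw [spec_map j₀ hj, spec_map j₀ hj, ← sg_pol, ← sg_pol, ← map_mul]
    refine congrArg (sg j₀) ?_
    rw [Polynomial.map_mul, Polynomial.map_mul, h1, h2, Polynomial.map_C, Polynomial.map_C]
    have h3 : ∀ (x : A) (p : (FractionRing A)[X]),
        x • p = C (algebraMap A (FractionRing A) x) * p := by
      intro x p
      rw [← Polynomial.smul_eq_C_mul, algebraMap_smul]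
    rw [h3, h3]
    simp only [pol, map_mul] at h0 ⊢
    rw [← h0]
    ring

theorem frac_mem {A : Subalgebra ℤ k} (j₀ : FractionRing A →+* k)
    (hj : ∀ x : A, j₀ (algebraMap A (FractionRing A) x) = (x : k)) (y : FractionRing A) :
    ∃ b : A, b ≠ 0 ∧ (b : k) * j₀ y ∈ A := by
  obtain ⟨n, d, hd, rfl⟩ := IsFractionRing.div_surjective (A := A) y
  have hd0 : d ≠ 0 := nonZeroDivisors.ne_zero hd
  have hdk : (d : k) ≠ 0 := by
    intro h
    exact hd0 (Subtype.ext h)
  refine ⟨d, hd0, ?_⟩
  rw [map_div₀, hj, hj, mul_div_cancel₀ _ hdk]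
  exact n.2

theorem exists_j₀ (A : Subalgebra ℤ k) : ∃ j₀ : FractionRing A →+* k,
    ∀ x : A, j₀ (algebraMap A (FractionRing A) x) = (x : k) := by
  have hg : Function.Injective (algebraMap A k) := fun _ _ h => Subtype.ext h
  exact ⟨IsFractionRing.lift hg, fun x => IsFractionRing.lift_algebraMap hg x⟩

theorem exists_Dk [CharZero k] (A : Subalgebra ℤ k) (δ : Derivation ℤ A A) :
    ∃ Dk : Derivation ℤ k k, ∀ x : A, Dk (x : k) = (δ x : A) := by
  obtain ⟨j₀, hj⟩ := exists_j₀ A
  obtain ⟨d, hd⟩ := ext_frac (R := A) (K := FractionRing A) δ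
  let _ : Algebra (FractionRing A) k := j₀.toAlgebra
  have hch : CharZero (FractionRing A) := j₀.charZero
  obtain ⟨Δ, hΔ⟩ := exists_extension (K := FractionRing A) (L := k) d
  refine ⟨Δ, fun x => ?_⟩
  have h1 : algebraMap (FractionRing A) k (algebraMap A (FractionRing A) x) = (x : k) := hj x
  have h2 := hΔ (algebraMap A (FractionRing A) x)
  rw [h1, hd] at h2
  rw [h2]
  exact hj (δ x)

theorem good_loc [CharZero k] {A : Subalgebra ℤ k} {m : ℕ} {D : Fin m → Derivation ℤ A A}
    (H : Good A D) (b : A) (hb : b ≠ 0) : ∃ (A' : Subalgebra ℤ k) (_ : A ≤ A')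
      (D' : Fin m → Derivation ℤ A' A'), (b : k)⁻¹ ∈ A' ∧ Good A' D' ∧
      ∀ l (x : A) (x' : A'), (x : k) = (x' : k) → ((D l x : A) : k) = ((D' l x' : A') : k) := by
  classical
  choose Dk hDk using fun l => exists_Dk A (D l)
  obtain ⟨S, hS⟩ := H.fg
  obtain ⟨A', hA'⟩ : ∃ A' : Subalgebra ℤ k,
      A' = Algebra.adjoin ℤ ((insert (b : k)⁻¹ S : Finset k) : Set k) := ⟨_, rfl⟩
  have hle : A ≤ A' := by
    rw [hA']
    refine hS.ge.trans (Algebra.adjoin_mono ?_)
    rw [Finset.coe_insert]
    exact Set.subset_insert _ _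
  have hbi : (b : k)⁻¹ ∈ A' := by
    rw [hA']
    refine Algebra.subset_adjoin ?_
    rw [Finset.coe_insert]
    exact Set.mem_insert _ _
  have hSA : ∀ x ∈ S, x ∈ A := by
    intro x hx
    rw [← hS]
    exact Algebra.subset_adjoin hx
  have hstab : ∀ l, ∀ x ∈ A', Dk l x ∈ A' := by
    intro l x hx
    rw [hA'] at hx
    induction hx using Algebra.adjoin_induction with
    | mem x hx =>
      rw [Finset.mem_coe] at hx
      rcases Finset.mem_insert.1 hx with rfl | hx
      · rw [Derivation.leibniz_inv, smul_eq_mul, hDk l b]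
        exact mul_mem (neg_mem (pow_mem hbi 2)) (hle (D l b).2)
      · have h1 := hDk l ⟨x, hSA x hx⟩
        change Dk l x = _ at h1
        rw [h1]
        exact hle (D l _).2
    | algebraMap r =>
      rw [Derivation.map_algebraMap]
      exact zero_mem _
    | add x y hx hy h1 h2 =>
      rw [map_add]
      exact add_mem h1 h2
    | mul x y hx hy h1 h2 =>
      have hx' : x ∈ A' := by
        rw [hA']
        exact hx
      have hy' : y ∈ A' := by
        rw [hA']
        exact hy
      rw [Derivation.leibniz, smul_eq_mul, smul_eq_mul]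
      exact add_mem (mul_mem hx' h2) (mul_mem hy' h1)
  choose D' hD' using fun l => exists_restrict A' (Dk l) (hstab l)
  refine ⟨A', hle, D', hbi, ⟨⟨insert (b : k)⁻¹ S, hA'.symm⟩, ?_⟩, ?_⟩
  · intro Δ
    obtain ⟨a, ha⟩ := H.der Δ
    have ha' : ∀ x ∈ A, Δ x = ∑ l, a l * Dk l x := by
      intro x hx
      have h1 := ha ⟨x, hx⟩
      change Δ x = _ at h1
      rw [h1]
      refine Finset.sum_congr rfl fun l _ => ?_
      have h2 := hDk l ⟨x, hx⟩
      change Dk l x = _ at h2
      rw [h2]
    have hall : ∀ x ∈ A', Δ x = ∑ l, a l * Dk l x := by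
      intro x hx
      rw [hA'] at hx
      induction hx using Algebra.adjoin_induction with
      | mem x hx =>
        rw [Finset.mem_coe] at hx
        rcases Finset.mem_insert.1 hx with rfl | hx
        · rw [Derivation.leibniz_inv, smul_eq_mul, ha' b b.2, Finset.mul_sum]
          refine Finset.sum_congr rfl fun l _ => ?_
          rw [Derivation.leibniz_inv, smul_eq_mul]
          ring
        · exact ha' x (hSA x hx)
      | algebraMap r =>
        rw [Derivation.map_algebraMap, Finset.sum_eq_zero]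
        intro l _
        rw [Derivation.map_algebraMap, mul_zero]
      | add x y hx hy h1 h2 =>
        rw [map_add, h1, h2, ← Finset.sum_add_distrib]
        refine Finset.sum_congr rfl fun l _ => ?_
        rw [map_add, mul_add]
      | mul x y hx hy h1 h2 =>
        rw [Derivation.leibniz, smul_eq_mul, smul_eq_mul, h1, h2, Finset.mul_sum, Finset.mul_sum,
          ← Finset.sum_add_distrib]
        refine Finset.sum_congr rfl fun l _ => ?_
        rw [Derivation.leibniz, smul_eq_mul, smul_eq_mul]
        ring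
    refine ⟨a, fun x => ?_⟩
    rw [hall x x.2]
    refine Finset.sum_congr rfl fun l _ => ?_
    rw [hD']
  · intro l x x' h
    rw [hD' l x', ← h, hDk l x]

end MPadcCM
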