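import Pool.Agent.Lib.MP_adc574_ag_CM.LatA

/-!
# SpR: the ring `A[x][1/q]`

`A` a commutative ring, `q ∈ A[x]` monic, `R = Localization.Away q`, `rq ψ q hq : R → κ(x)` the homomorphism induced by `ψ : A → κ` (`fp ψ : A[x] → κ(x)`, `fp ψ p = pol (p.map ψ)` by `rfl`).
* JOB SpRA: - `fp_unit`: `q.map ψ` is monic, so not zero. `rq_alg`: `IsLocalization.Away.lift_eq`. `rq_frac`: `IsLocalization.Away.surj`-type (`∃ n a, r * algebraMap q ^ n = algebraMap a`), so `(fp ψ q) ^ N * rq ψ q hq r = fp ψ p` for all `ψ` (apply `rq ψ`).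
  - `rq_inj`: `fp ψ` is injective (`fp_injective`), `q` is not a zero divisor (monic); from `rq_frac`.
  - `rq_pol`: `(q.map ψ₀) ^ N * P = p.map ψ₀` with `P : k[X]`. `q ^ N` is monic: `p %ₘ q ^ N` has image `(p.map ψ₀) %ₘ (q.map ψ₀) ^ N = 0` (`Polynomial.map_modByMonic`), so `p = q ^ N * p'` (`ψ₀` injective) and `r = algebraMap p'`.
  - `rq_dle`: `rq_frac`: `Dle (fp ψ₀ p) (m + N * natDegree q)` (`dle_mul`, degree of the monic `q.map`), so `p = 0` or `natDegree p ≤ m + N * natDegree q` (`ψ₀` injective: `natDegree_map_eq_of_injective`), hence the same for `p.map ψ` (`natDegree_map_le`), and divide by `(fp ψ q) ^ N`, whose degree is exactly `N * natDegree q` (`RatFunc.intDegree_mul`, ..).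
  - `rq_der`: `r = p / q ^ N`; `r' := (F p * q ^ N - p * F (q ^ N)) / q ^ (2 N)` (`IsLocalization.mk'` or multiply by the inverse of the unit `algebraMap q`); `Δ (fp ψ p) = Δ ((fp ψ q ^ N) * rq r)`, Leibniz.
  - `exists_xinv`: `q = X * q'`: `r = algebraMap q' * (algebraMap q)⁻¹`.
-/

set_option autoImplicit false

namespace MPadcCM

open Polynomial MPadcCov

universe u

variable {A : Type u} [CommRing A] {k κ : Type u} [Field k] [Field κ]

theorem fp_unit (ψ : A →+* κ) (q : A[X]) (hq : q.Monic) : IsUnit (fp ψ q) := by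
  rw [fp_apply, isUnit_iff_ne_zero, Ne, pol, map_eq_zero_iff _ pol_injective]
  exact (hq.map ψ).ne_zero

/-- The homomorphism `A[x][1/q] → κ(x)`. -/
noncomputable def rq (ψ : A →+* κ) (q : A[X]) (hq : q.Monic) : Localization.Away q →+* RatFunc κ :=
  IsLocalization.Away.lift q (fp_unit ψ q hq)

theorem rq_alg (ψ : A →+* κ) (q : A[X]) (hq : q.Monic) (p : A[X]) :
    rq ψ q hq (algebraMap A[X] (Localization.Away q) p) = pol (p.map ψ) := by
  exact IsLocalization.Away.lift_eq q (fp_unit ψ q hq) p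

theorem rq_frac (q : A[X]) (hq : q.Monic) (r : Localization.Away q) : ∃ (N : ℕ) (p : A[X]),
    algebraMap A[X] (Localization.Away q) (q ^ N) * r = algebraMap A[X] (Localization.Away q) p := by
  obtain ⟨N, p, h⟩ := IsLocalization.Away.surj q r
  exact ⟨N, p, by rw [map_pow, mul_comm, h]⟩

theorem rq_inj (ψ : A →+* κ) (hψ : Function.Injective ψ) (q : A[X]) (hq : q.Monic) :
    Function.Injective (rq ψ q hq) := by
  rw [injective_iff_map_eq_zero]
  intro r hr
  obtain ⟨N, p, h⟩ := rq_frac q hq r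
  have h1 := congrArg (rq ψ q hq) h
  rw [map_mul, hr, mul_zero, rq_alg] at h1
  have h2 : p = 0 := (injective_iff_map_eq_zero (fp ψ)).1 (fp_injective ψ hψ) p h1.symm
  rw [h2, map_zero, map_pow] at h
  exact ((IsLocalization.Away.algebraMap_isUnit q).pow N).mul_right_eq_zero.1 h

theorem rq_pol (ψ₀ : A →+* k) (hψ : Function.Injective ψ₀) (q : A[X]) (hq : q.Monic)
    (r : Localization.Away q) (h : IsPol (rq ψ₀ q hq r)) :
    ∃ p : A[X], r = algebraMap A[X] (Localization.Away q) p := by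
  obtain ⟨N, p, hp⟩ := rq_frac q hq r
  obtain ⟨P, hP⟩ := h
  have h1 := congrArg (rq ψ₀ q hq) hp
  rw [map_mul, rq_alg, rq_alg, ← hP] at h1
  have h2 : (q ^ N).map ψ₀ * P = p.map ψ₀ := by
    apply IsFractionRing.injective k[X] (RatFunc k)
    rw [map_mul]
    exact h1
  have hqN : (q ^ N).Monic := hq.pow N
  have h3 : p %ₘ (q ^ N) = 0 := by
    apply Polynomial.map_injective ψ₀ hψ
    rw [Polynomial.map_modByMonic ψ₀ hqN, Polynomial.map_zero, ← h2]
    rw [Polynomial.modByMonic_eq_zero_iff_dvd (hqN.map ψ₀)]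
    exact Dvd.intro _ rfl
  have h4 : p = q ^ N * (p /ₘ (q ^ N)) := by
    conv_lhs => rw [← Polynomial.modByMonic_add_div p (q ^ N), h3, zero_add]
  refine ⟨p /ₘ (q ^ N), ?_⟩
  have hu : IsUnit (algebraMap A[X] (Localization.Away q) (q ^ N)) := by
    rw [map_pow]
    exact (IsLocalization.Away.algebraMap_isUnit q).pow N
  apply hu.mul_left_cancel
  rw [hp, ← map_mul, ← h4]

private theorem sprb_deg (ψ : A →+* κ) (q : A[X]) (hq : q.Monic) (p : A[X]) (r : RatFunc κ)
    (hr : r ≠ 0) (h : pol (q.map ψ) * r = pol (p.map ψ)) :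
    (q.natDegree : ℤ) + r.intDegree = (p.map ψ).natDegree := by
  have h1 : pol (q.map ψ) ≠ 0 := by
    intro h0
    exact (hq.map ψ).ne_zero (IsFractionRing.injective κ[X] (RatFunc κ) (by rw [map_zero]; exact h0))
  have h2 := RatFunc.intDegree_mul h1 hr
  rw [h, RatFunc.intDegree_polynomial, RatFunc.intDegree_polynomial, hq.natDegree_map] at h2
  exact h2.symm

theorem rq_dle (ψ₀ : A →+* k) (hψ : Function.Injective ψ₀) (ψ : A →+* κ) (q : A[X])
    (hq : q.Monic) (r : Localization.Away q) (m : ℤ) (h : Dle (rq ψ₀ q hq r) m) :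
    Dle (rq ψ q hq r) m := by
  rcases h with h | h
  · left
    have h1 : r = 0 := by
      apply rq_inj ψ₀ hψ q hq
      rw [h, map_zero]
    rw [h1, map_zero]
  · by_cases h0 : rq ψ₀ q hq r = 0
    · left
      have h1 : r = 0 := by
        apply rq_inj ψ₀ hψ q hq
        rw [h0, map_zero]
      rw [h1, map_zero]
    by_cases h0' : rq ψ q hq r = 0
    · exact Or.inl h0'
    right
    obtain ⟨N, p, hp⟩ := rq_frac q hq r
    have h1 := congrArg (rq ψ₀ q hq) hp
    have h2 := congrArg (rq ψ q hq) hp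
    rw [map_mul, rq_alg, rq_alg] at h1 h2
    have hqN : (q ^ N).Monic := hq.pow N
    have e1 := sprb_deg ψ₀ (q ^ N) hqN p _ h0 h1
    have e2 := sprb_deg ψ (q ^ N) hqN p _ h0' h2
    have e3 : (p.map ψ₀).natDegree = p.natDegree := natDegree_map_eq_of_injective hψ p
    have e4 : (p.map ψ).natDegree ≤ p.natDegree := natDegree_map_le
    omega

private theorem sprb_der (ψ : A →+* κ) (q : A[X]) (hq : q.Monic)
    (Δ : Derivation ℤ (RatFunc κ) (RatFunc κ)) (F : A[X] → A[X])
    (h : ∀ p, Δ (pol (p.map ψ)) = pol ((F p).map ψ)) (r r' : Localization.Away q) (Q p : A[X])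
    (hQ : Q.Monic)
    (hp : algebraMap A[X] (Localization.Away q) Q * r = algebraMap A[X] (Localization.Away q) p)
    (hr' : algebraMap A[X] (Localization.Away q) (Q * Q) * r' =
      algebraMap A[X] (Localization.Away q) (F p * Q - p * F Q)) :
    Δ (rq ψ q hq r) = rq ψ q hq r' := by
  have h1 := congrArg (rq ψ q hq) hp
  have h2 := congrArg (rq ψ q hq) hr'
  rw [map_mul, rq_alg, rq_alg] at h1 h2
  rw [Polynomial.map_mul, Polynomial.map_sub, Polynomial.map_mul, Polynomial.map_mul] at h2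
  have hne : pol (Q.map ψ) ≠ 0 := by
    intro h0
    exact (hQ.map ψ).ne_zero (IsFractionRing.injective κ[X] (RatFunc κ) (by rw [map_zero]; exact h0))
  have h3 := congrArg Δ h1
  rw [Derivation.leibniz, h, h, smul_eq_mul, smul_eq_mul] at h3
  have h4 : pol (Q.map ψ * Q.map ψ) = pol (Q.map ψ) * pol (Q.map ψ) := map_mul _ _ _
  have h5 : pol ((F p).map ψ * Q.map ψ - p.map ψ * (F Q).map ψ) =
      pol ((F p).map ψ) * pol (Q.map ψ) - pol (p.map ψ) * pol ((F Q).map ψ) := by
    rw [pol, map_sub, map_mul, map_mul]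
  rw [h4, h5] at h2
  apply mul_left_cancel₀ (mul_ne_zero hne hne)
  rw [h2, ← h3, ← h1]
  ring

theorem rq_der (ψ₀ : A →+* k) (ψ : A →+* κ) (q : A[X]) (hq : q.Monic)
    (Δ₀ : Derivation ℤ (RatFunc k) (RatFunc k)) (Δ : Derivation ℤ (RatFunc κ) (RatFunc κ))
    (F : A[X] → A[X]) (h₀ : ∀ p, Δ₀ (pol (p.map ψ₀)) = pol ((F p).map ψ₀))
    (h : ∀ p, Δ (pol (p.map ψ)) = pol ((F p).map ψ)) (r : Localization.Away q) :
    ∃ r' : Localization.Away q, Δ₀ (rq ψ₀ q hq r) = rq ψ₀ q hq r' ∧
      Δ (rq ψ q hq r) = rq ψ q hq r' := by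
  obtain ⟨N, p, hp⟩ := rq_frac q hq r
  have hu : IsUnit (algebraMap A[X] (Localization.Away q) (q ^ N * q ^ N)) := by
    rw [map_mul, map_pow]
    exact ((IsLocalization.Away.algebraMap_isUnit q).pow N).mul
      ((IsLocalization.Away.algebraMap_isUnit q).pow N)
  obtain ⟨v, hv⟩ := hu.exists_right_inv
  have hr' : algebraMap A[X] (Localization.Away q) (q ^ N * q ^ N) *
      (v * algebraMap A[X] (Localization.Away q) (F p * q ^ N - p * F (q ^ N))) =
      algebraMap A[X] (Localization.Away q) (F p * q ^ N - p * F (q ^ N)) := by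
    rw [← mul_assoc, hv, one_mul]
  exact ⟨_, sprb_der ψ₀ q hq Δ₀ F h₀ r _ (q ^ N) p (hq.pow N) hp hr',
    sprb_der ψ q hq Δ F h r _ (q ^ N) p (hq.pow N) hp hr'⟩

theorem exists_xinv (q : A[X]) (hq : q.Monic) (hX : X ∣ q) : ∃ r : Localization.Away q,
    ∀ {κ : Type u} [Field κ] (ψ : A →+* κ), rq ψ q hq r = RatFunc.X⁻¹ := by
  obtain ⟨q', hq'⟩ := hX
  have hu : IsUnit (algebraMap A[X] (Localization.Away q) q) :=
    IsLocalization.Away.algebraMap_isUnit q
  obtain ⟨v, hv⟩ := hu.exists_right_inv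
  refine ⟨algebraMap A[X] (Localization.Away q) q' * v, fun ψ => ?_⟩
  have h1 : algebraMap A[X] (Localization.Away q) q' * v *
      algebraMap A[X] (Localization.Away q) X = 1 := by
    rw [← hv]
    have h2 : algebraMap A[X] (Localization.Away q) q =
        algebraMap A[X] (Localization.Away q) X * algebraMap A[X] (Localization.Away q) q' := by
      rw [← map_mul, ← hq']
    rw [h2]
    ring
  have h3 := congrArg (rq ψ q hq) h1
  rw [map_mul, map_one, rq_alg, Polynomial.map_X, pol, RatFunc.algebraMap_X] at h3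
  exact eq_inv_of_mul_eq_one_left h3

end MPadcCM
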